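import Pool.Agent.H.MP_929345_co.Pl.Hs

/-! A3a: chords -/

set_option autoImplicit false

open MeasureTheory Set
open scoped Pointwise

namespace Pool.Agent.H.MP_929345_co.Pl

variable {C : Set V}

lemma TS.mono {X Y : Set V} (h : TS C X) (hY : Y ⊆ X) : TS C Y := by
  intro x hx y hy hne
  obtain ⟨f, t, h0, h1, h2, h3⟩ := h x (hY hx) y (hY hy) hne
  exact ⟨f, t, h0, h1, h2, fun z hz => h3 z (hY hz)⟩

lemma exists_vec (F : V →L[ℝ] ℝ) : ∃ a : V, ∀ x, ev a x = F x := by
  refine ⟨![F (Pi.single 0 1), F (Pi.single 1 1)], ?_⟩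
  intro x
  have hx : x = x 0 • (Pi.single 0 1 : V) + x 1 • (Pi.single 1 1 : V) := by
    ext i; fin_cases i <;> simp
  conv_rhs => rw [hx]
  rw [map_add, map_smul, map_smul]
  simp [ev]; ring

/-- A supporting functional at a point which is not interior. -/
lemma exists_support {W : Set V} (hWc : Convex ℝ W) (hint : (interior W).Nonempty)
    {p : V} (hp : p ∉ interior W) : ∃ a : V, a ≠ 0 ∧ ∀ w ∈ W, ev a w ≤ ev a p := by
  obtain ⟨F, hF⟩ := geometric_hahn_banach_open_point hWc.interior isOpen_interior hp
  obtain ⟨a, ha⟩ := exists_vec F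
  obtain ⟨m, hm⟩ := hint
  refine ⟨a, ?_, ?_⟩
  · rintro rfl
    have := hF m hm
    rw [← ha, ← ha, ev_zero_left, ev_zero_left] at this
    exact lt_irrefl _ this
  · intro w hw
    have hcl : w ∈ closure (interior W) := by
      rw [hWc.closure_interior_eq_closure_of_nonempty_interior ⟨m, hm⟩]
      exact subset_closure hw
    have hclosed : IsClosed {w : V | ev a w ≤ ev a p} :=
      isClosed_le (continuous_ev a) continuous_const
    have hsub : interior W ⊆ {w : V | ev a w ≤ ev a p} := by
      intro y hy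
      have := hF y hy
      rw [← ha, ← ha] at this
      exact this.le
    exact closure_minimal hsub hclosed hcl

/-- Job A3a.  A line which has points of the compact convex set `W` strictly on both sides cuts
`W` in a chord `[p,q]`, `p ≠ q`, and at `p`, `q` there are supporting functionals independent of
`f`. -/
theorem chord_support {W : Set V} (hW : IsCompact W) (hWc : Convex ℝ W)
    {f : V} (hf : f ≠ 0) {t : ℝ}
    (h1 : ∃ w ∈ interior W, ev f w < t) (h2 : ∃ w ∈ interior W, t < ev f w) :
    ∃ p q a b : V, p ≠ q ∧ p ∈ W ∧ q ∈ W ∧ ev f p = t ∧ ev f q = t ∧ cr a f ≠ 0 ∧ cr b f ≠ 0 ∧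
      (∀ w ∈ W, ev a w ≤ ev a p) ∧ (∀ w ∈ W, ev b w ≤ ev b q) := by
  obtain ⟨w1, hw1, hw1t⟩ := h1
  obtain ⟨w2, hw2, hw2t⟩ := h2
  -- an interior point of the chord
  have hm : ∃ m ∈ interior W, ev f m = t := by
    set lam : ℝ := (ev f w2 - t) / (ev f w2 - ev f w1) with hlam
    have hden : 0 < ev f w2 - ev f w1 := by linarith
    have hl0 : 0 ≤ lam := div_nonneg (by linarith) hden.le
    have hl1 : lam ≤ 1 := by rw [hlam, div_le_one hden]; linarith
    refine ⟨lam • w1 + (1 - lam) • w2, hWc.interior hw1 hw2 hl0 (by linarith) (by ring), ?_⟩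
    rw [ev_add, ev_smul, ev_smul]
    have : lam * (ev f w2 - ev f w1) = ev f w2 - t := by
      rw [hlam]; field_simp
    linarith
  obtain ⟨m, hm, hmt⟩ := hm
  have hmW : m ∈ W := interior_subset hm
  obtain ⟨r, hr, hball⟩ := Metric.isOpen_iff.1 isOpen_interior m hm
  have hd0 : pp f ≠ 0 := by
    intro h
    apply hf
    have e0 := congrFun h 0
    have e1 := congrFun h 1
    simp [pp] at e0 e1
    ext i; fin_cases i
    · exact e1
    · exact e0
  have hfd : ev f (pp f) = 0 := by simp [ev, pp]; ring
  have hdd : 0 < ev (pp f) (pp f) := by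
    have : pp f 0 ≠ 0 ∨ pp f 1 ≠ 0 := by
      by_contra hcon
      push Not at hcon
      apply hd0
      ext i; fin_cases i
      · exact hcon.1
      · exact hcon.2
    unfold ev
    rcases this with h0 | h0
    · have := mul_self_pos.2 h0; nlinarith [mul_self_nonneg (pp f 1)]
    · have := mul_self_pos.2 h0; nlinarith [mul_self_nonneg (pp f 0)]
  -- the chord
  have hchc : IsCompact (W ∩ {x | ev f x = t}) :=
    hW.inter_right (isClosed_eq (continuous_ev f) continuous_const)
  have hchn : (W ∩ {x | ev f x = t}).Nonempty := ⟨m, hmW, hmt⟩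
  obtain ⟨p, hp, hpmin⟩ := hchc.exists_isMinOn hchn (continuous_ev (pp f)).continuousOn
  obtain ⟨q, hq, hqmax⟩ := hchc.exists_isMaxOn hchn (continuous_ev (pp f)).continuousOn
  -- a small step from an interior point along the chord stays inside
  have step : ∀ x ∈ interior W, ∃ e > (0 : ℝ), x + e • pp f ∈ W ∧ x - e • pp f ∈ W := by
    intro x hx
    obtain ⟨r, hr, hball⟩ := Metric.isOpen_iff.1 isOpen_interior x hx
    have hn : 0 < ‖pp f‖ := norm_pos_iff.2 hd0
    refine ⟨r / (2 * ‖pp f‖), by positivity, ?_, ?_⟩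
    · apply interior_subset
      apply hball
      rw [Metric.mem_ball, dist_eq_norm, add_sub_cancel_left, norm_smul, Real.norm_eq_abs,
        abs_of_pos (by positivity)]
      have : r / (2 * ‖pp f‖) * ‖pp f‖ = r / 2 := by field_simp
      rw [this]; linarith
    · apply interior_subset
      apply hball
      rw [Metric.mem_ball, dist_eq_norm, sub_sub_cancel_left, norm_neg, norm_smul,
        Real.norm_eq_abs, abs_of_pos (by positivity)]
      have : r / (2 * ‖pp f‖) * ‖pp f‖ = r / 2 := by field_simp
      rw [this]; linarith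
  have onl : ∀ (x : V) (e : ℝ), ev f x = t → ev f (x + e • pp f) = t := by
    intro x e hx
    rw [ev_add, ev_smul, hfd, hx]; ring
  have onl' : ∀ (x : V) (e : ℝ), ev f x = t → ev f (x - e • pp f) = t := by
    intro x e hx
    rw [ev_sub, ev_smul, hfd, hx]; ring
  have hpi : p ∉ interior W := by
    intro hpi
    obtain ⟨e, he, _, h4⟩ := step p hpi
    have := hpmin (a := p - e • pp f) ⟨h4, onl' p e hp.2⟩
    simp only [mem_setOf_eq] at this
    rw [ev_sub, ev_smul] at this
    have : 0 < e * ev (pp f) (pp f) := by positivity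
    linarith
  have hqi : q ∉ interior W := by
    intro hqi
    obtain ⟨e, he, h3, _⟩ := step q hqi
    have := hqmax (a := q + e • pp f) ⟨h3, onl q e hq.2⟩
    simp only [mem_setOf_eq] at this
    rw [ev_add, ev_smul] at this
    have : 0 < e * ev (pp f) (pp f) := by positivity
    linarith
  have hpq : p ≠ q := by
    intro hpq
    obtain ⟨e, he, h3, h4⟩ := step m hm
    have k1 := hqmax (a := m + e • pp f) ⟨h3, onl m e hmt⟩
    have k2 := hpmin (a := m - e • pp f) ⟨h4, onl' m e hmt⟩
    simp only [mem_setOf_eq] at k1 k2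
    rw [ev_add, ev_smul] at k1
    rw [ev_sub, ev_smul] at k2
    rw [hpq] at k2
    have : 0 < e * ev (pp f) (pp f) := by positivity
    linarith
  obtain ⟨a, ha0, ha⟩ := exists_support hWc ⟨m, hm⟩ hpi
  obtain ⟨b, hb0, hb⟩ := exists_support hWc ⟨m, hm⟩ hqi
  -- independence
  have indep : ∀ (a x : V), a ≠ 0 → ev f x = t → (∀ w ∈ W, ev a w ≤ ev a x) → cr a f ≠ 0 := by
    intro a x ha0 hx ha hcr
    -- a is a multiple of f
    have hff : 0 < ev f f := by
      have : f 0 ≠ 0 ∨ f 1 ≠ 0 := by
        by_contra hcon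
        push Not at hcon
        apply hf
        ext i; fin_cases i
        · exact hcon.1
        · exact hcon.2
      unfold ev
      rcases this with h0 | h0
      · have := mul_self_pos.2 h0; nlinarith [mul_self_nonneg (f 1)]
      · have := mul_self_pos.2 h0; nlinarith [mul_self_nonneg (f 0)]
    have hpar : ev f f • a = ev a f • f := by
      simp only [cr] at hcr
      ext i; fin_cases i
      · simp [ev]; linear_combination (f 1) * hcr
      · simp [ev]; linear_combination -(f 0) * hcr
    have hval : ∀ y, ev f f * ev a y = ev a f * ev f y := by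
      intro y
      rw [← ev_smul_left, hpar, ev_smul_left]
    have hne : ev a f ≠ 0 := by
      intro h0
      rw [h0, zero_smul] at hpar
      rcases smul_eq_zero.1 hpar with h | h
      · exact hff.ne' h
      · exact ha0 h
    have k1 := ha w1 (interior_subset hw1)
    have k2 := ha w2 (interior_subset hw2)
    have k1' := mul_le_mul_of_nonneg_left k1 hff.le
    have k2' := mul_le_mul_of_nonneg_left k2 hff.le
    rw [hval, hval, hx] at k1' k2'
    rcases lt_or_gt_of_ne hne with hlt | hgt
    · nlinarith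
    · nlinarith
  exact ⟨p, q, a, b, hpq, hp.1, hq.1, hp.2, hq.2, indep a p ha0 hp.2 ha, indep b q hb0 hq.2 hb,
    ha, hb⟩

end Pool.Agent.H.MP_929345_co.Pl
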