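import Pool.Agent.H.MP_929345_co.Pl.CyA
import Pool.Agent.H.MP_929345_co.Pl.OlA

/-! Cylinders: planar sections of a packing of cylinders. -/

set_option autoImplicit false

open MeasureTheory Set Filter
open scoped Topology ENNReal

namespace Pool.Agent.H.MP_929345_co.Pl

variable {d n : ℕ} (A : (Fin d → ℝ) ≃L[ℝ] V × (Fin n → ℝ)) {K : Set V}

/-- The planar section, at height `t`, of the family `s + Cyl A K`, `s ∈ S`. -/
def Sec (S : Set (Fin d → ℝ)) (t : Fin n → ℝ) : Set V :=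
  {x | ∃ s ∈ S, (A s).1 = x ∧ ∀ i, |(A s).2 i - t i| < 1}

lemma dich {C : Set (Fin d → ℝ)} (hC : IsBody C) (f : (Fin d → ℝ) →L[ℝ] ℝ) (s : Fin d → ℝ)
    (τ : ℝ) (h : ∀ w ∈ interior C, f (s + w) ≠ τ) :
    (∀ w ∈ C, f (s + w) ≤ τ) ∨ (∀ w ∈ C, τ ≤ f (s + w)) := by
  by_contra hcon
  push Not at hcon
  obtain ⟨⟨w1, hw1, h1⟩, ⟨w2, hw2, h2⟩⟩ := hcon
  have hcl : C ⊆ closure (interior C) := by
    rw [hC.convex.closure_interior_eq_closure_of_nonempty_interior hC.nonempty]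
    exact subset_closure
  have hcont : Continuous fun w => f (s + w) := f.continuous.comp (continuous_const.add continuous_id)
  obtain ⟨u1, hu1, hu1'⟩ := mem_closure_iff.1 (hcl hw1) {w | τ < f (s + w)}
    (isOpen_lt continuous_const hcont) h1
  obtain ⟨u2, hu2, hu2'⟩ := mem_closure_iff.1 (hcl hw2) {w | f (s + w) < τ}
    (isOpen_lt hcont continuous_const) h2
  simp only [mem_setOf_eq] at hu1 hu2
  set lam : ℝ := (f (s + u1) - τ) / (f (s + u1) - f (s + u2)) with hlam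
  have hden : 0 < f (s + u1) - f (s + u2) := by linarith
  have hl0 : 0 ≤ lam := div_nonneg (by linarith) hden.le
  have hl1 : lam ≤ 1 := by rw [hlam, div_le_one hden]; linarith
  refine h ((1 - lam) • u1 + lam • u2)
    (hC.convex.interior hu1' hu2' (by linarith) hl0 (by ring)) ?_
  have e : s + ((1 - lam) • u1 + lam • u2) = (1 - lam) • (s + u1) + lam • (s + u2) := by
    ext i; simp; ring
  rw [e, map_add, map_smul, map_smul, smul_eq_mul, smul_eq_mul]
  have : lam * (f (s + u1) - f (s + u2)) = f (s + u1) - τ := by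
    rw [hlam]; field_simp
  linarith

/-- Points of the cylinder over a point of the base. -/
lemma mem_cyl_of {k : V} (hk : k ∈ K) {y : Fin n → ℝ} (hy : ∀ i, |y i| ≤ 1) :
    A.symm (k, y) ∈ Cyl A K := by
  refine ⟨?_, ?_⟩
  · simpa using hk
  · simpa using hy

lemma mem_interior_cyl {k : V} (hk : k ∈ interior K) {y : Fin n → ℝ} (hy : ∀ i, |y i| < 1) :
    A.symm (k, y) ∈ interior (Cyl A K) := by
  have hop : IsOpen {y : Fin n → ℝ | ∀ i, |y i| < 1} := by
    have : {y : Fin n → ℝ | ∀ i, |y i| < 1} = ⋂ i, {y | |y i| < 1} := by ext y; simp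
    rw [this]
    exact isOpen_iInter_of_finite fun i => isOpen_lt (continuous_apply i).abs continuous_const
  have hopen : IsOpen (A ⁻¹' (interior K ×ˢ {y : Fin n → ℝ | ∀ i, |y i| < 1})) :=
    (isOpen_interior.prod hop).preimage A.continuous
  have hsub : A ⁻¹' (interior K ×ˢ {y : Fin n → ℝ | ∀ i, |y i| < 1}) ⊆ Cyl A K := by
    intro x hx
    exact ⟨interior_subset hx.1, fun i => (hx.2 i).le⟩
  apply interior_maximal hsub hopen
  simp only [mem_preimage, ContinuousLinearEquiv.apply_symm_apply, mem_prod]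
  exact ⟨hk, hy⟩

/-- Two members which meet the same section are separated in the section. -/
theorem sec_gauge (hK : IsBody K) {S : Set (Fin d → ℝ)} (hS : IsPacking (Cyl A K) S)
    {t : Fin n → ℝ} {s s' : Fin d → ℝ} (hs : s ∈ S) (hs' : s' ∈ S) (hne : s ≠ s')
    (h : ∀ i, |(A s).2 i - t i| < 1) (h' : ∀ i, |(A s').2 i - t i| < 1) :
    2 ≤ gauge K ((A s).1 - (A s').1) := by
  by_contra hcon
  push Not at hcon
  have hp := hS s hs s' hs' hne
  set u : V := (A s).1 - (A s').1 with hu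
  set y : Fin n → ℝ := (A s).2 - (A s').2 with hy
  have hy2 : ‖y‖ < 2 := by
    rw [pi_norm_lt_iff (by norm_num)]
    intro i
    rw [Real.norm_eq_abs, hy, Pi.sub_apply]
    have e : (A s).2 i - (A s').2 i = ((A s).2 i - t i) - ((A s').2 i - t i) := by ring
    rw [e]
    refine lt_of_le_of_lt (abs_sub _ _) ?_
    linarith [h i, h' i]
  set r : ℝ := max (max (gauge K u) ‖y‖) 1 with hr
  have hr0 : 0 < r := lt_of_lt_of_le one_pos (le_max_right _ _)
  have hr2 : r < 2 := max_lt (max_lt hcon hy2) (by norm_num)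
  have hr1 : gauge K u ≤ r := (le_max_left _ _).trans (le_max_left _ _)
  have hr3 : ‖y‖ ≤ r := (le_max_right _ _).trans (le_max_left _ _)
  have hmem : r⁻¹ • (s - s') ∈ Cyl A K := by
    refine ⟨?_, ?_⟩
    · have e : (A (r⁻¹ • (s - s'))).1 = r⁻¹ • u := by
        rw [map_smul, map_sub]; rfl
      rw [e]
      apply hK.gauge_le_one_iff.1
      rw [gauge_smul_of_nonneg (by positivity), smul_eq_mul, inv_mul_le_iff₀ hr0, mul_one]
      exact hr1
    · intro i
      have e : (A (r⁻¹ • (s - s'))).2 i = r⁻¹ * y i := by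
        rw [map_smul, map_sub]; rfl
      rw [e, abs_mul, abs_of_pos (by positivity), inv_mul_le_iff₀ hr0, mul_one]
      have := norm_le_pi_norm y i
      rw [Real.norm_eq_abs] at this
      linarith
  have hle : gauge (Cyl A K) (s - s') ≤ r := by
    apply gauge_le_of_mem hr0.le
    refine ⟨r⁻¹ • (s - s'), hmem, ?_⟩
    simp only [smul_smul, mul_inv_cancel₀ hr0.ne', one_smul]
  linarith

theorem sec_packing (hK : IsBody K) {S : Set (Fin d → ℝ)} (hS : IsPacking (Cyl A K) S)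
    (t : Fin n → ℝ) : IsPacking K (Sec A S t) := by
  rintro x ⟨s, hs, rfl, h⟩ y ⟨s', hs', rfl, h'⟩ hne
  exact sec_gauge A hK hS hs hs' (fun e => hne (by rw [e])) h h'

/-- Members close to `c` are inside the enlarged copy. -/
theorem mem_cluster (hK : IsBody K) (D : ℝ) : ∃ ρ0 : ℝ, 1 ≤ ρ0 ∧ ∀ ρ ≥ ρ0, ∀ s c : Fin d → ℝ,
    ‖A s - A c‖ ≤ D → ∀ w ∈ Cyl A K, ∃ v ∈ Cyl A K, s + w = c + ρ • v := by
  obtain ⟨r, hr, hrK⟩ := exists_ball hK
  obtain ⟨W, hW, hWK⟩ := exists_radius hK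
  set r' : ℝ := min r 1 with hr'
  have hr'0 : 0 < r' := lt_min hr one_pos
  refine ⟨max 1 ((|D| + (W + 1)) / r'), le_max_left _ _, ?_⟩
  intro ρ hρ s c hsc w hw
  have hρ1 : 1 ≤ ρ := (le_max_left _ _).trans hρ
  have hρ0 : 0 < ρ := by linarith
  have hρ2 : (|D| + (W + 1)) / r' ≤ ρ := (le_max_right _ _).trans hρ
  have hAw : ‖A w‖ ≤ W + 1 := by
    rw [Prod.norm_def]
    apply max_le
    · have : ‖(A w).1‖ ≤ W := by simpa using hWK hw.1
      linarith
    · rw [pi_norm_le_iff_of_nonneg (by linarith)]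
      intro i
      rw [Real.norm_eq_abs]
      linarith [hw.2 i]
  have hnorm : ‖A (ρ⁻¹ • (s - c + w))‖ ≤ r' := by
    rw [map_smul, map_add, map_sub, norm_smul, norm_inv, Real.norm_eq_abs, abs_of_pos hρ0,
      inv_mul_le_iff₀ hρ0]
    calc ‖A s - A c + A w‖ ≤ ‖A s - A c‖ + ‖A w‖ := norm_add_le _ _
      _ ≤ |D| + (W + 1) := by linarith [le_abs_self D]
      _ ≤ ρ * r' := by rwa [div_le_iff₀ hr'0] at hρ2
  refine ⟨ρ⁻¹ • (s - c + w), ⟨?_, ?_⟩, ?_⟩
  · apply hrK
    rw [mem_closedBall_zero_iff]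
    exact (norm_fst_le _).trans (hnorm.trans (min_le_left _ _))
  · intro i
    have h1 := norm_le_pi_norm (A (ρ⁻¹ • (s - c + w))).2 i
    rw [Real.norm_eq_abs] at h1
    exact h1.trans ((norm_snd_le _).trans (hnorm.trans (min_le_right _ _)))
  · rw [smul_smul, mul_inv_cancel₀ hρ0.ne', one_smul]
    abel

/-- Sections of `ρ`-separable packings are totally separable in windows. -/
theorem sec_TS (hK : IsBody K) (R0 : ℝ) : ∃ ρ0 : ℝ, 1 ≤ ρ0 ∧ ∀ ρ ≥ ρ0, ∀ S : Set (Fin d → ℝ),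
    RhoSep ρ (Cyl A K) S → ∀ (t : Fin n → ℝ) (z : V),
      TS K {x | x ∈ Sec A S t ∧ ‖x - z‖ ≤ R0} := by
  obtain ⟨ρ0, hρ0, hcl⟩ := mem_cluster A hK (2 * R0 + 2)
  refine ⟨ρ0, hρ0, ?_⟩
  intro ρ hρ S hS t z
  rintro x ⟨⟨s, hs, hsx, hst⟩, hxz⟩ y ⟨⟨s', hs', hsy, hst'⟩, hyz⟩ hne
  have hR0 : 0 ≤ R0 := (norm_nonneg _).trans hxz
  have hC := cyl_isBody A hK
  -- all members of the window are in the cluster of `s`
  have hin : ∀ q ∈ S, ‖(A q).1 - z‖ ≤ R0 → (∀ i, |(A q).2 i - t i| < 1) →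
      q ∈ {c' ∈ S | ∀ w ∈ Cyl A K, ∃ v ∈ Cyl A K, c' + w = s + ρ • v} := by
    intro q hq hqz hqt
    refine ⟨hq, hcl ρ hρ q s ?_⟩
    rw [Prod.norm_def]
    apply max_le
    · have e : (A q - A s).1 = ((A q).1 - z) - ((A s).1 - z) := by
        rw [Prod.fst_sub]; abel
      rw [e]
      refine (norm_sub_le _ _).trans ?_
      rw [hsx]; linarith
    · rw [pi_norm_le_iff_of_nonneg (by linarith)]
      intro i
      rw [Real.norm_eq_abs, Prod.snd_sub, Pi.sub_apply]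
      have e : (A q).2 i - (A s).2 i = ((A q).2 i - t i) - ((A s).2 i - t i) := by ring
      rw [e]
      refine (abs_sub _ _).trans ?_
      linarith [hqt i, hst i]
  have hss : s ≠ s' := by
    rintro rfl
    exact hne (hsx.symm.trans hsy)
  have hms := hin s hs (by rw [hsx]; exact hxz) hst
  obtain ⟨f, hf, τ, f1, f2, f3⟩ := hS s hs s hms
    s' (hin s' hs' (by rw [hsy]; exact hyz) hst') hss
  -- the planar functional
  set F : V × (Fin n → ℝ) →L[ℝ] ℝ := f.comp (A.symm : V × (Fin n → ℝ) →L[ℝ] (Fin d → ℝ)) with hF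
  obtain ⟨g, hg⟩ := exists_vec (F.comp (ContinuousLinearMap.inl ℝ V (Fin n → ℝ)))
  have hfF : ∀ (q : Fin d → ℝ) (k : V), f (q + A.symm (k, t - (A q).2))
      = ev g (A q).1 + ev g k + F (0, t) := by
    intro q k
    have e1 : q + A.symm (k, t - (A q).2) = A.symm ((A q).1 + k, t) := by
      apply A.injective
      rw [map_add, A.apply_symm_apply, A.apply_symm_apply]
      ext i
      · rfl
      · simp
    have e2 : (((A q).1 + k, t) : V × (Fin n → ℝ)) = ((A q).1 + k, 0) + (0, t) := by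
      ext i <;> simp
    have e3 : ev g ((A q).1 + k) = F ((A q).1 + k, 0) := by
      rw [hg]; rfl
    rw [← ev_add, e3, ← map_add, ← e2, e1]
    rfl
  have hwy : ∀ q : Fin d → ℝ, (∀ i, |(A q).2 i - t i| < 1) → ∀ i, |(t - (A q).2) i| < 1 := by
    intro q hq i
    rw [Pi.sub_apply, abs_sub_comm]
    exact hq i
  have hw : ∀ (q : Fin d → ℝ) (k : V), (∀ i, |(A q).2 i - t i| < 1) → k ∈ K →
      A.symm (k, t - (A q).2) ∈ Cyl A K := by
    intro q k hq hk
    exact mem_cyl_of A hk fun i => (hwy q hq i).le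
  obtain ⟨kp, hkp, hkp'⟩ := exists_hs hK.compact ⟨0, zero_mem hK⟩ g
  obtain ⟨km, hkm, hkm'⟩ := exists_hs hK.compact ⟨0, zero_mem hK⟩ (-g)
  rw [hs_neg hK, ev_neg_left] at hkm'
  have hup : ∀ q : Fin d → ℝ, (∀ i, |(A q).2 i - t i| < 1) → (∀ w ∈ Cyl A K, f (q + w) ≤ τ) →
      ev g (A q).1 + Pl.hs K g ≤ τ - F (0, t) := by
    intro q hq h
    have := h _ (hw q kp hq hkp)
    rw [hfF] at this
    linarith
  have hdn : ∀ q : Fin d → ℝ, (∀ i, |(A q).2 i - t i| < 1) → (∀ w ∈ Cyl A K, τ ≤ f (q + w)) →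
      τ - F (0, t) ≤ ev g (A q).1 - Pl.hs K g := by
    intro q hq h
    have := h _ (hw q km hq hkm)
    rw [hfF] at this
    linarith
  refine ⟨g, τ - F (0, t), ?_, ?_, ?_, ?_⟩
  · rintro rfl
    have h1 := f1 _ (hw s 0 hst (zero_mem hK))
    have h2 := f2 _ (hw s' 0 hst' (zero_mem hK))
    rw [hfF] at h1 h2
    rw [ev_zero_left, ev_zero_left] at h1 h2
    have h3 := f3 s hms _ (mem_interior_cyl A (zero_mem_interior hK) (hwy s hst))
    rw [hfF, ev_zero_left, ev_zero_left] at h3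
    exact h3 (le_antisymm h1 h2)
  · rw [← hsx]; exact hup s hst f1
  · rw [← hsy]; exact hdn s' hst' f2
  · rintro p ⟨⟨q, hq, hqp, hqt⟩, hpz⟩
    rw [← hqp]
    rcases dich hC f q τ (f3 q (hin q hq (by rw [hqp]; exact hpz) hqt)) with h | h
    · exact Or.inl (hup q hqt h)
    · exact Or.inr (hdn q hqt h)

end Pool.Agent.H.MP_929345_co.Pl
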