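import Pool.Agent.H.MP_929345_co.Pl.CyE

/-! Cylinders: the upper bound for the density. -/

set_option autoImplicit false

open MeasureTheory Set Filter
open scoped Topology ENNReal

namespace Pool.Agent.H.MP_929345_co.Pl

variable {d n : ℕ} (A : (Fin d → ℝ) ≃L[ℝ] V × (Fin n → ℝ)) {K : Set V}

lemma zero_mem_cyl (hK : IsBody K) : (0 : Fin d → ℝ) ∈ Cyl A K := by
  refine ⟨?_, ?_⟩
  · rw [map_zero]; exact zero_mem hK
  · intro i; rw [map_zero]; simp

/-- From a bound in windows to a bound for the density. -/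
theorem dens_le_window (hK : IsBody K) {S : Set (Fin d → ℝ)} (hS : IsPacking (Cyl A K) S)
    {R M : ℝ} (hR : 1 ≤ R) (hM0 : 0 ≤ M)
    (hM : ∀ (z : V × (Fin n → ℝ)) (F : Finset (Fin d → ℝ)),
      (∀ s ∈ F, s ∈ S ∧ ‖A s - z‖ ≤ R) → (F.card : ℝ) ≤ M) :
    dens (Cyl A K) S ≤ ENNReal.ofReal (M * (vl K * 2 ^ n / (2 * R) ^ (n + 2))) := by
  classical
  obtain ⟨κ, hκ0, hκT, hκ⟩ := vol_scale A
  have hC := cyl_isBody A hK
  set k : ℝ := κ.toReal with hk
  have hk0 : 0 < k := ENNReal.toReal_pos hκ0 hκT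
  have hκk : κ = ENNReal.ofReal k := by rw [hk, ENNReal.ofReal_toReal hκT]
  have hvK := vl_pos hK
  have hR0 : 0 < R := by linarith
  have hvolK : volume K = ENNReal.ofReal (vl K) := by
    unfold vl; rw [ENNReal.ofReal_toReal hK.compact.measure_lt_top.ne]
  -- volumes
  have hvolC : volume (Cyl A K) = ENNReal.ofReal (k * (vl K * 2 ^ n)) := by
    rw [Cyl_eq, hκ _ (hK.compact.measurableSet.prod (measurableSet_unit_cube n)),
      Measure.volume_eq_prod, Measure.prod_prod, volume_unit_cube, hvolK, hκk,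
      ← ENNReal.ofReal_mul hvK.le, ← ENNReal.ofReal_mul hk0.le]
  set Q : Set (Fin d → ℝ) := A ⁻¹' Metric.closedBall 0 R with hQ
  have hQm : MeasurableSet Q := (Metric.isClosed_closedBall.preimage A.continuous).measurableSet
  have hvolQ : volume Q = ENNReal.ofReal (k * (2 * R) ^ (n + 2)) := by
    have e : (Metric.closedBall (0 : V × (Fin n → ℝ)) R)
        = Metric.closedBall (0 : V) R ×ˢ Metric.closedBall (0 : Fin n → ℝ) R := by
      rw [closedBall_prod_same]; rfl
    rw [hQ, hκ _ Metric.isClosed_closedBall.measurableSet, e, Measure.volume_eq_prod,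
      Measure.prod_prod, Real.volume_pi_closedBall _ hR0.le, Real.volume_pi_closedBall _ hR0.le,
      Fintype.card_fin, Fintype.card_fin, hκk, ← ENNReal.ofReal_mul (by positivity),
      ← ENNReal.ofReal_mul hk0.le]
    congr 2
    ring
  -- the norm of `A.symm`
  set c : ℝ := ‖(A.symm : V × (Fin n → ℝ) →L[ℝ] (Fin d → ℝ))‖ * R with hc
  have hc0 : 0 ≤ c := by positivity
  have hQc : ∀ q ∈ Q, ∀ i, |q i| ≤ c := by
    intro q hq i
    have h1 : ‖A q‖ ≤ R := by simpa [hQ] using hq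
    have h2 := (A.symm : V × (Fin n → ℝ) →L[ℝ] (Fin d → ℝ)).le_opNorm (A q)
    have h3 : (A.symm : V × (Fin n → ℝ) →L[ℝ] (Fin d → ℝ)) (A q) = q := A.symm_apply_apply q
    rw [h3] at h2
    have h4 := norm_le_pi_norm q i
    rw [Real.norm_eq_abs] at h4
    exact h4.trans (h2.trans (mul_le_mul_of_nonneg_left h1 (norm_nonneg _)))
  rw [dens_def]
  have hlim : Tendsto (fun r : ℝ => ENNReal.ofReal
      (M * (vl K * 2 ^ n / (2 * R) ^ (n + 2)) * (1 + c / r) ^ d)) atTop
      (𝓝 (ENNReal.ofReal (M * (vl K * 2 ^ n / (2 * R) ^ (n + 2))))) := by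
    have h1 : Tendsto (fun r : ℝ => M * (vl K * 2 ^ n / (2 * R) ^ (n + 2)) * (1 + c / r) ^ d) atTop
        (𝓝 (M * (vl K * 2 ^ n / (2 * R) ^ (n + 2)) * (1 + 0) ^ d)) :=
      ((tendsto_const_nhds.add (tendsto_const_nhds.div_atTop tendsto_id)).pow d).const_mul _
    simp only [add_zero, one_pow, mul_one] at h1
    exact ENNReal.tendsto_ofReal h1
  rw [← hlim.limsup_eq]
  refine limsup_le_limsup ?_
  filter_upwards [eventually_ge_atTop 1] with r hr
  have hr0 : 0 < r := by linarith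
  have hfin : (S ∩ Win (Cyl A K) r).Finite :=
    finite_inter hC (fun x hx y hy hne => by linarith [hS x hx y hy hne]) hr0.le
  set F := hfin.toFinset with hF
  have hcard : (S ∩ Win (Cyl A K) r).ncard = F.card := Set.ncard_eq_toFinset_card _ hfin
  have hdc := double_count F (fun s => s) (Q := Q) (Ω := {x : Fin d → ℝ | ∀ i, |x i| ≤ r + c}) hQm
    (by
      intro s hs q hq i
      rw [hF, Set.Finite.mem_toFinset] at hs
      have h1 := hs.2 0 (zero_mem_cyl A hK) i
      have h2 := hQc q hq i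
      simp only [Pi.zero_apply, add_zero] at h1
      rw [Pi.sub_apply]
      refine (abs_sub _ _).trans ?_
      linarith)
    (ENNReal.ofReal M)
    (by
      intro z
      rw [← ENNReal.ofReal_natCast]
      refine ENNReal.ofReal_le_ofReal (hM (A z) _ ?_)
      intro s hs
      rw [Finset.mem_filter, hF, Set.Finite.mem_toFinset] at hs
      refine ⟨hs.1.1, ?_⟩
      rw [← map_sub]
      have := hs.2
      simpa [hQ] using this)
  obtain ⟨N, hN⟩ : ∃ N : ℕ, N = F.card := ⟨_, rfl⟩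
  rw [← hN] at hdc hcard
  clear_value F
  have hN0 : (0 : ℝ) ≤ (N : ℝ) := Nat.cast_nonneg _
  have hpos1 : 0 ≤ M * (2 * (r + c)) ^ d := by positivity
  rw [hvolQ, volume_cube _ (by linarith), ← ENNReal.ofReal_natCast,
    ← ENNReal.ofReal_mul hN0, ← ENNReal.ofReal_mul hM0] at hdc
  have h6 := (ENNReal.ofReal_le_ofReal_iff hpos1).1 hdc
  rw [ENNReal.div_le_iff (by
      have : (0 : ℝ) < (2 * r) ^ d := by positivity
      exact (ENNReal.ofReal_pos.2 this).ne') ENNReal.ofReal_ne_top, hvolC, hcard,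
    ← ENNReal.ofReal_natCast, ← ENNReal.ofReal_mul hN0,
    ← ENNReal.ofReal_mul (by positivity)]
  apply ENNReal.ofReal_le_ofReal
  have e1 : M * (vl K * 2 ^ n / (2 * R) ^ (n + 2)) * (1 + c / r) ^ d * (2 * r) ^ d
      = M * (2 * (r + c)) ^ d * (vl K * 2 ^ n / (2 * R) ^ (n + 2)) := by
    have : (1 + c / r) ^ d * (2 * r) ^ d = (2 * (r + c)) ^ d := by
      rw [← mul_pow]; congr 1; field_simp
    rw [mul_assoc, this]; ring
  have e2 : (N : ℝ) * (k * (vl K * 2 ^ n))
      = (N : ℝ) * (k * (2 * R) ^ (n + 2)) * (vl K * 2 ^ n / (2 * R) ^ (n + 2)) := by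
    field_simp
  rw [e1, e2]
  exact mul_le_mul_of_nonneg_right h6 (by positivity)

/-- The upper bound. -/
theorem cyl_upper (hK : IsBody K) : ∃ ρ0 : ℝ, 1 ≤ ρ0 ∧ ∀ ρ ≥ ρ0, ∀ S : Set (Fin d → ℝ),
    IsPacking (Cyl A K) S → RhoSep ρ (Cyl A K) S →
      dens (Cyl A K) S ≤ ENNReal.ofReal (vl K / beta K) := by
  obtain ⟨R0, K', hcount⟩ := count_bound hK
  obtain ⟨ρ0, hρ0, hsec⟩ := sec_TS A hK R0
  refine ⟨ρ0, hρ0, ?_⟩
  intro ρ hρ S hS hSρ
  have hb := beta_pos hK
  have hvK := vl_pos hK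
  have hTS := hsec ρ hρ S hSρ
  have hbound : ∀ R : ℝ, 1 ≤ R → dens (Cyl A K) S ≤ ENNReal.ofReal
      (vl K / beta K * ((1 + K' / 4 / R) * (1 + 1 / R) ^ n)) := by
    intro R hR
    have hR0 : 0 < R := by linarith
    have hwin := fun (z : V × (Fin n → ℝ)) (F : Finset (Fin d → ℝ))
      (hF : ∀ s ∈ F, s ∈ S ∧ ‖A s - z‖ ≤ R) => window_count A hK hcount hS hTS z hR F hF
    have hM0 : 0 ≤ (4 * R ^ 2 + K' * R) / beta K * (R + 1) ^ n := by
      have := hwin 0 ∅ (by simp)
      simpa using this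
    have h := dens_le_window A hK hS hR hM0 hwin
    refine h.trans (le_of_eq ?_)
    congr 1
    rw [pow_add, mul_pow, mul_pow]
    have : (1 + 1 / R) ^ n = (R + 1) ^ n / R ^ n := by
      rw [← div_pow]; congr 1; field_simp
    rw [this]
    field_simp
    ring
  have hlim : Tendsto (fun R : ℝ => ENNReal.ofReal
      (vl K / beta K * ((1 + K' / 4 / R) * (1 + 1 / R) ^ n))) atTop
      (𝓝 (ENNReal.ofReal (vl K / beta K))) := by
    have h1 : Tendsto (fun R : ℝ => vl K / beta K * ((1 + K' / 4 / R) * (1 + 1 / R) ^ n)) atTop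
        (𝓝 (vl K / beta K * ((1 + 0) * (1 + 0) ^ n))) :=
      ((tendsto_const_nhds.add (tendsto_const_nhds.div_atTop tendsto_id)).mul
        ((tendsto_const_nhds.add (tendsto_const_nhds.div_atTop tendsto_id)).pow n)).const_mul _
    simp only [add_zero, one_pow, mul_one] at h1
    exact ENNReal.tendsto_ofReal h1
  refine ge_of_tendsto hlim ?_
  filter_upwards [eventually_ge_atTop 1] with R hR
  exact hbound R hR

end Pool.Agent.H.MP_929345_co.Pl
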