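import Pool.Agent.H.MP_929345_co.Pl.CyA

/-! Cylinders: lattice packings. -/

set_option autoImplicit false

open MeasureTheory Set Filter
open scoped Topology ENNReal

namespace Pool.Agent.H.MP_929345_co.Pl

variable {d n : ℕ} (A : (Fin d → ℝ) ≃L[ℝ] V × (Fin n → ℝ)) {K : Set V}

lemma cyb_compact {T : Set V} (hT : IsCompact T) : IsCompact (Cyl A T) := by
  have hcube : IsCompact {y : Fin n → ℝ | ∀ i, |y i| ≤ 1} := by
    have : {y : Fin n → ℝ | ∀ i, |y i| ≤ 1} = Metric.closedBall 0 1 := by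
      ext y
      rw [mem_closedBall_zero_iff, pi_norm_le_iff_of_nonneg zero_le_one]
      rfl
    rw [this]
    exact isCompact_closedBall _ _
  rw [Cyl_eq]
  have h := (hT.prod hcube).image A.symm.continuous
  rwa [A.symm.image_eq_preimage_symm, A.symm_symm] at h

lemma cyb_gauge (hK : IsBody K) (z : Fin d → ℝ) :
    gauge K (A z).1 ≤ gauge (Cyl A K) z ∧ ∀ i, |(A z).2 i| ≤ gauge (Cyl A K) z := by
  have hC := cyl_isBody A hK
  rcases (gauge_nonneg (s := Cyl A K) z).lt_or_eq with hg | hg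
  · set g := gauge (Cyl A K) z with hgdef
    have hm : g⁻¹ • z ∈ Cyl A K := by
      apply hC.gauge_le_one_iff.1
      rw [gauge_smul_of_nonneg (by positivity), smul_eq_mul, inv_mul_cancel₀ hg.ne']
    have h1 : (A (g⁻¹ • z)) = g⁻¹ • A z := map_smul A _ _
    refine ⟨?_, ?_⟩
    · have h2 := hK.gauge_le_one_iff.2 hm.1
      rw [h1, Prod.smul_fst, gauge_smul_of_nonneg (by positivity), smul_eq_mul,
        inv_mul_le_iff₀ hg, mul_one] at h2
      exact h2
    · intro i
      have h2 := hm.2 i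
      rw [h1, Prod.smul_snd, Pi.smul_apply, smul_eq_mul, abs_mul, abs_of_pos (by positivity),
        inv_mul_le_iff₀ hg, mul_one] at h2
      exact h2
  · have hz : z = 0 := (hC.gauge_eq_zero_iff z).1 hg.symm
    rw [hz]
    simp

/-- The centres. -/
def cybX (K : Set V) (a b : V) : Set (Fin d → ℝ) :=
  {x | (A x).1 ∈ Lt K a b ∧ ∀ i, ∃ k : ℤ, (A x).2 i = 2 * k}

lemma cyb_ne {x y : Fin d → ℝ} (hne : x ≠ y) : (A x).1 ≠ (A y).1 ∨ ∃ i, (A x).2 i ≠ (A y).2 i := by
  by_contra hcon
  push Not at hcon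
  exact hne (A.injective (Prod.ext hcon.1 (funext hcon.2)))

lemma cyb_packing (hK : IsBody K) {a b : V} (hab : cr a b ≠ 0) :
    IsPacking (Cyl A K) (cybX A K a b) := by
  intro x hx y hy hne
  obtain ⟨h1, h2⟩ := cyb_gauge A hK (x - y)
  rw [map_sub] at h1 h2
  rcases cyb_ne A hne with h | ⟨i, h⟩
  · exact (Lt_packing hK hab _ hx.1 _ hy.1 h).trans h1
  · refine le_trans ?_ (h2 i)
    obtain ⟨k, hk⟩ := hx.2 i
    obtain ⟨l, hl⟩ := hy.2 i
    rw [Prod.snd_sub, Pi.sub_apply, hk, hl]
    rw [hk, hl] at h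
    have hkl : k ≠ l := by
      intro hcon; exact h (by rw [hcon])
    rcases lt_or_gt_of_ne hkl with hlt | hgt
    · have h5 : (k : ℝ) + 1 ≤ l := by exact_mod_cast hlt
      rw [abs_of_nonpos (by linarith)]
      linarith
    · have h5 : (l : ℝ) + 1 ≤ k := by exact_mod_cast hgt
      rw [abs_of_nonneg (by linarith)]
      linarith

lemma cyb_int1 {w : Fin d → ℝ} (hw : w ∈ interior (Cyl A K)) : (A w).1 ∈ interior K := by
  have hopen : IsOpenMap (fun w : Fin d → ℝ => (A w).1) :=
    isOpenMap_fst.comp A.toHomeomorph.isOpenMap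
  have h1 : IsOpen ((fun w : Fin d → ℝ => (A w).1) '' interior (Cyl A K)) :=
    hopen _ isOpen_interior
  have h2 : (fun w : Fin d → ℝ => (A w).1) '' interior (Cyl A K) ⊆ K := by
    rintro _ ⟨v, hv, rfl⟩
    exact (interior_subset hv).1
  exact interior_maximal h2 h1 ⟨w, hw, rfl⟩

lemma cyb_int2 {w : Fin d → ℝ} (hw : w ∈ interior (Cyl A K)) (i : Fin n) : |(A w).2 i| < 1 := by
  have hopen : IsOpenMap (fun w : Fin d → ℝ => (A w).2 i) := by
    have h1 : IsOpenMap (fun y : Fin n → ℝ => y i) := isOpenMap_eval i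
    exact h1.comp (isOpenMap_snd.comp A.toHomeomorph.isOpenMap)
  have h1 : IsOpen ((fun w : Fin d → ℝ => (A w).2 i) '' interior (Cyl A K)) :=
    hopen _ isOpen_interior
  have h2 : (fun w : Fin d → ℝ => (A w).2 i) '' interior (Cyl A K) ⊆ Icc (-1) 1 := by
    rintro _ ⟨v, hv, rfl⟩
    exact abs_le.1 ((interior_subset hv).2 i)
  have h3 := interior_maximal h2 h1 ⟨w, hw, rfl⟩
  rw [interior_Icc] at h3
  exact abs_lt.2 h3

/-- The coordinate functional. -/
noncomputable def cybL (i : Fin n) (s : ℝ) : (Fin d → ℝ) →L[ℝ] ℝ :=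
  s • ((ContinuousLinearMap.proj (R := ℝ) (φ := fun _ : Fin n => ℝ) i).comp
    ((ContinuousLinearMap.snd ℝ V (Fin n → ℝ)).comp (A : (Fin d → ℝ) →L[ℝ] V × (Fin n → ℝ))))

lemma cybL_apply (i : Fin n) (s : ℝ) (x : Fin d → ℝ) : cybL A i s x = s * (A x).2 i := by
  simp [cybL]

lemma cybL_ne (i : Fin n) {s : ℝ} (hs : s ≠ 0) : cybL A i s ≠ 0 := by
  intro h
  have h1 := congrArg (fun F : (Fin d → ℝ) →L[ℝ] ℝ => F (A.symm (0, Pi.single i 1))) h
  simp only [cybL_apply, ContinuousLinearEquiv.apply_symm_apply, Pi.single_eq_same, mul_one] at h1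
  exact hs (by simpa using h1)

lemma cyb_totSep (hK : IsBody K) {a b : V} (hab : cr a b ≠ 0) :
    TotSep (Cyl A K) (cybX A K a b) := by
  intro x hx y hy hne
  rcases cyb_ne A hne with h | ⟨i, h⟩
  · obtain ⟨f, hf, t, h1, h2, h3⟩ := Lt_totSep hK hab _ hx.1 _ hy.1 h
    refine ⟨f.comp ((ContinuousLinearMap.fst ℝ V (Fin n → ℝ)).comp
      (A : (Fin d → ℝ) →L[ℝ] V × (Fin n → ℝ))), ?_, t, ?_, ?_, ?_⟩
    · intro hcon
      apply hf
      ext v
      have h4 := congrArg (fun F : (Fin d → ℝ) →L[ℝ] ℝ => F (A.symm (v, 0))) hcon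
      simpa using h4
    · intro w hw
      have := h1 (A w).1 hw.1
      simpa using this
    · intro w hw
      have := h2 (A w).1 hw.1
      simpa using this
    · intro z hz w hw
      have := h3 (A z).1 hz.1 (A w).1 (cyb_int1 A hw)
      simpa using this
  · obtain ⟨k, hk⟩ := hx.2 i
    obtain ⟨l, hl⟩ := hy.2 i
    rw [hk, hl] at h
    have hkl : k ≠ l := by
      intro hcon; exact h (by rw [hcon])
    rcases lt_or_gt_of_ne hkl with hlt | hgt
    · have h5 : (k : ℝ) + 1 ≤ l := by exact_mod_cast hlt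
      refine ⟨cybL A i 1, cybL_ne A i one_ne_zero, 2 * k + 1, ?_, ?_, ?_⟩
      · intro w hw
        have := (abs_le.1 (hw.2 i)).2
        rw [map_add, cybL_apply, cybL_apply, hk]
        linarith
      · intro w hw
        have := (abs_le.1 (hw.2 i)).1
        rw [map_add, cybL_apply, cybL_apply, hl]
        linarith
      · intro z hz w hw heq
        obtain ⟨m, hm⟩ := hz.2 i
        have h6 := abs_lt.1 (cyb_int2 A hw i)
        rw [map_add, cybL_apply, cybL_apply, hm] at heq
        rcases lt_trichotomy m k with h | h | h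
        · have h7 : (m : ℝ) + 1 ≤ k := by exact_mod_cast h
          linarith [h6.1, h6.2]
        · subst h; linarith [h6.1, h6.2]
        · have h7 : (k : ℝ) + 1 ≤ m := by exact_mod_cast h
          linarith [h6.1, h6.2]
    · have h5 : (l : ℝ) + 1 ≤ k := by exact_mod_cast hgt
      refine ⟨cybL A i (-1), cybL_ne A i (by norm_num), -(2 * k) + 1, ?_, ?_, ?_⟩
      · intro w hw
        have := (abs_le.1 (hw.2 i)).1
        rw [map_add, cybL_apply, cybL_apply, hk]
        linarith
      · intro w hw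
        have := (abs_le.1 (hw.2 i)).2
        rw [map_add, cybL_apply, cybL_apply, hl]
        linarith
      · intro z hz w hw heq
        obtain ⟨m, hm⟩ := hz.2 i
        have h6 := abs_lt.1 (cyb_int2 A hw i)
        rw [map_add, cybL_apply, cybL_apply, hm] at heq
        rcases lt_trichotomy m k with h | h | h
        · have h7 : (m : ℝ) + 1 ≤ k := by exact_mod_cast h
          linarith [h6.1, h6.2]
        · subst h; linarith [h6.1, h6.2]
        · have h7 : (k : ℝ) + 1 ≤ m := by exact_mod_cast h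
          linarith [h6.1, h6.2]

lemma cyb_near {a b : V} (hK : IsBody K) (hab : cr a b ≠ 0) (y : V) :
    ∃ x ∈ Lt K a b, y - x ∈ Par K a b := by
  have hapos := hs_pos hK (cr_ne_zero_left hab)
  have hbpos := hs_pos hK (cr_ne_zero_right hab)
  obtain ⟨m, hm⟩ := exists_near_mul (hs K a) (ev a y) hapos
  obtain ⟨n, hn⟩ := exists_near_mul (hs K b) (ev b y) hbpos
  set x : V := ![(b 1 * (2 * hs K a * m) - a 1 * (2 * hs K b * n)) / cr a b,
    (a 0 * (2 * hs K b * n) - b 0 * (2 * hs K a * m)) / cr a b] with hx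
  have hxa : ev a x = 2 * hs K a * m := by
    have h : cr a b ≠ 0 := hab
    simp only [hx, ev, Matrix.cons_val_zero, Matrix.cons_val_one]
    field_simp
    simp only [cr]; ring
  have hxb : ev b x = 2 * hs K b * n := by
    have h : cr a b ≠ 0 := hab
    simp only [hx, ev, Matrix.cons_val_zero, Matrix.cons_val_one]
    field_simp
    simp only [cr]; ring
  refine ⟨x, ⟨m, n, hxa, hxb⟩, ?_, ?_⟩
  · rw [ev_sub, hxa]; exact hm
  · rw [ev_sub, hxb]; exact hn

/-- The lattice packing `A⁻¹ (Lt K a b × (2ℤ)^n)`. -/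
theorem cyl_lattice (hK : IsBody K) {a b : V} (hab : cr a b ≠ 0) :
    ∃ X : Set (Fin d → ℝ), IsPacking (Cyl A K) X ∧ TotSep (Cyl A K) X ∧
      ENNReal.ofReal (vl K / vl (Par K a b)) ≤ dens (Cyl A K) X := by
  refine ⟨cybX A K a b, cyb_packing A hK hab, cyb_totSep A hK hab, ?_⟩
  have hC := cyl_isBody A hK
  have hv := vl_pos hK
  have hParc := isCompact_Par hK hab
  have hP : 0 < vl (Par K a b) :=
    lt_of_lt_of_le hv (vl_mono (C_subset_Par hK a b) hParc.measure_lt_top.ne)
  obtain ⟨a0, hCa0⟩ := hC.compact.isBounded.subset_closedBall (0 : Fin d → ℝ)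
  obtain ⟨P0, hP0⟩ := (cyb_compact A hParc).isBounded.subset_closedBall (0 : Fin d → ℝ)
  set a1 : ℝ := |a0| with ha1
  have hCa : Cyl A K ⊆ Metric.closedBall (0 : Fin d → ℝ) a1 :=
    hCa0.trans (Metric.closedBall_subset_closedBall (le_abs_self _))
  have ha10 : 0 ≤ a1 := abs_nonneg _
  set P : ℝ := |P0| with hPdef
  have hPP : Cyl A (Par K a b) ⊆ Metric.closedBall (0 : Fin d → ℝ) P :=
    hP0.trans (Metric.closedBall_subset_closedBall (le_abs_self _))
  have hP00 : 0 ≤ P := abs_nonneg _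
  obtain ⟨κ, hκ, hvol⟩ := vol_cyl A
  have hvolP : volume (Cyl A (Par K a b)) = ENNReal.ofReal (κ * vl (Par K a b)) :=
    hvol _ hParc.measurableSet hParc.measure_lt_top.ne
  have hvolC : volume (Cyl A K) = ENNReal.ofReal (κ * vl K) :=
    hvol _ hK.compact.measurableSet hK.compact.measure_lt_top.ne
  rw [dens_def]
  have hlim : Tendsto (fun r : ℝ => ENNReal.ofReal
      (vl K / vl (Par K a b) * (1 - (a1 + P) / r) ^ d)) atTop
      (𝓝 (ENNReal.ofReal (vl K / vl (Par K a b)))) := by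
    have h1 : Tendsto (fun r : ℝ => vl K / vl (Par K a b) * (1 - (a1 + P) / r) ^ d) atTop
        (𝓝 (vl K / vl (Par K a b) * (1 - 0) ^ d)) :=
      ((tendsto_const_nhds.sub (tendsto_const_nhds.div_atTop tendsto_id)).pow d).const_mul _
    simp only [sub_zero, one_pow, mul_one] at h1
    exact ENNReal.tendsto_ofReal h1
  rw [← hlim.limsup_eq]
  refine limsup_le_limsup ?_
  filter_upwards [eventually_ge_atTop (a1 + P + 1)] with r hr
  have hr0 : 0 < r := by linarith
  set s : ℝ := r - (a1 + P) with hs'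
  have hs0 : 0 ≤ s := by linarith
  have hfin : (cybX A K a b ∩ Win (Cyl A K) r).Finite :=
    finite_inter hC (fun x hx y hy hne => by linarith [cyb_packing A hK hab x hx y hy hne]) hr0.le
  -- the box of half side `s` is covered
  have hcov : {x : Fin d → ℝ | ∀ i, |x i| ≤ s} ⊆
      ⋃ x ∈ hfin.toFinset, (fun y => x + y) '' Cyl A (Par K a b) := by
    intro y hy
    obtain ⟨x1, hx1, hyx1⟩ := cyb_near hK hab (A y).1
    have hch : ∀ i : Fin n, ∃ k : ℤ, |(A y).2 i - 2 * 1 * k| ≤ 1 := fun i =>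
      exists_near_mul 1 _ one_pos
    choose k hk using hch
    set x : Fin d → ℝ := A.symm (x1, fun i => 2 * (k i : ℝ)) with hx
    have hAx : A x = (x1, fun i => 2 * (k i : ℝ)) := by
      rw [hx, ContinuousLinearEquiv.apply_symm_apply]
    have hyx : y - x ∈ Cyl A (Par K a b) := by
      refine ⟨?_, ?_⟩
      · rw [map_sub, Prod.fst_sub, hAx]; exact hyx1
      · intro i
        rw [map_sub, Prod.snd_sub, hAx, Pi.sub_apply]
        have := hk i
        rw [mul_one] at this
        exact this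
    have hn1 : ‖y - x‖ ≤ P := by simpa using hPP hyx
    rw [mem_iUnion₂]
    refine ⟨x, ?_, ⟨y - x, hyx, by simp⟩⟩
    rw [Set.Finite.mem_toFinset]
    refine ⟨⟨?_, ?_⟩, ?_⟩
    · rw [hAx]; exact hx1
    · intro i; rw [hAx]; exact ⟨k i, rfl⟩
    · intro w hw i
      have h2 : ‖w‖ ≤ a1 := by simpa using hCa hw
      have h3 := norm_le_pi_norm w i
      have h4 := norm_le_pi_norm (y - x) i
      rw [Real.norm_eq_abs] at h3 h4
      have h5 := hy i
      have e : x i + w i = y i + -((y - x) i) + w i := by simp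
      rw [e]
      calc |y i + -((y - x) i) + w i| ≤ |y i + -((y - x) i)| + |w i| := abs_add_le _ _
        _ ≤ |y i| + |-((y - x) i)| + |w i| := by gcongr; exact abs_add_le _ _
        _ ≤ s + P + a1 := by rw [abs_neg]; linarith
        _ = r := by rw [hs']; ring
  have hvolbox := volume_cube (d := d) s hs0
  have h1 : ENNReal.ofReal ((2 * s) ^ d) ≤
      ((cybX A K a b ∩ Win (Cyl A K) r).ncard : ℝ≥0∞) * volume (Cyl A (Par K a b)) := by
    rw [← hvolbox]
    refine (measure_mono hcov).trans ?_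
    refine (measure_biUnion_finset_le _ _).trans ?_
    have : ∀ x ∈ hfin.toFinset, volume ((fun y => x + y) '' Cyl A (Par K a b)) =
        volume (Cyl A (Par K a b)) := by
      intro x _
      rw [image_add_left, measure_preimage_add]
    rw [Finset.sum_congr rfl this, Finset.sum_const, nsmul_eq_mul,
      ← Set.ncard_eq_toFinset_card _ hfin]
  rw [hvolP, ← ENNReal.ofReal_natCast, ← ENNReal.ofReal_mul (by positivity)] at h1
  have h2 : (2 * s) ^ d ≤
      ((cybX A K a b ∩ Win (Cyl A K) r).ncard : ℝ) * (κ * vl (Par K a b)) :=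
    (ENNReal.ofReal_le_ofReal_iff (by positivity)).1 h1
  rw [ENNReal.le_div_iff_mul_le (Or.inl (by
    have : (0 : ℝ) < (2 * r) ^ d := by positivity
    exact (ENNReal.ofReal_pos.2 this).ne')) (Or.inl ENNReal.ofReal_ne_top), hvolC,
    ← ENNReal.ofReal_natCast, ← ENNReal.ofReal_mul (by
      have : 0 ≤ (1 - (a1 + P) / r) := by
        rw [sub_nonneg, div_le_one hr0]; linarith
      positivity),
    ← ENNReal.ofReal_mul (by positivity)]
  apply ENNReal.ofReal_le_ofReal
  have e : vl K / vl (Par K a b) * (1 - (a1 + P) / r) ^ d * (2 * r) ^ d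
      = vl K / vl (Par K a b) * (2 * s) ^ d := by
    rw [mul_assoc, ← mul_pow]
    congr 2
    rw [hs']; field_simp
  rw [e]
  calc vl K / vl (Par K a b) * (2 * s) ^ d
      ≤ vl K / vl (Par K a b) *
        (((cybX A K a b ∩ Win (Cyl A K) r).ncard : ℝ) * (κ * vl (Par K a b))) := by gcongr
    _ = ((cybX A K a b ∩ Win (Cyl A K) r).ncard : ℝ) * (κ * vl K) := by field_simp

end Pool.Agent.H.MP_929345_co.Pl
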