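import Pool.Agent.H.MP_929345_co.Pl.Stm

/-! B4: faces adjacent to an end -/

set_option autoImplicit false

open MeasureTheory Set

namespace Pool.Agent.H.MP_929345_co.Pl

variable {ι : Type*} {P Q : ι → V} {Lam : ℝ}

open Filter Topology in
lemma adja_seg (e : ι × Bool) (y : V) : y ∈ segment ℝ (P e.1) (Q e.1) ↔
    ∃ t : ℝ, 0 ≤ t ∧ t ≤ 1 ∧ y = zE P Q e + t • dE P Q e := by
  unfold zE dE
  cases h : e.2
  · simp only [Bool.false_eq_true, if_false]
    rw [segment_eq_image']
    constructor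
    · rintro ⟨t, ht, rfl⟩
      exact ⟨t, ht.1, ht.2, rfl⟩
    · rintro ⟨t, h0, h1, rfl⟩
      exact ⟨t, ⟨h0, h1⟩, rfl⟩
  · simp only [if_true]
    rw [segment_symm, segment_eq_image']
    constructor
    · rintro ⟨t, ht, rfl⟩
      exact ⟨t, ht.1, ht.2, rfl⟩
    · rintro ⟨t, h0, h1, rfl⟩
      exact ⟨t, ⟨h0, h1⟩, rfl⟩

lemma adja_oseg (e : ι × Bool) {t : ℝ} (h0 : 0 < t) (h1 : t < 1) :
    zE P Q e + t • dE P Q e ∈ openSegment ℝ (P e.1) (Q e.1) := by
  unfold zE dE
  cases h : e.2
  · simp only [Bool.false_eq_true, if_false]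
    rw [openSegment_eq_image']
    exact ⟨t, ⟨h0, h1⟩, rfl⟩
  · simp only [if_true]
    rw [openSegment_symm, openSegment_eq_image']
    exact ⟨t, ⟨h0, h1⟩, rfl⟩

lemma adja_z_notin (hT : IsT P Q Lam) (e : ι × Bool) :
    zE P Q e ∉ openSegment ℝ (P e.1) (Q e.1) := by
  unfold zE
  cases h : e.2
  · simp only [Bool.false_eq_true, if_false]
    rw [left_mem_openSegment_iff]
    exact hT.ne e.1
  · simp only [if_true]
    rw [right_mem_openSegment_iff]
    exact hT.ne e.1

lemma adja_d_ne (hT : IsT P Q Lam) (e : ι × Bool) : dE P Q e ≠ 0 := by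
  unfold dE
  cases h : e.2
  · simp only [Bool.false_eq_true, if_false]
    exact sub_ne_zero.2 (hT.ne e.1).symm
  · simp only [if_true]
    exact sub_ne_zero.2 (hT.ne e.1)

open Filter Topology in
lemma adja_through {z : V} {j : ι} (hz : z ∈ openSegment ℝ (P j) (Q j)) {τ : V}
    (hτ : τ = Q j - P j ∨ τ = P j - Q j) :
    ∀ᶠ s : ℝ in 𝓝 0, z + s • τ ∈ openSegment ℝ (P j) (Q j) := by
  rw [openSegment_eq_image'] at hz
  obtain ⟨θ, ⟨h0, h1⟩, rfl⟩ := hz
  rcases hτ with rfl | rfl
  · have hc : Tendsto (fun s : ℝ => θ + s) (𝓝 0) (𝓝 (θ + 0)) :=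
      (continuous_const.add continuous_id).tendsto 0
    rw [add_zero] at hc
    filter_upwards [hc.eventually (Ioo_mem_nhds h0 h1)] with s hs
    rw [openSegment_eq_image']
    refine ⟨θ + s, hs, ?_⟩
    simp only [add_smul]
    abel
  · have hc : Tendsto (fun s : ℝ => θ - s) (𝓝 0) (𝓝 (θ - 0)) :=
      (continuous_const.sub continuous_id).tendsto 0
    rw [sub_zero] at hc
    filter_upwards [hc.eventually (Ioo_mem_nhds h0 h1)] with s hs
    rw [openSegment_eq_image']
    refine ⟨θ - s, hs, ?_⟩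
    simp only [sub_smul, smul_sub]
    abel

lemma adja_par {d d' : V} (hd : d ≠ 0) (h : cr d d' = 0) : ∃ μ : ℝ, d' = μ • d := by
  unfold cr at h
  by_cases h0 : d 0 = 0
  · have h1 : d 1 ≠ 0 := by
      intro h1
      apply hd
      ext i
      fin_cases i
      · exact h0
      · exact h1
    refine ⟨d' 1 / d 1, ?_⟩
    rw [h0, zero_mul, zero_sub, neg_eq_zero] at h
    have h2 : d' 0 = 0 := (mul_eq_zero.1 h).resolve_left h1
    ext i
    fin_cases i
    · simp [h0, h2]
    · simp [h1]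
  · refine ⟨d' 0 / d 0, ?_⟩
    ext i
    fin_cases i
    · simp [h0]
    · simp only [Fin.mk_one, Pi.smul_apply, smul_eq_mul]
      field_simp
      linarith

lemma adja_ne_of_open (hT : IsT P Q Lam) (e : ι × Bool) {j : ι}
    (hz : zE P Q e ∈ openSegment ℝ (P j) (Q j)) : j ≠ e.1 := by
  rintro rfl
  exact adja_z_notin hT e hz

open Filter Topology in
lemma adja_cr_ne (hT : IsT P Q Lam) (e : ι × Bool) {τ : V} (hτ : Thr P Q e τ) :
    cr τ (dE P Q e) ≠ 0 := by
  obtain ⟨j, hz, hj⟩ := hτ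
  have hje := adja_ne_of_open hT e hz
  intro hcr
  have hτ0 : τ ≠ 0 := by
    rcases hj with rfl | rfl
    · exact sub_ne_zero.2 (hT.ne j).symm
    · exact sub_ne_zero.2 (hT.ne j)
  obtain ⟨μ, hμ⟩ := adja_par hτ0 hcr
  have h1 := adja_through hz hj
  have h2 : Tendsto (fun t : ℝ => t * μ) (𝓝[>] 0) (𝓝 0) := by
    have : Tendsto (fun t : ℝ => t * μ) (𝓝 0) (𝓝 (0 * μ)) :=
      (continuous_id.mul continuous_const).tendsto 0
    rw [zero_mul] at this
    exact this.mono_left nhdsWithin_le_nhds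
  have h3 := h2.eventually h1
  have h4 : ∀ᶠ t : ℝ in 𝓝[>] 0, t < 1 :=
    nhdsWithin_le_nhds (Iio_mem_nhds (by norm_num))
  obtain ⟨t, ht⟩ := (h3.and (h4.and self_mem_nhdsWithin)).exists
  obtain ⟨ht1, ht2, ht3⟩ := ht
  have h5 := adja_oseg (P := P) (Q := Q) e ht3 ht2
  rw [hμ, smul_smul] at h5
  exact (Set.disjoint_left.1 (hT.t1 j e.1 hje)) ht1 h5

lemma adja_indep {d τ : V} (h : cr τ d ≠ 0) {a b a' b' : ℝ} (he : a • d + b • τ = a' • d + b' • τ) :
    a = a' ∧ b = b' := by
  have h1 := congrArg (cr τ) he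
  have h2 := congrArg (fun v => cr v d) he
  simp only [cr_add_right, cr_add_left, cr_smul_right, cr_smul_left, cr_self, mul_zero, add_zero,
    zero_add] at h1 h2
  exact ⟨mul_right_cancel₀ h h1, mul_right_cancel₀ h h2⟩

lemma adja_basis {d τ : V} (h : cr τ d ≠ 0) (v : V) : ∃ a b : ℝ, v = a • d + b • τ := by
  have h1 := cr_expand τ d v
  refine ⟨-(cr τ d)⁻¹ * cr v τ, (cr τ d)⁻¹ * cr v d, ?_⟩
  have h2 : v = (cr τ d)⁻¹ • (cr τ d • v) := by
    rw [smul_smul, inv_mul_cancel₀ h, one_smul]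
  rw [h1] at h2
  rw [smul_sub, smul_smul, smul_smul] at h2
  rw [neg_mul, neg_smul]
  calc v = _ := h2
    _ = _ := by abel

/-- Job B4a.  Every end has an adjacent face on each side. -/
theorem adj_exists (hT : IsT P Q Lam) (e : ι × Bool) {τ : V} (hτ : Thr P Q e τ) :
    cr τ (dE P Q e) ≠ 0 ∧ ∃ x, x ∉ Sg P Q ∧ Adj P Q e τ (Vis (Sg P Q) x) := by
  have hcr := adja_cr_ne hT e hτ
  refine ⟨hcr, ?_⟩
  obtain ⟨j, hz, hj⟩ := hτ
  set z := zE P Q e with hzdef
  set d := dE P Q e with hddef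
  obtain ⟨r1, hr1, hloc⟩ := locally hT z
  -- ends at z
  set A : Set (ι × Bool) := {a | zE P Q a = z} with hA
  have hAfin : A.Finite := by
    have hF := hT.lf ‖z‖
    apply (hF.prod (Set.finite_univ (α := Bool))).subset
    intro a ha
    rw [Set.mem_prod]
    refine ⟨?_, mem_univ _⟩
    refine ⟨z, ?_, ?_⟩
    · rw [adja_seg]
      refine ⟨0, le_refl _, zero_le_one, ?_⟩
      rw [zero_smul, add_zero]
      exact ha.symm
    · simp
  have hcone : ∀ a ∈ A, ∀ᶠ r : ℝ in nhdsWithin 0 (Ioi 0), ∀ ε η t : ℝ, 0 < ε → 0 < η →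
      η < r * ε → 0 ≤ t → ε • d + η • τ ≠ t • dE P Q a := by
    intro a _
    obtain ⟨α, β, hab⟩ := adja_basis hcr (dE P Q a)
    by_cases hpos : 0 < α ∧ 0 < β
    · have : ∀ᶠ r : ℝ in nhdsWithin 0 (Ioi 0), r < β / α :=
        nhdsWithin_le_nhds (Iio_mem_nhds (div_pos hpos.2 hpos.1))
      filter_upwards [this] with r hr ε η t hε hη hlt ht heq
      rw [hab, smul_add, smul_smul, smul_smul] at heq
      obtain ⟨h1, h2⟩ := adja_indep hcr heq
      have h3 : r * ε < β / α * ε := mul_lt_mul_of_pos_right hr hε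
      have h4 : β / α * ε = η := by
        rw [h1, h2]
        field_simp [hpos.1.ne']
      linarith
    · filter_upwards with r ε η t hε hη hlt ht heq
      rw [hab, smul_add, smul_smul, smul_smul] at heq
      obtain ⟨h1, h2⟩ := adja_indep hcr heq
      apply hpos
      constructor
      · by_contra hc
        have := mul_nonpos_of_nonneg_of_nonpos ht (not_lt.1 hc)
        linarith
      · by_contra hc
        have := mul_nonpos_of_nonneg_of_nonpos ht (not_lt.1 hc)
        linarith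
  have hall : ∀ᶠ r : ℝ in nhdsWithin 0 (Ioi 0), ∀ a ∈ A, ∀ ε η t : ℝ, 0 < ε → 0 < η →
      η < r * ε → 0 ≤ t → ε • d + η • τ ≠ t • dE P Q a := by
    rw [Filter.eventually_all_finite hAfin]
    exact hcone
  have hsmall : ∀ᶠ r : ℝ in nhdsWithin 0 (Ioi 0), r < r1 / (‖d‖ + ‖τ‖ + 1) :=
    nhdsWithin_le_nhds (Iio_mem_nhds (by positivity))
  have hone : ∀ᶠ r : ℝ in nhdsWithin 0 (Ioi 0), r < 1 :=
    nhdsWithin_le_nhds (Iio_mem_nhds (by norm_num))
  obtain ⟨r, hr⟩ := (hall.and (hsmall.and (hone.and self_mem_nhdsWithin))).exists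
  obtain ⟨hrA, hrs, hr1', hr0⟩ := hr
  have hr0 : 0 < r := hr0
  have hrb : r * (‖d‖ + ‖τ‖ + 1) < r1 := by
    rwa [lt_div_iff₀ (by positivity)] at hrs
  -- the triangle misses the structure
  have hmiss : ∀ ε η : ℝ, 0 < ε → ε < r → 0 < η → η < r * ε → z + ε • d + η • τ ∉ Sg P Q := by
    intro ε η h1 h2 h3 h4 hmem
    rw [Sg, mem_iUnion] at hmem
    obtain ⟨i, hi⟩ := hmem
    have hball : z + ε • d + η • τ ∈ Metric.ball z r1 := by
      rw [Metric.mem_ball, dist_eq_norm]
      have h5 : z + ε • d + η • τ - z = ε • d + η • τ := by abel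
      rw [h5]
      have h6 : η ≤ r := by
        have : r * ε ≤ r * 1 := mul_le_mul_of_nonneg_left (by linarith) hr0.le
        linarith
      calc ‖ε • d + η • τ‖ ≤ ‖ε • d‖ + ‖η • τ‖ := norm_add_le _ _
        _ = ε * ‖d‖ + η * ‖τ‖ := by
            rw [norm_smul, norm_smul, Real.norm_of_nonneg h1.le, Real.norm_of_nonneg h3.le]
        _ ≤ r * ‖d‖ + r * ‖τ‖ := by
            gcongr
        _ ≤ r * (‖d‖ + ‖τ‖ + 1) := by nlinarith
        _ < r1 := hrb
    have hzi := hloc i ⟨_, hi, hball⟩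
    by_cases hij : i = j
    · subst hij
      rw [openSegment_eq_image'] at hz
      rw [segment_eq_image'] at hi
      obtain ⟨θ, _, hθ⟩ := hz
      obtain ⟨θ', _, hθ'⟩ := hi
      have h7 : ε • d + η • τ = (θ' - θ) • (Q i - P i) := by
        have : ε • d + η • τ = (z + ε • d + η • τ) - z := by abel
        rw [this, ← hθ', ← hθ]
        simp only [sub_smul]
        abel
      have h8 : ∃ s : ℝ, (θ' - θ) • (Q i - P i) = s • τ := by
        rcases hj with hj | hj
        · exact ⟨θ' - θ, by rw [hj]⟩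
        · refine ⟨-(θ' - θ), ?_⟩
          rw [hj, neg_smul, ← smul_neg, neg_sub]
      obtain ⟨s, hs⟩ := h8
      rw [hs] at h7
      have h9 : ε • d + η • τ = (0 : ℝ) • d + s • τ := by rw [h7, zero_smul, zero_add]
      have := (adja_indep hcr h9).1
      linarith
    · have hzo : z ∉ openSegment ℝ (P i) (Q i) := fun h =>
        (Set.disjoint_left.1 (hT.t1 i j hij)) h hz
      have hend : ∃ a : ι × Bool, a.1 = i ∧ zE P Q a = z := by
        by_cases hP : P i = z
        · exact ⟨(i, false), rfl, by simp [zE, hP]⟩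
        · by_cases hQ : Q i = z
          · exact ⟨(i, true), rfl, by simp [zE, hQ]⟩
          · exact absurd (mem_openSegment_of_ne_left_right hP hQ hzi) hzo
      obtain ⟨a, rfl, haz⟩ := hend
      rw [adja_seg] at hi
      obtain ⟨t, ht0, _, hti⟩ := hi
      rw [haz] at hti
      have h7 : ε • d + η • τ = t • dE P Q a := by
        have : ε • d + η • τ = (z + ε • d + η • τ) - z := by abel
        rw [this, hti]
        abel
      exact hrA a haz ε η t h1 h3 h4 ht0 h7
  have hη0 : 0 < r * (r / 2) / 2 := by positivity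
  refine ⟨z + (r / 2) • d + (r * (r / 2) / 2) • τ, ?_, r, hr0, ?_⟩
  · apply hmiss
    · linarith
    · linarith
    · exact hη0
    · linarith [hη0]
  · intro ε η h1 h2 h3 h4
    unfold Vis
    rw [mem_setOf_eq, Set.disjoint_left]
    intro y hy
    obtain ⟨a, b, ha, hb, hab, rfl⟩ := hy
    have hb' : b = 1 - a := by linarith
    have e1 : a • (z + (r / 2) • d + (r * (r / 2) / 2) • τ) + b • (z + ε • d + η • τ) =
        z + (a * (r / 2) + b * ε) • d + (a * (r * (r / 2) / 2) + b * η) • τ := by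
      have : z = a • z + b • z := by rw [← add_smul, hab, one_smul]
      conv_rhs => rw [this]
      simp only [smul_add, add_smul, mul_smul]
      abel
    rw [e1]
    have k1 : 0 < a * (r / 2) + b * ε :=
      (convex_Ioi (0 : ℝ)) (show r / 2 ∈ Ioi 0 by simp [hr0]) (show ε ∈ Ioi 0 from h1) ha hb hab
    have k2 : a * (r / 2) + b * ε < r :=
      (convex_Iio r) (show r / 2 ∈ Iio r by simp only [mem_Iio]; linarith)
        (show ε ∈ Iio r from h2) ha hb hab
    have k3 : 0 < a * (r * (r / 2) / 2) + b * η :=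
      (convex_Ioi (0 : ℝ)) (show r * (r / 2) / 2 ∈ Ioi 0 from hη0) (show η ∈ Ioi 0 from h3)
        ha hb hab
    have k4 : 0 < a * (r * (r / 2) - r * (r / 2) / 2) + b * (r * ε - η) :=
      (convex_Ioi (0 : ℝ)) (show r * (r / 2) - r * (r / 2) / 2 ∈ Ioi 0 by
        simp only [mem_Ioi]; linarith) (show r * ε - η ∈ Ioi 0 by simp only [mem_Ioi]; linarith)
        ha hb hab
    apply hmiss _ _ k1 k2 k3
    linarith

open Filter Topology in
/-- Job B4b. -/
theorem adj_unique (hT : IsT P Q Lam) {e : ι × Bool} {τ τ' : V} {x x' : V} (hx : x ∉ Sg P Q)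
    (hx' : x' ∉ Sg P Q) (hs : 0 < cr (dE P Q e) τ * cr (dE P Q e) τ')
    (h : Adj P Q e τ (Vis (Sg P Q) x)) (h' : Adj P Q e τ' (Vis (Sg P Q) x')) :
    Vis (Sg P Q) x = Vis (Sg P Q) x' := by
  set d := dE P Q e with hd
  have hc : cr τ d ≠ 0 := by
    intro h0
    rw [cr_comm d τ, h0] at hs
    simp at hs
  obtain ⟨p, q, hpq⟩ := adja_basis hc τ'
  have hq : 0 < q := by
    rw [hpq, cr_add_right, cr_smul_right, cr_smul_right, cr_self, mul_zero, zero_add] at hs
    have h1 : cr d τ * (q * cr d τ) = q * (cr d τ) ^ 2 := by ring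
    rw [h1] at hs
    exact (pos_iff_pos_of_mul_pos hs).2 (by
      have : 0 ≤ (cr d τ) ^ 2 := sq_nonneg _
      rcases this.lt_or_eq with h2 | h2
      · exact h2
      · rw [← h2, mul_zero] at hs
        exact absurd hs (lt_irrefl _))
  obtain ⟨r, hr, hW⟩ := h
  obtain ⟨r', hr', hW'⟩ := h'
  set ε := min r r' / 2 with hε
  have hε0 : 0 < ε := by
    have := lt_min hr hr'
    rw [hε]
    linarith
  have hεr : ε < r := by
    have h1 := min_le_left r r'
    have := lt_min hr hr'
    rw [hε]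
    linarith
  have hεr' : ε < r' := by
    have h1 := min_le_right r r'
    have := lt_min hr hr'
    rw [hε]
    linarith
  have t1 : Tendsto (fun η : ℝ => ε + η * p) (𝓝[>] 0) (𝓝 ε) := by
    have : Tendsto (fun η : ℝ => ε + η * p) (𝓝 0) (𝓝 (ε + 0 * p)) :=
      (continuous_const.add (continuous_id.mul continuous_const)).tendsto 0
    rw [zero_mul, add_zero] at this
    exact this.mono_left nhdsWithin_le_nhds
  have t2 : Tendsto (fun η : ℝ => r * (ε + η * p) - η * q) (𝓝[>] 0) (𝓝 (r * ε)) := by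
    have : Tendsto (fun η : ℝ => r * (ε + η * p) - η * q) (𝓝 0) (𝓝 (r * (ε + 0 * p) - 0 * q)) := by
      apply Continuous.tendsto
      fun_prop
    rw [zero_mul, add_zero, zero_mul, sub_zero] at this
    exact this.mono_left nhdsWithin_le_nhds
  have e1 := t1.eventually (lt_mem_nhds hε0)
  have e2 := t1.eventually (gt_mem_nhds hεr)
  have e3 := t2.eventually (lt_mem_nhds (mul_pos hr hε0))
  have e4 : ∀ᶠ η : ℝ in 𝓝[>] 0, η < r' * ε :=
    nhdsWithin_le_nhds (Iio_mem_nhds (by positivity))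
  obtain ⟨η, ⟨hη1, hη2, hη3, hη4, hη0⟩⟩ :=
    (e1.and (e2.and (e3.and (e4.and self_mem_nhdsWithin)))).exists
  have hη0 : 0 < η := hη0
  have m' := hW' ε η hε0 hεr' hη0 hη4
  have m := hW (ε + η * p) (η * q) hη1 hη2 (by positivity) (by linarith)
  have heq : zE P Q e + (ε + η * p) • dE P Q e + (η * q) • τ =
      zE P Q e + ε • dE P Q e + η • τ' := by
    rw [hpq, ← hd]
    simp only [smul_add, add_smul, mul_smul]
    abel
  rw [heq] at m
  rw [← Vis_eq hT hx m, ← Vis_eq hT hx' m']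

open Filter Topology in
/-- Job B4c.  Supporting functionals at an end: the functional of the segment. -/
theorem adj_supp_g (hT : IsT P Q Lam) {e : ι × Bool} {τ x : V} (hx : x ∉ Sg P Q)
    (h : Adj P Q e τ (Vis (Sg P Q) x)) (hc : cr (dE P Q e) τ ≠ 0) :
    ∀ w ∈ Vis (Sg P Q) x, 0 < cr (dE P Q e) τ * cr (dE P Q e) (w - zE P Q e) := by
  intro w hw
  by_contra hcon
  have hcon := not_lt.1 hcon
  set W := Vis (Sg P Q) x with hWdef
  set z := zE P Q e with hz
  set d := dE P Q e with hd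
  set c := cr d τ with hcdef
  have hc2 : 0 < c ^ 2 := by positivity
  -- a point strictly on the wrong side
  obtain ⟨w', hw', hneg⟩ : ∃ w' ∈ W, c * cr d (w' - z) < 0 := by
    have hopen := Vis_isOpen hT x
    have t1 : Tendsto (fun s : ℝ => w - s • τ) (𝓝[>] 0) (𝓝 w) := by
      have : Tendsto (fun s : ℝ => w - s • τ) (𝓝 0) (𝓝 (w - (0 : ℝ) • τ)) := by
        apply Continuous.tendsto
        fun_prop
      rw [zero_smul, sub_zero] at this
      exact this.mono_left nhdsWithin_le_nhds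
    have e1 := t1.eventually (hopen.mem_nhds hw)
    obtain ⟨s, hs1, hs0⟩ := (e1.and self_mem_nhdsWithin).exists
    have hs0 : 0 < s := hs0
    refine ⟨w - s • τ, hs1, ?_⟩
    have h1 : w - s • τ - z = (w - z) - s • τ := by abel
    rw [h1, cr_sub_right, cr_smul_right, ← hcdef]
    nlinarith
  obtain ⟨r, hr, hA⟩ := h
  set ε := min r 1 / 2 with hε
  have hm : 0 < min r 1 := lt_min hr one_pos
  have hε0 : 0 < ε := by rw [hε]; linarith
  have hεr : ε < r := by have := min_le_left r 1; rw [hε]; linarith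
  have hε1 : ε < 1 := by have := min_le_right r 1; rw [hε]; linarith
  set G := c * cr d (w' - z) with hG
  -- crossing parameter
  set lam : ℝ → ℝ := fun η => c ^ 2 * η / (c ^ 2 * η - G) with hlam
  have hlamt : Tendsto lam (𝓝[>] 0) (𝓝 0) := by
    have : ContinuousAt lam 0 := by
      apply ContinuousAt.div
      · fun_prop
      · fun_prop
      · simp only [mul_zero, zero_sub]
        exact (neg_pos.2 hneg).ne'
    have h2 := this.tendsto
    simp only [hlam, mul_zero, zero_div] at h2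
    exact h2.mono_left nhdsWithin_le_nhds
  set T : ℝ → ℝ := fun η => (lam η * cr (w' - z) τ + (1 - lam η) * (ε * c)) / c with hTdef
  have hTt : Tendsto T (𝓝[>] 0) (𝓝 ε) := by
    have h1 : Tendsto T (𝓝[>] 0) (𝓝 ((0 * cr (w' - z) τ + (1 - 0) * (ε * c)) / c)) := by
      apply Tendsto.div_const
      apply Tendsto.add
      · exact hlamt.mul_const _
      · exact (tendsto_const_nhds.sub hlamt).mul_const _
    have h2 : (0 * cr (w' - z) τ + (1 - 0) * (ε * c)) / c = ε := by
      field_simp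
      ring
    rwa [h2] at h1
  have e1 := hTt.eventually (Ioo_mem_nhds hε0 hε1)
  have e2 : ∀ᶠ η : ℝ in 𝓝[>] 0, η < r * ε :=
    nhdsWithin_le_nhds (Iio_mem_nhds (by positivity))
  obtain ⟨η, hη1, hη2, hη0⟩ := (e1.and (e2.and self_mem_nhdsWithin)).exists
  have hη0 : 0 < η := hη0
  have hy := hA ε η hε0 hεr hη0 hη2
  set y := z + ε • d + η • τ with hydef
  have hden : 0 < c ^ 2 * η - G := by
    have : 0 < c ^ 2 * η := by positivity
    linarith
  have hl0 : 0 ≤ lam η := by
    simp only [hlam]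
    positivity
  have hl1 : lam η ≤ 1 := by
    simp only [hlam]
    rw [div_le_one hden]
    linarith
  have hu : lam η • w' + (1 - lam η) • y ∈ W :=
    (Vis_convex hT hx) hw' hy hl0 (by linarith) (by ring)
  have hyz : y - z = ε • d + η • τ := by rw [hydef]; abel
  have huz : lam η • w' + (1 - lam η) • y - z =
      lam η • (w' - z) + (1 - lam η) • (ε • d + η • τ) := by
    rw [← hyz]
    simp only [smul_sub, sub_smul, one_smul]
    abel
  set u := lam η • w' + (1 - lam η) • y with hudef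
  have hcu : cr d (u - z) = 0 := by
    have h1 : c * cr d (u - z) = 0 := by
      rw [huz, cr_add_right, cr_smul_right, cr_smul_right, cr_add_right, cr_smul_right,
        cr_smul_right, cr_self, ← hcdef]
      have h2 : c * (lam η * cr d (w' - z) + (1 - lam η) * (ε * 0 + η * c)) =
          lam η * G + (1 - lam η) * (c ^ 2 * η) := by rw [hG]; ring
      rw [h2]
      simp only [hlam]
      field_simp
      ring
    exact (mul_eq_zero.1 h1).resolve_left hc
  have hcuτ : cr (u - z) τ = c * T η := by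
    rw [huz, cr_add_left, cr_smul_left, cr_smul_left, cr_add_left, cr_smul_left, cr_smul_left,
      cr_self, ← hcdef]
    simp only [hTdef]
    field_simp
    ring
  have hexp := cr_expand d τ (u - z)
  rw [← hcdef, hcuτ, cr_comm (u - z) d, hcu, neg_zero, zero_smul, sub_zero, mul_smul] at hexp
  have huT : u - z = T η • d := by
    have := smul_right_injective V hc hexp
    exact this
  have huz2 : u = z + T η • d := by rw [← huT]; abel
  have hmem := adja_oseg (P := P) (Q := Q) e hη1.1 hη1.2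
  rw [← hz, ← hd, ← huz2] at hmem
  have hS : u ∈ Sg P Q := mem_iUnion.2 ⟨e.1, openSegment_subset_segment ℝ _ _ hmem⟩
  exact (Set.disjoint_left.1 Vis_disjoint) hu hS

open Filter Topology in
/-- Job B4c. -/
theorem adj_closure {e : ι × Bool} {τ : V} {W : Set V} (h : Adj P Q e τ W) :
    zE P Q e ∈ closure W := by
  obtain ⟨r, hr, hA⟩ := h
  have t1 : Tendsto (fun ε : ℝ => zE P Q e + ε • dE P Q e + (r * ε / 2) • τ) (𝓝[>] 0)
      (𝓝 (zE P Q e)) := by
    have : Tendsto (fun ε : ℝ => zE P Q e + ε • dE P Q e + (r * ε / 2) • τ) (𝓝 0)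
        (𝓝 (zE P Q e + (0 : ℝ) • dE P Q e + (r * 0 / 2) • τ)) := by
      apply Continuous.tendsto
      fun_prop
    rw [zero_smul, add_zero, mul_zero, zero_div, zero_smul, add_zero] at this
    exact this.mono_left nhdsWithin_le_nhds
  apply mem_closure_of_tendsto t1
  have e1 : ∀ᶠ ε : ℝ in 𝓝[>] 0, ε < r := nhdsWithin_le_nhds (Iio_mem_nhds hr)
  filter_upwards [e1, self_mem_nhdsWithin] with ε h1 h0
  have h0 : 0 < ε := h0
  apply hA ε (r * ε / 2) h0 h1
  · positivity
  · have : 0 < r * ε := by positivity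
    linarith

open Filter Topology in
lemma adja_limit {a b s : ℝ} (h : ∀ᶠ η : ℝ in 𝓝[>] 0, 0 < s * (a + η * b)) : 0 ≤ s * a := by
  have t1 : Tendsto (fun η : ℝ => s * (a + η * b)) (𝓝[>] 0) (𝓝 (s * a)) := by
    have : Tendsto (fun η : ℝ => s * (a + η * b)) (𝓝 0) (𝓝 (s * (a + 0 * b))) := by
      apply Continuous.tendsto
      fun_prop
    rw [zero_mul, add_zero] at this
    exact this.mono_left nhdsWithin_le_nhds
  exact ge_of_tendsto t1 (h.mono fun _ h => h.le)

open Filter Topology in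
/-- Job B4c.  Supporting functionals at an end: the functional of the through segment. -/
theorem adj_supp_f (hT : IsT P Q Lam) {e : ι × Bool} {τ σ x : V} (hx : x ∉ Sg P Q)
    (h : Adj P Q e τ (Vis (Sg P Q) x)) (hσ : Thr P Q e σ) :
    ∀ w ∈ Vis (Sg P Q) x, 0 < cr σ (dE P Q e) * cr σ (w - zE P Q e) := by
  have hne := adja_cr_ne hT e hσ
  obtain ⟨j, hz, hj⟩ := hσ
  have hcl := adj_closure h
  have hside : (∀ w ∈ Vis (Sg P Q) x, 0 < (-1) * cr σ (w - zE P Q e)) ∨
      (∀ w ∈ Vis (Sg P Q) x, 0 < 1 * cr σ (w - zE P Q e)) := by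
    rcases one_side hT hx hcl hz with h1 | h1
    · rcases hj with rfl | rfl
      · left
        intro w hw
        have := h1 w hw
        linarith
      · right
        intro w hw
        have h2 := h1 w hw
        have h3 : P j - Q j = -(Q j - P j) := by abel
        rw [h3, cr_neg_left]
        linarith
    · rcases hj with rfl | rfl
      · right
        intro w hw
        have := h1 w hw
        linarith
      · left
        intro w hw
        have h2 := h1 w hw
        have h3 : P j - Q j = -(Q j - P j) := by abel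
        rw [h3, cr_neg_left]
        linarith
  obtain ⟨r, hr, hA⟩ := h
  have key : ∀ s : ℝ, (∀ w ∈ Vis (Sg P Q) x, 0 < s * cr σ (w - zE P Q e)) →
      0 ≤ s * cr σ (dE P Q e) := by
    intro s hs
    have hε0 : 0 < r / 2 := by linarith
    have e1 : ∀ᶠ η : ℝ in 𝓝[>] 0, η < r * (r / 2) :=
      nhdsWithin_le_nhds (Iio_mem_nhds (by positivity))
    have h1 : ∀ᶠ η : ℝ in 𝓝[>] 0, 0 < s * (r / 2 * cr σ (dE P Q e) + η * cr σ τ) := by
      filter_upwards [e1, self_mem_nhdsWithin] with η hη hη0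
      have hη0 : 0 < η := hη0
      have h2 := hs _ (hA (r / 2) η hε0 (by linarith) hη0 hη)
      have h3 : zE P Q e + (r / 2) • dE P Q e + η • τ - zE P Q e =
          (r / 2) • dE P Q e + η • τ := by abel
      rw [h3, cr_add_right, cr_smul_right, cr_smul_right] at h2
      exact h2
    have h4 := adja_limit h1
    have h5 : s * (r / 2 * cr σ (dE P Q e)) = (r / 2) * (s * cr σ (dE P Q e)) := by ring
    rw [h5] at h4
    exact nonneg_of_mul_nonneg_right h4 hε0
  intro w hw
  rcases hside with h1 | h1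
  · have h2 := key (-1) h1
    have h3 := h1 w hw
    have h4 : cr σ (dE P Q e) < 0 := lt_of_le_of_ne (by linarith) hne
    exact mul_pos_of_neg_of_neg h4 (by linarith)
  · have h2 := key 1 h1
    have h3 := h1 w hw
    have h4 : 0 < cr σ (dE P Q e) := lt_of_le_of_ne (by linarith) hne.symm
    exact mul_pos h4 (by linarith)

open Filter Topology in
lemma adja_half (hT : IsT P Q Lam) {e e' : ι × Bool} {τ τ' x : V} (hx : x ∉ Sg P Q)
    (hz : zE P Q e = zE P Q e') (hc : cr (dE P Q e) τ ≠ 0)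
    (hdd : cr (dE P Q e) (dE P Q e') ≠ 0)
    (h : Adj P Q e τ (Vis (Sg P Q) x)) (h' : Adj P Q e' τ' (Vis (Sg P Q) x)) :
    cr (dE P Q e) τ * cr (dE P Q e) (dE P Q e') > 0 := by
  have hg := adj_supp_g hT hx h hc
  obtain ⟨r, hr, hA⟩ := h'
  have hε0 : 0 < r / 2 := by linarith
  have e1 : ∀ᶠ η : ℝ in 𝓝[>] 0, η < r * (r / 2) :=
    nhdsWithin_le_nhds (Iio_mem_nhds (by positivity))
  have h1 : ∀ᶠ η : ℝ in 𝓝[>] 0, 0 < cr (dE P Q e) τ *
      (r / 2 * cr (dE P Q e) (dE P Q e') + η * cr (dE P Q e) τ') := by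
    filter_upwards [e1, self_mem_nhdsWithin] with η hη hη0
    have hη0 : 0 < η := hη0
    have h2 := hg _ (hA (r / 2) η hε0 (by linarith) hη0 hη)
    have h3 : zE P Q e' + (r / 2) • dE P Q e' + η • τ' - zE P Q e =
        (r / 2) • dE P Q e' + η • τ' := by rw [hz]; abel
    rw [h3, cr_add_right, cr_smul_right, cr_smul_right] at h2
    exact h2
  have h4 := adja_limit h1
  have h5 : cr (dE P Q e) τ * (r / 2 * cr (dE P Q e) (dE P Q e')) =
      (r / 2) * (cr (dE P Q e) τ * cr (dE P Q e) (dE P Q e')) := by ring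
  rw [h5] at h4
  have h6 := nonneg_of_mul_nonneg_right h4 hε0
  exact lt_of_le_of_ne h6 (mul_ne_zero hc hdd).symm

open Filter Topology in
/-- Job B4d.  Two different ends at the same point with the same face. -/
theorem adj_two (hT : IsT P Q Lam) {e e' : ι × Bool} {τ τ' x : V} (hx : x ∉ Sg P Q)
    (hne : e ≠ e') (hz : zE P Q e = zE P Q e') (hτ : Thr P Q e τ) (hτ' : Thr P Q e' τ')
    (h : Adj P Q e τ (Vis (Sg P Q) x)) (h' : Adj P Q e' τ' (Vis (Sg P Q) x)) :
    cr (dE P Q e) τ * cr (dE P Q e) (dE P Q e') > 0 ∧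
      cr (dE P Q e') τ' * cr (dE P Q e') (dE P Q e) > 0 := by
  have hc1 : cr (dE P Q e) τ ≠ 0 := by
    rw [cr_comm]
    exact neg_ne_zero.2 (adja_cr_ne hT e hτ)
  have hc2 : cr (dE P Q e') τ' ≠ 0 := by
    rw [cr_comm]
    exact neg_ne_zero.2 (adja_cr_ne hT e' hτ')
  have hii : e.1 ≠ e'.1 := by
    intro hi
    have hb : e.2 ≠ e'.2 := fun hb => hne (Prod.ext hi hb)
    unfold zE at hz
    rw [← hi] at hz
    have hPQ := hT.ne e.1
    cases h1 : e.2 <;> cases h2 : e'.2
    · exact hb (h1.trans h2.symm)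
    · rw [h1, h2] at hz
      simp only [Bool.false_eq_true, if_false, if_true] at hz
      exact hPQ hz
    · rw [h1, h2] at hz
      simp only [Bool.false_eq_true, if_false, if_true] at hz
      exact hPQ hz.symm
    · exact hb (h1.trans h2.symm)
  have hdd : cr (dE P Q e) (dE P Q e') ≠ 0 := by
    intro h0
    obtain ⟨μ, hμ⟩ := adja_par (adja_d_ne hT e) h0
    have hμ0 : μ ≠ 0 := by
      rintro rfl
      rw [zero_smul] at hμ
      exact adja_d_ne hT e' hμ
    rcases lt_or_gt_of_ne hμ0 with hneg | hpos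
    · have f1 := adj_supp_f hT hx h hτ x (self_mem_Vis hx)
      have hτ2 : Thr P Q e' τ := by
        obtain ⟨j, hj1, hj2⟩ := hτ
        exact ⟨j, hz ▸ hj1, hj2⟩
      have f2 := adj_supp_f hT hx h' hτ2 x (self_mem_Vis hx)
      rw [hμ, cr_smul_right, ← hz] at f2
      have : μ * cr τ (dE P Q e) * cr τ (x - zE P Q e) =
          μ * (cr τ (dE P Q e) * cr τ (x - zE P Q e)) := by ring
      rw [this] at f2
      have := mul_neg_of_neg_of_pos hneg f1
      linarith
    · -- the open segments overlap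
      have e1 : ∀ᶠ t : ℝ in 𝓝[>] 0, t < 1 := nhdsWithin_le_nhds (Iio_mem_nhds (by norm_num))
      have e2 : ∀ᶠ t : ℝ in 𝓝[>] 0, t < 1 / μ := nhdsWithin_le_nhds (Iio_mem_nhds (by positivity))
      obtain ⟨t, ht1, ht2, ht0⟩ := (e1.and (e2.and self_mem_nhdsWithin)).exists
      have ht0 : 0 < t := ht0
      have hle : t * μ < 1 := by rwa [lt_div_iff₀ hpos] at ht2
      have m1 := adja_oseg (P := P) (Q := Q) e' ht0 ht1
      have m2 := adja_oseg (P := P) (Q := Q) e (mul_pos ht0 hpos) hle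
      rw [hμ, smul_smul, ← hz] at m1
      exact (Set.disjoint_left.1 (hT.t1 e.1 e'.1 hii)) m2 m1
  refine ⟨adja_half hT hx hz hc1 hdd h h', ?_⟩
  apply adja_half hT hx hz.symm hc2 _ h' h
  rw [cr_comm]
  exact neg_ne_zero.2 hdd

end Pool.Agent.H.MP_929345_co.Pl
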