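import Mathlib
import Pool.Agent.H.MP_929345_co.Defs

/-! Planar case: basic definitions. -/

set_option autoImplicit false

open MeasureTheory Set

namespace Pool.Agent.H.MP_929345_co.Pl

/-- The plane (sup norm). -/
abbrev V := Fin 2 → ℝ

/-- Determinant. -/
def cr (x y : V) : ℝ := x 0 * y 1 - x 1 * y 0

/-- The linear functional with coefficient vector `a`, applied to `x`. -/
def ev (a x : V) : ℝ := a 0 * x 0 + a 1 * x 1

/-- Support function of `K`. -/
noncomputable def hs (K : Set V) (a : V) : ℝ := sSup (ev a '' K)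

/-- Area, as a real number. -/
noncomputable def vl (S : Set V) : ℝ := (volume S).toReal

/-- The parallelogram circumscribed about `C` with side functionals `a`, `b`. -/
def Par (C : Set V) (a b : V) : Set V := {x | |ev a x| ≤ hs C a ∧ |ev b x| ≤ hs C b}

/-- Infimum of the areas of the circumscribed parallelograms. -/
noncomputable def beta (C : Set V) : ℝ :=
  sInf {t | ∃ a b : V, cr a b ≠ 0 ∧ t = vl (Par C a b)}

/-- The corner between `C` and its support lines with functionals `a`, `b`. -/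
def Cor (C : Set V) (a b : V) : Set V :=
  {x | ev a x ≤ hs C a ∧ ev b x ≤ hs C b ∧
    ∃ s t : ℝ, 0 ≤ s ∧ 0 ≤ t ∧ hs C (s • a + t • b) < ev (s • a + t • b) x}

/-- Total separability of the translates `x + C`, `x ∈ X`, in terms of `ev` and `hs`. -/
def TS (C X : Set V) : Prop :=
  ∀ x ∈ X, ∀ y ∈ X, x ≠ y → ∃ (f : V) (t : ℝ), f ≠ 0 ∧ ev f x + hs C f ≤ t ∧ t ≤ ev f y - hs C f ∧
    ∀ z ∈ X, ev f z + hs C f ≤ t ∨ t ≤ ev f z - hs C f

/-- Perpendicular vector: `ev (pp x) y = cr x y`. -/
def pp (x : V) : V := ![-x 1, x 0]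

lemma ev_pp (x y : V) : ev (pp x) y = cr x y := by
  simp [ev, pp, cr]; ring

lemma ev_add (a x y : V) : ev a (x + y) = ev a x + ev a y := by
  simp [ev]; ring

lemma ev_sub (a x y : V) : ev a (x - y) = ev a x - ev a y := by
  simp [ev]; ring

lemma ev_smul (a : V) (t : ℝ) (x : V) : ev a (t • x) = t * ev a x := by
  simp [ev]; ring

lemma ev_neg (a x : V) : ev a (-x) = -ev a x := by
  simp [ev]; ring

lemma ev_add_left (a b x : V) : ev (a + b) x = ev a x + ev b x := by
  simp [ev]; ring

lemma ev_smul_left (t : ℝ) (a x : V) : ev (t • a) x = t * ev a x := by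
  simp [ev]; ring

lemma ev_neg_left (a x : V) : ev (-a) x = -ev a x := by
  simp [ev]; ring

lemma ev_zero (a : V) : ev a 0 = 0 := by simp [ev]

lemma ev_zero_left (x : V) : ev 0 x = 0 := by simp [ev]

lemma continuous_ev (a : V) : Continuous (ev a) := by
  unfold ev; fun_prop

lemma cr_add_right (x y z : V) : cr x (y + z) = cr x y + cr x z := by simp [cr]; ring
lemma cr_add_left (x y z : V) : cr (x + y) z = cr x z + cr y z := by simp [cr]; ring
lemma cr_sub_right (x y z : V) : cr x (y - z) = cr x y - cr x z := by simp [cr]; ring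
lemma cr_sub_left (x y z : V) : cr (x - y) z = cr x z - cr y z := by simp [cr]; ring
lemma cr_smul_right (x : V) (t : ℝ) (y : V) : cr x (t • y) = t * cr x y := by simp [cr]; ring
lemma cr_smul_left (x : V) (t : ℝ) (y : V) : cr (t • x) y = t * cr x y := by simp [cr]; ring
lemma cr_neg_right (x y : V) : cr x (-y) = -cr x y := by simp [cr]; ring
lemma cr_neg_left (x y : V) : cr (-x) y = -cr x y := by simp [cr]; ring
lemma cr_self (x : V) : cr x x = 0 := by simp [cr]; ring
lemma cr_comm (x y : V) : cr x y = -cr y x := by simp [cr]; ring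
lemma cr_zero_right (x : V) : cr x 0 = 0 := by simp [cr]
lemma cr_zero_left (x : V) : cr 0 x = 0 := by simp [cr]

/-- Expansion of a vector in a basis. -/
lemma cr_expand (x y z : V) : cr x y • z = cr z y • x - cr z x • y := by
  ext i; fin_cases i <;> simp [cr] <;> ring

lemma abs_cr_le (x y : V) : |cr x y| ≤ 2 * (‖x‖ * ‖y‖) := by
  have h0 := norm_le_pi_norm x 0
  have h1 := norm_le_pi_norm x 1
  have h2 := norm_le_pi_norm y 0
  have h3 := norm_le_pi_norm y 1
  rw [Real.norm_eq_abs] at h0 h1 h2 h3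
  have e1 : |x 0 * y 1| ≤ ‖x‖ * ‖y‖ := by
    rw [abs_mul]; exact mul_le_mul h0 h3 (abs_nonneg _) (norm_nonneg _)
  have e2 : |x 1 * y 0| ≤ ‖x‖ * ‖y‖ := by
    rw [abs_mul]; exact mul_le_mul h1 h2 (abs_nonneg _) (norm_nonneg _)
  unfold cr
  rw [abs_le] at *
  constructor <;> linarith [e1.1, e1.2, e2.1, e2.2]

lemma cr_ne_zero_left {x y : V} (h : cr x y ≠ 0) : x ≠ 0 := by
  rintro rfl; exact h (cr_zero_left y)

lemma cr_ne_zero_right {x y : V} (h : cr x y ≠ 0) : y ≠ 0 := by
  rintro rfl; exact h (cr_zero_right x)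

/-- Union of a family of segments. -/
def Sg {ι : Type*} (P Q : ι → V) : Set V := ⋃ i, segment ℝ (P i) (Q i)

/-- The points visible from `x` in the complement of `S`. -/
def Vis (S : Set V) (x : V) : Set V := {y | Disjoint (segment ℝ x y) S}

/-- A T-structure: locally finite family of segments, pairwise without common relative interior
points, every endpoint in the relative interior of a member, no long free segment. -/
structure IsT {ι : Type*} (P Q : ι → V) (Lam : ℝ) : Prop where
  ne : ∀ i, P i ≠ Q i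
  lf : ∀ R : ℝ, {i | (segment ℝ (P i) (Q i) ∩ Metric.closedBall 0 R).Nonempty}.Finite
  t1 : ∀ i j, i ≠ j → Disjoint (openSegment ℝ (P i) (Q i)) (openSegment ℝ (P j) (Q j))
  t2P : ∀ i, ∃ j, P i ∈ openSegment ℝ (P j) (Q j)
  t2Q : ∀ i, ∃ j, Q i ∈ openSegment ℝ (P j) (Q j)
  bd : ∀ x y, Disjoint (segment ℝ x y) (Sg P Q) → ‖y - x‖ ≤ Lam

/-- Position of the end `e`. -/
def zE {ι : Type*} (P Q : ι → V) (e : ι × Bool) : V := if e.2 then Q e.1 else P e.1

/-- Direction from the end `e` into its segment (a vector of full length). -/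
def dE {ι : Type*} (P Q : ι → V) (e : ι × Bool) : V :=
  if e.2 then P e.1 - Q e.1 else Q e.1 - P e.1

/-- `W` is adjacent to the segment of the end `e`, near this end, on the side of `τ`. -/
def Adj {ι : Type*} (P Q : ι → V) (e : ι × Bool) (τ : V) (W : Set V) : Prop :=
  ∃ r > 0, ∀ ε η : ℝ, 0 < ε → ε < r → 0 < η → η < r * ε →
    zE P Q e + ε • dE P Q e + η • τ ∈ W

/-- `τ` is one of the two direction vectors of a segment through the end `e`. -/
def Thr {ι : Type*} (P Q : ι → V) (e : ι × Bool) (τ : V) : Prop :=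
  ∃ j, zE P Q e ∈ openSegment ℝ (P j) (Q j) ∧ (τ = Q j - P j ∨ τ = P j - Q j)

end Pool.Agent.H.MP_929345_co.Pl
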