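import Pool.Agent.H.MP_929345_co.Pl.KapA

/-! A2a, A2b: the corner lemma -/

set_option autoImplicit false

open MeasureTheory Set
open scoped Pointwise

namespace Pool.Agent.H.MP_929345_co.Pl

variable {C K W : Set V}

/-- Job A2a.  Functionals which separate a point of the corner from `C` lie in the open cone. -/
theorem Cor_sep (hC : IsBody C) {a b x : V} (hab : cr a b ≠ 0) (hx : x ∈ Cor C a b) {s t : ℝ}
    (h : hs C (s • a + t • b) < ev (s • a + t • b) x) : 0 < s ∧ 0 < t :=
  Cor_sep' hC hx h

/-- Every functional is a combination of `a` and `b`. -/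
lemma exists_combo {a b : V} (hab : cr a b ≠ 0) (c : V) : ∃ s t : ℝ, c = s • a + t • b := by
  refine ⟨cr c b / cr a b, -(cr c a / cr a b), ?_⟩
  have h := cr_expand a b c
  have : c = (cr a b)⁻¹ • (cr a b • c) := by
    rw [smul_smul, inv_mul_cancel₀ hab, one_smul]
  rw [this, h]
  ext i
  simp only [Pi.smul_apply, Pi.add_apply, Pi.sub_apply, smul_eq_mul]
  have e1 : cr (cr c b • a - cr c a • b) b = cr c b * cr a b := by
    rw [cr_sub_left, cr_smul_left, cr_smul_left, cr_self]; ring
  have e2 : cr (cr c b • a - cr c a • b) a = cr c a * cr a b := by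
    rw [cr_sub_left, cr_smul_left, cr_smul_left, cr_self, cr_comm b a]; ring
  rw [cr_smul_left, cr_smul_left, e1, e2]
  field_simp
  ring

/-- If `s ≤ 0` or `t ≤ 0` then `s a + t b` at the ideal corner `k` of `K` is at most the support
function. -/
lemma ideal_le (hK : IsCompact K) (hKn : K.Nonempty) {a b k : V}
    (hka : ev a k = hs K a) (hkb : ev b k = hs K b) {s t : ℝ} (h : s ≤ 0 ∨ t ≤ 0) :
    ev (s • a + t • b) k ≤ hs K (s • a + t • b) := by
  rcases le_total 0 s with hs0 | hs0
  · -- then t ≤ 0 (or s = 0)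
    obtain ⟨y, hy, h1⟩ := exists_hs hK hKn a
    have h2 := le_hs hK hy b
    have h3 := le_hs hK hy (s • a + t • b)
    rcases h with h | h
    · have hs1 : s = 0 := le_antisymm h hs0
      subst hs1
      rcases le_total 0 t with ht | ht
      · obtain ⟨y, hy, h1⟩ := exists_hs hK hKn b
        have h3 := le_hs hK hy ((0 : ℝ) • a + t • b)
        refine le_trans ?_ h3
        rw [ev_add_left, ev_add_left, ev_smul_left, ev_smul_left, ev_smul_left, ev_smul_left,
          h1, hkb]
        simp
      · refine le_trans ?_ h3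
        rw [ev_add_left, ev_add_left, ev_smul_left, ev_smul_left, ev_smul_left, ev_smul_left,
          h1, hka, hkb]
        have := mul_le_mul_of_nonpos_left h2 ht
        linarith
    · refine le_trans ?_ h3
      rw [ev_add_left, ev_add_left, ev_smul_left, ev_smul_left, ev_smul_left, ev_smul_left,
        h1, hka, hkb]
      have := mul_le_mul_of_nonpos_left h2 h
      linarith
  · rcases le_total 0 t with ht | ht
    · obtain ⟨y, hy, h1⟩ := exists_hs hK hKn b
      have h2 := le_hs hK hy a
      have h3 := le_hs hK hy (s • a + t • b)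
      refine le_trans ?_ h3
      rw [ev_add_left, ev_add_left, ev_smul_left, ev_smul_left, ev_smul_left, ev_smul_left,
        h1, hka, hkb]
      have := mul_le_mul_of_nonpos_left h2 hs0
      linarith
    · obtain ⟨y, hy, h1⟩ := exists_hs hK hKn a
      have h2 := le_hs hK hy b
      have h3 := le_hs hK hy (s • a + t • b)
      refine le_trans ?_ h3
      rw [ev_add_left, ev_add_left, ev_smul_left, ev_smul_left, ev_smul_left, ev_smul_left,
        h1, hka, hkb]
      have := mul_le_mul_of_nonpos_left h2 ht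
      linarith

lemma hs_mono (hK : IsCompact K) (hKn : K.Nonempty) (hW : IsCompact W) (h : K ⊆ W) (c : V) :
    hs K c ≤ hs W c :=
  hs_le hKn fun _ hx => le_hs hW (h hx) c

/-- Job A2b.  The corner lemma: position. -/
theorem corner_mem (hC : IsBody C) (hK : IsCompact K) (hKn : K.Nonempty) (hW : IsCompact W)
    (hWc : Convex ℝ W) (hsub : K + C ⊆ W) {v a b : V} (hab : cr a b ≠ 0) (hv : v ∈ W)
    (ha : ∀ w ∈ W, ev a w ≤ ev a v) (hb : ∀ w ∈ W, ev b w ≤ ev b v) {k : V}
    (hka : ev a k = hs K a) (hkb : ev b k = hs K b) {x : V} (hx : x ∈ Cor C a b) :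
    k + x ∈ W := by
  have h0n : (C : Set V).Nonempty := ⟨0, zero_mem hC⟩
  by_contra hcon
  obtain ⟨c, hc⟩ := exists_sep hW hWc ⟨v, hv⟩ hcon
  obtain ⟨s, t, rfl⟩ := exists_combo hab c
  have hmono : ∀ u : V, hs K u + hs C u ≤ hs W u := by
    intro u
    rw [← hs_add hK hKn hC.compact h0n]
    exact hs_mono (hK.add hC.compact) (hKn.add h0n) hW hsub u
  have hWa : hs W a ≤ ev a v := hs_le ⟨v, hv⟩ ha
  have hWb : hs W b ≤ ev b v := hs_le ⟨v, hv⟩ hb
  by_cases hst : 0 < s ∧ 0 < t
  · have h1 := le_hs hW hv (s • a + t • b)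
    have h2 : ev a (k + x) ≤ ev a v := by
      rw [ev_add, hka]
      have := hmono a
      linarith [hx.1]
    have h3 : ev b (k + x) ≤ ev b v := by
      rw [ev_add, hkb]
      have := hmono b
      linarith [hx.2.1]
    have h4 : ev (s • a + t • b) (k + x) ≤ ev (s • a + t • b) v := by
      rw [ev_add_left, ev_add_left, ev_smul_left, ev_smul_left, ev_smul_left, ev_smul_left]
      have e1 := mul_le_mul_of_nonneg_left h2 hst.1.le
      have e2 := mul_le_mul_of_nonneg_left h3 hst.2.le
      linarith
    linarith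
  · have h5 : s ≤ 0 ∨ t ≤ 0 := by
      by_contra hc2
      push Not at hc2
      exact hst hc2
    have h6 := ideal_le hK hKn hka hkb h5
    have h7 : ev (s • a + t • b) x ≤ hs C (s • a + t • b) := by
      by_contra hc3
      push Not at hc3
      exact hst (Cor_sep' hC hx hc3)
    have h8 := hmono (s • a + t • b)
    rw [ev_add] at hc
    linarith

/-- Job A2b.  The corner lemma: functionals separating `k + x` from `K + C`. -/
theorem corner_sep (hC : IsBody C) (hK : IsCompact K) (hKn : K.Nonempty)
    {a b : V} (hab : cr a b ≠ 0) {k : V}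
    (hka : ev a k = hs K a) (hkb : ev b k = hs K b) {x : V} (hx : x ∈ Cor C a b) :
    (∃ c : V, hs (K + C) c < ev c (k + x)) ∧
      ∀ s t : ℝ, hs (K + C) (s • a + t • b) < ev (s • a + t • b) (k + x) → 0 < s ∧ 0 < t := by
  have h0n : (C : Set V).Nonempty := ⟨0, zero_mem hC⟩
  constructor
  · obtain ⟨s, t, h1, h2, h3⟩ := hx.2.2
    refine ⟨s • a + t • b, ?_⟩
    rw [hs_add hK hKn hC.compact h0n, ev_add]
    have h4 : hs K (s • a + t • b) ≤ ev (s • a + t • b) k := by
      refine (hs_add_le hK hKn _ _).trans ?_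
      rw [hs_smul hK hKn h1, hs_smul hK hKn h2, ev_add_left, ev_smul_left, ev_smul_left, hka, hkb]
    linarith
  · intro s t h
    by_contra hst
    have h5 : s ≤ 0 ∨ t ≤ 0 := by
      by_contra hc2
      push Not at hc2
      exact hst hc2
    have h6 := ideal_le hK hKn hka hkb h5
    rw [hs_add hK hKn hC.compact h0n, ev_add] at h
    exact hst (Cor_sep' hC hx (by linarith))

end Pool.Agent.H.MP_929345_co.Pl
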