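import Pool.Agent.H.MP_929345_co.Pl.Hs

/-! A1a: corners and parallelograms, measurability -/

set_option autoImplicit false

open MeasureTheory Set

namespace Pool.Agent.H.MP_929345_co.Pl

variable {C : Set V}

/-- The functionals which separate `x` from `C` form a convex cone. -/
lemma sep_add (hC : IsBody C) {u v x : V} (hu : hs C u < ev u x) (hv : hs C v < ev v x) :
    hs C (u + v) < ev (u + v) x := by
  have := hs_add_le hC.compact ⟨0, zero_mem hC⟩ u v
  rw [ev_add_left]
  linarith

lemma sep_smul (hC : IsBody C) {u x : V} {t : ℝ} (ht : 0 < t) (hu : hs C u < ev u x) :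
    hs C (t • u) < ev (t • u) x := by
  rw [hs_smul hC.compact ⟨0, zero_mem hC⟩ ht.le, ev_smul_left]
  exact mul_lt_mul_of_pos_left hu ht

lemma isOpen_sepCone (C : Set V) (a b : V) :
    IsOpen {x : V | ∃ s t : ℝ, 0 ≤ s ∧ 0 ≤ t ∧ hs C (s • a + t • b) < ev (s • a + t • b) x} := by
  have : {x : V | ∃ s t : ℝ, 0 ≤ s ∧ 0 ≤ t ∧ hs C (s • a + t • b) < ev (s • a + t • b) x}
      = ⋃ (s : ℝ) (t : ℝ) (_ : 0 ≤ s) (_ : 0 ≤ t),
        {x : V | hs C (s • a + t • b) < ev (s • a + t • b) x} := by
    ext x
    simp only [mem_iUnion, mem_setOf_eq, exists_prop]
  rw [this]
  refine isOpen_iUnion fun s => isOpen_iUnion fun t => isOpen_iUnion fun _ => isOpen_iUnion fun _ => ?_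
  exact isOpen_lt continuous_const (continuous_ev _)

/-- Job A1a. -/
theorem measurableSet_Cor (hC : IsBody C) (a b : V) : MeasurableSet (Cor C a b) := by
  have h1 : MeasurableSet {x : V | ev a x ≤ hs C a} :=
    (isClosed_le (continuous_ev a) continuous_const).measurableSet
  have h2 : MeasurableSet {x : V | ev b x ≤ hs C b} :=
    (isClosed_le (continuous_ev b) continuous_const).measurableSet
  exact h1.inter (h2.inter (isOpen_sepCone C a b).measurableSet)

/-- Job A1a. -/
theorem isCompact_Par (hC : IsBody C) {a b : V} (hab : cr a b ≠ 0) : IsCompact (Par C a b) := by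
  have hcl : IsClosed (Par C a b) := by
    have h1 : IsClosed {x : V | |ev a x| ≤ hs C a} :=
      isClosed_le (continuous_ev a).abs continuous_const
    have h2 : IsClosed {x : V | |ev b x| ≤ hs C b} :=
      isClosed_le (continuous_ev b).abs continuous_const
    exact h1.inter h2
  have hsub : Par C a b ⊆ Metric.closedBall 0
      ((|b 1| * hs C a + |a 1| * hs C b + (|a 0| * hs C b + |b 0| * hs C a)) / |cr a b|) := by
    intro x hx
    have hpos : 0 < |cr a b| := abs_pos.2 hab
    have ha := hx.1
    have hb := hx.2
    have ha0 := hs_nonneg hC a
    have hb0 := hs_nonneg hC b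
    have n1 : 0 ≤ |b 1| * hs C a := by positivity
    have n2 : 0 ≤ |a 1| * hs C b := by positivity
    have n3 : 0 ≤ |a 0| * hs C b := by positivity
    have n4 : 0 ≤ |b 0| * hs C a := by positivity
    rw [mem_closedBall_zero_iff, pi_norm_le_iff_of_nonneg (by positivity)]
    have e0 : cr a b * x 0 = b 1 * ev a x - a 1 * ev b x := by simp [cr, ev]; ring
    have e1 : cr a b * x 1 = a 0 * ev b x - b 0 * ev a x := by simp [cr, ev]; ring
    have k0 : |cr a b| * |x 0| ≤ |b 1| * hs C a + |a 1| * hs C b := by
      rw [← abs_mul, e0]
      refine (abs_sub _ _).trans ?_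
      rw [abs_mul, abs_mul]
      exact add_le_add (mul_le_mul_of_nonneg_left ha (abs_nonneg _))
        (mul_le_mul_of_nonneg_left hb (abs_nonneg _))
    have k1 : |cr a b| * |x 1| ≤ |a 0| * hs C b + |b 0| * hs C a := by
      rw [← abs_mul, e1]
      refine (abs_sub _ _).trans ?_
      rw [abs_mul, abs_mul]
      exact add_le_add (mul_le_mul_of_nonneg_left hb (abs_nonneg _))
        (mul_le_mul_of_nonneg_left ha (abs_nonneg _))
    intro i
    rw [Real.norm_eq_abs, le_div_iff₀ hpos]
    fin_cases i
    · simp only [Fin.zero_eta]; linarith
    · simp only [Fin.mk_one]; linarith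
  exact (isCompact_closedBall _ _).of_isClosed_subset hcl hsub

/-- Functionals which separate a point satisfying `a x ≤ h(a)`, `b x ≤ h(b)`, and which is
separated by a functional of the closed cone, lie in the open cone. -/
theorem Cor_sep' (hC : IsBody C) {a b x : V} (hx : x ∈ Cor C a b) {s t : ℝ}
    (h : hs C (s • a + t • b) < ev (s • a + t • b) x) : 0 < s ∧ 0 < t := by
  obtain ⟨h1, h2, s', t', hs', ht', h3⟩ := hx
  have h0n : (C : Set V).Nonempty := ⟨0, zero_mem hC⟩
  -- no functional `r • a` or `r • b`, `r ≥ 0`, separates
  have na : ∀ r : ℝ, 0 ≤ r → ¬ hs C (r • a) < ev (r • a) x := by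
    intro r hr hcon
    rw [hs_smul hC.compact h0n hr, ev_smul_left] at hcon
    have := mul_le_mul_of_nonneg_left h1 hr
    linarith
  have nb : ∀ r : ℝ, 0 ≤ r → ¬ hs C (r • b) < ev (r • b) x := by
    intro r hr hcon
    rw [hs_smul hC.compact h0n hr, ev_smul_left] at hcon
    have := mul_le_mul_of_nonneg_left h2 hr
    linarith
  have hs'' : 0 < s' := by
    rcases hs'.lt_or_eq with h' | h'
    · exact h'
    · exfalso
      rw [← h', zero_smul, zero_add] at h3
      exact nb t' ht' h3
  have ht'' : 0 < t' := by
    rcases ht'.lt_or_eq with h' | h'
    · exact h'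
    · exfalso
      rw [← h', zero_smul, add_zero] at h3
      exact na s' hs' h3
  constructor
  · by_contra hcon
    push Not at hcon
    -- combine: s' * (s a + t b) + (-s) * (s' a + t' b) = (s' t - s t') b
    rcases hcon.lt_or_eq with hlt | heq
    · have k1 := sep_smul hC hs'' h
      have k2 := sep_smul hC (t := -s) (by linarith) h3
      have k3 := sep_add hC k1 k2
      have e : s' • (s • a + t • b) + (-s) • (s' • a + t' • b) = (s' * t - s * t') • b := by
        ext i; simp; ring
      rw [e] at k3
      by_cases hr : 0 ≤ s' * t - s * t'
      · exact nb _ hr k3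
      · push Not at hr
        -- then t < 0; combine differently
        have ht0 : t < 0 := by nlinarith
        have k4 := sep_smul hC (t := -s / s') (by apply div_pos <;> linarith) h3
        have k5 := sep_smul hC (t := -t / t') (by apply div_pos <;> linarith) h3
        -- s a + t b + lambda (s' a + t' b) for lambda = max
        rcases le_total (-s / s') (-t / t') with hle | hle
        · have k6 := sep_add hC h k5
          have e2 : s • a + t • b + (-t / t') • (s' • a + t' • b)
              = (s + (-t / t') * s') • a := by
            have : (-t / t') * t' = -t := by field_simp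
            ext i
            simp only [Pi.add_apply, Pi.smul_apply, smul_eq_mul]
            linear_combination (b i) * this
          rw [e2] at k6
          refine na _ ?_ k6
          have : -s ≤ (-t / t') * s' := by
            have := mul_le_mul_of_nonneg_right hle hs'
            have e3 : -s / s' * s' = -s := by field_simp
            linarith
          linarith
        · have k6 := sep_add hC h k4
          have e2 : s • a + t • b + (-s / s') • (s' • a + t' • b)
              = (t + (-s / s') * t') • b := by
            have : (-s / s') * s' = -s := by field_simp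
            ext i
            simp only [Pi.add_apply, Pi.smul_apply, smul_eq_mul]
            linear_combination (a i) * this
          rw [e2] at k6
          refine nb _ ?_ k6
          have : -t ≤ (-s / s') * t' := by
            have := mul_le_mul_of_nonneg_right hle ht'
            have e3 : -t / t' * t' = -t := by field_simp
            linarith
          linarith
    · rw [heq, zero_smul, zero_add] at h
      by_cases ht0 : 0 ≤ t
      · exact nb t ht0 h
      · push Not at ht0
        have k5 := sep_smul hC (t := -t / t') (by apply div_pos <;> linarith) h3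
        have k6 := sep_add hC h k5
        have e2 : t • b + (-t / t') • (s' • a + t' • b) = ((-t / t') * s') • a := by
          have : (-t / t') * t' = -t := by field_simp
          ext i
          simp only [Pi.add_apply, Pi.smul_apply, smul_eq_mul]
          linear_combination (b i) * this
        rw [e2] at k6
        refine na _ ?_ k6
        have : 0 < -t / t' := by apply div_pos <;> linarith
        positivity
  · by_contra hcon
    push Not at hcon
    -- t ≤ 0
    rcases le_or_gt s 0 with hs0 | hs0
    · -- both ≤ 0
      rcases le_total (-s / s') (-t / t') with hle | hle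
      · rcases hcon.lt_or_eq with hlt | heq
        · have k5 := sep_smul hC (t := -t / t') (by apply div_pos <;> linarith) h3
          have k6 := sep_add hC h k5
          have e2 : s • a + t • b + (-t / t') • (s' • a + t' • b)
              = (s + (-t / t') * s') • a := by
            have : (-t / t') * t' = -t := by field_simp
            ext i
            simp only [Pi.add_apply, Pi.smul_apply, smul_eq_mul]
            linear_combination (b i) * this
          rw [e2] at k6
          refine na _ ?_ k6
          have := mul_le_mul_of_nonneg_right hle hs'
          have e3 : -s / s' * s' = -s := by field_simp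
          linarith
        · rw [heq] at hle h
          have : -s / s' ≤ 0 := by simpa using hle
          have hs1 : 0 ≤ s := by
            rw [div_le_iff₀ hs''] at this
            linarith
          have : s = 0 := le_antisymm hs0 hs1
          rw [this, zero_smul, zero_smul, add_zero, hs_zero h0n, ev_zero_left] at h
          exact lt_irrefl _ h
      · rcases hs0.lt_or_eq with hlt | heq
        · have k4 := sep_smul hC (t := -s / s') (by apply div_pos <;> linarith) h3
          have k6 := sep_add hC h k4
          have e2 : s • a + t • b + (-s / s') • (s' • a + t' • b)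
              = (t + (-s / s') * t') • b := by
            have : (-s / s') * s' = -s := by field_simp
            ext i
            simp only [Pi.add_apply, Pi.smul_apply, smul_eq_mul]
            linear_combination (a i) * this
          rw [e2] at k6
          refine nb _ ?_ k6
          have := mul_le_mul_of_nonneg_right hle ht'
          have e3 : -t / t' * t' = -t := by field_simp
          linarith
        · rw [heq] at hle h
          have : -t / t' ≤ 0 := by simpa using hle
          have ht1 : 0 ≤ t := by
            rw [div_le_iff₀ ht''] at this
            linarith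
          have : t = 0 := le_antisymm hcon ht1
          rw [this, zero_smul, zero_smul, add_zero, hs_zero h0n, ev_zero_left] at h
          exact lt_irrefl _ h
    · -- s > 0, t ≤ 0 : t' (s a + t b) + (-t) (s' a + t' b) = (t' s - t s') a
      have k1 := sep_smul hC ht'' h
      rcases hcon.lt_or_eq with hlt | heq
      · have k2 := sep_smul hC (t := -t) (by linarith) h3
        have k3 := sep_add hC k1 k2
        have e : t' • (s • a + t • b) + (-t) • (s' • a + t' • b) = (t' * s - t * s') • a := by
          ext i; simp; ring
        rw [e] at k3
        refine na _ ?_ k3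
        nlinarith
      · rw [heq, zero_smul, add_zero] at h
        exact na s hs0.le h

/-- Job A1a. -/
theorem Cor_subset_Par (hC : IsBody C) {a b : V} (hab : cr a b ≠ 0) : Cor C a b ⊆ Par C a b := by
  intro x hx
  have h1 := hx.1
  have h2 := hx.2.1
  refine ⟨abs_le.2 ⟨?_, h1⟩, abs_le.2 ⟨?_, h2⟩⟩
  · by_contra hcon
    push Not at hcon
    have h : hs C ((-1 : ℝ) • a + (0 : ℝ) • b) < ev ((-1 : ℝ) • a + (0 : ℝ) • b) x := by
      rw [zero_smul, add_zero, neg_smul, one_smul, hs_neg hC, ev_neg_left]
      linarith
    have := (Cor_sep' hC hx h).1
    linarith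
  · by_contra hcon
    push Not at hcon
    have h : hs C ((0 : ℝ) • a + (-1 : ℝ) • b) < ev ((0 : ℝ) • a + (-1 : ℝ) • b) x := by
      rw [zero_smul, zero_add, neg_smul, one_smul, hs_neg hC, ev_neg_left]
      linarith
    have := (Cor_sep' hC hx h).2
    linarith

end Pool.Agent.H.MP_929345_co.Pl
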