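import Pool.Agent.H.MP_929345_co.Pl.KapA
import Pool.Agent.H.MP_929345_co.Pl.CorA

/-! A1b: the areas of two opposite-sided corners -/

set_option autoImplicit false

open MeasureTheory Set
open scoped Pointwise

namespace Pool.Agent.H.MP_929345_co.Pl

variable {C : Set V}

lemma vl_neg (S : Set V) : vl (-S) = vl S := by
  unfold vl
  rw [Measure.measure_neg]

lemma vl_mono {S T : Set V} (h : S ⊆ T) (hT : volume T ≠ ⊤) : vl S ≤ vl T :=
  ENNReal.toReal_mono hT (measure_mono h)

lemma vl_nonneg (S : Set V) : 0 ≤ vl S := ENNReal.toReal_nonneg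

lemma vl_union {S T : Set V} (h : Disjoint S T) (hT : MeasurableSet T)
    (hS' : volume S ≠ ⊤) (hT' : volume T ≠ ⊤) : vl (S ∪ T) = vl S + vl T := by
  unfold vl
  rw [measure_union h hT, ENNReal.toReal_add hS' hT']

lemma Cor_neg_neg (hC : IsBody C) (a b : V) : Cor C (-a) (-b) = -(Cor C a b) := by
  ext x
  simp only [Cor, Set.mem_neg, mem_setOf_eq]
  rw [hs_neg hC, hs_neg hC, ev_neg_left, ev_neg_left, ev_neg, ev_neg]
  constructor
  · rintro ⟨h1, h2, s, t, h3, h4, h5⟩
    refine ⟨h1, h2, s, t, h3, h4, ?_⟩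
    have e : s • (-a) + t • (-b) = -(s • a + t • b) := by ext i; simp; ring
    rw [e, hs_neg hC, ev_neg_left] at h5
    rw [ev_neg]; exact h5
  · rintro ⟨h1, h2, s, t, h3, h4, h5⟩
    refine ⟨h1, h2, s, t, h3, h4, ?_⟩
    have e : s • (-a) + t • (-b) = -(s • a + t • b) := by ext i; simp; ring
    rw [e, hs_neg hC, ev_neg_left]
    rw [ev_neg] at h5; exact h5

lemma cr_neg_ne {a b : V} (hab : cr a b ≠ 0) : cr a (-b) ≠ 0 := by
  rw [cr_neg_right]; exact neg_ne_zero.2 hab

lemma Par_neg_right (hC : IsBody C) (a b : V) : Par C a (-b) = Par C a b := by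
  ext x
  simp only [Par, mem_setOf_eq, hs_neg hC, ev_neg_left, abs_neg]

lemma Par_neg_left (hC : IsBody C) (a b : V) : Par C (-a) b = Par C a b := by
  ext x
  simp only [Par, mem_setOf_eq, hs_neg hC, ev_neg_left, abs_neg]

lemma C_subset_Par (hC : IsBody C) (a b : V) : C ⊆ Par C a b := by
  intro x hx
  constructor
  · rw [abs_le]
    constructor
    · have := le_hs hC.compact hx (-a)
      rw [hs_neg hC, ev_neg_left] at this
      linarith
    · exact le_hs hC.compact hx a
  · rw [abs_le]
    constructor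
    · have := le_hs hC.compact hx (-b)
      rw [hs_neg hC, ev_neg_left] at this
      linarith
    · exact le_hs hC.compact hx b

lemma Cor_disj_C (hC : IsBody C) (a b : V) : Disjoint C (Cor C a b) := by
  rw [Set.disjoint_left]
  rintro x hx ⟨_, _, s, t, _, _, h⟩
  exact absurd (le_hs hC.compact hx _) (not_le.2 h)

lemma Cor_disj_right (hC : IsBody C) (a b : V) : Disjoint (Cor C a b) (Cor C a (-b)) := by
  rw [Set.disjoint_left]
  rintro x hx ⟨_, _, s, t, _, ht, h⟩
  have e : s • a + t • (-b) = s • a + (-t) • b := by ext i; simp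
  rw [e] at h
  have := (Cor_sep' hC hx h).2
  linarith

lemma Cor_disj_left (hC : IsBody C) (a b : V) : Disjoint (Cor C a b) (Cor C (-a) b) := by
  rw [Set.disjoint_left]
  rintro x hx ⟨_, _, s, t, hs', _, h⟩
  have e : s • (-a) + t • b = (-s) • a + t • b := by ext i; simp
  rw [e] at h
  have := (Cor_sep' hC hx h).1
  linarith

lemma Cor_disj_both (hC : IsBody C) (a b : V) : Disjoint (Cor C a b) (Cor C (-a) (-b)) := by
  rw [Set.disjoint_left]
  rintro x hx ⟨_, _, s, t, hs', _, h⟩
  have e : s • (-a) + t • (-b) = (-s) • a + (-t) • b := by ext i; simp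
  rw [e] at h
  have := (Cor_sep' hC hx h).1
  linarith

lemma Par_eq (hC : IsBody C) {a b : V} (hab : cr a b ≠ 0) :
    Par C a b = C ∪ ((Cor C a b ∪ Cor C a (-b)) ∪ (Cor C (-a) b ∪ Cor C (-a) (-b))) := by
  have h1 := Cor_subset_Par hC hab
  have h2 := Cor_subset_Par hC (cr_neg_ne hab)
  have hab' : cr (-a) b ≠ 0 := by rw [cr_neg_left]; exact neg_ne_zero.2 hab
  have h3 := Cor_subset_Par hC hab'
  have h4 := Cor_subset_Par hC (cr_neg_ne hab')
  rw [Par_neg_right hC] at h2
  rw [Par_neg_left hC] at h3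
  rw [Par_neg_right hC, Par_neg_left hC] at h4
  apply Subset.antisymm
  · intro x hx
    by_cases hxC : x ∈ C
    · exact Or.inl hxC
    · right
      obtain ⟨c, hc⟩ := exists_sep hC.compact hC.convex ⟨0, zero_mem hC⟩ hxC
      obtain ⟨s, t, rfl⟩ := exists_combo hab c
      have k1 := abs_le.1 hx.1
      have k2 := abs_le.1 hx.2
      rcases le_total 0 s with hs0 | hs0
      · rcases le_total 0 t with ht0 | ht0
        · exact Or.inl (Or.inl ⟨k1.2, k2.2, s, t, hs0, ht0, hc⟩)
        · refine Or.inl (Or.inr ⟨k1.2, ?_, s, -t, hs0, by linarith, ?_⟩)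
          · rw [hs_neg hC, ev_neg_left]; linarith [k2.1]
          · have e : s • a + (-t) • (-b) = s • a + t • b := by ext i; simp
            rw [e]; exact hc
      · rcases le_total 0 t with ht0 | ht0
        · refine Or.inr (Or.inl ⟨?_, k2.2, -s, t, by linarith, ht0, ?_⟩)
          · rw [hs_neg hC, ev_neg_left]; linarith [k1.1]
          · have e : (-s) • (-a) + t • b = s • a + t • b := by ext i; simp
            rw [e]; exact hc
        · refine Or.inr (Or.inr ⟨?_, ?_, -s, -t, by linarith, by linarith, ?_⟩)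
          · rw [hs_neg hC, ev_neg_left]; linarith [k1.1]
          · rw [hs_neg hC, ev_neg_left]; linarith [k2.1]
          · have e : (-s) • (-a) + (-t) • (-b) = s • a + t • b := by ext i; simp
            rw [e]; exact hc
  · exact union_subset (C_subset_Par hC a b) (union_subset (union_subset h1 h2)
      (union_subset h3 h4))

/-- Job A1b.  `Par \ C` is the disjoint union of the four corners; central symmetry. -/
theorem vl_Cor_pair (hC : IsBody C) {a b : V} (hab : cr a b ≠ 0) :
    vl (Cor C a b) + vl (Cor C a (-b)) = (vl (Par C a b) - vl C) / 2 := by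
  have hfin : volume (Par C a b) ≠ ⊤ := (isCompact_Par hC hab).measure_lt_top.ne
  have e := Par_eq hC hab
  have hsubs : ∀ S : Set V, S ⊆ Par C a b → volume S ≠ ⊤ := fun S hS =>
    ne_top_of_le_ne_top hfin (measure_mono hS)
  have s1 : C ⊆ Par C a b := by rw [e]; exact subset_union_left
  have s2 : Cor C a b ⊆ Par C a b := by
    rw [e]; exact (subset_union_left.trans subset_union_left).trans subset_union_right
  have s3 : Cor C a (-b) ⊆ Par C a b := by
    rw [e]; exact (subset_union_right.trans subset_union_left).trans subset_union_right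
  have s4 : Cor C (-a) b ⊆ Par C a b := by
    rw [e]; exact (subset_union_left.trans subset_union_right).trans subset_union_right
  have s5 : Cor C (-a) (-b) ⊆ Par C a b := by
    rw [e]; exact (subset_union_right.trans subset_union_right).trans subset_union_right
  have m1 := measurableSet_Cor hC a b
  have m2 := measurableSet_Cor hC a (-b)
  have m3 := measurableSet_Cor hC (-a) b
  have m4 := measurableSet_Cor hC (-a) (-b)
  have d12 := Cor_disj_right hC a b
  have d34 := Cor_disj_right hC (-a) b
  have d13 := Cor_disj_left hC a b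
  have d14 := Cor_disj_both hC a b
  have d23 : Disjoint (Cor C a (-b)) (Cor C (-a) b) := by
    have := Cor_disj_both hC a (-b)
    rwa [neg_neg] at this
  have d24 : Disjoint (Cor C a (-b)) (Cor C (-a) (-b)) := Cor_disj_left hC a (-b)
  have hu12 : vl (Cor C a b ∪ Cor C a (-b)) = vl (Cor C a b) + vl (Cor C a (-b)) :=
    vl_union d12 m2 (hsubs _ s2) (hsubs _ s3)
  have hu34 : vl (Cor C (-a) b ∪ Cor C (-a) (-b)) = vl (Cor C (-a) b) + vl (Cor C (-a) (-b)) :=
    vl_union d34 m4 (hsubs _ s4) (hsubs _ s5)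
  have hu : vl ((Cor C a b ∪ Cor C a (-b)) ∪ (Cor C (-a) b ∪ Cor C (-a) (-b)))
      = vl (Cor C a b ∪ Cor C a (-b)) + vl (Cor C (-a) b ∪ Cor C (-a) (-b)) := by
    apply vl_union
    · rw [disjoint_union_left, disjoint_union_right, disjoint_union_right]
      exact ⟨⟨d13, d14⟩, ⟨d23, d24⟩⟩
    · exact m3.union m4
    · exact hsubs _ (union_subset s2 s3)
    · exact hsubs _ (union_subset s4 s5)
  have htot : vl (Par C a b)
      = vl C + vl ((Cor C a b ∪ Cor C a (-b)) ∪ (Cor C (-a) b ∪ Cor C (-a) (-b))) := by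
    conv_lhs => rw [e]
    apply vl_union
    · rw [disjoint_union_right, disjoint_union_right, disjoint_union_right]
      exact ⟨⟨Cor_disj_C hC _ _, Cor_disj_C hC _ _⟩, ⟨Cor_disj_C hC _ _, Cor_disj_C hC _ _⟩⟩
    · exact (m1.union m2).union (m3.union m4)
    · exact hsubs _ s1
    · exact hsubs _ (union_subset (union_subset s2 s3) (union_subset s4 s5))
  have n1 : vl (Cor C (-a) (-b)) = vl (Cor C a b) := by rw [Cor_neg_neg hC, vl_neg]
  have n2 : vl (Cor C (-a) b) = vl (Cor C a (-b)) := by
    have := Cor_neg_neg hC a (-b)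
    rw [neg_neg] at this
    rw [this, vl_neg]
  rw [hu, hu12, hu34, n1, n2] at htot
  linarith

end Pool.Agent.H.MP_929345_co.Pl
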