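import Pool.Agent.H.MP_929345_co.Pl.CorA
import Pool.Agent.H.MP_929345_co.Pl.KapA
import Pool.Agent.H.MP_929345_co.Pl.KapB

/-! A2c, A2d: sum over corners -/

set_option autoImplicit false

open MeasureTheory Set
open scoped Pointwise

namespace Pool.Agent.H.MP_929345_co.Pl

variable {C K W : Set V}

lemma exists_ideal (K : Set V) {a b : V} (hab : cr a b ≠ 0) :
    ∃ k : V, ev a k = hs K a ∧ ev b k = hs K b := by
  refine ⟨![(b 1 * hs K a - a 1 * hs K b) / cr a b, (a 0 * hs K b - b 0 * hs K a) / cr a b], ?_, ?_⟩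
  · have h : cr a b ≠ 0 := hab
    simp only [ev, Matrix.cons_val_zero, Matrix.cons_val_one]
    field_simp
    simp only [cr]; ring
  · have h : cr a b ≠ 0 := hab
    simp only [ev, Matrix.cons_val_zero, Matrix.cons_val_one]
    field_simp
    simp only [cr]; ring

lemma vl_add_image (k : V) (S : Set V) : vl ((fun x => k + x) '' S) = vl S := by
  unfold vl
  rw [image_add_left, measure_preimage_add]

lemma measurableSet_add_image {k : V} {S : Set V} (hS : MeasurableSet S) :
    MeasurableSet ((fun x => k + x) '' S) := by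
  rw [image_add_left]
  exact (measurable_const_add (-k)) hS

/-- Job A2c.  The corner lemma: sum over corners. -/
theorem corner_sum (hC : IsBody C) (hK : IsCompact K) (hKc : Convex ℝ K) (hKn : K.Nonempty)
    (hW : IsCompact W) (hWc : Convex ℝ W) (hsub : K + C ⊆ W)
    {J : Type*} (s : Finset J) (v a b : J → V)
    (hind : ∀ j ∈ s, cr (a j) (b j) ≠ 0) (hv : ∀ j ∈ s, v j ∈ W)
    (ha : ∀ j ∈ s, ∀ w ∈ W, ev (a j) w ≤ ev (a j) (v j))
    (hb : ∀ j ∈ s, ∀ w ∈ W, ev (b j) w ≤ ev (b j) (v j))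
    (hdis : ∀ i ∈ s, ∀ j ∈ s, i ≠ j → ∀ p q p' q' : ℝ, 0 < p → 0 < q → 0 < p' → 0 < q' →
      p • a i + q • b i ≠ p' • a j + q' • b j) :
    vl (K + C) + ∑ j ∈ s, vl (Cor C (a j) (b j)) ≤ vl W := by
  have h0n : (C : Set V).Nonempty := ⟨0, zero_mem hC⟩
  have hKC : IsCompact (K + C) := hK.add hC.compact
  have hKCc : Convex ℝ (K + C) := hKc.add hC.convex
  have hKCn : (K + C).Nonempty := hKn.add h0n
  have hWfin : volume W ≠ ⊤ := hW.measure_lt_top.ne
  have hex : ∀ j, ∃ k : V, j ∈ s → ev (a j) k = hs K (a j) ∧ ev (b j) k = hs K (b j) := by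
    intro j
    by_cases hj : j ∈ s
    · obtain ⟨k, hk⟩ := exists_ideal K (hind j hj)
      exact ⟨k, fun _ => hk⟩
    · exact ⟨0, fun h => absurd h hj⟩
  choose k hk using hex
  set R : J → Set V := fun j => (fun x => k j + x) '' Cor C (a j) (b j) with hR
  have hRW : ∀ j ∈ s, R j ⊆ W := by
    rintro j hj _ ⟨x, hx, rfl⟩
    exact corner_mem hC hK hKn hW hWc hsub (hind j hj) (hv j hj) (ha j hj) (hb j hj)
      (hk j hj).1 (hk j hj).2 hx
  have hRm : ∀ j, MeasurableSet (R j) := fun j => measurableSet_add_image (measurableSet_Cor hC _ _)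
  have hnot : ∀ j ∈ s, ∀ z ∈ R j, z ∉ K + C := by
    rintro j hj _ ⟨x, hx, rfl⟩ hz
    obtain ⟨c, hc⟩ := (corner_sep hC hK hKn (hind j hj) (hk j hj).1 (hk j hj).2 hx).1
    exact absurd (le_hs hKC hz c) (not_le.2 hc)
  have hdisj : ∀ i ∈ s, ∀ j ∈ s, i ≠ j → Disjoint (R i) (R j) := by
    intro i hi j hj hij
    rw [Set.disjoint_left]
    rintro z hzi hzj
    have hz := hnot i hi z hzi
    obtain ⟨c, hc⟩ := exists_sep hKC hKCc hKCn hz
    obtain ⟨p, q, rfl⟩ := exists_combo (hind i hi) c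
    obtain ⟨p', q', he⟩ := exists_combo (hind j hj) (p • a i + q • b i)
    obtain ⟨x, hx, hxe⟩ := hzi
    obtain ⟨y, hy, hye⟩ := hzj
    simp only at hxe hye
    have h1 := (corner_sep hC hK hKn (hind i hi) (hk i hi).1 (hk i hi).2 hx).2 p q
      (by rw [hxe]; exact hc)
    have h2 := (corner_sep hC hK hKn (hind j hj) (hk j hj).1 (hk j hj).2 hy).2 p' q'
      (by rw [hye, ← he]; exact hc)
    exact hdis i hi j hj hij p q p' q' h1.1 h1.2 h2.1 h2.2 he
  have hUm : MeasurableSet (⋃ j ∈ s, R j) := s.measurableSet_biUnion fun j _ => hRm j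
  have hUW : (⋃ j ∈ s, R j) ⊆ W := iUnion₂_subset hRW
  have hUfin : volume (⋃ j ∈ s, R j) ≠ ⊤ := ne_top_of_le_ne_top hWfin (measure_mono hUW)
  have hUvol : vl (⋃ j ∈ s, R j) = ∑ j ∈ s, vl (Cor C (a j) (b j)) := by
    have h1 : volume (⋃ j ∈ s, R j) = ∑ j ∈ s, volume (R j) := by
      apply measure_biUnion_finset
      · intro i hi j hj hij
        exact hdisj i hi j hj hij
      · intro j _; exact hRm j
    unfold vl
    rw [h1, ENNReal.toReal_sum]
    · apply Finset.sum_congr rfl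
      intro j _
      exact vl_add_image (k j) _
    · intro j hj
      exact ne_top_of_le_ne_top hWfin (measure_mono (hRW j hj))
  have hd : Disjoint (K + C) (⋃ j ∈ s, R j) := by
    rw [Set.disjoint_left]
    intro z hz hz2
    simp only [mem_iUnion] at hz2
    obtain ⟨j, hj, hzj⟩ := hz2
    exact hnot j hj z hzj hz
  have htot := vl_union hd hUm (ne_top_of_le_ne_top hWfin (measure_mono hsub)) hUfin
  rw [← hUvol, ← htot]
  exact vl_mono (union_subset hsub hUW) hWfin

/-- Job A2d.  Corners at different points have disjoint open cones. -/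
theorem cones_disjoint {v v' a b a' b' : V} (hab : cr a b ≠ 0)
    (hv : v ∈ W) (ha : ∀ w ∈ W, ev a w ≤ ev a v) (hb : ∀ w ∈ W, ev b w ≤ ev b v)
    (hv' : v' ∈ W) (ha' : ∀ w ∈ W, ev a' w ≤ ev a' v') (hb' : ∀ w ∈ W, ev b' w ≤ ev b' v')
    (hne : v ≠ v') {p q p' q' : ℝ} (hp : 0 < p) (hq : 0 < q) (hp' : 0 < p') (hq' : 0 < q') :
    p • a + q • b ≠ p' • a' + q' • b' := by
  intro he
  have h1 : ev (p • a + q • b) v ≤ ev (p • a + q • b) v' := by
    rw [he, ev_add_left, ev_add_left, ev_smul_left, ev_smul_left, ev_smul_left, ev_smul_left]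
    have e1 := mul_le_mul_of_nonneg_left (ha' v hv) hp'.le
    have e2 := mul_le_mul_of_nonneg_left (hb' v hv) hq'.le
    linarith
  rw [ev_add_left, ev_add_left, ev_smul_left, ev_smul_left, ev_smul_left, ev_smul_left] at h1
  have h2 := ha v' hv'
  have h3 := hb v' hv'
  have h4 : ev a v' = ev a v := by
    apply le_antisymm h2
    by_contra hcon
    push Not at hcon
    have := mul_lt_mul_of_pos_left hcon hp
    have := mul_le_mul_of_nonneg_left h3 hq.le
    linarith
  have h5 : ev b v' = ev b v := by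
    apply le_antisymm h3
    by_contra hcon
    push Not at hcon
    have := mul_lt_mul_of_pos_left hcon hq
    have := mul_le_mul_of_nonneg_left h2 hp.le
    linarith
  apply hne
  have e0 : ∀ x : V, cr a b * x 0 = b 1 * ev a x - a 1 * ev b x := by
    intro x; simp [cr, ev]; ring
  have e1 : ∀ x : V, cr a b * x 1 = a 0 * ev b x - b 0 * ev a x := by
    intro x; simp [cr, ev]; ring
  ext i
  fin_cases i
  · have := e0 v
    rw [← h4, ← h5, ← e0 v'] at this
    exact mul_left_cancel₀ hab this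
  · have := e1 v
    rw [← h4, ← h5, ← e1 v'] at this
    exact mul_left_cancel₀ hab this

end Pool.Agent.H.MP_929345_co.Pl
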