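import Pool.Agent.H.MP_929345_co.Pl.Base

/-! crosses with whiskers: definitions -/

set_option autoImplicit false

open MeasureTheory Set

namespace Pool.Agent.H.MP_929345_co.Pl

/-- Arms `k`, `l` of the same cross lie on the same line. -/
def sameL (k l : Fin 4) : Prop := (k.val / 2 = l.val / 2)

instance (k l : Fin 4) : Decidable (sameL k l) := by unfold sameL; infer_instance

/-- Crosses: centres `b i`, unit directions `d i k` (`k < 4`, `d i 1 = - d i 0`,
`d i 3 = - d i 2`), whisker lengths `tp i k`.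
`L0 ≤ tp ≤ L1`; `T`: every segment of length `≥ T` crosses a whisker; `δ`: clearance of the tips;
`a1`, `r`: segments on different lines with points at distance `≤ r` have determinant `≥ a1`. -/
structure IsCro {I : Type*} (b : I → V) (d : I → Fin 4 → V) (tp : I → Fin 4 → ℝ)
    (L0 L1 T δ a1 r : ℝ) : Prop where
  L0pos : 0 < L0
  Tpos : 0 < T
  δpos : 0 < δ
  δL : δ < L0
  a1pos : 0 < a1
  rpos : 0 < r
  d1 : ∀ i, d i 1 = - d i 0
  d3 : ∀ i, d i 3 = - d i 2
  dn : ∀ i k, ‖d i k‖ = 1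
  tp0 : ∀ i k, L0 ≤ tp i k
  tp1 : ∀ i k, tp i k ≤ L1
  fin : ∀ R : ℝ, {i | ‖b i‖ ≤ R}.Finite
  /-- whiskers of different crosses are disjoint -/
  wh : ∀ i j, i ≠ j → ∀ k l s t, 0 ≤ s → s ≤ tp i k → 0 ≤ t → t ≤ tp j l →
    b i + s • d i k ≠ b j + t • d j l
  /-- tips are far from the arms of other crosses -/
  clr : ∀ i j, i ≠ j → ∀ k l s, 0 ≤ s → s ≤ L1 + T →
    δ ≤ ‖b j + s • d j l - (b i + tp i k • d i k)‖
  /-- angles -/
  ang : ∀ i j k l, (i ≠ j ∨ ¬ sameL k l) → ∀ s t, 0 ≤ s → s ≤ L1 + T → 0 ≤ t → t ≤ L1 + T →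
    ‖b i + s • d i k - (b j + t • d j l)‖ ≤ r → a1 ≤ |cr (d i k) (d j l)|
  /-- directions of the same cross -/
  ang0 : ∀ i k l, ¬ sameL k l → a1 ≤ |cr (d i k) (d i l)|
  /-- every long segment crosses a whisker -/
  blk : ∀ p q : V, T ≤ ‖p - q‖ → ∃ i k, ∃ y ∈ segment ℝ p q, y ≠ p ∧ y ≠ q ∧
    ∃ t, 0 ≤ t ∧ t < tp i k ∧ y = b i + t • d i k

/-- The part of the structure which is present when the arm `A` is extended: whiskers, and the
arms `B` with `ord B < ord A`, on other lines. -/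
def Pres {I : Type*} (b : I → V) (d : I → Fin 4 → V) (tp : I → Fin 4 → ℝ)
    (ord : I × Fin 4 → ℕ) (len : I × Fin 4 → ℝ) (A : I × Fin 4) : Set V :=
  {y | ∃ B : I × Fin 4, (A.1 ≠ B.1 ∨ ¬ sameL A.2 B.2) ∧
    ∃ s, 0 ≤ s ∧ s ≤ (if ord B < ord A then len B else tp B.1 B.2) ∧ y = b B.1 + s • d B.1 B.2}

/-- The lengths obtained by extending the arms one after the other. -/
structure IsExt {I : Type*} (b : I → V) (d : I → Fin 4 → V) (tp : I → Fin 4 → ℝ) (T : ℝ)
    (ord : I × Fin 4 → ℕ) (len : I × Fin 4 → ℝ) : Prop where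
  inj : Function.Injective ord
  ge : ∀ A, tp A.1 A.2 ≤ len A
  le : ∀ A, len A ≤ tp A.1 A.2 + T
  hit : ∀ A, b A.1 + len A • d A.1 A.2 ∈ Pres b d tp ord len A
  free : ∀ A t, tp A.1 A.2 ≤ t → t < len A → b A.1 + t • d A.1 A.2 ∉ Pres b d tp ord len A

/-- First endpoint of the objects: `0` the whole line `u`, `1`, `2` the two halves of the
line `v`. -/
def oP {I : Type*} (b : I → V) (d : I → Fin 4 → V) (len : I × Fin 4 → ℝ) (o : I × Fin 3) : V :=
  if o.2 = 0 then b o.1 + len (o.1, 1) • d o.1 1 else b o.1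

/-- Second endpoint of the objects. -/
def oQ {I : Type*} (b : I → V) (d : I → Fin 4 → V) (len : I × Fin 4 → ℝ) (o : I × Fin 3) : V :=
  if o.2 = 0 then b o.1 + len (o.1, 0) • d o.1 0
  else if o.2 = 1 then b o.1 + len (o.1, 2) • d o.1 2 else b o.1 + len (o.1, 3) • d o.1 3

/-- The object of an arm. -/
def obj {I : Type*} (A : I × Fin 4) : I × Fin 3 :=
  (A.1, if A.2 = 0 ∨ A.2 = 1 then 0 else if A.2 = 2 then 1 else 2)

end Pool.Agent.H.MP_929345_co.Pl
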