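import Pool.Agent.H.MP_929345_co.Pl.CrDef

/-! C5: extension of the arms -/

set_option autoImplicit false

open MeasureTheory Set

namespace Pool.Agent.H.MP_929345_co.Pl

section

variable {I : Type*} {b : I → V} {d : I → Fin 4 → V} {tp : I → Fin 4 → ℝ}
  {L0 L1 T δ a1 r : ℝ}

/-- one step of the extension -/
noncomputable def exta_F (b : I → V) (d : I → Fin 4 → V) (tp : I → Fin 4 → ℝ)
    (ord : I × Fin 4 → ℕ) (A : I × Fin 4)
    (pre : (B : I × Fin 4) → (measure ord).rel B A → ℝ) : ℝ :=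
  sInf {t | tp A.1 A.2 ≤ t ∧ ∃ B : I × Fin 4, (A.1 ≠ B.1 ∨ ¬ sameL A.2 B.2) ∧
    ∃ s, 0 ≤ s ∧ s ≤ (if h : ord B < ord A then pre B h else tp B.1 B.2) ∧
      b A.1 + t • d A.1 A.2 = b B.1 + s • d B.1 B.2}

/-- the lengths after the extension -/
noncomputable def exta_len (b : I → V) (d : I → Fin 4 → V) (tp : I → Fin 4 → ℝ)
    (ord : I × Fin 4 → ℕ) : I × Fin 4 → ℝ :=
  WellFounded.fix (measure ord).wf (exta_F b d tp ord)

theorem exta_len_eq (b : I → V) (d : I → Fin 4 → V) (tp : I → Fin 4 → ℝ)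
    (ord : I × Fin 4 → ℕ) (A : I × Fin 4) :
    exta_len b d tp ord A = sInf {t | tp A.1 A.2 ≤ t ∧
      b A.1 + t • d A.1 A.2 ∈ Pres b d tp ord (exta_len b d tp ord) A} := by
  unfold exta_len
  rw [WellFounded.fix_eq]
  rfl

/-- two arms on the same line have equal or opposite directions -/
theorem exta_dir (h : IsCro b d tp L0 L1 T δ a1 r) (i : I) (k l : Fin 4) (hkl : sameL k l) :
    (k = l) ∨ d i l = - d i k := by
  have h1 := h.d1 i
  have h3 := h.d3 i
  fin_cases k <;> fin_cases l <;> simp [sameL] at hkl ⊢ <;> first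
    | exact h1
    | exact h3
    | (rw [h1, neg_neg])
    | (rw [h3, neg_neg])

theorem exta_smul (h : IsCro b d tp L0 L1 T δ a1 r) (i : I) (k : Fin 4) {s : ℝ}
    (hs : s • d i k = 0) : s = 0 := by
  rcases smul_eq_zero.mp hs with h1 | h1
  · exact h1
  · have h2 := h.dn i k
    rw [h1, norm_zero] at h2
    exact absurd h2 (by norm_num)

/-- there is a hit at distance at most `T` -/
theorem exta_hit (h : IsCro b d tp L0 L1 T δ a1 r) (ord : I × Fin 4 → ℕ)
    (len : I × Fin 4 → ℝ) (A : I × Fin 4)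
    (hge : ∀ B, ord B < ord A → tp B.1 B.2 ≤ len B) :
    ∃ t, tp A.1 A.2 ≤ t ∧ t ≤ tp A.1 A.2 + T ∧
      b A.1 + t • d A.1 A.2 ∈ Pres b d tp ord len A := by
  obtain ⟨i, k⟩ := A
  simp only
  have hT := h.Tpos
  have htp := h.tp0 i k
  have hL0 := h.L0pos
  have hn : T ≤ ‖b i + tp i k • d i k - (b i + (tp i k + T) • d i k)‖ := by
    have h1 : b i + tp i k • d i k - (b i + (tp i k + T) • d i k) = (-T) • d i k := by
      module
    rw [h1, norm_smul, h.dn, mul_one, Real.norm_eq_abs, abs_neg, abs_of_pos hT]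
  obtain ⟨j, l, y, hy, hyp, hyq, t, ht0, ht1, hyt⟩ := h.blk _ _ hn
  rw [segment_eq_image] at hy
  obtain ⟨θ, ⟨hθ0, hθ1⟩, hθ⟩ := hy
  have hθ' : y = b i + (tp i k + θ * T) • d i k := by
    rw [← hθ]
    module
  have hθp : 0 < θ := by
    rcases hθ0.eq_or_lt with h0 | h0
    · exfalso
      apply hyp
      rw [hθ', ← h0, zero_mul, add_zero]
    · exact h0
  have hθT : 0 < θ * T := mul_pos hθp hT
  refine ⟨tp i k + θ * T, by linarith, ?_, (j, l), ?_, t, ht0, ?_, ?_⟩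
  · nlinarith
  · by_contra hcon
    push Not at hcon
    obtain ⟨hij, hkl⟩ := hcon
    simp only at hij hkl
    subst hij
    rw [hyt] at hθ'
    have h1 : t • d i l = (tp i k + θ * T) • d i k := add_left_cancel hθ'
    rcases exta_dir h i k l hkl with h2 | h2
    · subst h2
      have h3 : (t - (tp i k + θ * T)) • d i k = 0 := by
        rw [sub_smul, h1, sub_self]
      have h4 := exta_smul h i k h3
      linarith
    · rw [h2] at h1
      have h3 : (t + (tp i k + θ * T)) • d i k = 0 := by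
        rw [add_smul, ← h1, smul_neg, add_neg_cancel]
      have h4 := exta_smul h i k h3
      linarith
  · split_ifs with ho
    · exact ht1.le.trans (hge (j, l) ho)
    · exact ht1.le
  · rw [← hθ', hyt]

/-- the hits at distance at most `T` form a compact set -/
theorem exta_compact (h : IsCro b d tp L0 L1 T δ a1 r) (ord : I × Fin 4 → ℕ)
    (len : I × Fin 4 → ℝ) (A : I × Fin 4)
    (hle : ∀ B, ord B < ord A → len B ≤ tp B.1 B.2 + T) :
    IsCompact (Icc (tp A.1 A.2) (tp A.1 A.2 + T) ∩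
      {t | b A.1 + t • d A.1 A.2 ∈ Pres b d tp ord len A}) := by
  classical
  have hT := h.Tpos
  have hL0 := h.L0pos
  set R := ‖b A.1‖ + (tp A.1 A.2 + T) + (L1 + T) with hR
  set ℓ : I × Fin 4 → ℝ := fun B => if ord B < ord A then len B else tp B.1 B.2 with hℓ
  have hℓ1 : ∀ B, ℓ B ≤ L1 + T := by
    intro B
    have h1 := h.tp1 B.1 B.2
    simp only [hℓ]
    split_ifs with ho
    · have := hle B ho
      linarith
    · linarith
  set S : Set (I × Fin 4) := {i | ‖b i‖ ≤ R} ×ˢ univ with hS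
  have hSfin : S.Finite := (h.fin R).prod (Set.finite_univ)
  have heq : Icc (tp A.1 A.2) (tp A.1 A.2 + T) ∩
      {t | b A.1 + t • d A.1 A.2 ∈ Pres b d tp ord len A} =
      Icc (tp A.1 A.2) (tp A.1 A.2 + T) ∩
      ⋃ B ∈ S, {t | (A.1 ≠ B.1 ∨ ¬ sameL A.2 B.2) ∧
        b A.1 + t • d A.1 A.2 ∈ (fun s : ℝ => b B.1 + s • d B.1 B.2) '' Icc 0 (ℓ B)} := by
    ext t
    simp only [mem_inter_iff, mem_setOf_eq, mem_iUnion, exists_prop]
    constructor
    · rintro ⟨⟨ht0, ht1⟩, B, hB, s, hs0, hs1, hy⟩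
      refine ⟨⟨ht0, ht1⟩, B, ?_, hB, s, ⟨hs0, hs1⟩, hy.symm⟩
      rw [hS]
      refine ⟨?_, mem_univ _⟩
      change ‖b B.1‖ ≤ R
      have h1 : b B.1 = b A.1 + t • d A.1 A.2 - s • d B.1 B.2 := by
        rw [hy]
        abel
      have h2 : s ≤ L1 + T := le_trans hs1 (hℓ1 B)
      have htp := h.tp0 A.1 A.2
      have ht0' : 0 ≤ t := by linarith
      calc ‖b B.1‖ = ‖b A.1 + t • d A.1 A.2 - s • d B.1 B.2‖ := by rw [← h1]
        _ ≤ ‖b A.1‖ + ‖t • d A.1 A.2‖ + ‖s • d B.1 B.2‖ :=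
          (norm_sub_le _ _).trans (by gcongr; exact norm_add_le _ _)
        _ = ‖b A.1‖ + t + s := by
          rw [norm_smul, norm_smul, h.dn, h.dn, mul_one, mul_one, Real.norm_eq_abs,
            Real.norm_eq_abs, abs_of_nonneg ht0', abs_of_nonneg hs0]
        _ ≤ R := by
          rw [hR]
          linarith
    · rintro ⟨ht, B, -, hB, s, ⟨hs0, hs1⟩, hy⟩
      exact ⟨ht, B, hB, s, hs0, hs1, hy.symm⟩
  rw [heq]
  apply isCompact_Icc.inter_right
  apply hSfin.isClosed_biUnion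
  intro B _
  by_cases hB : A.1 ≠ B.1 ∨ ¬ sameL A.2 B.2
  · have h1 : {t : ℝ | (A.1 ≠ B.1 ∨ ¬ sameL A.2 B.2) ∧
        b A.1 + t • d A.1 A.2 ∈ (fun s : ℝ => b B.1 + s • d B.1 B.2) '' Icc 0 (ℓ B)} =
        (fun t : ℝ => b A.1 + t • d A.1 A.2) ⁻¹'
          ((fun s : ℝ => b B.1 + s • d B.1 B.2) '' Icc 0 (ℓ B)) := by
      ext t
      simp only [mem_setOf_eq, mem_preimage]
      exact and_iff_right hB
    rw [h1]
    refine IsClosed.preimage (by fun_prop) ?_
    exact (isCompact_Icc.image (by fun_prop)).isClosed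
  · have h1 : {t : ℝ | (A.1 ≠ B.1 ∨ ¬ sameL A.2 B.2) ∧
        b A.1 + t • d A.1 A.2 ∈ (fun s : ℝ => b B.1 + s • d B.1 B.2) '' Icc 0 (ℓ B)} = ∅ := by
      ext t
      simp only [mem_setOf_eq, mem_empty_iff_false, iff_false]
      exact fun hh => hB hh.1
    rw [h1]
    exact isClosed_empty

theorem exta_main (h : IsCro b d tp L0 L1 T δ a1 r) (ord : I × Fin 4 → ℕ) :
    ∀ (n : ℕ) (A : I × Fin 4), ord A = n →
      exta_len b d tp ord A ≤ tp A.1 A.2 + T ∧
      IsLeast {t | tp A.1 A.2 ≤ t ∧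
        b A.1 + t • d A.1 A.2 ∈ Pres b d tp ord (exta_len b d tp ord) A}
        (exta_len b d tp ord A) := by
  intro n
  induction n using Nat.strong_induction_on with
  | _ n ih =>
    intro A hA
    subst hA
    have hge : ∀ B, ord B < ord A → tp B.1 B.2 ≤ exta_len b d tp ord B :=
      fun B hB => (ih (ord B) hB B rfl).2.1.1
    have hle : ∀ B, ord B < ord A → exta_len b d tp ord B ≤ tp B.1 B.2 + T :=
      fun B hB => (ih (ord B) hB B rfl).1
    have hne : (Icc (tp A.1 A.2) (tp A.1 A.2 + T) ∩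
        {t | b A.1 + t • d A.1 A.2 ∈ Pres b d tp ord (exta_len b d tp ord) A}).Nonempty := by
      obtain ⟨t, h1, h2, h3⟩ := exta_hit h ord (exta_len b d tp ord) A hge
      exact ⟨t, ⟨h1, h2⟩, h3⟩
    obtain ⟨m, ⟨hm1, hm2⟩, hm3⟩ :=
      (exta_compact h ord (exta_len b d tp ord) A hle).exists_isLeast hne
    have hleast : IsLeast {t | tp A.1 A.2 ≤ t ∧
        b A.1 + t • d A.1 A.2 ∈ Pres b d tp ord (exta_len b d tp ord) A} m := by
      refine ⟨⟨hm1.1, hm2⟩, ?_⟩
      rintro t ⟨ht1, ht2⟩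
      rcases le_or_gt t (tp A.1 A.2 + T) with ht | ht
      · exact hm3 ⟨⟨ht1, ht⟩, ht2⟩
      · exact hm1.2.trans ht.le
    have heq : exta_len b d tp ord A = m := by
      rw [exta_len_eq]
      exact hleast.csInf_eq
    rw [heq]
    exact ⟨hm1.2, hleast⟩

end

/-- Job C5.  Extension of the arms. -/
theorem exists_ext {I : Type*} {b : I → V} {d : I → Fin 4 → V} {tp : I → Fin 4 → ℝ}
    {L0 L1 T δ a1 r : ℝ} (h : IsCro b d tp L0 L1 T δ a1 r) (ord : I × Fin 4 → ℕ)
    (hord : Function.Injective ord) : ∃ len : I × Fin 4 → ℝ, IsExt b d tp T ord len := by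
  refine ⟨exta_len b d tp ord, hord, fun A => (exta_main h ord _ A rfl).2.1.1,
    fun A => (exta_main h ord _ A rfl).1, fun A => (exta_main h ord _ A rfl).2.1.2, ?_⟩
  intro A t ht1 ht2 hmem
  exact absurd ((exta_main h ord _ A rfl).2.2 ⟨ht1, hmem⟩) (not_le.mpr ht2)

end Pool.Agent.H.MP_929345_co.Pl
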