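import Pool.Agent.H.MP_929345_co.Pl.ExtD

/-! C6e: the T-structure -/

set_option autoImplicit false

open MeasureTheory Set

namespace Pool.Agent.H.MP_929345_co.Pl

variable {I : Type*} {b : I → V} {d : I → Fin 4 → V} {tp : I → Fin 4 → ℝ}
  {L0 L1 T δ a1 r : ℝ} {ord : I × Fin 4 → ℕ} {len : I × Fin 4 → ℝ}

/-- Job C6e.  The T-structure. -/
theorem ext_isT (h : IsCro b d tp L0 L1 T δ a1 r) (he : IsExt b d tp T ord len) :
    IsT (oP b d len) (oQ b d len) T := by
  have hlen : ∀ C : I × Fin 4, 0 < len C := fun C =>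
    (h.L0pos.trans_le (h.tp0 C.1 C.2)).trans_le (he.ge C)
  refine ⟨?_, ?_, ?_, ?_, ?_, ?_⟩
  · intro o heq
    by_cases h0 : o.2 = 0
    · rw [oP, oQ, if_pos h0, if_pos h0, h.d1] at heq
      have h1 : (len (o.1, 0) + len (o.1, 1)) • d o.1 0 = 0 := by
        have h2 := add_left_cancel heq
        rw [add_smul, ← h2, smul_neg, neg_add_cancel]
      have h3 := congrArg norm h1
      rw [norm_smul, h.dn, mul_one, norm_zero, Real.norm_eq_abs, abs_eq_zero] at h3
      linarith [hlen (o.1, 0), hlen (o.1, 1)]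
    · rw [oP, if_neg h0] at heq
      have key : ∀ k, b o.1 = b o.1 + len (o.1, k) • d o.1 k → False := by
        intro k hk
        have h1 : len (o.1, k) • d o.1 k = 0 := by
          have h2 : b o.1 + 0 = b o.1 + len (o.1, k) • d o.1 k := by rw [add_zero]; exact hk
          exact (add_left_cancel h2).symm
        have h3 := congrArg norm h1
        rw [norm_smul, h.dn, mul_one, norm_zero, Real.norm_eq_abs, abs_eq_zero] at h3
        linarith [hlen (o.1, k)]
      rw [oQ, if_neg h0] at heq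
      split_ifs at heq
      · exact key _ heq
      · exact key _ heq
  · intro R
    refine ((h.fin (R + L1 + T)).prod (Set.finite_univ (α := Fin 3))).subset ?_
    rintro o ⟨y, hy, hyR⟩
    rw [mem_obj h he] at hy
    obtain ⟨A, hA, t, ht0, ht, rfl⟩ := hy
    have ho : o.1 = A.1 := by rw [← hA]; rfl
    refine ⟨?_, Set.mem_univ _⟩
    change ‖b o.1‖ ≤ R + L1 + T
    rw [ho]
    rw [Metric.mem_closedBall, dist_zero_right] at hyR
    have h1 : ‖t • d A.1 A.2‖ = t := by
      rw [norm_smul, h.dn, mul_one, Real.norm_eq_abs, abs_of_nonneg ht0]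
    have h2 : ‖b A.1‖ ≤ ‖b A.1 + t • d A.1 A.2‖ + ‖t • d A.1 A.2‖ := by
      have h3 := norm_sub_le (b A.1 + t • d A.1 A.2) (t • d A.1 A.2)
      rw [add_sub_cancel_right] at h3
      exact h3
    have h4 := he.le A
    have h5 := h.tp1 A.1 A.2
    linarith
  · intro o o' hne
    exact ext_t1 h he o o' hne
  · intro o
    by_cases h0 : o.2 = 0
    · obtain ⟨o', ho'⟩ := ext_t2 h he (o.1, 1)
      refine ⟨o', ?_⟩
      have hP : oP b d len o = b o.1 + len (o.1, 1) • d o.1 1 := by rw [oP, if_pos h0]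
      rw [hP]
      exact ho'
    · refine ⟨(o.1, 0), ?_⟩
      rw [mem_open_obj h he]
      refine ⟨(o.1, 0), by simp [obj], 0, le_rfl, hlen _, fun hne => absurd rfl hne, ?_⟩
      rw [oP, if_neg h0, zero_smul, add_zero]
  · intro o
    have hQ : ∃ k : Fin 4, oQ b d len o = b o.1 + len (o.1, k) • d o.1 k := by
      unfold oQ
      split_ifs
      · exact ⟨0, rfl⟩
      · exact ⟨2, rfl⟩
      · exact ⟨3, rfl⟩
    obtain ⟨k, hk⟩ := hQ
    obtain ⟨o', ho'⟩ := ext_t2 h he (o.1, k)
    refine ⟨o', ?_⟩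
    rw [hk]
    exact ho'
  · intro x y hd
    by_contra hlt
    push Not at hlt
    rw [norm_sub_rev] at hlt
    obtain ⟨i, k, z, hz, _, _, t, ht0, ht, hzt⟩ := h.blk x y hlt.le
    refine Set.disjoint_left.1 hd hz ?_
    rw [Sg, Set.mem_iUnion]
    refine ⟨obj (i, k), ?_⟩
    rw [mem_obj h he]
    exact ⟨(i, k), rfl, t, ht0, ht.le.trans (he.ge (i, k)), hzt⟩

end Pool.Agent.H.MP_929345_co.Pl
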