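import Pool.Agent.H.MP_929345_co.Pl.ExtD

/-! C6f: order of consecutive ends -/

set_option autoImplicit false

open MeasureTheory Set

namespace Pool.Agent.H.MP_929345_co.Pl

variable {I : Type*} {b : I → V} {d : I → Fin 4 → V} {tp : I → Fin 4 → ℝ}
  {L0 L1 T δ a1 r : ℝ} {ord : I × Fin 4 → ℕ} {len : I × Fin 4 → ℝ}

private lemma extf_opp (h : IsCro b d tp L0 L1 T δ a1 r) (i : I) (k l : Fin 4)
    (hs : sameL k l) : k = l ∨ d i l = - d i k := by
  have h1 := h.d1 i
  have h3 := h.d3 i
  unfold sameL at hs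
  fin_cases k <;> fin_cases l <;> simp at hs ⊢
  · exact h1
  · rw [h1, neg_neg]
  · exact h3
  · rw [h3, neg_neg]

private lemma extf_obj (A B : I × Fin 4) (hAB : obj A = obj B) :
    A.1 = B.1 ∧ sameL A.2 B.2 := by
  obtain ⟨i, k⟩ := A
  obtain ⟨j, l⟩ := B
  unfold obj at hAB
  have e := congrArg Prod.fst hAB
  have f := congrArg Prod.snd hAB
  simp only at e f
  refine ⟨e, ?_⟩
  show sameL k l
  unfold sameL
  fin_cases k <;> fin_cases l <;> simp at f ⊢

/-- If a point is on two opposite arms, both parameters vanish. -/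
private lemma extf_two (h : IsCro b d tp L0 L1 T δ a1 r) (i : I) (k l : Fin 4)
    (hs : sameL k l) (s t : ℝ) (hs0 : 0 ≤ s) (ht0 : 0 < t)
    (he : b i + s • d i k = b i + t • d i l) : k = l ∧ s = t := by
  have hn := h.dn i k
  have e2 : s • d i k = t • d i l := add_left_cancel he
  rcases extf_opp h i k l hs with hkl | hop
  · refine ⟨hkl, ?_⟩
    rw [← hkl] at e2
    have e3 : (s - t) • d i k = 0 := by rw [sub_smul, e2, sub_self]
    rcases smul_eq_zero.1 e3 with h0 | h0
    · linarith
    · rw [h0, norm_zero] at hn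
      exact absurd hn (by norm_num)
  · rw [hop, smul_neg] at e2
    have e3 : (s + t) • d i k = 0 := by rw [add_smul, e2, neg_add_cancel]
    rcases smul_eq_zero.1 e3 with h0 | h0
    · linarith
    · rw [h0, norm_zero] at hn
      exact absurd hn (by norm_num)

/-- Job C6f.  Consecutive short final ends have increasing order. -/
theorem ext_order (h : IsCro b d tp L0 L1 T δ a1 r) (he : IsExt b d tp T ord len)
    (A B : I × Fin 4)
    (hB : b B.1 + len B • d B.1 B.2 ∈
      openSegment ℝ (oP b d len (obj A)) (oQ b d len (obj A)))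
    (hd : ‖b B.1 + len B • d B.1 B.2 - (b A.1 + len A • d A.1 A.2)‖ < δ) :
    ord A < ord B := by
  have hL0 := h.L0pos
  have hdl := h.δL
  have hlA : L0 ≤ len A := (h.tp0 A.1 A.2).trans (he.ge A)
  have hlB : L0 ≤ len B := (h.tp0 B.1 B.2).trans (he.ge B)
  have hnA := h.dn A.1 A.2
  -- `v_B` is on the arm `A`
  have h1 : ∃ t, 0 < t ∧ t < len A ∧ len A - t < δ ∧
      b B.1 + len B • d B.1 B.2 = b A.1 + t • d A.1 A.2 := by
    obtain ⟨A', hA', t, ht0, ht1, -, ht⟩ := (mem_open_obj h he _ _).1 hB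
    obtain ⟨e1, e2⟩ := extf_obj A' A hA'
    obtain ⟨i, k⟩ := A
    obtain ⟨j, l⟩ := A'
    simp only at e1 e2 ht hd hnA hlA ht1 ⊢
    subst e1
    rcases extf_opp h j k l e2.symm with hkl | hop
    · subst hkl
      rw [ht] at hd
      have e3 : b j + t • d j k - (b j + len (j, k) • d j k) = (t - len (j, k)) • d j k := by
        rw [sub_smul]; abel
      rw [e3, norm_smul, hnA, mul_one, Real.norm_eq_abs, abs_lt] at hd
      exact ⟨t, by linarith [hd.1], ht1, by linarith [hd.1], ht⟩
    · rw [ht, hop] at hd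
      have e3 : b j + t • -d j k - (b j + len (j, k) • d j k) = (-(t + len (j, k))) • d j k := by
        rw [neg_smul, add_smul, smul_neg]; abel
      rw [e3, norm_smul, hnA, mul_one, Real.norm_eq_abs, abs_lt] at hd
      exfalso
      linarith [hd.1, hd.2]
  obtain ⟨t, ht0, ht1, ht2, ht⟩ := h1
  -- the covering arm is `A`
  have h2 : t ≤ (if ord A < ord B then len A else tp A.1 A.2) := by
    obtain ⟨B', hB', s, hs0, hs1, hs⟩ := ext_cover h he B (obj A) hB
    obtain ⟨e1, e2⟩ := extf_obj B' A hB'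
    obtain ⟨i, k⟩ := A
    obtain ⟨j, l⟩ := B'
    simp only at e1 e2 ht hs hs1 ⊢
    subst e1
    rw [ht] at hs
    obtain ⟨e3, e4⟩ := extf_two h j l k e2 s t hs0 ht0 hs.symm
    subst e3
    rw [← e4]
    exact hs1
  by_contra hcon
  rw [if_neg hcon] at h2
  have hge := he.ge A
  by_cases hi : A.1 = B.1
  · by_cases hk : sameL B.2 A.2
    · rw [← hi] at ht
      obtain ⟨e3, e4⟩ := extf_two h A.1 B.2 A.2 hk (len B) t (by linarith) ht0 ht
      have e5 : B = A := Prod.ext hi.symm e3
      rw [e5] at e4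
      linarith
    · have h3 := h.ang0 A.1 B.2 A.2 hk
      rw [← hi] at ht
      have e2 : len B • d A.1 B.2 = t • d A.1 A.2 := add_left_cancel ht
      have e3 : cr (d A.1 B.2) (len B • d A.1 B.2) = cr (d A.1 B.2) (t • d A.1 A.2) := by rw [e2]
      rw [cr_smul_right, cr_smul_right, cr_self, mul_zero] at e3
      have h4 := h.a1pos
      rcases mul_eq_zero.1 e3.symm with h5 | h5
      · linarith
      · rw [h5, abs_zero] at h3
        linarith
  · have h3 := h.clr A.1 B.1 hi A.2 B.2 (len B) (by linarith)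
      ((he.le B).trans (by linarith [h.tp1 B.1 B.2]))
    rw [ht] at h3
    have e3 : b A.1 + t • d A.1 A.2 - (b A.1 + tp A.1 A.2 • d A.1 A.2) =
        (t - tp A.1 A.2) • d A.1 A.2 := by
      rw [sub_smul]; abel
    rw [e3, norm_smul, hnA, mul_one, Real.norm_eq_abs] at h3
    have h4 : |t - tp A.1 A.2| < δ := by
      rw [abs_lt]; constructor <;> linarith
    linarith

end Pool.Agent.H.MP_929345_co.Pl
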