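import Pool.Agent.H.MP_929345_co.Pl.ExtB

/-! C7b: angles between objects -/

set_option autoImplicit false

open MeasureTheory Set

namespace Pool.Agent.H.MP_929345_co.Pl

variable {I : Type*} {b : I → V} {d : I → Fin 4 → V} {tp : I → Fin 4 → ℝ}
  {L0 L1 T δ a1 r : ℝ} {ord : I × Fin 4 → ℕ} {len : I × Fin 4 → ℝ}

theorem gdb_sameL (h : IsCro b d tp L0 L1 T δ a1 r) (i : I) (k l : Fin 4) (hkl : sameL k l) :
    ∃ u : ℝ, d i l = u • d i k := by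
  have h1 := h.d1 i
  have h3 := h.d3 i
  unfold sameL at hkl
  fin_cases k <;> fin_cases l <;> simp at hkl
  · exact ⟨1, by simp⟩
  · exact ⟨-1, by simp [h1]⟩
  · exact ⟨-1, by simp [h1]⟩
  · exact ⟨1, by simp⟩
  · exact ⟨1, by simp⟩
  · exact ⟨-1, by simp [h3]⟩
  · exact ⟨-1, by simp [h3]⟩
  · exact ⟨1, by simp⟩

theorem gdb_pt (h : IsCro b d tp L0 L1 T δ a1 r) (A : I × Fin 4) :
    (∃ u : ℝ, oP b d len (obj A) = b A.1 + u • d A.1 A.2) ∧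
    (∃ u : ℝ, oQ b d len (obj A) = b A.1 + u • d A.1 A.2) := by
  obtain ⟨i, k⟩ := A
  have h1 := h.d1 i
  fin_cases k
  · refine ⟨⟨-len (i, 1), ?_⟩, ⟨len (i, 0), ?_⟩⟩
    · simp [oP, obj, h1]
    · simp [oQ, obj]
  · refine ⟨⟨len (i, 1), ?_⟩, ⟨-len (i, 0), ?_⟩⟩
    · simp [oP, obj]
    · simp [oQ, obj, h1]
  · refine ⟨⟨0, ?_⟩, ⟨len (i, 2), ?_⟩⟩
    · simp [oP, obj]
    · simp [oQ, obj]
  · refine ⟨⟨0, ?_⟩, ⟨len (i, 3), ?_⟩⟩
    · simp [oP, obj]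
    · simp [oQ, obj]

/-- Job C7b.  The angle hypothesis of `long_side` for crosses. -/
theorem ext_ang (h : IsCro b d tp L0 L1 T δ a1 r) (he : IsExt b d tp T ord len)
    (e : (I × Fin 3) × Bool) (j : I × Fin 3) (y z : V)
    (hy : y ∈ segment ℝ (oP b d len e.1) (oQ b d len e.1))
    (hz : z ∈ segment ℝ (oP b d len j) (oQ b d len j)) (hyz : ‖y - z‖ ≤ r)
    (hc : cr (dE (oP b d len) (oQ b d len) e) (z - zE (oP b d len) (oQ b d len) e) ≠ 0) :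
    a1 * ‖dE (oP b d len) (oQ b d len) e‖ * ‖oQ b d len j - oP b d len j‖ ≤
      |cr (dE (oP b d len) (oQ b d len) e) (oQ b d len j - oP b d len j)| := by
  rw [mem_obj h he] at hy hz
  obtain ⟨A, hA, s, hs0, hs, rfl⟩ := hy
  obtain ⟨B, hB, t, ht0, ht, rfl⟩ := hz
  obtain ⟨⟨uP, hP⟩, ⟨uQ, hQ⟩⟩ := gdb_pt (len := len) h A
  rw [hA] at hP hQ
  obtain ⟨⟨vP, hP'⟩, ⟨vQ, hQ'⟩⟩ := gdb_pt (len := len) h B
  rw [hB] at hP' hQ'
  have hdE : ∃ u : ℝ, dE (oP b d len) (oQ b d len) e = u • d A.1 A.2 := by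
    unfold dE
    split_ifs
    · exact ⟨uP - uQ, by rw [hP, hQ, sub_smul]; abel⟩
    · exact ⟨uQ - uP, by rw [hP, hQ, sub_smul]; abel⟩
  have hzE : ∃ u : ℝ, zE (oP b d len) (oQ b d len) e = b A.1 + u • d A.1 A.2 := by
    unfold zE
    split_ifs
    · exact ⟨uQ, hQ⟩
    · exact ⟨uP, hP⟩
  obtain ⟨u, hu⟩ := hdE
  obtain ⟨w, hw⟩ := hzE
  have hv : oQ b d len j - oP b d len j = (vQ - vP) • d B.1 B.2 := by
    rw [hP', hQ', sub_smul]; abel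
  have hline : A.1 ≠ B.1 ∨ ¬ sameL A.2 B.2 := by
    by_contra hcon
    push Not at hcon
    obtain ⟨h1, h2⟩ := hcon
    obtain ⟨c, hc'⟩ := gdb_sameL h A.1 A.2 B.2 h2
    apply hc
    rw [hu, hw, ← h1, hc']
    have e1 : b A.1 + t • c • d A.1 A.2 - (b A.1 + w • d A.1 A.2)
        = (t * c - w) • d A.1 A.2 := by
      rw [sub_smul, mul_smul]; abel
    rw [e1, cr_smul_left, cr_smul_right, cr_self, mul_zero, mul_zero]
  have hbs : s ≤ L1 + T := hs.trans ((he.le A).trans (by linarith [h.tp1 A.1 A.2]))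
  have hbt : t ≤ L1 + T := ht.trans ((he.le B).trans (by linarith [h.tp1 B.1 B.2]))
  have hang := h.ang A.1 B.1 A.2 B.2 hline s t hs0 hbs ht0 hbt hyz
  rw [hu, hv, cr_smul_left, cr_smul_right, norm_smul, norm_smul, h.dn, h.dn, mul_one, mul_one,
    Real.norm_eq_abs, Real.norm_eq_abs, abs_mul, abs_mul]
  have h1 : 0 ≤ |u| * |vQ - vP| := mul_nonneg (abs_nonneg _) (abs_nonneg _)
  calc a1 * |u| * |vQ - vP| = (|u| * |vQ - vP|) * a1 := by ring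
    _ ≤ (|u| * |vQ - vP|) * |cr (d A.1 A.2) (d B.1 B.2)| := mul_le_mul_of_nonneg_left hang h1
    _ = |u| * (|vQ - vP| * |cr (d A.1 A.2) (d B.1 B.2)|) := by ring

end Pool.Agent.H.MP_929345_co.Pl
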