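import Pool.Agent.H.MP_929345_co.Pl.AdjA

/-! C7c: one step of the walk -/

set_option autoImplicit false

open MeasureTheory Set

namespace Pool.Agent.H.MP_929345_co.Pl

/-- points `z0 + ε D` near the end are in the closure of an adjacent face -/
theorem gdc_near {ι : Type*} {P Q : ι → V} {e : ι × Bool} {τ : V} {W : Set V}
    (h : Adj P Q e τ W) : ∃ r > 0, ∀ ε : ℝ, 0 < ε → ε < r →
      zE P Q e + ε • dE P Q e ∈ closure W := by
  obtain ⟨r, hr, hW⟩ := h
  refine ⟨r, hr, fun ε hε hεr => ?_⟩
  have hcont : Filter.Tendsto (fun η : ℝ => zE P Q e + ε • dE P Q e + η • τ)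
      (nhdsWithin 0 (Ioi 0)) (nhds (zE P Q e + ε • dE P Q e + (0 : ℝ) • τ)) := by
    apply Filter.Tendsto.mono_left _ nhdsWithin_le_nhds
    apply Continuous.tendsto
    fun_prop
  rw [zero_smul, add_zero] at hcont
  apply mem_closure_of_tendsto hcont
  have hpos : 0 < r * ε := mul_pos hr hε
  filter_upwards [Ioo_mem_nhdsGT hpos] with η hη
  exact hW ε η hε hεr hη.1 hη.2

/-- Job C7c.  One step of the walk: either there is a long side or another adjacent end. -/
theorem walk_step {ι : Type*} {P Q : ι → V} {Lam : ℝ} (hT : IsT P Q Lam) {x : V}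
    (hx : x ∉ Sg P Q) {e : ι × Bool} {τ : V} (hadj : Adj P Q e τ (Vis (Sg P Q) x))
    (hc : cr (dE P Q e) τ ≠ 0) {δ : ℝ} (hδ : 0 < δ) (hδl : δ ≤ ‖dE P Q e‖) :
    (zE P Q e + (δ / ‖dE P Q e‖) • dE P Q e ∈ closure (Vis (Sg P Q) x)) ∨
      ∃ e' : ι × Bool, ∃ τ' : V, zE P Q e' ∈ openSegment ℝ (P e.1) (Q e.1) ∧
        ‖zE P Q e' - zE P Q e‖ < δ ∧ cr (dE P Q e') τ' ≠ 0 ∧
        Adj P Q e' τ' (Vis (Sg P Q) x) := by
  set W := Vis (Sg P Q) x with hW
  have hconv : Convex ℝ (closure W) := (Vis_convex hT hx).closure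
  set D := dE P Q e with hD
  have hD0 : D ≠ 0 := cr_ne_zero_left hc
  set n := ‖D‖ with hn
  have hnpos : 0 < n := norm_pos_iff.2 hD0
  set z0 := zE P Q e with hz0
  set f : ℝ → V := fun t => z0 + (t / n) • D with hf
  have hfc : Continuous f := by
    simp only [hf]
    fun_prop
  set A : Set ℝ := Icc 0 δ ∩ f ⁻¹' closure W with hA
  have hAc : IsCompact A := isCompact_Icc.inter_right (isClosed_closure.preimage hfc)
  have h0A : (0 : ℝ) ∈ A := by
    refine ⟨⟨le_rfl, hδ.le⟩, ?_⟩
    show z0 + ((0 : ℝ) / n) • D ∈ closure W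
    rw [zero_div, zero_smul, add_zero]
    exact adj_closure hadj
  obtain ⟨ts, htsA, hmax⟩ := hAc.exists_isMaxOn ⟨0, h0A⟩ continuousOn_id
  have hmax' : ∀ t ∈ A, t ≤ ts := fun t ht => hmax ht
  rcases eq_or_lt_of_le htsA.1.2 with hEq | hlt
  · left
    rw [← hEq]
    exact htsA.2
  · right
    -- ts > 0
    have htpos : 0 < ts := by
      obtain ⟨r, hr, hnear⟩ := gdc_near hadj
      have hδn : 0 < δ / n := div_pos hδ hnpos
      set ε := min (r / 2) (δ / n) with hε
      have hεpos : 0 < ε := lt_min (half_pos hr) hδn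
      have hεr : ε < r := lt_of_le_of_lt (min_le_left _ _) (half_lt_self hr)
      have hmem : ε * n ∈ A := by
        refine ⟨⟨by positivity, ?_⟩, ?_⟩
        · have : ε ≤ δ / n := min_le_right _ _
          rwa [le_div_iff₀ hnpos] at this
        · show z0 + ((ε * n) / n) • D ∈ closure W
          rw [mul_div_assoc, div_self hnpos.ne', mul_one]
          exact hnear ε hεpos hεr
      exact lt_of_lt_of_le (mul_pos hεpos hnpos) (hmax' _ hmem)
    have hv : f ts ∈ closure W := htsA.2
    have hs0 : 0 < ts / n := div_pos htpos hnpos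
    have hs1 : ts / n < 1 := by
      rw [div_lt_one hnpos]
      exact lt_of_lt_of_le hlt hδl
    have hj : f ts ∈ openSegment ℝ (P e.1) (Q e.1) := by
      show z0 + (ts / n) • D ∈ openSegment ℝ (P e.1) (Q e.1)
      rw [hz0, hD]
      unfold zE dE
      by_cases he : e.2 = true
      · rw [if_pos he, if_pos he]
        refine ⟨ts / n, 1 - ts / n, hs0, by linarith, by ring, ?_⟩
        module
      · rw [if_neg he, if_neg he]
        refine ⟨1 - ts / n, ts / n, by linarith, hs0, by ring, ?_⟩
        module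
    have hτ : D = Q e.1 - P e.1 ∨ D = P e.1 - Q e.1 := by
      rw [hD]
      unfold dE
      by_cases he : e.2 = true
      · rw [if_pos he]; exact Or.inr rfl
      · rw [if_neg he]; exact Or.inl rfl
    have hout : ∀ ε : ℝ, 0 < ε → f ts + ε • D ∉ closure W := by
      intro ε hε hmem
      set t1 := min (ts + ε * n) δ with ht1
      have h1 : ts < t1 := lt_min (by linarith [mul_pos hε hnpos]) hlt
      have h2 : t1 ≤ δ := min_le_right _ _
      have h3 : t1 ≤ ts + ε * n := min_le_left _ _
      have h4 : f t1 ∈ closure W := by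
        have h5 : f t1 ∈ segment ℝ (f ts) (f ts + ε • D) := by
          have hεn : 0 < ε * n := mul_pos hε hnpos
          refine ⟨1 - (t1 - ts) / (ε * n), (t1 - ts) / (ε * n), ?_, ?_, by ring, ?_⟩
          · rw [sub_nonneg, div_le_one hεn]
            linarith
          · exact div_nonneg (by linarith) hεn.le
          · show (1 - (t1 - ts) / (ε * n)) • (z0 + (ts / n) • D) +
              ((t1 - ts) / (ε * n)) • (z0 + (ts / n) • D + ε • D) = z0 + (t1 / n) • D
            have h6 : (t1 - ts) / (ε * n) * ε = t1 / n - ts / n := by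
              field_simp
            have h7 : (1 - (t1 - ts) / (ε * n)) • (z0 + (ts / n) • D) +
              ((t1 - ts) / (ε * n)) • (z0 + (ts / n) • D + ε • D) =
              z0 + (ts / n + (t1 - ts) / (ε * n) * ε) • D := by module
            rw [h7, h6]
            congr 2
            ring
        exact hconv.segment_subset hv hmem h5
      have h8 : t1 ≤ ts := hmax' t1 ⟨⟨by linarith, h2⟩, h4⟩
      linarith
    obtain ⟨e', he1, he2, he3⟩ := stem hT hx hv hj hτ hout
    refine ⟨e', -D, ?_, ?_, ?_, he3⟩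
    · rw [he1]; exact hj
    · rw [he1]
      have : f ts - z0 = (ts / n) • D := by
        show z0 + (ts / n) • D - z0 = (ts / n) • D
        abel
      rw [this, norm_smul, Real.norm_of_nonneg hs0.le, ← hn, div_mul_cancel₀ _ hnpos.ne']
      exact hlt
    · rw [cr_neg_right, cr_comm, neg_neg]
      exact he2

end Pool.Agent.H.MP_929345_co.Pl
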