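import Pool.Agent.H.MP_929345_co.Pl.AdjA

/-! B5: tokens -/

set_option autoImplicit false

open MeasureTheory Set

namespace Pool.Agent.H.MP_929345_co.Pl

variable {ι : Type*} {P Q : ι → V} {Lam : ℝ}

/-- `e` is a token of the face `W` for the functional `u`. -/
def Tok (P Q : ι → V) (u : V) (W : Set V) (e : ι × Bool) : Prop :=
  ev u (dE P Q e) < 0 ∧ (∀ w ∈ closure W, ev u w ≤ ev u (zE P Q e)) ∧
    ∃ τ, Thr P Q e τ ∧ 0 < ev u τ ∧ Adj P Q e (-τ) W

theorem tok_nonempty (hT : IsT P Q Lam) : Nonempty ι := by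
  by_contra h
  rw [not_nonempty_iff] at h
  have h1 : Sg P Q = ∅ := by
    unfold Sg
    exact Set.iUnion_of_empty _
  have h2 := hT.bd 0 (fun _ => |Lam| + 1) (by rw [h1]; exact Set.disjoint_empty _)
  have h3 : ‖(fun _ : Fin 2 => |Lam| + 1) - (0 : V)‖ = |Lam| + 1 := by
    rw [sub_zero, pi_norm_const, Real.norm_eq_abs, abs_of_nonneg (by positivity)]
  rw [h3] at h2
  linarith [le_abs_self Lam]

theorem tok_dE_ne {u : V} (hu : ∀ i, ev u (Q i - P i) ≠ 0) (e : ι × Bool) :
    ev u (dE P Q e) ≠ 0 := by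
  unfold dE
  split_ifs
  · intro h
    apply hu e.1
    have h1 : Q e.1 - P e.1 = -(P e.1 - Q e.1) := (neg_sub _ _).symm
    rw [h1, ev_neg, h, neg_zero]
  · exact hu e.1

/-- Job B5a.  Every face has a token. -/
theorem exists_token (hT : IsT P Q Lam) {u : V} (hu : ∀ i, ev u (Q i - P i) ≠ 0) {x : V}
    (hx : x ∉ Sg P Q) : ∃ e, Tok P Q u (Vis (Sg P Q) x) e := by
  set W := Vis (Sg P Q) x with hW
  have hxW : x ∈ W := self_mem_Vis hx
  have hcomp : IsCompact (closure W) := by
    refine Metric.isCompact_of_isClosed_isBounded isClosed_closure ?_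
    exact (Metric.isBounded_closedBall.subset (Vis_subset hT x)).closure
  obtain ⟨v, hvW, hvmax⟩ := hcomp.exists_isMaxOn ⟨x, subset_closure hxW⟩
    (continuous_ev u).continuousOn
  have hmax : ∀ w ∈ closure W, ev u w ≤ ev u v := fun w hw => hvmax hw
  have hvS : v ∈ Sg P Q := by
    by_contra hvS
    have hvV : v ∈ W := mem_of_closure hT hx hvW hvS
    have hopen : IsOpen W := Vis_isOpen hT x
    have huu : 0 < ev u u := by
      obtain ⟨i⟩ := tok_nonempty hT
      have h1 : u ≠ 0 := by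
        rintro rfl
        exact hu i (ev_zero_left _)
      have h2 : u 0 ≠ 0 ∨ u 1 ≠ 0 := by
        by_contra hc
        push Not at hc
        apply h1
        funext k
        fin_cases k
        · exact hc.1
        · exact hc.2
      unfold ev
      rcases h2 with h2 | h2
      · nlinarith [mul_self_pos.2 h2, mul_self_nonneg (u 1)]
      · nlinarith [mul_self_pos.2 h2, mul_self_nonneg (u 0)]
    have hcont : Continuous (fun ε : ℝ => v + ε • u) := by fun_prop
    have hmem : (fun ε : ℝ => v + ε • u) ⁻¹' W ∈ nhds (0 : ℝ) := by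
      refine hcont.continuousAt.preimage_mem_nhds ?_
      simp only [zero_smul, add_zero]
      exact hopen.mem_nhds hvV
    obtain ⟨r, hr, hball⟩ := Metric.mem_nhds_iff.1 hmem
    have h3 : r / 2 ∈ Metric.ball (0 : ℝ) r := by
      rw [Metric.mem_ball, Real.dist_eq, sub_zero, abs_of_pos (by positivity)]
      linarith
    have h4 := hmax _ (subset_closure (hball h3))
    rw [ev_add, ev_smul] at h4
    have h5 : 0 < r / 2 * ev u u := by positivity
    linarith
  obtain ⟨j, hj⟩ := exists_relint hT hvS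
  obtain ⟨τ, hτ, hτpos⟩ : ∃ τ, (τ = Q j - P j ∨ τ = P j - Q j) ∧ 0 < ev u τ := by
    rcases lt_or_gt_of_ne (hu j) with h | h
    · refine ⟨P j - Q j, Or.inr rfl, ?_⟩
      have h1 : P j - Q j = -(Q j - P j) := (neg_sub _ _).symm
      rw [h1, ev_neg]
      linarith
    · exact ⟨Q j - P j, Or.inl rfl, h⟩
  obtain ⟨e, he, hcr, hadj⟩ := stem hT hx hvW hj hτ (by
    intro ε hε hmem
    have h1 := hmax _ hmem
    rw [ev_add, ev_smul] at h1
    have h2 : 0 < ε * ev u τ := by positivity
    linarith)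
  refine ⟨e, ?_, ?_, τ, ⟨j, by rw [he]; exact hj, hτ⟩, hτpos, hadj⟩
  · by_contra hneg
    have hd : 0 < ev u (dE P Q e) :=
      lt_of_le_of_ne (not_lt.1 hneg) (Ne.symm (tok_dE_ne hu e))
    obtain ⟨r, hr, hadj⟩ := hadj
    have h1 := hadj (r / 2) (min (r * (r / 2) / 2) (r / 2 * ev u (dE P Q e) / (2 * ev u τ)))
      (by positivity) (by linarith) (by positivity)
      (lt_of_le_of_lt (min_le_left _ _) (by nlinarith))
    have h2 := hmax _ (subset_closure h1)
    rw [ev_add, ev_add, ev_smul, ev_smul, ev_neg, he] at h2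
    have h3 : min (r * (r / 2) / 2) (r / 2 * ev u (dE P Q e) / (2 * ev u τ)) * ev u τ ≤
        r / 2 * ev u (dE P Q e) / 2 := by
      calc _ ≤ r / 2 * ev u (dE P Q e) / (2 * ev u τ) * ev u τ :=
            mul_le_mul_of_nonneg_right (min_le_right _ _) hτpos.le
        _ = r / 2 * ev u (dE P Q e) / 2 := by
            field_simp
    have h4 : 0 < r / 2 * ev u (dE P Q e) := by positivity
    linarith
  · rw [he]
    exact hmax

/-- Job B5b. -/
theorem token_inj (hT : IsT P Q Lam) {u : V} {x x' : V} (hx : x ∉ Sg P Q) (hx' : x' ∉ Sg P Q)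
    {e : ι × Bool} (h : Tok P Q u (Vis (Sg P Q) x) e) (h' : Tok P Q u (Vis (Sg P Q) x') e) :
    Vis (Sg P Q) x = Vis (Sg P Q) x' := by
  obtain ⟨-, -, τ, ⟨j, hj, hτ⟩, hpos, hadj⟩ := h
  obtain ⟨-, -, τ', ⟨j', hj', hτ'⟩, hpos', hadj'⟩ := h'
  have hjj : j = j' := by
    by_contra hne
    exact (Set.disjoint_left.1 (hT.t1 j j' hne)) hj hj'
  subst hjj
  have hneg : ev u (P j - Q j) = -ev u (Q j - P j) := by
    rw [← ev_neg, neg_sub]
  have hττ : τ' = τ := by
    rcases hτ with rfl | rfl <;> rcases hτ' with rfl | rfl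
    · rfl
    · rw [hneg] at hpos'
      linarith
    · rw [hneg] at hpos
      linarith
    · rfl
  subst hττ
  refine adj_unique hT hx hx' ?_ hadj hadj'
  have h1 : cr (dE P Q e) (-τ') ≠ 0 := by
    rw [cr_neg_right, cr_comm, neg_neg]
    exact (adj_exists hT e ⟨j, hj, hτ⟩).1
  exact mul_self_pos.2 h1

/-- Job B5b. -/
theorem token_neg {u : V} {W W' : Set V} {e : ι × Bool} (h : Tok P Q u W e)
    (h' : Tok P Q (-u) W' e) : False := by
  have h1 := h.1
  have h2 := h'.1
  rw [ev_neg_left] at h2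
  linarith

/-- Job B5c.  A functional which vanishes on no direction of the structure. -/
theorem exists_generic [Countable ι] (hne : ∀ i, P i ≠ Q i) : ∃ u : V, ∀ i, ev u (Q i - P i) ≠ 0 := by
  have hev : ∀ (t : ℝ) (i : ι), ev ![1, t] (Q i - P i) =
      (Q i - P i) 0 + t * (Q i - P i) 1 := by
    intro t i
    simp [ev]
  have hcount : (⋃ i, {t : ℝ | ev ![1, t] (Q i - P i) = 0}).Countable := by
    refine Set.countable_iUnion fun i => Set.Subsingleton.countable ?_
    intro t ht t' ht'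
    have h1 : ev ![1, t] (Q i - P i) = 0 := ht
    have h2 : ev ![1, t'] (Q i - P i) = 0 := ht'
    rw [hev] at h1 h2
    by_contra htt
    have h3 : (t - t') * (Q i - P i) 1 = 0 := by linarith
    have h4 : (Q i - P i) 1 = 0 := by
      rcases mul_eq_zero.1 h3 with h | h
      · exact absurd (sub_eq_zero.1 h) htt
      · exact h
    have h5 : (Q i - P i) 0 = 0 := by
      rw [h4, mul_zero, add_zero] at h1
      exact h1
    apply hne i
    have h6 : Q i - P i = 0 := by
      funext k
      fin_cases k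
      · exact h5
      · exact h4
    exact (sub_eq_zero.1 h6).symm
  obtain ⟨t, ht⟩ := (hcount.dense_compl ℝ).nonempty
  refine ⟨![1, t], fun i hi => ht ?_⟩
  exact Set.mem_iUnion.2 ⟨i, hi⟩

end Pool.Agent.H.MP_929345_co.Pl
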