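import Pool.Agent.H.MP_929345_co.Pl.GdA
import Pool.Agent.H.MP_929345_co.Pl.GdB
import Pool.Agent.H.MP_929345_co.Pl.GdC
import Pool.Agent.H.MP_929345_co.Pl.ExtE
import Pool.Agent.H.MP_929345_co.Pl.ExtF
import Pool.Agent.H.MP_929345_co.Pl.Tok

/-! C7d: every face contains a translate of C -/

set_option autoImplicit false

open MeasureTheory Set

namespace Pool.Agent.H.MP_929345_co.Pl

variable {I : Type*} {b : I → V} {d : I → Fin 4 → V} {tp : I → Fin 4 → ℝ}
  {L0 L1 T δ a1 r : ℝ} {ord : I × Fin 4 → ℕ} {len : I × Fin 4 → ℝ}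

/-- The final end of an arm. -/
def gdd_fin (A : I × Fin 4) : (I × Fin 3) × Bool := (obj A, if A.2 = 1 then false else true)

theorem gdd_zE (A : I × Fin 4) :
    zE (oP b d len) (oQ b d len) (gdd_fin A) = b A.1 + len A • d A.1 A.2 := by
  obtain ⟨i, k⟩ := A
  fin_cases k <;> simp [zE, gdd_fin, obj, oP, oQ]

theorem gdd_cases (e : (I × Fin 3) × Bool) :
    (∃ A : I × Fin 4, e = gdd_fin A) ∨
      zE (oP b d len) (oQ b d len) e = b e.1.1 := by
  obtain ⟨⟨i, m⟩, bo⟩ := e
  fin_cases m <;> cases bo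
  · exact Or.inl ⟨(i, 1), by simp [gdd_fin, obj]⟩
  · exact Or.inl ⟨(i, 0), by simp [gdd_fin, obj]⟩
  · exact Or.inr (by simp [zE, oP])
  · exact Or.inl ⟨(i, 2), by simp [gdd_fin, obj]⟩
  · exact Or.inr (by simp [zE, oP])
  · exact Or.inl ⟨(i, 3), by simp [gdd_fin, obj]⟩

theorem gdd_len (h : IsCro b d tp L0 L1 T δ a1 r) (he : IsExt b d tp T ord len)
    (A : I × Fin 4) : L0 ≤ len A :=
  (h.tp0 A.1 A.2).trans (he.ge A)

theorem gdd_norm (h : IsCro b d tp L0 L1 T δ a1 r) (he : IsExt b d tp T ord len)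
    (o : I × Fin 3) : L0 ≤ ‖oQ b d len o - oP b d len o‖ := by
  obtain ⟨i, m⟩ := o
  have h0 := h.L0pos
  fin_cases m
  · have h1 := gdd_len h he (i, 0)
    have h2 := gdd_len h he (i, 1)
    have h3 : oQ b d len (i, 0) - oP b d len (i, 0) = (len (i, 0) + len (i, 1)) • d i 0 := by
      simp only [oQ, oP, if_true, h.d1]
      module
    show L0 ≤ ‖oQ b d len (i, 0) - oP b d len (i, 0)‖
    rw [h3, norm_smul, h.dn, mul_one, Real.norm_eq_abs, abs_of_nonneg (by linarith)]
    linarith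
  · have h1 := gdd_len h he (i, 2)
    have h3 : oQ b d len (i, 1) - oP b d len (i, 1) = len (i, 2) • d i 2 := by
      simp [oQ, oP]
    show L0 ≤ ‖oQ b d len (i, 1) - oP b d len (i, 1)‖
    rw [h3, norm_smul, h.dn, mul_one, Real.norm_eq_abs, abs_of_nonneg (by linarith)]
    linarith
  · have h1 := gdd_len h he (i, 3)
    have h3 : oQ b d len (i, 2) - oP b d len (i, 2) = len (i, 3) • d i 3 := by
      simp [oQ, oP]
    show L0 ≤ ‖oQ b d len (i, 2) - oP b d len (i, 2)‖
    rw [h3, norm_smul, h.dn, mul_one, Real.norm_eq_abs, abs_of_nonneg (by linarith)]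
    linarith

theorem gdd_norm_dE (h : IsCro b d tp L0 L1 T δ a1 r) (he : IsExt b d tp T ord len)
    (e : (I × Fin 3) × Bool) : δ ≤ ‖dE (oP b d len) (oQ b d len) e‖ := by
  have h1 := gdd_norm h he e.1
  have h2 := h.δL
  unfold dE
  split_ifs
  · rw [norm_sub_rev]
    linarith
  · linarith

/-- The centre of a cross is a relative interior point of its object `0`. -/
theorem gdd_centre (h : IsCro b d tp L0 L1 T δ a1 r) (he : IsExt b d tp T ord len) (i : I) :
    b i ∈ openSegment ℝ (oP b d len (i, 0)) (oQ b d len (i, 0)) := by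
  rw [mem_open_obj h he]
  refine ⟨(i, 0), by simp [obj], 0, le_refl _, ?_, fun h0 => absurd rfl h0, by simp⟩
  exact lt_of_lt_of_le h.L0pos (gdd_len h he (i, 0))

/-- An end close to `e` in the relative interior of the object of `e` is the final end of
an arm. -/
theorem gdd_final (h : IsCro b d tp L0 L1 T δ a1 r) (he : IsExt b d tp T ord len)
    (e e' : (I × Fin 3) × Bool)
    (hz : zE (oP b d len) (oQ b d len) e' ∈ openSegment ℝ (oP b d len e.1) (oQ b d len e.1))
    (hd : ‖zE (oP b d len) (oQ b d len) e' - zE (oP b d len) (oQ b d len) e‖ < δ) :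
    ∃ B : I × Fin 4, e' = gdd_fin B := by
  rcases gdd_cases (b := b) (d := d) (len := len) e' with h1 | h1
  · exact h1
  · exfalso
    rw [h1] at hz hd
    have h2 : e.1 = (e'.1.1, 0) := by
      by_contra hne
      exact Set.disjoint_left.1 (ext_t1 h he _ _ hne) hz (gdd_centre h he e'.1.1)
    have h3 : ∃ k : Fin 4, e = gdd_fin (e'.1.1, k) := by
      obtain ⟨o, bo⟩ := e
      simp only at h2
      subst h2
      cases bo
      · exact ⟨1, by simp [gdd_fin, obj]⟩
      · exact ⟨0, by simp [gdd_fin, obj]⟩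
    obtain ⟨k, hk⟩ := h3
    rw [hk, gdd_zE] at hd
    have h4 : b e'.1.1 - (b (e'.1.1, k).1 + len (e'.1.1, k) • d (e'.1.1, k).1 (e'.1.1, k).2) =
        (-len (e'.1.1, k)) • d e'.1.1 k := by
      simp only
      module
    rw [h4, norm_smul, h.dn, mul_one, norm_neg, Real.norm_eq_abs] at hd
    have h5 := gdd_len h he (e'.1.1, k)
    have h6 := le_abs_self (len (e'.1.1, k))
    have h7 := h.δL
    linarith

/-- Job C7d.  Every face contains a translate of `C`. -/
theorem good_faces (h : IsCro b d tp L0 L1 T δ a1 r) (he : IsExt b d tp T ord len) [Countable I]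
    {C : Set V} {RC : ℝ} (hC : C ⊆ Metric.closedBall 0 RC)
    (hRC : 0 ≤ RC) (hr : 3 * RC + 2 ≤ r) (hδ : 4 * r / a1 < δ) :
    ∀ x, x ∉ Sg (oP b d len) (oQ b d len) →
      ∃ q, ∀ w ∈ C, q + w ∈ closure (Vis (Sg (oP b d len) (oQ b d len)) x) := by
  intro x hx
  by_contra hno
  have hT : IsT (oP b d len) (oQ b d len) T := ext_isT h he
  have hstep : ∀ (e : (I × Fin 3) × Bool) (τ : V), cr (dE (oP b d len) (oQ b d len) e) τ ≠ 0 →
      Adj (oP b d len) (oQ b d len) e τ (Vis (Sg (oP b d len) (oQ b d len)) x) →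
      ∃ (B : I × Fin 4) (τ' : V),
        zE (oP b d len) (oQ b d len) (gdd_fin B) ∈
          openSegment ℝ (oP b d len e.1) (oQ b d len e.1) ∧
        ‖zE (oP b d len) (oQ b d len) (gdd_fin B) - zE (oP b d len) (oQ b d len) e‖ < δ ∧
        cr (dE (oP b d len) (oQ b d len) (gdd_fin B)) τ' ≠ 0 ∧
        Adj (oP b d len) (oQ b d len) (gdd_fin B) τ'
          (Vis (Sg (oP b d len) (oQ b d len)) x) := by
    intro e τ hc hadj
    rcases walk_step hT hx hadj hc h.δpos (gdd_norm_dE h he e) with h1 | h1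
    · exact absurd (long_side hT hx hadj hc hC hRC hr h.a1pos hδ (gdd_norm_dE h he e) h1
        (fun j y hy z hz hyz hcc => ext_ang h he e j y z hy hz hyz hcc)) hno
    · obtain ⟨e', τ', h2, h3, h4, h5⟩ := h1
      obtain ⟨B, rfl⟩ := gdd_final h he e e' h2 h3
      exact ⟨B, τ', h2, h3, h4, h5⟩
  let S : Set (I × Fin 4) := {A | ∃ τ, cr (dE (oP b d len) (oQ b d len) (gdd_fin A)) τ ≠ 0 ∧
    Adj (oP b d len) (oQ b d len) (gdd_fin A) τ (Vis (Sg (oP b d len) (oQ b d len)) x)}
  have hne : S.Nonempty := by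
    obtain ⟨u, hu⟩ := exists_generic (P := oP b d len) (Q := oQ b d len) hT.ne
    obtain ⟨e0, -, -, τ, hτ, -, hadj⟩ := exists_token hT hu hx
    have hc := (adj_exists hT e0 hτ).1
    have hc' : cr (dE (oP b d len) (oQ b d len) e0) (-τ) ≠ 0 := by
      rw [cr_neg_right, ← cr_comm]
      exact hc
    obtain ⟨B, τ', -, -, h4, h5⟩ := hstep e0 (-τ) hc' hadj
    exact ⟨B, τ', h4, h5⟩
  have hfin : S.Finite := by
    have h1 := (h.fin (‖x‖ + T + (L1 + T))).prod (Set.finite_univ : (Set.univ : Set (Fin 4)).Finite)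
    apply h1.subset
    rintro A ⟨τ, -, hA⟩
    refine ⟨?_, Set.mem_univ _⟩
    show ‖b A.1‖ ≤ ‖x‖ + T + (L1 + T)
    have h2 := adj_closure hA
    rw [gdd_zE] at h2
    have h3 : closure (Vis (Sg (oP b d len) (oQ b d len)) x) ⊆ Metric.closedBall x T := by
      apply closure_minimal _ Metric.isClosed_closedBall
      intro y hy
      rw [Metric.mem_closedBall, dist_eq_norm]
      exact hT.bd x y hy
    have h4 := h3 h2
    rw [Metric.mem_closedBall, dist_eq_norm] at h4
    have h5 : b A.1 = (b A.1 + len A • d A.1 A.2 - x) + x - len A • d A.1 A.2 := by module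
    have h6 : ‖len A • d A.1 A.2‖ ≤ L1 + T := by
      rw [norm_smul, h.dn, mul_one, Real.norm_eq_abs,
        abs_of_nonneg (h.L0pos.le.trans (gdd_len h he A))]
      have h7 := he.le A
      have h8 := h.tp1 A.1 A.2
      linarith
    rw [h5]
    have h9 := norm_sub_le ((b A.1 + len A • d A.1 A.2 - x) + x) (len A • d A.1 A.2)
    have h10 := norm_add_le (b A.1 + len A • d A.1 A.2 - x) x
    linarith
  obtain ⟨A, ⟨τ, hA1, hA2⟩, hmax⟩ := Set.exists_max_image S ord hfin hne
  obtain ⟨B, τ', h2, h3, h4, h5⟩ := hstep (gdd_fin A) τ hA1 hA2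
  rw [gdd_zE] at h2
  rw [gdd_zE, gdd_zE] at h3
  have h6 := ext_order h he A B h2 h3
  have h7 := hmax B ⟨τ', h4, h5⟩
  omega

end Pool.Agent.H.MP_929345_co.Pl
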