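import Pool.Agent.H.MP_929345_co.Pl.Base

/-! C3f: sequential selection -/

set_option autoImplicit false

open MeasureTheory Set

namespace Pool.Agent.H.MP_929345_co.Pl

/-- One step of the selection, with a total function of earlier choices. -/
theorem sef_step {I : Type*} (x : I → V) {R η : ℝ} {m : ℕ}
    (hm : ∀ i, {j | ‖x j - x i‖ ≤ R}.Finite ∧ {j | ‖x j - x i‖ ≤ R}.ncard ≤ m)
    (Gd : I → V → V → V → Prop)
    (step : ∀ i, ∀ F : Finset (V × V), F.card ≤ 2 * m → (∀ l ∈ F, ‖l.2‖ = 1) →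
      ∃ b u v, Gd i b u v ∧ ‖u‖ = 1 ∧ ‖v‖ = 1 ∧ ∀ l ∈ F, η ≤ |cr l.2 (b - l.1)|)
    (i : I) (g : I → {t : V × V × V // ‖t.2.1‖ = 1 ∧ ‖t.2.2‖ = 1}) :
    ∃ t : {t : V × V × V // ‖t.2.1‖ = 1 ∧ ‖t.2.2‖ = 1}, Gd i t.1.1 t.1.2.1 t.1.2.2 ∧
      ∀ j, ‖x j - x i‖ ≤ R → η ≤ |cr (g j).1.2.1 (t.1.1 - (g j).1.1)| ∧
        η ≤ |cr (g j).1.2.2 (t.1.1 - (g j).1.1)| := by
  classical
  obtain ⟨hfin, hcard⟩ := hm i
  have hcard' : hfin.toFinset.card ≤ m := by
    rwa [← Set.ncard_eq_toFinset_card _ hfin]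
  obtain ⟨b, u, v, hG, hu, hv, hF⟩ := step i
    (hfin.toFinset.image (fun j => ((g j).1.1, (g j).1.2.1)) ∪
      hfin.toFinset.image (fun j => ((g j).1.1, (g j).1.2.2)))
    (by
      refine (Finset.card_union_le _ _).trans ?_
      have h1 := Finset.card_image_le (s := hfin.toFinset)
        (f := fun j => ((g j).1.1, (g j).1.2.1))
      have h2 := Finset.card_image_le (s := hfin.toFinset)
        (f := fun j => ((g j).1.1, (g j).1.2.2))
      omega)
    (by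
      intro l hl
      rw [Finset.mem_union, Finset.mem_image, Finset.mem_image] at hl
      rcases hl with ⟨j, -, rfl⟩ | ⟨j, -, rfl⟩
      · exact (g j).2.1
      · exact (g j).2.2)
  refine ⟨⟨(b, u, v), hu, hv⟩, hG, ?_⟩
  intro j hj
  have hj' : j ∈ hfin.toFinset := by
    rw [Set.Finite.mem_toFinset]
    exact hj
  constructor
  · exact hF ((g j).1.1, (g j).1.2.1)
      (Finset.mem_union_left _ (Finset.mem_image_of_mem _ hj'))
  · exact hF ((g j).1.1, (g j).1.2.2)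
      (Finset.mem_union_right _ (Finset.mem_image_of_mem _ hj'))

/-- Job C3f.  Sequential selection. -/
theorem exists_far {I : Type*} [Countable I] (x : I → V) {R η : ℝ} {m : ℕ}
    (hm : ∀ i, {j | ‖x j - x i‖ ≤ R}.Finite ∧ {j | ‖x j - x i‖ ≤ R}.ncard ≤ m)
    (Gd : I → V → V → V → Prop)
    (step : ∀ i, ∀ F : Finset (V × V), F.card ≤ 2 * m → (∀ l ∈ F, ‖l.2‖ = 1) →
      ∃ b u v, Gd i b u v ∧ ‖u‖ = 1 ∧ ‖v‖ = 1 ∧ ∀ l ∈ F, η ≤ |cr l.2 (b - l.1)|) :
    ∃ (b : I → V) (d : I → Fin 4 → V), (∀ i, d i 1 = -d i 0) ∧ (∀ i, d i 3 = -d i 2) ∧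
      (∀ i k, ‖d i k‖ = 1) ∧ (∀ i, Gd i (b i) (d i 0) (d i 2)) ∧
      ∀ i j, i ≠ j → ‖x i - x j‖ ≤ R →
        (∀ k, η ≤ |cr (d i k) (b j - b i)|) ∨ (∀ k, η ≤ |cr (d j k) (b i - b j)|) := by
  classical
  obtain ⟨ord, hord⟩ := exists_injective_nat I
  choose F hF1 hF2 using sef_step x hm Gd step
  have hone : ‖(fun _ => 1 : V)‖ = 1 := by
    rw [pi_norm_const]
    simp
  let T0 : {t : V × V × V // ‖t.2.1‖ = 1 ∧ ‖t.2.2‖ = 1} :=
    ⟨(0, (fun _ => 1), (fun _ => 1)), hone, hone⟩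
  let G : ℕ → I → {t : V × V × V // ‖t.2.1‖ = 1 ∧ ‖t.2.2‖ = 1} := fun n =>
    Nat.rec (fun _ => T0) (fun n g j => if ord j = n then F j g else g j) n
  have hGs : ∀ n j, G (n + 1) j = if ord j = n then F j (G n) else G n j := fun n j => rfl
  have hstab : ∀ j n, ord j < n → G n j = F j (G (ord j)) := by
    intro j n hn
    induction n with
    | zero => omega
    | succ n ih =>
      rw [hGs]
      by_cases h : ord j = n
      · rw [if_pos h, h]
      · rw [if_neg h]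
        exact ih (by omega)
  let t : I → {t : V × V × V // ‖t.2.1‖ = 1 ∧ ‖t.2.2‖ = 1} := fun j => F j (G (ord j))
  have key : ∀ i j, ord j < ord i → ‖x j - x i‖ ≤ R →
      η ≤ |cr (t j).1.2.1 ((t i).1.1 - (t j).1.1)| ∧
        η ≤ |cr (t j).1.2.2 ((t i).1.1 - (t j).1.1)| := by
    intro i j hij hR
    have h := hF2 i (G (ord i)) j hR
    rw [hstab j (ord i) hij] at h
    exact h
  have key2 : ∀ i j, ord j < ord i → ‖x j - x i‖ ≤ R → ∀ k : Fin 4,
      η ≤ |cr ((![(t j).1.2.1, -(t j).1.2.1, (t j).1.2.2, -(t j).1.2.2] : Fin 4 → V) k)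
        ((t i).1.1 - (t j).1.1)| := by
    intro i j hij hR k
    obtain ⟨h1, h2⟩ := key i j hij hR
    fin_cases k
    · exact h1
    · show η ≤ |cr (-(t j).1.2.1) ((t i).1.1 - (t j).1.1)|
      rw [cr_neg_left, abs_neg]
      exact h1
    · exact h2
    · show η ≤ |cr (-(t j).1.2.2) ((t i).1.1 - (t j).1.1)|
      rw [cr_neg_left, abs_neg]
      exact h2
  refine ⟨fun i => (t i).1.1,
    fun i => ![(t i).1.2.1, -(t i).1.2.1, (t i).1.2.2, -(t i).1.2.2],
    fun i => rfl, fun i => rfl, ?_, ?_, ?_⟩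
  · intro i k
    fin_cases k
    · exact (t i).2.1
    · show ‖-(t i).1.2.1‖ = 1
      rw [norm_neg]
      exact (t i).2.1
    · exact (t i).2.2
    · show ‖-(t i).1.2.2‖ = 1
      rw [norm_neg]
      exact (t i).2.2
  · intro i
    exact hF1 i (G (ord i))
  · intro i j hij hR
    have hne : ord i ≠ ord j := fun h => hij (hord h)
    rcases lt_or_gt_of_ne hne with h | h
    · left
      exact key2 j i h hR
    · right
      rw [norm_sub_rev] at hR
      exact key2 i j h hR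

end Pool.Agent.H.MP_929345_co.Pl
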