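import Pool.Agent.H.MP_929345_co.Pl.Base

/-! C1c: number of separated points -/

set_option autoImplicit false

open MeasureTheory Set

namespace Pool.Agent.H.MP_929345_co.Pl

/-- the bound for finite sets of indices -/
theorem sic_finset {I : Type*} (x : I → V) {a : ℝ} (ha : 0 < a)
    (hsep : ∀ i j, i ≠ j → a ≤ ‖x i - x j‖) (y : V) {R : ℝ} (hR : 0 ≤ R) (F : Finset I)
    (hF : ∀ i ∈ F, ‖x i - y‖ ≤ R) : (F.card : ℝ) ≤ (2 * R / a + 1) ^ 2 := by
  have hdisj : (F : Set I).PairwiseDisjoint (fun i => Metric.ball (x i) (a / 2)) := by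
    intro i _ j _ hij
    apply Metric.ball_disjoint_ball
    rw [dist_eq_norm]
    have := hsep i j hij
    linarith
  have h1 : volume (⋃ i ∈ F, Metric.ball (x i) (a / 2)) =
      ∑ i ∈ F, volume (Metric.ball (x i) (a / 2)) :=
    measure_biUnion_finset hdisj (fun i _ => measurableSet_ball)
  have h2 : ∀ i ∈ F, volume (Metric.ball (x i) (a / 2)) = ENNReal.ofReal (a ^ 2) := by
    intro i _
    rw [Real.volume_pi_ball _ (by linarith : 0 < a / 2)]
    congr 1
    rw [Fintype.card_fin]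
    ring
  rw [Finset.sum_congr rfl h2, Finset.sum_const, nsmul_eq_mul] at h1
  have h3 : (⋃ i ∈ F, Metric.ball (x i) (a / 2)) ⊆ Metric.closedBall y (R + a / 2) := by
    intro z hz
    rw [Set.mem_iUnion₂] at hz
    obtain ⟨i, hi, hz⟩ := hz
    rw [Metric.mem_ball] at hz
    rw [Metric.mem_closedBall]
    have h4 := hF i hi
    rw [← dist_eq_norm] at h4
    have h5 := dist_triangle z (x i) y
    linarith
  have h6 := measure_mono (μ := volume) h3
  rw [h1, Real.volume_pi_closedBall _ (by positivity : 0 ≤ R + a / 2), Fintype.card_fin] at h6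
  have h7 : (F.card : ENNReal) * ENNReal.ofReal (a ^ 2) = ENNReal.ofReal (F.card * a ^ 2) := by
    rw [ENNReal.ofReal_mul (Nat.cast_nonneg _), ENNReal.ofReal_natCast]
  rw [h7, ENNReal.ofReal_le_ofReal_iff (by positivity)] at h6
  have h8 : (2 * R / a + 1) ^ 2 = (2 * (R + a / 2)) ^ 2 / a ^ 2 := by
    field_simp
  rw [h8, le_div_iff₀ (by positivity)]
  exact h6

/-- Job C1c.  Separated points in a ball: their number. -/
theorem card_near {I : Type*} (x : I → V) {a : ℝ} (ha : 0 < a)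
    (hsep : ∀ i j, i ≠ j → a ≤ ‖x i - x j‖) (y : V) {R : ℝ} (hR : 0 ≤ R) :
    {i | ‖x i - y‖ ≤ R}.Finite ∧
      ({i | ‖x i - y‖ ≤ R}.ncard : ℝ) ≤ (2 * R / a + 1) ^ 2 := by
  have hfin : {i | ‖x i - y‖ ≤ R}.Finite := by
    by_contra hinf
    have hinf' : {i | ‖x i - y‖ ≤ R}.Infinite := hinf
    obtain ⟨F, hF, hcard⟩ := hinf'.exists_subset_card_eq (⌊(2 * R / a + 1) ^ 2⌋₊ + 1)
    have h1 := sic_finset x ha hsep y hR F (fun i hi => hF hi)
    rw [hcard] at h1
    push_cast at h1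
    have h2 := Nat.lt_floor_add_one ((2 * R / a + 1) ^ 2)
    linarith
  refine ⟨hfin, ?_⟩
  rw [Set.ncard_eq_toFinset_card _ hfin]
  apply sic_finset x ha hsep y hR
  intro i hi
  rw [Set.Finite.mem_toFinset] at hi
  exact hi

end Pool.Agent.H.MP_929345_co.Pl
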