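import Pool.Agent.H.MP_929345_co.Pl.Base

/-! C2: crosses block segments -/

set_option autoImplicit false

open MeasureTheory Set

namespace Pool.Agent.H.MP_929345_co.Pl

theorem sid_one {s0 c L : ℝ} (hs0 : 0 < s0) (hc8 : c ≤ s0 / 16)
    (hL : 0 < L) {b u x p q z E : V} (hu : ‖u‖ = 1)
    (hb : ‖b - x‖ ≤ c * L) (hzx : ‖z - x‖ ≤ c * L) (hE : ‖E‖ = 1)
    (hseg : ∀ t : ℝ, |t| ≤ 4 * L → z + t • E ∈ segment ℝ p q) (hcr : s0 / 2 ≤ |cr E u|) :
    ∃ y ∈ segment ℝ p q, ‖y - z‖ ≤ L ∧ ∃ t : ℝ, |t| ≤ L / 2 ∧ y = b + t • u := by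
  have hD : s0 / 2 ≤ |cr u E| := by
    rw [cr_comm, abs_neg]
    exact hcr
  have hD0 : 0 < |cr u E| := by linarith
  have hDne : cr u E ≠ 0 := abs_pos.mp hD0
  have hzb : ‖z - b‖ ≤ 2 * c * L := by
    have h1 : z - b = (z - x) - (b - x) := by abel
    rw [h1]
    have h2 := norm_sub_le (z - x) (b - x)
    linarith
  have bound : ∀ w : V, ‖w‖ = 1 → |cr (z - b) w / cr u E| ≤ L / 2 := by
    intro w hw
    have h1 := abs_cr_le (z - b) w
    rw [hw, mul_one] at h1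
    rw [abs_div, div_le_iff₀ hD0]
    have h2 : c * L ≤ s0 / 16 * L := mul_le_mul_of_nonneg_right hc8 hL.le
    have h3 : L / 2 * (s0 / 2) ≤ L / 2 * |cr u E| := mul_le_mul_of_nonneg_left hD (by linarith)
    nlinarith
  have ht := bound u hu
  have hτ := bound E hE
  set t := cr (z - b) u / cr u E with htdef
  set s := cr (z - b) E / cr u E with hsdef
  have hexp := cr_expand u E (z - b)
  have hid : z + t • E = b + s • u := by
    have h1 : cr u E • ((z + t • E) - (b + s • u)) = 0 := by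
      have h2 : (z + t • E) - (b + s • u) = (z - b) + t • E - s • u := by abel
      rw [h2, smul_sub, smul_add, hexp, smul_smul, smul_smul, htdef, hsdef,
        mul_div_cancel₀ _ hDne, mul_div_cancel₀ _ hDne]
      abel
    have h3 := (smul_eq_zero.mp h1).resolve_left hDne
    exact sub_eq_zero.mp h3
  refine ⟨z + t • E, hseg t (by linarith), ?_, s, hτ, hid⟩
  rw [add_sub_cancel_left, norm_smul, hE, mul_one, Real.norm_eq_abs]
  linarith

/-- Job C2.  A cross blocks every segment which passes near its centre. -/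
theorem cross_block {s0 c L : ℝ} (hs0 : 0 < s0) (hs1 : s0 ≤ 1) (hc : 0 < c) (hc8 : c ≤ s0 / 16)
    (hL : 0 < L)
    {b u v x p q z : V} (hu : ‖u‖ = 1) (hv : ‖v‖ = 1) (huv : s0 ≤ |cr u v|)
    (hb : ‖b - x‖ ≤ c * L) (hz : z ∈ segment ℝ p q) (hzx : ‖z - x‖ ≤ c * L)
    (hzp : 4 * L ≤ ‖z - p‖) (hzq : 4 * L ≤ ‖z - q‖) :
    ∃ y ∈ segment ℝ p q, ‖y - z‖ ≤ L ∧
      ((∃ t : ℝ, |t| ≤ L / 2 ∧ y = b + t • u) ∨ (∃ t : ℝ, |t| ≤ L / 2 ∧ y = b + t • v)) := by
  rw [segment_eq_image'] at hz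
  obtain ⟨θ, ⟨hθ0, hθ1⟩, hθ⟩ := hz
  have hθ' : z = p + θ • (q - p) := hθ.symm
  have e1 : ‖z - p‖ = θ * ‖q - p‖ := by
    rw [hθ', add_sub_cancel_left, norm_smul, Real.norm_eq_abs, abs_of_nonneg hθ0]
  have e2 : ‖z - q‖ = (1 - θ) * ‖q - p‖ := by
    have h1 : z - q = -((1 - θ) • (q - p)) := by
      rw [hθ', sub_smul, one_smul]
      abel
    rw [h1, norm_neg, norm_smul, Real.norm_eq_abs, abs_of_nonneg (by linarith)]
  rw [e1] at hzp
  rw [e2] at hzq
  have hn : 0 < ‖q - p‖ := by nlinarith [norm_nonneg (q - p)]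
  have hE : ‖(1 / ‖q - p‖) • (q - p)‖ = 1 := by
    rw [norm_smul, Real.norm_eq_abs, abs_of_pos (by positivity)]
    field_simp
  set E : V := (1 / ‖q - p‖) • (q - p) with hEdef
  have hseg : ∀ t : ℝ, |t| ≤ 4 * L → z + t • E ∈ segment ℝ p q := by
    intro t ht
    rw [segment_eq_image']
    refine ⟨θ + t / ‖q - p‖, ⟨?_, ?_⟩, ?_⟩
    · have h1 : 0 ≤ (θ * ‖q - p‖ + t) / ‖q - p‖ := by
        apply div_nonneg _ hn.le
        have := (abs_le.mp ht).1
        linarith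
      have h2 : (θ * ‖q - p‖ + t) / ‖q - p‖ = θ + t / ‖q - p‖ := by
        field_simp
      rwa [h2] at h1
    · have h1 : 0 ≤ ((1 - θ) * ‖q - p‖ - t) / ‖q - p‖ := by
        apply div_nonneg _ hn.le
        have := (abs_le.mp ht).2
        linarith
      have h2 : ((1 - θ) * ‖q - p‖ - t) / ‖q - p‖ = 1 - (θ + t / ‖q - p‖) := by
        field_simp
        ring
      rw [h2] at h1
      linarith
    · show p + (θ + t / ‖q - p‖) • (q - p) = z + t • E
      rw [hθ', hEdef, smul_smul, add_smul, add_assoc, mul_one_div]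
  have hsum : s0 ≤ |cr E v| + |cr E u| := by
    have h1 := cr_expand u v E
    have h2 : ‖cr u v • E‖ = |cr u v| := by
      rw [norm_smul, hE, mul_one, Real.norm_eq_abs]
    have h3 : ‖cr u v • E‖ ≤ |cr E v| + |cr E u| := by
      rw [h1]
      refine (norm_sub_le _ _).trans ?_
      rw [norm_smul, norm_smul, hu, hv, mul_one, mul_one, Real.norm_eq_abs, Real.norm_eq_abs]
    linarith
  rcases le_or_gt (s0 / 2) |cr E u| with h | h
  · obtain ⟨y, hy, hy1, hy2⟩ := sid_one (p := p) (q := q) hs0 hc8 hL hu hb hzx hE hseg h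
    exact ⟨y, hy, hy1, Or.inl hy2⟩
  · obtain ⟨y, hy, hy1, hy2⟩ := sid_one (p := p) (q := q) hs0 hc8 hL hv hb hzx hE hseg
      (by linarith)
    exact ⟨y, hy, hy1, Or.inr hy2⟩

end Pool.Agent.H.MP_929345_co.Pl
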