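import Pool.Agent.H.MP_929345_co.Pl.CrDef
import Pool.Agent.H.MP_929345_co.Pl.SiC
import Pool.Agent.H.MP_929345_co.Pl.SiD

/-! C4: whiskers and tips -/

set_option autoImplicit false

open MeasureTheory Set

namespace Pool.Agent.H.MP_929345_co.Pl

/-- Job C4a.  A parameter which avoids finitely many short intervals. -/
theorem exists_avoid {J : Type*} (S : Finset J) (p q : J → ℝ) {L a : ℝ} (ha : 0 ≤ a)
    (hS : S.card * a < L)
    (hI : ∀ j ∈ S, ∀ s t, p j ≤ s → s ≤ q j → p j ≤ t → t ≤ q j → |s - t| ≤ a) :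
    ∃ t, L ≤ t ∧ t ≤ 2 * L ∧ ∀ j ∈ S, ¬ (p j ≤ t ∧ t ≤ q j) := by
  by_contra hcon
  push Not at hcon
  have hL : 0 < L := lt_of_le_of_lt (by positivity) hS
  have hsub : Icc L (2 * L) ⊆ ⋃ j ∈ S, Icc (p j) (q j) := by
    intro t ht
    obtain ⟨j, hj, h1, h2⟩ := hcon t ht.1 ht.2
    simp only [mem_iUnion]
    exact ⟨j, hj, h1, h2⟩
  have h1 : volume (Icc L (2 * L)) ≤ ∑ j ∈ S, volume (Icc (p j) (q j)) :=
    (measure_mono hsub).trans (measure_biUnion_finset_le S _)
  have h2 : ∑ j ∈ S, volume (Icc (p j) (q j)) ≤ ∑ j ∈ S, ENNReal.ofReal a := by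
    apply Finset.sum_le_sum
    intro j hj
    rw [Real.volume_Icc]
    apply ENNReal.ofReal_le_ofReal
    rcases le_or_gt (p j) (q j) with h | h
    · have := hI j hj (q j) (p j) h le_rfl le_rfl h
      exact (le_abs_self _).trans this
    · linarith
  rw [Finset.sum_const, ← ENNReal.ofReal_nsmul] at h2
  rw [Real.volume_Icc] at h1
  have h3 := h1.trans h2
  rw [ENNReal.ofReal_le_ofReal_iff (by positivity)] at h3
  rw [nsmul_eq_mul] at h3
  linarith

lemma seg_proj (u w : V) (hu : ‖u‖ = 1) : ∃ t : ℝ, ‖w - t • u‖ ≤ |cr u w| := by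
  have h : |u 0| = 1 ∨ |u 1| = 1 := by
    by_contra hcon
    push Not at hcon
    have h0 := norm_le_pi_norm u 0
    have h1 := norm_le_pi_norm u 1
    rw [hu, Real.norm_eq_abs] at h0 h1
    have h2 : ‖u‖ < 1 := by
      rw [pi_norm_lt_iff one_pos]
      intro i
      fin_cases i
      · exact lt_of_le_of_ne h0 hcon.1
      · exact lt_of_le_of_ne h1 hcon.2
    linarith
  rcases h with h | h
  · have hsq : u 0 * u 0 = 1 := by rw [← abs_mul_abs_self, h, one_mul]
    refine ⟨w 0 * u 0, ?_⟩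
    rw [pi_norm_le_iff_of_nonneg (abs_nonneg _)]
    have hcr : |cr u w| = |w 1 - w 0 * u 0 * u 1| := by
      have h3 : cr u w = u 0 * (w 1 - w 0 * u 0 * u 1) := by
        unfold cr
        linear_combination (w 0 * u 1) * hsq
      rw [h3, abs_mul, h, one_mul]
    intro i
    rw [hcr]
    fin_cases i
    · have h4 : (w - (w 0 * u 0) • u) 0 = 0 := by
        simp only [Pi.sub_apply, Pi.smul_apply, smul_eq_mul]
        linear_combination (- w 0) * hsq
      show ‖(w - (w 0 * u 0) • u) 0‖ ≤ _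
      rw [h4, norm_zero]
      exact abs_nonneg _
    · show ‖(w - (w 0 * u 0) • u) 1‖ ≤ _
      rw [Real.norm_eq_abs]
      simp only [Pi.sub_apply, Pi.smul_apply, smul_eq_mul]
      exact le_rfl
  · have hsq : u 1 * u 1 = 1 := by rw [← abs_mul_abs_self, h, one_mul]
    refine ⟨w 1 * u 1, ?_⟩
    rw [pi_norm_le_iff_of_nonneg (abs_nonneg _)]
    have hcr : |cr u w| = |w 0 - w 1 * u 1 * u 0| := by
      have h3 : cr u w = - u 1 * (w 0 - w 1 * u 1 * u 0) := by
        unfold cr
        linear_combination (- (w 1 * u 0)) * hsq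
      rw [h3, abs_mul, abs_neg, h, one_mul]
    intro i
    rw [hcr]
    fin_cases i
    · show ‖(w - (w 1 * u 1) • u) 0‖ ≤ _
      rw [Real.norm_eq_abs]
      simp only [Pi.sub_apply, Pi.smul_apply, smul_eq_mul]
      exact le_rfl
    · have h4 : (w - (w 1 * u 1) • u) 1 = 0 := by
        simp only [Pi.sub_apply, Pi.smul_apply, smul_eq_mul]
        linear_combination (- w 1) * hsq
      show ‖(w - (w 1 * u 1) • u) 1‖ ≤ _
      rw [h4, norm_zero]
      exact abs_nonneg _

lemma seg_div {η M t c : ℝ} (hM : 0 < M) (ht : |t| ≤ M) (h : η / 2 ≤ |t| * |c|) :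
    η / (2 * M) ≤ |c| := by
  rw [div_le_iff₀ (by positivity)]
  have h1 : |t| * |c| ≤ M * |c| := mul_le_mul_of_nonneg_right ht (abs_nonneg _)
  nlinarith

lemma seg_far_a {e f bi bj : V} {τ δ η M : ℝ} (he : ‖e‖ = 1) (hf : ‖f‖ = 1)
    (hη : η ≤ |cr e (bj - bi)|) (h8 : 8 * δ ≤ η)
    (hbad : |cr f (bi + τ • e - bj)| ≤ 2 * δ) (hM : 2 * δ + |τ| + ‖bi - bj‖ ≤ M)
    (hM0 : 0 < M) : η / (2 * M) ≤ |cr f e| := by
  obtain ⟨t, ht⟩ := seg_proj f (bi + τ • e - bj) hf
  have h1 : ‖bi + τ • e - bj - t • f‖ ≤ 2 * δ := ht.trans hbad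
  have h2 := abs_cr_le e (bi + τ • e - bj - t • f)
  rw [he, one_mul] at h2
  have h3 : cr e (bi + τ • e - bj - t • f) = - cr e (bj - bi) - t * cr e f := by
    rw [cr_sub_right, cr_sub_right, cr_add_right, cr_smul_right, cr_smul_right, cr_self,
      cr_sub_right]
    ring
  rw [h3] at h2
  have h4 : |cr e (bj - bi)| ≤ |t * cr e f| + |- cr e (bj - bi) - t * cr e f| := by
    have h5 : cr e (bj - bi) = - (t * cr e f) - (- cr e (bj - bi) - t * cr e f) := by ring
    calc |cr e (bj - bi)| = |- (t * cr e f) - (- cr e (bj - bi) - t * cr e f)| := by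
          rw [← h5]
      _ ≤ |- (t * cr e f)| + |- cr e (bj - bi) - t * cr e f| := abs_sub _ _
      _ = _ := by rw [abs_neg]
  have h6 : |t| ≤ M := by
    have h7 : ‖t • f‖ = |t| := by rw [norm_smul, hf, mul_one, Real.norm_eq_abs]
    have h8' : t • f = (bi - bj) + τ • e - (bi + τ • e - bj - t • f) := by abel
    have h9 : ‖τ • e‖ = |τ| := by rw [norm_smul, he, mul_one, Real.norm_eq_abs]
    calc |t| = ‖(bi - bj) + τ • e - (bi + τ • e - bj - t • f)‖ := by rw [← h8', h7]
      _ ≤ ‖(bi - bj) + τ • e‖ + ‖bi + τ • e - bj - t • f‖ := norm_sub_le _ _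
      _ ≤ ‖bi - bj‖ + ‖τ • e‖ + ‖bi + τ • e - bj - t • f‖ := by
          gcongr
          exact norm_add_le _ _
      _ ≤ M := by rw [h9]; linarith
  rw [cr_comm f e, abs_neg]
  apply seg_div hM0 h6
  rw [← abs_mul]
  linarith

lemma seg_far_b {e f bi bj : V} {τ δ η M : ℝ}
    (hη : η ≤ |cr f (bi - bj)|) (h8 : 8 * δ ≤ η) (hδ : 0 < δ)
    (hbad : |cr f (bi + τ • e - bj)| ≤ 2 * δ) (hM : |τ| ≤ M)
    (hM0 : 0 < M) : η / (2 * M) ≤ |cr f e| := by
  apply seg_div hM0 hM
  rw [← abs_mul]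
  have h3 : cr f (bi + τ • e - bj) = cr f (bi - bj) + τ * cr f e := by
    rw [cr_sub_right, cr_add_right, cr_smul_right, cr_sub_right]
    ring
  rw [h3] at hbad
  have h4 : |cr f (bi - bj)| ≤ |cr f (bi - bj) + τ * cr f e| + |τ * cr f e| := by
    have h5 : cr f (bi - bj) = (cr f (bi - bj) + τ * cr f e) - τ * cr f e := by ring
    calc |cr f (bi - bj)| = |(cr f (bi - bj) + τ * cr f e) - τ * cr f e| := by rw [← h5]
      _ ≤ _ := abs_sub _ _
  linarith

/-- the bad parameters form a short interval -/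
lemma seg_interval {α β δ κ A B : ℝ} (hδ : 0 < δ) (hκ : 0 < κ)
    (h : ∀ τ, A ≤ τ → τ ≤ B → |α + τ * β| ≤ 2 * δ → κ ≤ |β|) :
    ∃ p q : ℝ, q - p ≤ 4 * δ / κ ∧
      ∀ τ, A ≤ τ → τ ≤ B → |α + τ * β| ≤ 2 * δ → p ≤ τ ∧ τ ≤ q := by
  by_cases hex : ∃ τ, A ≤ τ ∧ τ ≤ B ∧ |α + τ * β| ≤ 2 * δ
  · obtain ⟨τ0, h1, h2, h3⟩ := hex
    have h4 := h τ0 h1 h2 h3
    have h5 : 0 < |β| := lt_of_lt_of_le hκ h4
    have hβ : β ≠ 0 := abs_pos.mp h5
    refine ⟨- α / β - 2 * δ / |β|, - α / β + 2 * δ / |β|, ?_, ?_⟩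
    · have h6 : - α / β + 2 * δ / |β| - (- α / β - 2 * δ / |β|) = 4 * δ / |β| := by ring
      rw [h6]
      exact div_le_div_of_nonneg_left (by positivity) hκ h4
    · intro τ _ _ h7
      have h8 : |τ - (- α / β)| ≤ 2 * δ / |β| := by
        rw [le_div_iff₀ h5, ← abs_mul]
        have h9 : (τ - (- α / β)) * β = α + τ * β := by
          field_simp
          ring
        rw [h9]
        exact h7
      rw [abs_le] at h8
      constructor <;> linarith [h8.1, h8.2]
  · push Not at hex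
    refine ⟨0, 0, ?_, ?_⟩
    · rw [sub_zero]
      positivity
    · intro τ h1 h2 h3
      exact absurd h3 (not_le_of_gt (hex τ h1 h2))

/-- the line of the arm -/
def seg_ln (o : Bool) : Fin 4 := if o then 2 else 0

lemma seg_abs {d : Fin 4 → V} (h1 : d 1 = -d 0) (h3 : d 3 = -d 2) (l : Fin 4) :
    ∃ o : Bool, ∀ w : V, |cr (d l) w| = |cr (d (seg_ln o)) w| := by
  fin_cases l
  · exact ⟨false, fun w => rfl⟩
  · refine ⟨false, fun w => ?_⟩
    show |cr (d 1) w| = |cr (d 0) w|
    rw [h1, cr_neg_left, abs_neg]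
  · exact ⟨true, fun w => rfl⟩
  · refine ⟨true, fun w => ?_⟩
    show |cr (d 3) w| = |cr (d 2) w|
    rw [h3, cr_neg_left, abs_neg]

lemma seg_ang {d : Fin 4 → V} (h1 : d 1 = -d 0) (h3 : d 3 = -d 2) {s0 : ℝ}
    (hs : s0 ≤ |cr (d 0) (d 2)|) (k l : Fin 4) (hkl : ¬ sameL k l) : s0 ≤ |cr (d k) (d l)| := by
  have hs' : s0 ≤ |cr (d 2) (d 0)| := by rw [cr_comm, abs_neg]; exact hs
  revert hkl
  fin_cases k <;> fin_cases l <;> intro hkl <;>
    first
    | exact absurd rfl hkl
    | (simp only [Fin.zero_eta, Fin.mk_one, Fin.reduceFinMk, h1, h3, cr_neg_left, cr_neg_right,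
        abs_neg]; first | exact hs | exact hs')

/-- choice of one tip -/
lemma seg_tip {I : Type} (x : I → V) (L : I → ℝ) (b : I → V) (d : I → Fin 4 → V)
    {c s0 η R T L0 Lm : ℝ} (m : ℕ)
    (hs1 : s0 ≤ 1) (hc : 0 < c) (hc8 : c ≤ s0 / 16)
    (hL0 : 0 < L0) (hL : ∀ i, L0 ≤ L i ∧ L i ≤ Lm) (hT : 0 < T)
    (hb : ∀ i, ‖b i - x i‖ ≤ c * L i)
    (hdn : ∀ i k, ‖d i k‖ = 1)
    (hR : 8 * (2 * Lm + T + 1) ≤ R)
    (hm : ∀ i, {j | ‖x j - x i‖ ≤ R}.Finite ∧ {j | ‖x j - x i‖ ≤ R}.ncard ≤ m)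
    (hfar : ∀ i j, i ≠ j → ‖x i - x j‖ ≤ R →
        (∀ k, η ≤ |cr (d i k) (b j - b i)|) ∨ (∀ k, η ≤ |cr (d j k) (b i - b j)|))
    {δ : ℝ} (hδ : 0 < δ) (hδ8 : 8 * δ ≤ η)
    (hδL : δ < L0) (hδm : 16 * m * δ * R / η < L0) (i : I) (k : Fin 4) :
    ∃ τ, L i ≤ τ ∧ τ ≤ 2 * L i ∧ ∀ j, j ≠ i → ‖x j - x i‖ ≤ R / 2 → ∀ o : Bool,
      2 * δ < |cr (d j (seg_ln o)) (b i + τ • d i k - b j)| := by
  classical
  have hη : 0 < η := by linarith
  have hLi := hL i
  have hR0 : 0 < R := by linarith [hLi.1, hLi.2]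
  have hint : ∀ jo : I × Bool, ∃ p q : ℝ, q - p ≤ 8 * δ * R / η ∧
      (jo.1 ≠ i → ‖x jo.1 - x i‖ ≤ R / 2 → ∀ τ, L i ≤ τ → τ ≤ 2 * L i →
        |cr (d jo.1 (seg_ln jo.2)) (b i + τ • d i k - b jo.1)| ≤ 2 * δ → p ≤ τ ∧ τ ≤ q) := by
    rintro ⟨j, o⟩
    by_cases hj : j ≠ i ∧ ‖x j - x i‖ ≤ R / 2
    · obtain ⟨hji, hjR⟩ := hj
      have hLj := hL j
      have hform : ∀ τ : ℝ, cr (d j (seg_ln o)) (b i + τ • d i k - b j)
          = cr (d j (seg_ln o)) (b i - b j) + τ * cr (d j (seg_ln o)) (d i k) := by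
        intro τ
        rw [cr_sub_right, cr_add_right, cr_smul_right, cr_sub_right]
        ring
      have hslope : ∀ τ, L i ≤ τ → τ ≤ 2 * L i →
          |cr (d j (seg_ln o)) (b i - b j) + τ * cr (d j (seg_ln o)) (d i k)| ≤ 2 * δ →
          η / (2 * R) ≤ |cr (d j (seg_ln o)) (d i k)| := by
        intro τ h1 h2 h3
        rw [← hform] at h3
        have hτ : |τ| ≤ 2 * Lm := by
          rw [abs_of_nonneg (by linarith [hLi.1])]
          linarith [hLi.2]
        rcases hfar i j (Ne.symm hji) (by rw [norm_sub_rev]; linarith) with h4 | h4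
        · apply seg_far_a (hdn i k) (hdn j _) (h4 k) hδ8 h3 _ hR0
          have h5 : ‖b i - b j‖ ≤ ‖b i - x i‖ + ‖x j - x i‖ + ‖b j - x j‖ := by
            have h6 : b i - b j = (b i - x i) - (x j - x i) - (b j - x j) := by abel
            rw [h6]
            calc _ ≤ ‖(b i - x i) - (x j - x i)‖ + ‖b j - x j‖ := norm_sub_le _ _
              _ ≤ _ := by gcongr; exact norm_sub_le _ _
          have h7 := hb i
          have h8 := hb j
          have h9 : c * L i ≤ Lm / 16 := by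
            have : c ≤ 1 / 16 := by linarith
            calc c * L i ≤ 1 / 16 * Lm := by
                  apply mul_le_mul this hLi.2 (by linarith [hLi.1]) (by norm_num)
              _ = _ := by ring
          have h10 : c * L j ≤ Lm / 16 := by
            have : c ≤ 1 / 16 := by linarith
            calc c * L j ≤ 1 / 16 * Lm := by
                  apply mul_le_mul this hLj.2 (by linarith [hLj.1]) (by norm_num)
              _ = _ := by ring
          linarith [hLi.1, hLi.2]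
        · exact seg_far_b (h4 _) hδ8 hδ h3 (by linarith [hLi.1, hLi.2]) hR0
      obtain ⟨p, q, h1, h2⟩ := seg_interval hδ (by positivity : 0 < η / (2 * R)) hslope
      refine ⟨p, q, ?_, ?_⟩
      · have h3 : 4 * δ / (η / (2 * R)) = 8 * δ * R / η := by
          field_simp
          ring
        rw [← h3]
        exact h1
      · intro _ _ τ h3 h4 h5
        rw [hform] at h5
        exact h2 τ h3 h4 h5
    · refine ⟨0, 0, ?_, ?_⟩
      · rw [sub_zero]
        positivity
      · intro h1 h2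
        exact absurd ⟨h1, h2⟩ hj
  choose p q hpq hbad using hint
  have hcard : (((hm i).1.toFinset ×ˢ (Finset.univ : Finset Bool)).card : ℝ)
      * (8 * δ * R / η) < L i := by
    have h1 : ((hm i).1.toFinset ×ˢ (Finset.univ : Finset Bool)).card ≤ m * 2 := by
      rw [Finset.card_product, Finset.card_univ, Fintype.card_bool,
        ← Set.ncard_eq_toFinset_card _ (hm i).1]
      exact Nat.mul_le_mul_right 2 (hm i).2
    have h2 : (((hm i).1.toFinset ×ˢ (Finset.univ : Finset Bool)).card : ℝ) ≤ m * 2 := by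
      exact_mod_cast h1
    have h3 : (0 : ℝ) ≤ 8 * δ * R / η := by positivity
    calc _ ≤ (m * 2) * (8 * δ * R / η) := mul_le_mul_of_nonneg_right h2 h3
      _ = 16 * m * δ * R / η := by ring
      _ < L0 := hδm
      _ ≤ L i := hLi.1
  obtain ⟨τ, h1, h2, h3⟩ := exists_avoid ((hm i).1.toFinset ×ˢ (Finset.univ : Finset Bool))
    p q (by positivity : (0 : ℝ) ≤ 8 * δ * R / η) hcard (by
      intro jo _ s t hs1 hs2 ht1 ht2
      have := hpq jo
      rw [abs_le]
      constructor <;> linarith)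
  refine ⟨τ, h1, h2, ?_⟩
  intro j hji hjR o
  by_contra hcon
  push Not at hcon
  apply h3 (j, o)
  · rw [Finset.mem_product]
    refine ⟨?_, Finset.mem_univ _⟩
    rw [Set.Finite.mem_toFinset]
    show ‖x j - x i‖ ≤ R
    linarith
  · exact hbad (j, o) hji hjR τ h1 h2 hcon

/-- Job C4b.  Whiskers and tips. -/
theorem cro_of_far {I : Type} (x : I → V) (L : I → ℝ) (b : I → V) (d : I → Fin 4 → V)
    {c s0 η R T L0 Lm : ℝ} (m : ℕ)
    (hs0 : 0 < s0) (hs1 : s0 ≤ 1) (hc : 0 < c) (hc8 : c ≤ s0 / 16)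
    (hL0 : 0 < L0) (hL : ∀ i, L0 ≤ L i ∧ L i ≤ Lm) (hT : 0 < T)
    (hsep : ∀ i j, i ≠ j → 20 * (L i + L j) ≤ ‖x i - x j‖)
    (hblk : ∀ p q : V, T ≤ ‖p - q‖ → ∃ i, ∃ z ∈ segment ℝ p q,
      ‖z - x i‖ ≤ c * L i ∧ 4 * L i ≤ ‖z - p‖ ∧ 4 * L i ≤ ‖z - q‖)
    (hb : ∀ i, ‖b i - x i‖ ≤ c * L i)
    (hd1 : ∀ i, d i 1 = -d i 0) (hd3 : ∀ i, d i 3 = -d i 2) (hdn : ∀ i k, ‖d i k‖ = 1)
    (hs : ∀ i, s0 ≤ |cr (d i 0) (d i 2)|)
    (hR : 8 * (2 * Lm + T + 1) ≤ R)
    (hm : ∀ i, {j | ‖x j - x i‖ ≤ R}.Finite ∧ {j | ‖x j - x i‖ ≤ R}.ncard ≤ m)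
    (hfar : ∀ i j, i ≠ j → ‖x i - x j‖ ≤ R →
        (∀ k, η ≤ |cr (d i k) (b j - b i)|) ∨ (∀ k, η ≤ |cr (d j k) (b i - b j)|))
    {r δ : ℝ} (hr : 0 < r) (hr1 : r ≤ R / 8) (hr4 : 4 * r ≤ η) (hδ : 0 < δ) (hδ8 : 8 * δ ≤ η)
    (hδL : δ < L0) (hδm : 16 * m * δ * R / η < L0) :
    ∃ tp : I → Fin 4 → ℝ, IsCro b d tp L0 (2 * Lm) T δ (min s0 (η / (2 * R))) r := by
  have hη : 0 < η := by linarith
  have hcL : ∀ i, c * L i ≤ Lm / 16 := by
    intro i
    have hLi := hL i
    have : c ≤ 1 / 16 := by linarith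
    calc c * L i ≤ 1 / 16 * Lm := by
          apply mul_le_mul this hLi.2 (by linarith [hLi.1]) (by norm_num)
      _ = _ := by ring
  have hcL' : ∀ i, c * L i ≤ L i / 16 := by
    intro i
    have hLi := hL i
    have : c ≤ 1 / 16 := by linarith
    calc c * L i ≤ 1 / 16 * L i := by
          apply mul_le_mul_of_nonneg_right this (by linarith [hLi.1])
      _ = _ := by ring
  choose tp ht1 ht2 ht3 using fun i k => seg_tip x L b d m hs1 hc hc8 hL0 hL hT hb hdn hR hm
    hfar hδ hδ8 hδL hδm i k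
  -- distances between points of the arms
  have hdist : ∀ i j k l (s t : ℝ), 0 ≤ s → 0 ≤ t →
      ‖x i - x j‖ ≤ ‖b i + s • d i k - (b j + t • d j l)‖ + c * L i + c * L j + s + t := by
    intro i j k l s t hs' ht'
    have h1 : x i - x j = (b i + s • d i k - (b j + t • d j l)) - (b i - x i) + (b j - x j)
        - s • d i k + t • d j l := by abel
    have h2 : ‖s • d i k‖ = s := by rw [norm_smul, hdn, mul_one, Real.norm_of_nonneg hs']
    have h3 : ‖t • d j l‖ = t := by rw [norm_smul, hdn, mul_one, Real.norm_of_nonneg ht']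
    have h4 : ‖x i - x j‖ ≤ ‖b i + s • d i k - (b j + t • d j l)‖ + ‖b i - x i‖ + ‖b j - x j‖
        + ‖s • d i k‖ + ‖t • d j l‖ := by
      rw [h1]
      calc _ ≤ ‖(b i + s • d i k - (b j + t • d j l)) - (b i - x i) + (b j - x j)
            - s • d i k‖ + ‖t • d j l‖ := norm_add_le _ _
        _ ≤ ‖(b i + s • d i k - (b j + t • d j l)) - (b i - x i) + (b j - x j)‖
            + ‖s • d i k‖ + ‖t • d j l‖ := by gcongr; exact norm_sub_le _ _
        _ ≤ ‖(b i + s • d i k - (b j + t • d j l)) - (b i - x i)‖ + ‖b j - x j‖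
            + ‖s • d i k‖ + ‖t • d j l‖ := by gcongr; exact norm_add_le _ _
        _ ≤ _ := by gcongr; exact norm_sub_le _ _
    rw [h2, h3] at h4
    linarith [hb i, hb j]
  obtain ⟨i0, -⟩ : ∃ i : I, True := by
    have h0 : T ≤ ‖(0 : V) - ((fun _ => T) : V)‖ := by
      have h1 := norm_le_pi_norm ((0 : V) - ((fun _ => T) : V)) 0
      have h2 : ‖((0 : V) - ((fun _ => T) : V)) 0‖ = T := by
        simp only [Pi.sub_apply, Pi.zero_apply, zero_sub, norm_neg]
        exact Real.norm_of_nonneg hT.le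
      rw [h2] at h1
      exact h1
    obtain ⟨i, _⟩ := hblk 0 ((fun _ => T) : V) h0
    exact ⟨i, trivial⟩
  have hLm : L0 ≤ Lm := (hL i0).1.trans (hL i0).2
  have hR0 : 0 < R := by linarith
  refine ⟨tp, ?_⟩
  refine ⟨hL0, hT, hδ, hδL, ?_, hr, hd1, hd3, hdn, ?_, ?_, ?_, ?_, ?_, ?_, ?_, ?_⟩
  · -- a1pos
    exact lt_min hs0 (by positivity)
  · intro i k
    exact (hL i).1.trans (ht1 i k)
  · intro i k
    have := ht2 i k
    linarith [(hL i).2]
  · -- fin
    intro R'
    have h1 := (card_near x (a := 40 * L0) (by positivity) (fun i j hij => by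
      have := hsep i j hij
      linarith [(hL i).1, (hL j).1]) 0 (R := |R'| + Lm) (by
        have := abs_nonneg R'
        linarith)).1
    refine h1.subset ?_
    intro i hi
    have hi' : ‖b i‖ ≤ R' := hi
    show ‖x i - 0‖ ≤ |R'| + Lm
    have h2 : x i - 0 = b i - (b i - x i) := by abel
    rw [h2]
    have h3 := norm_sub_le (b i) (b i - x i)
    have h4 := hb i
    have h5 := hcL i
    have h6 := le_abs_self R'
    linarith
  · -- wh
    intro i j hij k l s t hs' hs'' ht' ht'' heq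
    have h1 := hdist i j k l s t hs' ht'
    rw [heq, sub_self, norm_zero] at h1
    have h2 := hsep i j hij
    have h3 := ht2 i k
    have h4 := ht2 j l
    have h5 := hcL' i
    have h6 := hcL' j
    linarith [(hL i).1, (hL j).1]
  · -- clr
    intro i j hij k l s hs' hs''
    have htp : 0 ≤ tp i k := hL0.le.trans ((hL i).1.trans (ht1 i k))
    by_cases hjR : ‖x j - x i‖ ≤ R / 2
    · obtain ⟨o, ho⟩ := seg_abs (hd1 j) (hd3 j) l
      have h1 := ht3 i k j (Ne.symm hij) hjR o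
      rw [← ho] at h1
      have h2 : cr (d j l) (b j + s • d j l - (b i + tp i k • d i k))
          = - cr (d j l) (b i + tp i k • d i k - b j) := by
        have h3 : b j + s • d j l - (b i + tp i k • d i k)
            = s • d j l - (b i + tp i k • d i k - b j) := by abel
        rw [h3, cr_sub_right, cr_smul_right, cr_self]
        ring
      have h4 := abs_cr_le (d j l) (b j + s • d j l - (b i + tp i k • d i k))
      rw [h2, abs_neg, hdn, one_mul] at h4
      linarith
    · push Not at hjR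
      have h1 := hdist j i l k s (tp i k) hs' htp
      have h2 := hcL i
      have h3 := hcL j
      have h4 := ht2 i k
      have h5 := (hL i).2
      linarith
  · -- ang
    intro i j k l hor s t hs' hs'' ht' ht'' hw
    by_cases hij : i = j
    · subst hij
      rcases hor with h | h
      · exact absurd rfl h
      · exact (min_le_left _ _).trans (seg_ang (hd1 i) (hd3 i) (hs i) k l h)
    · have h1 := hdist i j k l s t hs' ht'
      have h2 := hcL i
      have h3 := hcL j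
      have h4 : ‖x i - x j‖ ≤ R := by linarith
      refine (min_le_right _ _).trans ?_
      rcases hfar i j hij h4 with h5 | h5
      · apply seg_div hR0 (t := t) (by rw [abs_of_nonneg ht']; linarith)
        rw [← abs_mul]
        have h6 := abs_cr_le (d i k) (b i + s • d i k - (b j + t • d j l))
        rw [hdn, one_mul] at h6
        have h7 : cr (d i k) (b i + s • d i k - (b j + t • d j l))
            = - cr (d i k) (b j - b i) - t * cr (d i k) (d j l) := by
          rw [cr_sub_right, cr_add_right, cr_add_right, cr_smul_right, cr_smul_right, cr_self,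
            cr_sub_right]
          ring
        rw [h7] at h6
        have h8 := h5 k
        have h9 : |cr (d i k) (b j - b i)| ≤ |- cr (d i k) (b j - b i) - t * cr (d i k) (d j l)|
            + |t * cr (d i k) (d j l)| := by
          calc |cr (d i k) (b j - b i)|
              = |- (- cr (d i k) (b j - b i) - t * cr (d i k) (d j l))
                - t * cr (d i k) (d j l)| := by congr 1; ring
            _ ≤ |- (- cr (d i k) (b j - b i) - t * cr (d i k) (d j l))|
                + |t * cr (d i k) (d j l)| := abs_sub _ _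
            _ = _ := by rw [abs_neg]
        linarith
      · rw [cr_comm, abs_neg]
        apply seg_div hR0 (t := s) (by rw [abs_of_nonneg hs']; linarith)
        rw [← abs_mul]
        have h6 := abs_cr_le (d j l) (b i + s • d i k - (b j + t • d j l))
        rw [hdn, one_mul] at h6
        have h7 : cr (d j l) (b i + s • d i k - (b j + t • d j l))
            = cr (d j l) (b i - b j) + s * cr (d j l) (d i k) := by
          rw [cr_sub_right, cr_add_right, cr_add_right, cr_smul_right, cr_smul_right, cr_self,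
            cr_sub_right]
          ring
        rw [h7] at h6
        have h8 := h5 l
        have h9 : |cr (d j l) (b i - b j)| ≤ |cr (d j l) (b i - b j) + s * cr (d j l) (d i k)|
            + |s * cr (d j l) (d i k)| := by
          calc |cr (d j l) (b i - b j)|
              = |(cr (d j l) (b i - b j) + s * cr (d j l) (d i k))
                - s * cr (d j l) (d i k)| := by congr 1; ring
            _ ≤ _ := abs_sub _ _
        linarith
  · -- ang0
    intro i k l hkl
    exact (min_le_left _ _).trans (seg_ang (hd1 i) (hd3 i) (hs i) k l hkl)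
  · -- blk
    intro p q hpq
    obtain ⟨i, z, hz, hzx, hzp, hzq⟩ := hblk p q hpq
    have hLi : 0 < L i := hL0.trans_le (hL i).1
    obtain ⟨y, hy, hyz, hcase⟩ := cross_block hs0 hs1 hc hc8 hLi (hdn i 0) (hdn i 2) (hs i)
      (hb i) hz hzx hzp hzq
    have hyp : y ≠ p := by
      rintro rfl
      rw [norm_sub_rev] at hyz
      linarith
    have hyq : y ≠ q := by
      rintro rfl
      rw [norm_sub_rev] at hyz
      linarith
    rcases hcase with ⟨t, ht, rfl⟩ | ⟨t, ht, rfl⟩
    · rcases le_or_gt 0 t with h0 | h0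
      · refine ⟨i, 0, _, hy, hyp, hyq, t, h0, ?_, rfl⟩
        rw [abs_of_nonneg h0] at ht
        linarith [ht1 i 0]
      · refine ⟨i, 1, _, hy, hyp, hyq, -t, by linarith, ?_, ?_⟩
        · rw [abs_of_neg h0] at ht
          linarith [ht1 i 1]
        · rw [hd1, smul_neg, neg_smul, neg_neg]
    · rcases le_or_gt 0 t with h0 | h0
      · refine ⟨i, 2, _, hy, hyp, hyq, t, h0, ?_, rfl⟩
        rw [abs_of_nonneg h0] at ht
        linarith [ht1 i 2]
      · refine ⟨i, 3, _, hy, hyp, hyq, -t, by linarith, ?_, ?_⟩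
        · rw [abs_of_neg h0] at ht
          linarith [ht1 i 3]
        · rw [hd3, smul_neg, neg_smul, neg_neg]

end Pool.Agent.H.MP_929345_co.Pl
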