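import Pool.Agent.H.MP_929345_co.Pl.SiA

/-! C1b: the sites -/

set_option autoImplicit false

open MeasureTheory Set

namespace Pool.Agent.H.MP_929345_co.Pl

theorem sib_norm {x : V} {r : ℝ} (h0 : |x 0| ≤ r) (h1 : |x 1| ≤ r) : ‖x‖ ≤ r := by
  have hr : 0 ≤ r := (abs_nonneg _).trans h0
  rw [pi_norm_le_iff_of_nonneg hr]
  intro i
  fin_cases i
  · exact h0
  · exact h1

theorem sib_norm0 (x : V) : |x 0| ≤ ‖x‖ := by
  have := norm_le_pi_norm x 0
  rwa [Real.norm_eq_abs] at this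

theorem sib_norm1 (x : V) : |x 1| ≤ ‖x‖ := by
  have := norm_le_pi_norm x 1
  rwa [Real.norm_eq_abs] at this

theorem sib_norm_eq (x : V) : ‖x‖ = |x 0| ∨ ‖x‖ = |x 1| := by
  rcases le_total |x 0| |x 1| with h | h
  · exact Or.inr (le_antisymm (sib_norm h le_rfl) (sib_norm1 x))
  · exact Or.inl (le_antisymm (sib_norm le_rfl h) (sib_norm0 x))

theorem sib_seg {p q z : V} (θ : ℝ) (h0 : 0 ≤ θ) (h1 : θ ≤ 1) (hz0 : z 0 = p 0 + θ * (q 0 - p 0))
    (hz1 : z 1 = p 1 + θ * (q 1 - p 1)) : z ∈ segment ℝ p q := by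
  refine ⟨1 - θ, θ, by linarith, h0, by ring, ?_⟩
  funext i
  fin_cases i
  · change (1 - θ) * p 0 + θ * q 0 = z 0
    rw [hz0]
    ring
  · change (1 - θ) * p 1 + θ * q 1 = z 1
    rw [hz1]
    ring

/-- positions of the small sites -/
def sib_A (b : ℤ → ℝ) (u : ℤ × ℤ) : V := ![(u.1 : ℝ), u.2 + b u.1]

/-- positions of the large sites -/
def sib_G (b : ℤ → ℝ) (H : ℝ) (u : ℤ × ℤ) : V := ![H * (u.2 + b u.1), H * u.1]

theorem sib_int {a b : ℤ} (h : a ≠ b) : (1 : ℝ) ≤ |(a : ℝ) - b| := by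
  have h1 : (1 : ℤ) ≤ |a - b| := Int.one_le_abs (sub_ne_zero.2 h)
  exact_mod_cast h1

theorem sib_A_sep (b : ℤ → ℝ) {u u' : ℤ × ℤ} (h : u ≠ u') : 1 ≤ ‖sib_A b u - sib_A b u'‖ := by
  by_cases h1 : u.1 = u'.1
  · have h2 : u.2 ≠ u'.2 := fun h2 => h (Prod.ext h1 h2)
    refine le_trans ?_ (sib_norm1 _)
    have : (sib_A b u - sib_A b u') 1 = (u.2 : ℝ) - u'.2 := by
      change ((u.2 : ℝ) + b u.1) - (u'.2 + b u'.1) = _
      rw [h1]
      ring
    rw [this]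
    exact sib_int h2
  · refine le_trans ?_ (sib_norm0 _)
    exact sib_int h1

theorem sib_G_sep (b : ℤ → ℝ) {H : ℝ} (hH : 0 < H) {u u' : ℤ × ℤ} (h : u ≠ u') :
    H ≤ ‖sib_G b H u - sib_G b H u'‖ := by
  by_cases h1 : u.1 = u'.1
  · have h2 : u.2 ≠ u'.2 := fun h2 => h (Prod.ext h1 h2)
    refine le_trans ?_ (sib_norm0 _)
    have : (sib_G b H u - sib_G b H u') 0 = H * ((u.2 : ℝ) - u'.2) := by
      change H * ((u.2 : ℝ) + b u.1) - H * (u'.2 + b u'.1) = _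
      rw [h1]
      ring
    rw [this, abs_mul, abs_of_pos hH]
    exact le_mul_of_one_le_right hH.le (sib_int h2)
  · refine le_trans ?_ (sib_norm1 _)
    have : (sib_G b H u - sib_G b H u') 1 = H * ((u.1 : ℝ) - u'.1) := by
      change H * (u.1 : ℝ) - H * u'.1 = _
      ring
    rw [this, abs_mul, abs_of_pos hH]
    exact le_mul_of_one_le_right hH.le (sib_int h1)

/-- the set of sites -/
def sib_D (b : ℤ → ℝ) (H : ℝ) : Set (V × ℝ) :=
  {s | ∃ u, s = (sib_G b H u, 1 / 400 * H)} ∪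
    {s | ∃ u, s = (sib_A b u, 1 / 400) ∧ ∀ u', H / 10 ≤ ‖sib_A b u - sib_G b H u'‖}

theorem sib_one (c : ℝ) (b : ℤ → ℝ) (K : ℤ) (hK : 0 < K) (H : ℝ) (hH : H = 20 * (K + 3))
    (hc1 : c ≤ 1)
    (hsh : ∀ s y0 : ℝ, |s| ≤ 1 → ∀ k0 : ℤ, ∃ k l : ℤ, k0 ≤ k ∧ k ≤ k0 + K ∧
      |y0 + s * k - (l + b k)| ≤ c * (1 / 400)) (p q : V) (h1 : |q 1 - p 1| ≤ q 0 - p 0)
    (hT : H * (K + 12) ≤ q 0 - p 0) :
    ∃ s ∈ sib_D b H, ∃ z ∈ segment ℝ p q,
      ‖z - s.1‖ ≤ c * s.2 ∧ 4 * s.2 ≤ ‖z - p‖ ∧ 4 * s.2 ≤ ‖z - q‖ := by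
  have hK1 : (1 : ℝ) ≤ K := by exact_mod_cast hK
  have hH80 : (80 : ℝ) ≤ H := by rw [hH]; linarith
  have hTbig : 12 * H + K ≤ H * (K + 12) := by nlinarith
  have hd : 0 < q 0 - p 0 := by linarith
  set s : ℝ := (q 1 - p 1) / (q 0 - p 0) with hs
  have hs1 : |s| ≤ 1 := by
    rw [hs, abs_div, abs_of_pos hd, div_le_one hd]
    exact h1
  have hsm : s * (q 0 - p 0) = q 1 - p 1 := div_mul_cancel₀ _ hd.ne'
  set y0 : ℝ := p 1 - s * p 0 with hy0
  have key : ∀ k0 : ℤ, p 0 + 5 ≤ k0 → (k0 : ℝ) ≤ p 0 + 7 + H / 4 →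
      ∃ k l : ℤ, (k0 : ℝ) ≤ k ∧ (k : ℝ) ≤ k0 + K ∧ |y0 + s * k - (l + b k)| ≤ c * (1 / 400) ∧
        ((∀ u', H / 10 ≤ ‖sib_A b (k, l) - sib_G b H u'‖) → ∃ s ∈ sib_D b H,
          ∃ z ∈ segment ℝ p q,
          ‖z - s.1‖ ≤ c * s.2 ∧ 4 * s.2 ≤ ‖z - p‖ ∧ 4 * s.2 ≤ ‖z - q‖) := by
    intro k0 hk1 hk2
    obtain ⟨k, l, hk3, hk4, hkl⟩ := hsh s y0 hs1 k0
    have hk3' : (k0 : ℝ) ≤ k := by exact_mod_cast hk3
    have hk4' : (k : ℝ) ≤ k0 + K := by exact_mod_cast hk4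
    refine ⟨k, l, hk3', hk4', hkl, fun hall => ?_⟩
    refine ⟨(sib_A b (k, l), 1 / 400), Or.inr ⟨(k, l), rfl, hall⟩, ![(k : ℝ), y0 + s * k], ?_, ?_,
      ?_, ?_⟩
    · refine sib_seg ((k - p 0) / (q 0 - p 0)) (div_nonneg (by linarith) hd.le) ?_ ?_ ?_
      · rw [div_le_one hd]
        linarith
      · change (k : ℝ) = _
        rw [div_mul_cancel₀ _ hd.ne']
        ring
      · change y0 + s * k = _
        rw [← hsm, hy0]
        have : (k - p 0) / (q 0 - p 0) * (s * (q 0 - p 0)) = s * (k - p 0) := by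
          field_simp
        rw [this]
        ring
    · apply sib_norm
      · change |(k : ℝ) - k| ≤ c * (1 / 400)
        rw [sub_self, abs_zero]
        exact (abs_nonneg _).trans hkl
      · exact hkl
    · refine le_trans ?_ (sib_norm0 _)
      change 4 * (1 / 400 : ℝ) ≤ |(k : ℝ) - p 0|
      refine le_trans ?_ (le_abs_self _)
      linarith
    · refine le_trans ?_ (sib_norm0 _)
      change 4 * (1 / 400 : ℝ) ≤ |(k : ℝ) - q 0|
      refine le_trans ?_ (neg_le_abs _)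
      linarith
  have hce1 := Int.le_ceil (p 0)
  have hce2 := Int.ceil_lt_add_one (p 0)
  have hce3 := Int.le_ceil (H / 4)
  have hce4 := Int.ceil_lt_add_one (H / 4)
  obtain ⟨k, l, hk1, hk2, hkl, hgood⟩ := key (⌈p 0⌉ + 5) (by push_cast; linarith)
    (by push_cast; linarith)
  obtain ⟨k', l', hk1', hk2', hkl', hgood'⟩ := key (⌈p 0⌉ + 5 + ⌈H / 4⌉) (by push_cast; linarith)
    (by push_cast; linarith)
  by_cases hall : ∀ u', H / 10 ≤ ‖sib_A b (k, l) - sib_G b H u'‖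
  · exact hgood hall
  by_cases hall' : ∀ u', H / 10 ≤ ‖sib_A b (k', l') - sib_G b H u'‖
  · exact hgood' hall'
  exfalso
  push_neg at hall hall'
  obtain ⟨g, hg⟩ := hall
  obtain ⟨g', hg'⟩ := hall'
  push_cast at hk1 hk2 hk1' hk2'
  have hlow : H / 4 - K ≤ ‖sib_A b (k, l) - sib_A b (k', l')‖ := by
    refine le_trans ?_ (sib_norm0 _)
    change H / 4 - K ≤ |(k : ℝ) - k'|
    refine le_trans ?_ (neg_le_abs _)
    linarith
  have hup : ‖sib_A b (k, l) - sib_A b (k', l')‖ ≤ H / 4 + K + 2 := by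
    have hkk : |(k : ℝ) - k'| ≤ H / 4 + K + 1 := by
      rw [abs_le]
      constructor <;> linarith
    apply sib_norm
    · change |(k : ℝ) - k'| ≤ _
      linarith
    · change |((l : ℝ) + b k) - (l' + b k')| ≤ _
      have e1 : ((l : ℝ) + b k) - (l' + b k') = s * (k - k') - (y0 + s * k - (l + b k)) +
          (y0 + s * k' - (l' + b k')) := by ring
      rw [e1]
      refine (abs_add_le _ _).trans ?_
      have e2 := abs_sub (s * (k - k')) (y0 + s * k - (l + b k))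
      have e3 : |s * ((k : ℝ) - k')| ≤ H / 4 + K + 1 := by
        rw [abs_mul]
        calc |s| * |(k : ℝ) - k'| ≤ 1 * |(k : ℝ) - k'| :=
              mul_le_mul_of_nonneg_right hs1 (abs_nonneg _)
          _ ≤ H / 4 + K + 1 := by rw [one_mul]; exact hkk
      linarith
  have htri : ‖sib_G b H g - sib_G b H g'‖ ≤ ‖sib_A b (k, l) - sib_G b H g‖ +
      ‖sib_A b (k, l) - sib_A b (k', l')‖ + ‖sib_A b (k', l') - sib_G b H g'‖ := by
    have e : sib_G b H g - sib_G b H g' = -(sib_A b (k, l) - sib_G b H g) +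
        (sib_A b (k, l) - sib_A b (k', l')) + (sib_A b (k', l') - sib_G b H g') := by abel
    rw [e]
    refine (norm_add_le _ _).trans ?_
    have e2 := norm_add_le (-(sib_A b (k, l) - sib_G b H g))
      (sib_A b (k, l) - sib_A b (k', l'))
    rw [norm_neg] at e2
    linarith
  by_cases hgg : g = g'
  · subst hgg
    have htri2 : ‖sib_A b (k, l) - sib_A b (k', l')‖ ≤ ‖sib_A b (k, l) - sib_G b H g‖ +
        ‖sib_A b (k', l') - sib_G b H g‖ := by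
      have e : sib_A b (k, l) - sib_A b (k', l') = (sib_A b (k, l) - sib_G b H g) -
          (sib_A b (k', l') - sib_G b H g) := by abel
      rw [e]
      exact norm_sub_le _ _
    linarith
  · have := sib_G_sep b (by linarith : 0 < H) hgg
    linarith

theorem sib_two (c : ℝ) (b : ℤ → ℝ) (K : ℤ) (hK : 0 < K) (H : ℝ) (hH : H = 20 * (K + 3))
    (hsh : ∀ s y0 : ℝ, |s| ≤ 1 → ∀ k0 : ℤ, ∃ k l : ℤ, k0 ≤ k ∧ k ≤ k0 + K ∧
      |y0 + s * k - (l + b k)| ≤ c * (1 / 400)) (p q : V) (h1 : |q 0 - p 0| ≤ q 1 - p 1)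
    (hT : H * (K + 12) ≤ q 1 - p 1) :
    ∃ s ∈ sib_D b H, ∃ z ∈ segment ℝ p q,
      ‖z - s.1‖ ≤ c * s.2 ∧ 4 * s.2 ≤ ‖z - p‖ ∧ 4 * s.2 ≤ ‖z - q‖ := by
  have hK1 : (1 : ℝ) ≤ K := by exact_mod_cast hK
  have hH80 : (80 : ℝ) ≤ H := by rw [hH]; linarith
  have hH0 : 0 < H := by linarith
  have hTbig : 12 * H + K ≤ H * (K + 12) := by nlinarith
  have hd : 0 < q 1 - p 1 := by linarith
  set s : ℝ := (q 0 - p 0) / (q 1 - p 1) with hs
  have hs1 : |s| ≤ 1 := by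
    rw [hs, abs_div, abs_of_pos hd, div_le_one hd]
    exact h1
  have hsm : s * (q 1 - p 1) = q 0 - p 0 := div_mul_cancel₀ _ hd.ne'
  set x0 : ℝ := p 0 - s * p 1 with hx0
  obtain ⟨k, l, hk1, hk2, hkl⟩ := hsh s (x0 / H) hs1 (⌈p 1 / H⌉ + 1)
  have hk1' : ((⌈p 1 / H⌉ : ℝ)) + 1 ≤ k := by exact_mod_cast hk1
  have hk2' : (k : ℝ) ≤ ⌈p 1 / H⌉ + 1 + K := by exact_mod_cast hk2
  have hce1 := Int.le_ceil (p 1 / H)
  have hce2 := Int.ceil_lt_add_one (p 1 / H)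
  have hp1 : H * (p 1 / H) = p 1 := mul_div_cancel₀ _ hH0.ne'
  have hlo : p 1 + H ≤ H * k := by
    have : H * (p 1 / H + 1) ≤ H * k := mul_le_mul_of_nonneg_left (by linarith) hH0.le
    rw [mul_add, hp1, mul_one] at this
    exact this
  have hhi : H * k ≤ p 1 + H * (K + 2) := by
    have : H * k ≤ H * (p 1 / H + (K + 2)) := mul_le_mul_of_nonneg_left (by linarith) hH0.le
    rw [mul_add, hp1] at this
    exact this
  have hTe : H * (K + 12) = H * (K + 2) + 10 * H := by ring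
  refine ⟨(sib_G b H (k, l), 1 / 400 * H), Or.inl ⟨(k, l), rfl⟩, ![x0 + s * (H * k), H * k], ?_,
    ?_, ?_, ?_⟩
  · refine sib_seg ((H * k - p 1) / (q 1 - p 1)) (div_nonneg (by linarith) hd.le) ?_ ?_ ?_
    · rw [div_le_one hd]
      linarith
    · change x0 + s * (H * k) = _
      rw [← hsm, hx0]
      have : (H * k - p 1) / (q 1 - p 1) * (s * (q 1 - p 1)) = s * (H * k - p 1) := by
        field_simp
      rw [this]
      ring
    · change H * k = _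
      rw [div_mul_cancel₀ _ hd.ne']
      ring
  · have e1 : x0 + s * (H * k) - H * (l + b k) = H * (x0 / H + s * k - (l + b k)) := by
      have : H * (x0 / H) = x0 := mul_div_cancel₀ _ hH0.ne'
      linear_combination -this
    have e2 : |x0 + s * (H * k) - H * (l + b k)| ≤ c * (1 / 400 * H) := by
      rw [e1, abs_mul, abs_of_pos hH0]
      calc H * |x0 / H + s * k - (l + b k)| ≤ H * (c * (1 / 400)) :=
            mul_le_mul_of_nonneg_left hkl hH0.le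
        _ = c * (1 / 400 * H) := by ring
    apply sib_norm
    · exact e2
    · change |H * (k : ℝ) - H * k| ≤ c * (1 / 400 * H)
      rw [sub_self, abs_zero]
      exact (abs_nonneg _).trans e2
  · refine le_trans ?_ (sib_norm1 _)
    change 4 * (1 / 400 * H) ≤ |H * (k : ℝ) - p 1|
    refine le_trans ?_ (le_abs_self _)
    linarith
  · refine le_trans ?_ (sib_norm1 _)
    change 4 * (1 / 400 * H) ≤ |H * (k : ℝ) - q 1|
    refine le_trans ?_ (neg_le_abs _)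
    linarith

theorem sib_swap {b : ℤ → ℝ} {H c : ℝ} {p q : V}
    (h : ∃ s ∈ sib_D b H, ∃ z ∈ segment ℝ q p,
      ‖z - s.1‖ ≤ c * s.2 ∧ 4 * s.2 ≤ ‖z - q‖ ∧ 4 * s.2 ≤ ‖z - p‖) :
    ∃ s ∈ sib_D b H, ∃ z ∈ segment ℝ p q,
      ‖z - s.1‖ ≤ c * s.2 ∧ 4 * s.2 ≤ ‖z - p‖ ∧ 4 * s.2 ≤ ‖z - q‖ := by
  obtain ⟨s, hs, z, hz, h1, h2, h3⟩ := h
  rw [segment_symm] at hz
  exact ⟨s, hs, z, hz, h1, h3, h2⟩

/-- Job C1b.  The sites: positions `s.1`, sizes `s.2`. -/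
theorem sites (c : ℝ) (hc : 0 < c) (hc1 : c ≤ 1) : ∃ (σ H T : ℝ) (D : Set (V × ℝ)),
    0 < σ ∧ σ ≤ 1 ∧ 1 ≤ H ∧ 1 ≤ T ∧ D.Countable ∧ (∀ s ∈ D, σ ≤ s.2 ∧ s.2 ≤ σ * H) ∧
    (∀ s ∈ D, ∀ t ∈ D, s ≠ t → 20 * (s.2 + t.2) ≤ ‖s.1 - t.1‖) ∧
    (∀ p q : V, T ≤ ‖p - q‖ → ∃ s ∈ D, ∃ z ∈ segment ℝ p q,
      ‖z - s.1‖ ≤ c * s.2 ∧ 4 * s.2 ≤ ‖z - p‖ ∧ 4 * s.2 ≤ ‖z - q‖) := by
  obtain ⟨m, hm⟩ := exists_nat_gt (600 / c)
  have hm0 : (0 : ℝ) < m := lt_trans (by positivity) hm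
  have hm1 : 1 ≤ m := by
    have : 0 < m := by exact_mod_cast hm0
    exact this
  obtain ⟨K, b, hK, hsh⟩ := shifts m hm1
  have hbound : (3 : ℝ) / (2 * m) ≤ c * (1 / 400) := by
    rw [div_le_iff₀ (by positivity)]
    rw [div_lt_iff₀ hc] at hm
    nlinarith
  have hsh' : ∀ s y0 : ℝ, |s| ≤ 1 → ∀ k0 : ℤ, ∃ k l : ℤ, k0 ≤ k ∧ k ≤ k0 + K ∧
      |y0 + s * k - (l + b k)| ≤ c * (1 / 400) := by
    intro s y0 hs k0
    obtain ⟨k, l, h1, h2, h3⟩ := hsh s y0 hs k0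
    exact ⟨k, l, h1, h2, h3.trans hbound⟩
  have hK1 : (1 : ℝ) ≤ K := by exact_mod_cast hK
  set H : ℝ := 20 * (K + 3) with hH
  have hH80 : (80 : ℝ) ≤ H := by rw [hH]; linarith
  have hH0 : 0 < H := by linarith
  refine ⟨1 / 400, H, H * (K + 12), sib_D b H, by norm_num, by norm_num, by linarith, ?_, ?_, ?_,
    ?_, ?_⟩
  · nlinarith
  · refine Set.Countable.union ?_ ?_
    · refine (Set.countable_range fun u : ℤ × ℤ => (sib_G b H u, 1 / 400 * H)).mono ?_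
      rintro s ⟨u, rfl⟩
      exact ⟨u, rfl⟩
    · refine (Set.countable_range fun u : ℤ × ℤ => (sib_A b u, (1 / 400 : ℝ))).mono ?_
      rintro s ⟨u, rfl, _⟩
      exact ⟨u, rfl⟩
  · rintro s (⟨u, rfl⟩ | ⟨u, rfl, _⟩)
    · constructor
      · change (1 / 400 : ℝ) ≤ 1 / 400 * H
        linarith
      · exact le_rfl
    · constructor
      · exact le_rfl
      · change (1 / 400 : ℝ) ≤ 1 / 400 * H
        linarith
  · rintro s (⟨u, rfl⟩ | ⟨u, rfl, hu⟩) t (⟨u', rfl⟩ | ⟨u', rfl, hu'⟩) hst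
    · have hne : u ≠ u' := fun h => hst (by rw [h])
      have := sib_G_sep b hH0 hne
      change 20 * (1 / 400 * H + 1 / 400 * H) ≤ ‖sib_G b H u - sib_G b H u'‖
      linarith
    · have := hu' u
      change 20 * (1 / 400 * H + 1 / 400) ≤ ‖sib_G b H u - sib_A b u'‖
      rw [norm_sub_rev]
      linarith
    · have := hu u'
      change 20 * (1 / 400 + 1 / 400 * H) ≤ ‖sib_A b u - sib_G b H u'‖
      linarith
    · have hne : u ≠ u' := fun h => hst (by rw [h])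
      have := sib_A_sep b hne
      change 20 * (1 / 400 + 1 / 400 : ℝ) ≤ ‖sib_A b u - sib_A b u'‖
      linarith
  · intro p q hpq
    have hz0 : (p - q) 0 = p 0 - q 0 := rfl
    have hz1 : (p - q) 1 = p 1 - q 1 := rfl
    have n0 := sib_norm0 (p - q)
    have n1 := sib_norm1 (p - q)
    rw [hz0] at n0
    rw [hz1] at n1
    rcases sib_norm_eq (p - q) with h | h
    · rw [hz0] at h
      rw [h] at n1 hpq
      rcases le_total (p 0) (q 0) with hle | hle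
      · rw [abs_sub_comm, abs_of_nonneg (by linarith : 0 ≤ q 0 - p 0)] at hpq
        rw [abs_sub_comm (p 0), abs_of_nonneg (by linarith : 0 ≤ q 0 - p 0), abs_sub_comm] at n1
        exact sib_one c b K hK H rfl hc1 hsh' p q n1 hpq
      · rw [abs_of_nonneg (by linarith : 0 ≤ p 0 - q 0)] at hpq n1
        exact sib_swap (sib_one c b K hK H rfl hc1 hsh' q p n1 hpq)
    · rw [hz1] at h
      rw [h] at n0 hpq
      rcases le_total (p 1) (q 1) with hle | hle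
      · rw [abs_sub_comm, abs_of_nonneg (by linarith : 0 ≤ q 1 - p 1)] at hpq
        rw [abs_sub_comm (p 1), abs_of_nonneg (by linarith : 0 ≤ q 1 - p 1), abs_sub_comm] at n0
        exact sib_two c b K hK H rfl hsh' p q n0 hpq
      · rw [abs_of_nonneg (by linarith : 0 ≤ p 1 - q 1)] at hpq n0
        exact sib_swap (sib_two c b K hK H rfl hsh' q p n0 hpq)

end Pool.Agent.H.MP_929345_co.Pl
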