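import Pool.Agent.H.MP_929345_co.Pl.SeE
import Pool.Agent.H.MP_929345_co.Pl.SeF
import Pool.Agent.H.MP_929345_co.Pl.SeG
import Pool.Agent.H.MP_929345_co.Pl.SiB

/-! C4c: existence of the crosses -/

set_option autoImplicit false

open MeasureTheory Set

namespace Pool.Agent.H.MP_929345_co.Pl

/-- scaling of the blocking property -/
private lemma seh_blk {c T : ℝ} {D : Set (V × ℝ)}
    (h : ∀ p q : V, T ≤ ‖p - q‖ → ∃ s ∈ D, ∃ z ∈ segment ℝ p q,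
      ‖z - s.1‖ ≤ c * s.2 ∧ 4 * s.2 ≤ ‖z - p‖ ∧ 4 * s.2 ≤ ‖z - q‖) {G : ℝ} (hG : 0 < G)
    (p q : V) (hpq : T * G ≤ ‖p - q‖) : ∃ i : D, ∃ z ∈ segment ℝ p q,
      ‖z - G • i.1.1‖ ≤ c * (G * i.1.2) ∧ 4 * (G * i.1.2) ≤ ‖z - p‖ ∧
        4 * (G * i.1.2) ≤ ‖z - q‖ := by
  have hsc : ∀ y : V, ‖G • y‖ = G * ‖y‖ := by
    intro y
    rw [norm_smul, Real.norm_eq_abs, abs_of_pos hG]
  have hp : G • (G⁻¹ • p) = p := by rw [smul_smul, mul_inv_cancel₀ hG.ne', one_smul]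
  have hq : G • (G⁻¹ • q) = q := by rw [smul_smul, mul_inv_cancel₀ hG.ne', one_smul]
  obtain ⟨s, hs, z, hz, h1, h2, h3⟩ := h (G⁻¹ • p) (G⁻¹ • q) (by
    have e : G * ‖G⁻¹ • p - G⁻¹ • q‖ = ‖p - q‖ := by
      rw [← hsc, smul_sub, hp, hq]
    rw [← e, mul_comm T G] at hpq
    exact le_of_mul_le_mul_left hpq hG)
  refine ⟨⟨s, hs⟩, G • z, ?_, ?_, ?_, ?_⟩
  · obtain ⟨α, β, hα, hβ, hab, rfl⟩ := hz
    refine ⟨α, β, hα, hβ, hab, ?_⟩
    rw [smul_add, smul_comm G α, smul_comm G β, hp, hq]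
  · show ‖G • z - G • s.1‖ ≤ c * (G * s.2)
    rw [← smul_sub, hsc]
    nlinarith
  · show 4 * (G * s.2) ≤ ‖G • z - p‖
    rw [← hp, ← smul_sub, hsc]
    nlinarith
  · show 4 * (G * s.2) ≤ ‖G • z - q‖
    rw [← hq, ← smul_sub, hsc]
    nlinarith

/-- Job C4c.  Existence of the crosses, all constants. -/
theorem cro_exists {C : Set V} (hC : IsBody C) {RC : ℝ} (hRC : 0 ≤ RC) : ∃ K κ G0 : ℝ,
    1 ≤ K ∧ 0 < κ ∧ 1 ≤ G0 ∧ ∀ G ≥ G0, ∀ X : Set V, IsPacking C X →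
    (∀ z, TS C {x | x ∈ X ∧ ‖x - z‖ ≤ 8 * K * G}) →
    ∃ (I : Type) (_ : Countable I) (b : I → V) (d : I → Fin 4 → V) (tp : I → Fin 4 → ℝ)
      (y : I → V) (ry : I → ℝ) (poor : Set I) (L0 L1 T δ a1 r : ℝ),
      IsCro b d tp L0 L1 T δ a1 r ∧ 3 * RC + 2 ≤ r ∧ 4 * r / a1 < δ ∧ L1 + T ≤ K * G ∧
      (∀ i, ‖b i - y i‖ ≤ K * G) ∧ (∀ i, κ * G ≤ ry i ∧ ry i ≤ K * G) ∧
      (∀ i j, i ≠ j → 2 * (ry i + ry j) + κ * G ≤ ‖y i - y j‖) ∧
      (∀ i, i ∉ poor → ∀ k, ∀ x ∈ X, ‖x - b i‖ ≤ 4 * K * G → ∀ w ∈ interior C,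
        cr (d i k) (x + w - b i) ≠ 0) ∧
      (∀ i ∈ poor, beta C * (X ∩ Metric.closedBall (y i) (ry i)).ncard ≤
        vl (Metric.closedBall (y i) (ry i)) / 4) := by
  obtain ⟨s0, hs0, hs1, D0, hD0, hsc⟩ := site_choice hC
  have hc : 0 < s0 / 16 := by positivity
  have hc1 : s0 / 16 ≤ 1 := by linarith
  obtain ⟨σ, H, T0, D, hσ, hσ1, hH, hT0, hDc, hDs, hDsep, hDblk⟩ := sites (s0 / 16) hc hc1
  obtain ⟨c, hcdef⟩ : ∃ c, c = s0 / 16 := ⟨_, rfl⟩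
  rw [← hcdef] at hc hc1 hDblk
  obtain ⟨R', hR'⟩ : ∃ R', R' = 8 * (2 * σ * H + T0 + 1) := ⟨_, rfl⟩
  have hσH : 0 < σ * H := by positivity
  have hR'pos : 8 ≤ R' := by rw [hR']; nlinarith
  obtain ⟨m0, hm0⟩ : ∃ m0 : ℕ, (R' / (20 * σ) + 1) ^ 2 ≤ (m0 : ℝ) := ⟨_, Nat.le_ceil _⟩
  obtain ⟨η', hη', G1, hG1⟩ := hsc (2 * m0) c σ hc hc1 hσ
  obtain ⟨r, hr⟩ : ∃ r, r = 3 * RC + 2 := ⟨_, rfl⟩
  have hrpos : 0 < r := by rw [hr]; positivity
  obtain ⟨a1, ha1⟩ : ∃ a1, a1 = min s0 (η' / (2 * R')) := ⟨_, rfl⟩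
  have ha1pos : 0 < a1 := by rw [ha1]; exact lt_min hs0 (by positivity)
  obtain ⟨δ, hδ⟩ : ∃ δ, δ = 4 * r / a1 + 1 := ⟨_, rfl⟩
  have hδpos : 0 < δ := by rw [hδ]; positivity
  obtain ⟨K, hK⟩ : ∃ K, K = 2 * σ * H + T0 + 1 := ⟨_, rfl⟩
  have hK1 : 1 ≤ K := by rw [hK]; nlinarith
  obtain ⟨G0, hG0⟩ : ∃ G0 : ℝ, G0 = 1 + |G1| + 4 * D0 / (c * σ) + r + 4 * r / η' + 8 * δ / η'
      + δ / σ + 16 * m0 * δ * R' / (η' * σ) := ⟨_, rfl⟩
  have q1 : 0 ≤ 4 * D0 / (c * σ) := by positivity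
  have q2 : 0 ≤ 4 * r / η' := by positivity
  have q3 : 0 ≤ 8 * δ / η' := by positivity
  have q4 : 0 ≤ δ / σ := by positivity
  have q5 : 0 ≤ 16 * m0 * δ * R' / (η' * σ) := by positivity
  have q6 : 0 ≤ |G1| := abs_nonneg _
  refine ⟨K, c * σ / 4, G0, hK1, by positivity, by rw [hG0]; linarith, ?_⟩
  intro G hG X hX hTS
  have hGpos : 0 < G := by linarith
  have hG1' : 1 ≤ G := by linarith
  have hGG1 : G1 ≤ G := by linarith [le_abs_self G1]
  have g1 : 4 * D0 / (c * σ) ≤ G := by linarith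
  have g2 : r ≤ G := by linarith
  have g3 : 4 * r / η' ≤ G := by linarith
  have g4 : 8 * δ / η' ≤ G := by linarith
  have g5 : δ / σ < G := by linarith
  have g6 : 16 * m0 * δ * R' / (η' * σ) < G := by linarith
  rw [div_le_iff₀ (by positivity)] at g1 g3 g4
  rw [div_lt_iff₀ (by positivity)] at g5 g6
  have e1 : 0 < σ * H * G := by positivity
  have e2 : 0 < T0 * G := by positivity
  have e3 : K * G = 2 * (σ * H * G) + T0 * G + G := by rw [hK]; ring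
  have e4 : R' * G = 8 * (2 * (σ * H * G) + T0 * G + G) := by rw [hR']; ring
  have e5 : 0 < σ * G := by positivity
  -- the scaled sites
  have hLb : ∀ i : D, σ * G ≤ G * i.1.2 ∧ G * i.1.2 ≤ σ * H * G := by
    intro i
    have := hDs i.1 i.2
    constructor
    · rw [mul_comm σ G]
      exact mul_le_mul_of_nonneg_left this.1 hGpos.le
    · rw [mul_comm (σ * H) G]
      exact mul_le_mul_of_nonneg_left this.2 hGpos.le
  have hcL : ∀ i : D, c * (G * i.1.2) ≤ G * i.1.2 := by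
    intro i
    have h0 : 0 ≤ G * i.1.2 := e5.le.trans (hLb i).1
    calc c * (G * i.1.2) ≤ 1 * (G * i.1.2) := mul_le_mul_of_nonneg_right hc1 h0
      _ = G * i.1.2 := one_mul _
  have hsc2 : ∀ y : V, ‖G • y‖ = G * ‖y‖ := by
    intro y
    rw [norm_smul, Real.norm_eq_abs, abs_of_pos hGpos]
  have hsep : ∀ i j : D, i ≠ j →
      20 * (G * i.1.2 + G * j.1.2) ≤ ‖G • i.1.1 - G • j.1.1‖ := by
    intro i j hij
    have := hDsep i.1 i.2 j.1 j.2 (fun h => hij (Subtype.ext h))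
    rw [← smul_sub, hsc2]
    have h2 := mul_le_mul_of_nonneg_left this hGpos.le
    linarith
  have hm : ∀ i : D, {j : D | ‖G • j.1.1 - G • i.1.1‖ ≤ R' * G}.Finite ∧
      {j : D | ‖G • j.1.1 - G • i.1.1‖ ≤ R' * G}.ncard ≤ m0 := by
    intro i
    have h1 := card_near (fun j : D => G • j.1.1) (a := 40 * σ * G) (by positivity) (by
      intro j k hjk
      have := hsep j k hjk
      have h2 := (hLb j).1
      have h3 := (hLb k).1
      show 40 * σ * G ≤ ‖G • j.1.1 - G • k.1.1‖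
      linarith) (G • i.1.1) (R := R' * G) (by positivity)
    refine ⟨h1.1, ?_⟩
    have h2 : 2 * (R' * G) / (40 * σ * G) = R' / (20 * σ) := by
      field_simp
      ring
    have h3 := h1.2
    rw [h2] at h3
    exact_mod_cast h3.trans hm0
  have : Countable D := hDc.to_subtype
  obtain ⟨b, d, hd1, hd3, hdn, hGd, hfar⟩ := exists_far (fun j : D => G • j.1.1)
    (R := R' * G) (η := η' * G) (m := m0) hm
    (fun i b u v => ‖b - G • i.1.1‖ ≤ c * (G * i.1.2) ∧ s0 ≤ |cr u v| ∧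
      ((∀ y ∈ X, ‖y - b‖ ≤ 8 * K * G - 2 * (G * i.1.2) → ∀ w ∈ interior C,
          cr u (y + w - b) ≠ 0 ∧ cr v (y + w - b) ≠ 0) ∨
        beta C * (X ∩ Metric.closedBall (G • i.1.1) (c * (G * i.1.2) / 2 - D0)).ncard ≤
          vl (Metric.closedBall (G • i.1.1) (c * (G * i.1.2) / 2 - D0)) / 4)) (by
    intro i F hF hF1
    obtain ⟨b, u, v, h1, h2, h3, h4, h5, h6⟩ := hG1 G hGG1 X hX (8 * K * G) hTS (G • i.1.1)
      (G * i.1.2) (hLb i).1 (by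
        have := (hLb i).2
        linarith) F hF hF1
    exact ⟨b, u, v, ⟨h1, h4, h6⟩, h2, h3, h5⟩)
  obtain ⟨tp, htp⟩ := cro_of_far (fun j : D => G • j.1.1) (fun j : D => G * j.1.2) b d
    (c := c) (s0 := s0) (η := η' * G) (R := R' * G) (T := T0 * G) (L0 := σ * G)
    (Lm := σ * H * G) m0 hs0 hs1 hc (by rw [hcdef]) (by positivity) hLb (by positivity) hsep
    (fun p q hpq => seh_blk hDblk hGpos p q hpq) (fun i => (hGd i).1) hd1 hd3 hdn
    (fun i => (hGd i).2.1) (by linarith) hm hfar (r := r) (δ := δ) hrpos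
    (by linarith) (by linarith) hδpos (by linarith) (by linarith) (by
      rw [show 16 * (m0 : ℝ) * δ * (R' * G) / (η' * G) = 16 * m0 * δ * R' / η' by
        field_simp]
      rw [div_lt_iff₀ hη']
      linarith)
  have ha : min s0 (η' * G / (2 * (R' * G))) = a1 := by
    rw [ha1]
    congr 1
    field_simp
  rw [ha] at htp
  refine ⟨D, hDc.to_subtype, b, d, tp, fun j => G • j.1.1, fun j => c * (G * j.1.2) / 2 - D0,
    {i | beta C * (X ∩ Metric.closedBall (G • i.1.1) (c * (G * i.1.2) / 2 - D0)).ncard ≤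
          vl (Metric.closedBall (G • i.1.1) (c * (G * i.1.2) / 2 - D0)) / 4},
    σ * G, 2 * (σ * H * G), T0 * G, δ, a1, r, htp, by rw [hr], by rw [hδ]; linarith,
    by linarith, ?_, ?_, ?_, ?_, ?_⟩
  · intro i
    have h1 := (hGd i).1
    have h2 := (hLb i).2
    have h3 := hcL i
    show ‖b i - G • i.1.1‖ ≤ K * G
    linarith
  · intro i
    have h2 := (hLb i).2
    have h3 := (hLb i).1
    have h4 := hcL i
    have h5 : c * (σ * G) ≤ c * (G * i.1.2) := mul_le_mul_of_nonneg_left h3 hc.le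
    show c * σ / 4 * G ≤ c * (G * i.1.2) / 2 - D0 ∧ c * (G * i.1.2) / 2 - D0 ≤ K * G
    constructor
    · linarith
    · linarith
  · intro i j hij
    have h1 := hsep i j hij
    have h2 := (hLb i).1
    have h3 := (hLb j).1
    have h4 := hcL i
    have h5 := hcL j
    have h6 : c * (σ * G) ≤ 1 * (σ * G) := mul_le_mul_of_nonneg_right hc1 e5.le
    show 2 * (c * (G * i.1.2) / 2 - D0 + (c * (G * j.1.2) / 2 - D0)) + c * σ / 4 * G
      ≤ ‖G • i.1.1 - G • j.1.1‖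
    linarith
  · intro i hi k x hx hxb w hw
    have h2 := (hLb i).2
    have hreal : ∀ y ∈ X, ‖y - b i‖ ≤ 8 * K * G - 2 * (G * i.1.2) → ∀ w ∈ interior C,
        cr (d i 0) (y + w - b i) ≠ 0 ∧ cr (d i 2) (y + w - b i) ≠ 0 := by
      rcases (hGd i).2.2 with h | h
      · exact h
      · exact absurd h hi
    have h3 : 2 * (G * i.1.2) ≤ 4 * K * G := by
      linarith
    have h4 := hreal x hx (by linarith) w hw
    fin_cases k
    · exact h4.1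
    · show cr (d i 1) (x + w - b i) ≠ 0
      rw [hd1, cr_neg_left]
      exact neg_ne_zero.2 h4.1
    · exact h4.2
    · show cr (d i 3) (x + w - b i) ≠ 0
      rw [hd3, cr_neg_left]
      exact neg_ne_zero.2 h4.2
  · intro i hi
    exact hi

end Pool.Agent.H.MP_929345_co.Pl
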