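import Pool.Agent.H.MP_929345_co.Pl.CtDef
import Pool.Agent.H.MP_929345_co.Pl.SeH
import Pool.Agent.H.MP_929345_co.Pl.ExtA
import Pool.Agent.H.MP_929345_co.Pl.GdD

/-! D6: existence of the structure -/

set_option autoImplicit false

open MeasureTheory Set

namespace Pool.Agent.H.MP_929345_co.Pl

theorem cta_mono {C X Y : Set V} (h : TS C X) (hY : Y ⊆ X) : TS C Y := by
  intro x hx y hy hxy
  obtain ⟨f, t, h0, h1, h2, h3⟩ := h x (hY hx) y (hY hy) hxy
  exact ⟨f, t, h0, h1, h2, fun z hz => h3 z (hY hz)⟩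

/-- Job D6.  Existence of the structure (assembly of part C). -/
theorem exists_str {C : Set V} (hC : IsBody C) : ∃ K κ G0 : ℝ, 1 ≤ K ∧ 0 < κ ∧ 1 ≤ G0 ∧
    ∀ G ≥ G0, ∀ X : Set V, IsPacking C X → (∀ z, TS C {x | x ∈ X ∧ ‖x - z‖ ≤ 16 * K * G}) →
    ∃ (I : Type) (_ : Countable I) (P Q : I × Fin 3 → V) (y : I → V) (ry : I → ℝ)
      (poor : Set I), IsStr C X P Q y ry poor K κ G := by
  obtain ⟨RC, hRC0, hRC⟩ := exists_radius hC
  obtain ⟨K0, κ, G0, hK0, hκ, hG0, hmain⟩ := cro_exists hC hRC0.le
  refine ⟨2 * K0 + 2, κ, max G0 (max RC 1), by linarith, hκ,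
    le_trans (le_max_right _ _) (le_max_right _ _), ?_⟩
  intro G hG X hX hTS
  have hG1 : G0 ≤ G := le_trans (le_max_left _ _) hG
  have hG2 : RC ≤ G := le_trans (le_trans (le_max_left _ _) (le_max_right _ _)) hG
  have hG3 : 1 ≤ G := le_trans (le_trans (le_max_right _ _) (le_max_right _ _)) hG
  have hKG : 0 < K0 * G := by positivity
  have hGK : G ≤ K0 * G := by nlinarith
  have hTS0 : ∀ z, TS C {x | x ∈ X ∧ ‖x - z‖ ≤ 8 * K0 * G} := by
    intro z
    refine cta_mono (hTS z) ?_
    rintro x ⟨hx, hxz⟩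
    refine ⟨hx, hxz.trans ?_⟩
    nlinarith
  obtain ⟨I, hI, b, d, tp, y, ry, poor, L0, L1, T, δ, a1, r, h, hr, hδ, hL, hby, hry, hsep, hreal,
    hfew⟩ := hmain G hG1 X hX hTS0
  obtain ⟨ord, hord⟩ := exists_injective_nat (I × Fin 4)
  obtain ⟨len, he⟩ := exists_ext h ord hord
  have hne : ∃ i : I, ∃ k : Fin 4, True := by
    obtain ⟨i, k, _⟩ := h.blk 0 (fun _ => T) (by
      rw [zero_sub, norm_neg, pi_norm_const, Real.norm_eq_abs]
      exact le_abs_self T)
    exact ⟨i, k, trivial⟩
  obtain ⟨i0, k0, -⟩ := hne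
  have hL1 : 0 < L1 := lt_of_lt_of_le h.L0pos ((h.tp0 i0 k0).trans (h.tp1 i0 k0))
  have hTK : T ≤ K0 * G := by linarith
  have hT0 := h.Tpos
  have hlen : ∀ A : I × Fin 4, len A ≤ K0 * G := by
    intro A
    have h1 := he.le A
    have h2 := h.tp1 A.1 A.2
    linarith
  have hlen0 : ∀ A : I × Fin 4, 0 ≤ len A := by
    intro A
    have h1 := he.ge A
    have h2 := h.tp0 A.1 A.2
    have h3 := h.L0pos
    linarith
  have hpt : ∀ (i : I) (k : Fin 4), ‖b i + len (i, k) • d i k - y i‖ ≤ (2 * K0 + 2) * G := by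
    intro i k
    have e : b i + len (i, k) • d i k - y i = (b i - y i) + len (i, k) • d i k := by abel
    rw [e]
    refine (norm_add_le _ _).trans ?_
    rw [norm_smul, h.dn i k, mul_one, Real.norm_eq_abs, abs_of_nonneg (hlen0 _)]
    have h1 := hby i
    have h2 := hlen (i, k)
    nlinarith
  have hpt0 : ∀ i : I, ‖b i - y i‖ ≤ (2 * K0 + 2) * G := by
    intro i
    have h1 := hby i
    nlinarith
  refine ⟨I, hI, oP b d len, oQ b d len, y, ry, poor, ?_⟩
  exact
    { hK := by linarith
      hκ := hκ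
      hG := hG3
      hT := by
        have h1 := ext_isT h he
        exact ⟨h1.ne, h1.lf, h1.t1, h1.t2P, h1.t2Q, fun x y hxy => (h1.bd x y hxy).trans
          (by nlinarith)⟩
      good := good_faces h he hRC hRC0.le hr hδ
      real := by
        intro i hi k x hx w hw hmem
        obtain ⟨A, hA, t, ht0, ht, hxw⟩ := (mem_obj h he (i, k) (x + w)).1 hmem
        have hAi : A.1 = i := congrArg Prod.fst hA
        rw [hAi] at hxw
        have hwC : ‖w‖ ≤ RC := by
          have := hRC (interior_subset hw)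
          rwa [mem_closedBall_zero_iff] at this
        have hxb : ‖x - b i‖ ≤ 4 * K0 * G := by
          have e : x - b i = t • d i A.2 - w := by
            have : x = b i + t • d i A.2 - w := by rw [← hxw]; abel
            rw [this]
            abel
          rw [e]
          refine (norm_sub_le _ _).trans ?_
          rw [norm_smul, h.dn i A.2, mul_one, Real.norm_eq_abs, abs_of_nonneg ht0]
          have h2 := hlen A
          linarith
        apply hreal i hi A.2 x hx hxb w hw
        have e2 : x + w - b i = t • d i A.2 := by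
          rw [hxw]
          abel
        rw [e2, cr_smul_right, cr_self, mul_zero]
      few := hfew
      hry := fun i => ⟨(hry i).1, (hry i).2.trans (by nlinarith)⟩
      sep := hsep
      nearP := by
        intro i k
        simp only [oP]
        split_ifs
        · exact hpt i 1
        · exact hpt0 i
      nearQ := by
        intro i k
        simp only [oQ]
        split_ifs
        · exact hpt i 0
        · exact hpt i 2
        · exact hpt i 3
      ts := by
        intro z
        refine cta_mono (hTS z) ?_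
        rintro x ⟨hx, hxz⟩
        refine ⟨hx, hxz.trans ?_⟩
        have : 0 < (2 * K0 + 2) * G := by positivity
        nlinarith }

end Pool.Agent.H.MP_929345_co.Pl
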