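import Pool.Agent.H.MP_929345_co.Pl.CtDef
import Pool.Agent.H.MP_929345_co.Pl.SiC

/-! D7: number of sites -/

set_option autoImplicit false

open MeasureTheory Set

namespace Pool.Agent.H.MP_929345_co.Pl

/-- Job D7.  Number of sites near a point, constant independent of `G`. -/
theorem IsStr.card_sites {I : Type} {C X : Set V} {P Q : I × Fin 3 → V} {y : I → V} {ry : I → ℝ}
    {poor : Set I} {K κ G : ℝ} (h : IsStr C X P Q y ry poor K κ G) (z : V) (R : ℝ)
    (hR : 0 ≤ R) :
    {i | ‖y i - z‖ ≤ R * G}.Finite ∧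
      ({i | ‖y i - z‖ ≤ R * G}.ncard : ℝ) ≤ (2 * R / κ + 1) ^ 2 := by
  have hκ := h.hκ
  have hG : 0 < G := lt_of_lt_of_le one_pos h.hG
  have hry : ∀ i, 0 ≤ ry i := fun i => le_trans (by positivity) (h.hry i).1
  have hsep : ∀ i j, i ≠ j → κ * G ≤ ‖y i - y j‖ := fun i j hij => by
    have h1 := h.sep i j hij
    have h2 := hry i
    have h3 := hry j
    linarith
  have h1 := card_near y (a := κ * G) (by positivity) hsep z (R := R * G) (by positivity)
  have e : 2 * (R * G) / (κ * G) = 2 * R / κ := by field_simp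
  rw [e] at h1
  exact h1

end Pool.Agent.H.MP_929345_co.Pl
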