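import Pool.Agent.H.MP_929345_co.Pl.SeB

/-! D1: centres near a segment -/

set_option autoImplicit false

open MeasureTheory Set

namespace Pool.Agent.H.MP_929345_co.Pl

theorem gaa_cover (p q : V) (N : ℕ) (hN : 0 < N) (hNp : ‖q - p‖ ≤ N) (y : V)
    (hy : y ∈ segment ℝ p q) :
    ∃ k ∈ Finset.range (N + 1), ‖y - (p + ((k : ℝ) / N) • (q - p))‖ ≤ 1 := by
  rw [segment_eq_image'] at hy
  obtain ⟨θ, ⟨hθ0, hθ1⟩, rfl⟩ := hy
  have hN0 : (0 : ℝ) < N := by exact_mod_cast hN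
  have h0 : 0 ≤ θ * N := mul_nonneg hθ0 hN0.le
  refine ⟨⌊θ * N⌋₊, ?_, ?_⟩
  · rw [Finset.mem_range, Nat.lt_succ_iff]
    have h1 : ⌊θ * N⌋₊ ≤ ⌊(N : ℝ)⌋₊ := by
      apply Nat.floor_mono
      nlinarith
    rwa [Nat.floor_natCast] at h1
  · have h1 : (p + θ • (q - p)) - (p + ((⌊θ * N⌋₊ : ℝ) / N) • (q - p)) =
        (θ - (⌊θ * N⌋₊ : ℝ) / N) • (q - p) := by
      rw [sub_smul]
      abel
    show ‖(p + θ • (q - p)) - (p + ((⌊θ * N⌋₊ : ℝ) / N) • (q - p))‖ ≤ 1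
    rw [h1, norm_smul, Real.norm_eq_abs]
    have h2 : |θ - (⌊θ * N⌋₊ : ℝ) / N| ≤ 1 / N := by
      have h3 : θ - (⌊θ * N⌋₊ : ℝ) / N = (θ * N - ⌊θ * N⌋₊) / N := by
        field_simp
      rw [h3, abs_div, abs_of_pos hN0]
      apply div_le_div_of_nonneg_right _ hN0.le
      rw [abs_le]
      have h4 := Nat.floor_le h0
      have h5 := Nat.lt_floor_add_one (θ * N)
      constructor <;> linarith
    calc |θ - (⌊θ * N⌋₊ : ℝ) / N| * ‖q - p‖ ≤ 1 / N * N :=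
          mul_le_mul h2 hNp (norm_nonneg _) (by positivity)
      _ = 1 := by field_simp

/-- Job D1.  Number of centres near a segment. -/
theorem card_near_seg {C : Set V} (hC : IsBody C) (ρ : ℝ) (hρ : 0 ≤ ρ) : ∃ κ > 0, ∀ X : Set V,
    IsPacking C X → ∀ p q : V,
    {x | x ∈ X ∧ ∃ y ∈ segment ℝ p q, ‖x - y‖ ≤ ρ}.Finite ∧
      ({x | x ∈ X ∧ ∃ y ∈ segment ℝ p q, ‖x - y‖ ≤ ρ}.ncard : ℝ) ≤ κ * (‖p - q‖ + 1) := by
  obtain ⟨κ, hκ, hpack⟩ := card_packing hC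
  refine ⟨3 * (κ * (ρ + 1 + 1) ^ 2), by positivity, ?_⟩
  intro X hX p q
  set N : ℕ := ⌈‖q - p‖⌉₊ + 1 with hN
  have hN0 : 0 < N := Nat.succ_pos _
  have hNp : ‖q - p‖ ≤ N := by
    have := Nat.le_ceil ‖q - p‖
    rw [hN]
    push_cast
    linarith
  have hfin : ∀ k : ℕ, (X ∩ Metric.closedBall (p + ((k : ℝ) / N) • (q - p)) (ρ + 1)).Finite :=
    fun k => (hpack X hX _ _ (by linarith)).1
  classical
  have hsub : {x | x ∈ X ∧ ∃ y ∈ segment ℝ p q, ‖x - y‖ ≤ ρ} ⊆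
      (((Finset.range (N + 1)).biUnion fun k => (hfin k).toFinset : Finset V) : Set V) := by
    rintro x ⟨hx, y, hy, hxy⟩
    obtain ⟨k, hk, hk2⟩ := gaa_cover p q N hN0 hNp y hy
    rw [Finset.mem_coe, Finset.mem_biUnion]
    refine ⟨k, hk, ?_⟩
    rw [Set.Finite.mem_toFinset]
    refine ⟨hx, ?_⟩
    rw [Metric.mem_closedBall, dist_eq_norm]
    have h1 : x - (p + ((k : ℝ) / N) • (q - p)) =
        (x - y) + (y - (p + ((k : ℝ) / N) • (q - p))) := by abel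
    rw [h1]
    exact (norm_add_le _ _).trans (add_le_add hxy hk2)
  refine ⟨(Finset.finite_toSet _).subset hsub, ?_⟩
  have h1 : {x | x ∈ X ∧ ∃ y ∈ segment ℝ p q, ‖x - y‖ ≤ ρ}.ncard ≤
      ((Finset.range (N + 1)).biUnion fun k => (hfin k).toFinset).card := by
    rw [← Set.ncard_coe_finset]
    exact Set.ncard_le_ncard hsub (Finset.finite_toSet _)
  have h2 : ((Finset.range (N + 1)).biUnion fun k => (hfin k).toFinset).card ≤
      ∑ k ∈ Finset.range (N + 1), ((hfin k).toFinset).card := Finset.card_biUnion_le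
  have h3 : ∀ k ∈ Finset.range (N + 1), (((hfin k).toFinset).card : ℝ) ≤ κ * (ρ + 1 + 1) ^ 2 := by
    intro k _
    have h4 := (hpack X hX (p + ((k : ℝ) / N) • (q - p)) (ρ + 1) (by linarith)).2
    rwa [Set.ncard_eq_toFinset_card _ (hfin k)] at h4
  have h5 : ({x | x ∈ X ∧ ∃ y ∈ segment ℝ p q, ‖x - y‖ ≤ ρ}.ncard : ℝ) ≤
      ∑ k ∈ Finset.range (N + 1), (((hfin k).toFinset).card : ℝ) := by
    exact_mod_cast h1.trans h2
  have h6 : ∑ k ∈ Finset.range (N + 1), (((hfin k).toFinset).card : ℝ) ≤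
      (N + 1 : ℝ) * (κ * (ρ + 1 + 1) ^ 2) := by
    refine (Finset.sum_le_sum h3).trans ?_
    rw [Finset.sum_const, Finset.card_range, nsmul_eq_mul]
    push_cast
    exact le_refl _
  have h7 : (N + 1 : ℝ) ≤ 3 * (‖p - q‖ + 1) := by
    have h8 := (Nat.ceil_lt_add_one (norm_nonneg (q - p))).le
    rw [norm_sub_rev p q, hN]
    push_cast
    nlinarith [norm_nonneg (q - p)]
  have h9 : (0 : ℝ) ≤ κ * (ρ + 1 + 1) ^ 2 := by positivity
  calc _ ≤ (N + 1 : ℝ) * (κ * (ρ + 1 + 1) ^ 2) := h5.trans h6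
    _ ≤ (3 * (‖p - q‖ + 1)) * (κ * (ρ + 1 + 1) ^ 2) := mul_le_mul_of_nonneg_right h7 h9
    _ = 3 * (κ * (ρ + 1 + 1) ^ 2) * (‖p - q‖ + 1) := by ring

end Pool.Agent.H.MP_929345_co.Pl
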