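import Pool.Agent.H.MP_929345_co.Pl.CtB
import Pool.Agent.H.MP_929345_co.Pl.GaA

/-! D8: members hit by the structure -/

set_option autoImplicit false

open MeasureTheory Set

namespace Pool.Agent.H.MP_929345_co.Pl

theorem ctc_union {α I : Type*} {A : Set I} (hA : A.Finite) (S : I → Fin 3 → Set α)
    (hS : ∀ i k, (S i k).Finite) {B : Set α} (hB : ∀ x ∈ B, ∃ i ∈ A, ∃ k, x ∈ S i k) {c : ℝ}
    (hc : ∀ i k, ((S i k).ncard : ℝ) ≤ c) :
    B.Finite ∧ (B.ncard : ℝ) ≤ 3 * c * A.ncard := by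
  classical
  set T : Finset α := hA.toFinset.biUnion
    (fun i => (Finset.univ : Finset (Fin 3)).biUnion (fun k => (hS i k).toFinset)) with hT
  have hsub : B ⊆ (T : Set α) := by
    intro x hx
    obtain ⟨i, hi, k, hk⟩ := hB x hx
    rw [Finset.mem_coe, hT, Finset.mem_biUnion]
    refine ⟨i, hA.mem_toFinset.2 hi, ?_⟩
    rw [Finset.mem_biUnion]
    exact ⟨k, Finset.mem_univ k, (hS i k).mem_toFinset.2 hk⟩
  have hfin : B.Finite := T.finite_toSet.subset hsub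
  refine ⟨hfin, ?_⟩
  have h1 : B.ncard ≤ T.card := by
    rw [← Set.ncard_coe_finset T]
    exact Set.ncard_le_ncard hsub T.finite_toSet
  have h2 : (T.card : ℝ) ≤ ∑ i ∈ hA.toFinset, ∑ k : Fin 3, ((hS i k).toFinset.card : ℝ) := by
    have h3 : T.card ≤ ∑ i ∈ hA.toFinset, ∑ k : Fin 3, (hS i k).toFinset.card := by
      refine le_trans Finset.card_biUnion_le ?_
      apply Finset.sum_le_sum
      intro i _
      exact Finset.card_biUnion_le
    exact_mod_cast h3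
  have h4 : ∑ i ∈ hA.toFinset, ∑ k : Fin 3, ((hS i k).toFinset.card : ℝ) ≤
      ∑ i ∈ hA.toFinset, ∑ k : Fin 3, c := by
    apply Finset.sum_le_sum
    intro i _
    apply Finset.sum_le_sum
    intro k _
    rw [← Set.ncard_eq_toFinset_card _ (hS i k)]
    exact hc i k
  have h5 : ∑ i ∈ hA.toFinset, ∑ k : Fin 3, c = 3 * c * A.ncard := by
    rw [Finset.sum_const, Finset.sum_const, Set.ncard_eq_toFinset_card A hA]
    simp only [Finset.card_univ, Fintype.card_fin, nsmul_eq_mul]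
    push_cast
    ring
  calc (B.ncard : ℝ) ≤ T.card := by exact_mod_cast h1
    _ ≤ _ := h2
    _ ≤ _ := h4
    _ = _ := h5

/-- Job D8.  Members hit by the structure. -/
theorem IsStr.hit {C : Set V} (hC : IsBody C) {K κ : ℝ} (hK : 1 ≤ K) (hκ : 0 < κ) :
    ∃ κ1 > 0, ∃ G0 : ℝ, ∀ {I : Type} {X : Set V} {P Q : I × Fin 3 → V} {y : I → V} {ry : I → ℝ}
    {poor : Set I} {G : ℝ}, G0 ≤ G → IsPacking C X → IsStr C X P Q y ry poor K κ G →
    ∀ R : ℝ, 0 ≤ R →
    {i | i ∈ poor ∧ ‖y i‖ ≤ R + 2 * K * G}.Finite ∧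
    {x | x ∈ X ∧ ‖x‖ ≤ R ∧ ∃ w ∈ interior C, x + w ∈ Sg P Q}.Finite ∧
    ({x | x ∈ X ∧ ‖x‖ ≤ R ∧ ∃ w ∈ interior C, x + w ∈ Sg P Q}.ncard : ℝ) ≤
      κ1 * G * {i | i ∈ poor ∧ ‖y i‖ ≤ R + 2 * K * G}.ncard := by
  obtain ⟨RC, hRC, hCb⟩ := exists_radius hC
  obtain ⟨k0, hk0, hseg⟩ := card_near_seg hC RC (le_of_lt hRC)
  have hK0 : 0 < K := by linarith
  refine ⟨9 * k0 * K, by positivity, RC / K, ?_⟩
  intro I X P Q y ry poor G hG hX h R hR
  have hG1 := h.hG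
  have hG0 : 0 < G := by linarith
  have hKG : 1 ≤ K * G := by nlinarith
  have hRCK : RC ≤ K * G := by
    rw [div_le_iff₀ hK0] at hG
    linarith
  have hA : {i | i ∈ poor ∧ ‖y i‖ ≤ R + 2 * K * G}.Finite := by
    have h1 := (h.card_sites 0 (R / G + 2 * K) (by positivity)).1
    apply h1.subset
    rintro i ⟨-, hi⟩
    rw [mem_setOf_eq, sub_zero]
    have : (R / G + 2 * K) * G = R + 2 * K * G := by field_simp
    rw [this]
    exact hi
  refine ⟨hA, ?_⟩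
  have hS : ∀ (i : I) (k : Fin 3),
      {x | x ∈ X ∧ ∃ y ∈ segment ℝ (P (i, k)) (Q (i, k)), ‖x - y‖ ≤ RC}.Finite ∧
      ({x | x ∈ X ∧ ∃ y ∈ segment ℝ (P (i, k)) (Q (i, k)), ‖x - y‖ ≤ RC}.ncard : ℝ) ≤
        3 * k0 * K * G := by
    intro i k
    obtain ⟨h1, h2⟩ := hseg X hX (P (i, k)) (Q (i, k))
    refine ⟨h1, h2.trans ?_⟩
    have h3 : ‖P (i, k) - Q (i, k)‖ ≤ 2 * (K * G) := by
      have e : P (i, k) - Q (i, k) = (P (i, k) - y i) - (Q (i, k) - y i) := by abel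
      rw [e]
      refine (norm_sub_le _ _).trans ?_
      have := h.nearP i k
      have := h.nearQ i k
      linarith
    have h4 : ‖P (i, k) - Q (i, k)‖ + 1 ≤ 3 * (K * G) := by linarith
    calc k0 * (‖P (i, k) - Q (i, k)‖ + 1) ≤ k0 * (3 * (K * G)) :=
          mul_le_mul_of_nonneg_left h4 hk0.le
      _ = 3 * k0 * K * G := by ring
  have hB : ∀ x ∈ {x | x ∈ X ∧ ‖x‖ ≤ R ∧ ∃ w ∈ interior C, x + w ∈ Sg P Q},
      ∃ i ∈ {i | i ∈ poor ∧ ‖y i‖ ≤ R + 2 * K * G}, ∃ k : Fin 3,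
        x ∈ {x | x ∈ X ∧ ∃ y ∈ segment ℝ (P (i, k)) (Q (i, k)), ‖x - y‖ ≤ RC} := by
    rintro x ⟨hxX, hxR, w, hw, hxw⟩
    unfold Sg at hxw
    rw [mem_iUnion] at hxw
    obtain ⟨⟨i, k⟩, hik⟩ := hxw
    have hwn : ‖w‖ ≤ RC := by
      have := hCb (interior_subset hw)
      rwa [mem_closedBall_zero_iff] at this
    have hpoor : i ∈ poor := by
      by_contra hcon
      exact h.real i hcon k x hxX w hw hik
    have hball : x + w ∈ Metric.closedBall (y i) (K * G) := by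
      apply (convex_closedBall (y i) (K * G)).segment_subset _ _ hik
      · rw [mem_closedBall_iff_norm]; exact h.nearP i k
      · rw [mem_closedBall_iff_norm]; exact h.nearQ i k
    rw [mem_closedBall_iff_norm] at hball
    refine ⟨i, ⟨hpoor, ?_⟩, k, hxX, x + w, hik, ?_⟩
    · have e : y i = x + w - (x + w - y i) := by abel
      rw [e]
      refine (norm_sub_le _ _).trans ?_
      have h5 := norm_add_le x w
      have : 2 * K * G = K * G + K * G := by ring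
      rw [this]
      linarith
    · have e : x - (x + w) = -w := by abel
      rw [e, norm_neg]
      exact hwn
  obtain ⟨h1, h2⟩ := ctc_union hA
    (fun i k => {x | x ∈ X ∧ ∃ y ∈ segment ℝ (P (i, k)) (Q (i, k)), ‖x - y‖ ≤ RC})
    (fun i k => (hS i k).1) hB (fun i k => (hS i k).2)
  refine ⟨h1, h2.trans (le_of_eq ?_)⟩
  ring

end Pool.Agent.H.MP_929345_co.Pl
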