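import Pool.Agent.H.MP_929345_co.Pl.CtB

/-! D9: sites in an annulus -/

set_option autoImplicit false

open MeasureTheory Set

namespace Pool.Agent.H.MP_929345_co.Pl

theorem ctd_vol_ball (x : V) {r : ℝ} (hr : 0 ≤ r) :
    volume (Metric.ball x r) = ENNReal.ofReal ((2 * r) ^ 2) := by
  rcases hr.eq_or_lt with hr | hr
  · rw [← hr]
    simp
  · rw [Real.volume_pi_ball x hr]
    simp

theorem ctd_vol_closedBall (x : V) {r : ℝ} (hr : 0 ≤ r) :
    volume (Metric.closedBall x r) = ENNReal.ofReal ((2 * r) ^ 2) := by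
  rw [Real.volume_pi_closedBall x hr]
  simp

/-- disjoint balls of radius `r` in an annulus. -/
theorem ctd_count {I : Type*} (y : I → V) (F : Finset I) {r s t : ℝ} (hr : 0 ≤ r) (hs : 0 ≤ s)
    (ht : 0 ≤ t)
    (hsep : ∀ i ∈ F, ∀ j ∈ F, i ≠ j → 2 * r ≤ ‖y i - y j‖)
    (hlow : ∀ i ∈ F, s + r ≤ ‖y i‖) (hup : ∀ i ∈ F, ‖y i‖ + r ≤ t) (hst : s ≤ t) :
    (F.card : ℝ) * (2 * r) ^ 2 + (2 * s) ^ 2 ≤ (2 * t) ^ 2 := by
  have hU : volume (⋃ i ∈ F, Metric.ball (y i) r) = F.card * ENNReal.ofReal ((2 * r) ^ 2) := by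
    rw [measure_biUnion_finset]
    · rw [Finset.sum_congr rfl (fun i _ => ctd_vol_ball (y i) hr)]
      rw [Finset.sum_const, nsmul_eq_mul]
    · intro i hi j hj hij
      apply Metric.ball_disjoint_ball
      rw [dist_eq_norm]
      have := hsep i hi j hj hij
      linarith
    · intro i _
      exact Metric.isOpen_ball.measurableSet
  have hdisj : Disjoint (⋃ i ∈ F, Metric.ball (y i) r) (Metric.ball (0 : V) s) := by
    rw [Set.disjoint_iUnion₂_left]
    intro i hi
    apply Metric.ball_disjoint_ball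
    rw [dist_eq_norm, sub_zero]
    have := hlow i hi
    linarith
  have hsub : (⋃ i ∈ F, Metric.ball (y i) r) ∪ Metric.ball (0 : V) s ⊆
      Metric.closedBall (0 : V) t := by
    apply union_subset
    · apply iUnion₂_subset
      intro i hi x hx
      rw [mem_ball_iff_norm] at hx
      rw [mem_closedBall_iff_norm, sub_zero]
      have e : x = (x - y i) + y i := by abel
      rw [e]
      have := hup i hi
      have := norm_add_le (x - y i) (y i)
      linarith
    · exact (Metric.ball_subset_ball hst).trans Metric.ball_subset_closedBall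
  have h1 := measure_mono (μ := volume) hsub
  rw [measure_union hdisj Metric.isOpen_ball.measurableSet, hU, ctd_vol_ball 0 hs,
    ctd_vol_closedBall 0 ht] at h1
  have h2 : (F.card : ENNReal) * ENNReal.ofReal ((2 * r) ^ 2) + ENNReal.ofReal ((2 * s) ^ 2) =
      ENNReal.ofReal ((F.card : ℝ) * (2 * r) ^ 2 + (2 * s) ^ 2) := by
    rw [ENNReal.ofReal_add (by positivity) (by positivity), ENNReal.ofReal_mul (by positivity),
      ENNReal.ofReal_natCast]
  rw [h2] at h1
  rwa [ENNReal.ofReal_le_ofReal_iff (by positivity)] at h1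

/-- Job D9.  The number of sites in an annulus. -/
theorem IsStr.annulus {K κ : ℝ} (hK : 1 ≤ K) (hκ : 0 < κ) :
    ∃ κ2 > 0, ∀ {I : Type} {C X : Set V} {P Q : I × Fin 3 → V} {y : I → V} {ry : I → ℝ}
    {poor : Set I} {G : ℝ}, IsStr C X P Q y ry poor K κ G → ∀ R : ℝ, 1 ≤ R →
    {i | R - 2 * K * G ≤ ‖y i‖ ∧ ‖y i‖ ≤ R + 2 * K * G}.Finite ∧
    ({i | R - 2 * K * G ≤ ‖y i‖ ∧ ‖y i‖ ≤ R + 2 * K * G}.ncard : ℝ) ≤ κ2 * R := by
  have hK0 : 0 < K := by linarith
  refine ⟨(2 * (4 * K + κ / 2) / κ + 1) ^ 2 + 16 * (2 * K + κ / 2) / κ ^ 2, by positivity, ?_⟩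
  intro I C X P Q y ry poor G h R hR
  have hG1 := h.hG
  have hG0 : 0 < G := by linarith
  have hfin : {i | R - 2 * K * G ≤ ‖y i‖ ∧ ‖y i‖ ≤ R + 2 * K * G}.Finite := by
    have h1 := (h.card_sites 0 (R / G + 2 * K) (by positivity)).1
    apply h1.subset
    rintro i ⟨-, hi⟩
    rw [mem_setOf_eq, sub_zero]
    have : (R / G + 2 * K) * G = R + 2 * K * G := by field_simp
    rw [this]
    exact hi
  refine ⟨hfin, ?_⟩
  have hc1 : 0 ≤ (2 * (4 * K + κ / 2) / κ + 1) ^ 2 := by positivity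
  have hc2 : 0 ≤ 16 * (2 * K + κ / 2) / κ ^ 2 := by positivity
  by_cases hcase : R ≤ (2 * K + κ / 2) * G
  · have h1 := h.card_sites 0 (4 * K + κ / 2) (by positivity)
    have h2 : {i | R - 2 * K * G ≤ ‖y i‖ ∧ ‖y i‖ ≤ R + 2 * K * G} ⊆
        {i | ‖y i - 0‖ ≤ (4 * K + κ / 2) * G} := by
      rintro i ⟨-, hi⟩
      rw [mem_setOf_eq, sub_zero]
      have : (4 * K + κ / 2) * G = (2 * K + κ / 2) * G + 2 * K * G := by ring
      linarith
    have h3 := Set.ncard_le_ncard h2 h1.1
    have h4 : ({i | R - 2 * K * G ≤ ‖y i‖ ∧ ‖y i‖ ≤ R + 2 * K * G}.ncard : ℝ) ≤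
        (2 * (4 * K + κ / 2) / κ + 1) ^ 2 := le_trans (by exact_mod_cast h3) h1.2
    nlinarith
  · push Not at hcase
    have hsep : ∀ i ∈ hfin.toFinset, ∀ j ∈ hfin.toFinset, i ≠ j →
        2 * (κ * G / 2) ≤ ‖y i - y j‖ := by
      intro i _ j _ hij
      have h1 := h.sep i j hij
      have h2 := (h.hry i).1
      have h3 := (h.hry j).1
      have h4 : 0 < κ * G := by positivity
      linarith
    have h1 := ctd_count y hfin.toFinset (r := κ * G / 2) (s := R - (2 * K + κ / 2) * G)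
      (t := R + (2 * K + κ / 2) * G) (by positivity) (by linarith) (by positivity) hsep
      (by
        intro i hi
        rw [Set.Finite.mem_toFinset] at hi
        have h2 := hi.1
        linarith)
      (by
        intro i hi
        rw [Set.Finite.mem_toFinset] at hi
        have h2 := hi.2
        linarith)
      (by
        have : 0 < (2 * K + κ / 2) * G := by positivity
        linarith)
    rw [← Set.ncard_eq_toFinset_card _ hfin] at h1
    set N : ℝ := ({i | R - 2 * K * G ≤ ‖y i‖ ∧ ‖y i‖ ≤ R + 2 * K * G}.ncard : ℝ) with hN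
    have h2 : N * (κ * G) ^ 2 ≤ 16 * R * ((2 * K + κ / 2) * G) := by
      have e1 : N * (2 * (κ * G / 2)) ^ 2 = N * (κ * G) ^ 2 := by ring
      rw [e1] at h1
      nlinarith
    have h3 : N * κ ^ 2 ≤ 16 * (2 * K + κ / 2) * R := by
      have h4 : N * κ ^ 2 * G ≤ 16 * (2 * K + κ / 2) * R := by
        have e2 : N * (κ * G) ^ 2 = (N * κ ^ 2 * G) * G := by ring
        have e3 : 16 * R * ((2 * K + κ / 2) * G) = (16 * (2 * K + κ / 2) * R) * G := by ring
        rw [e2, e3] at h2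
        exact le_of_mul_le_mul_right h2 hG0
      have h5 : 0 ≤ N * κ ^ 2 := by positivity
      nlinarith
    have h6 : N ≤ 16 * (2 * K + κ / 2) / κ ^ 2 * R := by
      rw [div_mul_eq_mul_div, le_div_iff₀ (by positivity)]
      exact h3
    nlinarith

end Pool.Agent.H.MP_929345_co.Pl
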