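import Pool.Agent.H.MP_929345_co.Pl.Base

/-! definition of the structure for the accounting -/

set_option autoImplicit false

open MeasureTheory Set

namespace Pool.Agent.H.MP_929345_co.Pl

/-- Everything the accounting needs to know about the structure. -/
structure IsStr {I : Type} (C X : Set V) (P Q : I × Fin 3 → V) (y : I → V) (ry : I → ℝ)
    (poor : Set I) (K κ G : ℝ) : Prop where
  hK : 1 ≤ K
  hκ : 0 < κ
  hG : 1 ≤ G
  hT : IsT P Q (K * G)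
  good : ∀ x, x ∉ Sg P Q → ∃ q, ∀ w ∈ C, q + w ∈ closure (Vis (Sg P Q) x)
  real : ∀ i, i ∉ poor → ∀ k, ∀ x ∈ X, ∀ w ∈ interior C, x + w ∉ segment ℝ (P (i, k)) (Q (i, k))
  few : ∀ i ∈ poor, beta C * (X ∩ Metric.closedBall (y i) (ry i)).ncard ≤
    vl (Metric.closedBall (y i) (ry i)) / 4
  hry : ∀ i, κ * G ≤ ry i ∧ ry i ≤ K * G
  sep : ∀ i j, i ≠ j → 2 * (ry i + ry j) + κ * G ≤ ‖y i - y j‖
  nearP : ∀ i k, ‖P (i, k) - y i‖ ≤ K * G
  nearQ : ∀ i k, ‖Q (i, k) - y i‖ ≤ K * G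
  ts : ∀ z, TS C {x | x ∈ X ∧ ‖x - z‖ ≤ 4 * K * G}

end Pool.Agent.H.MP_929345_co.Pl
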