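import Pool.Agent.H.MP_929345_co.Pl.Tok

/-! D3: number of faces meeting a ball -/

set_option autoImplicit false

open MeasureTheory Set

namespace Pool.Agent.H.MP_929345_co.Pl

/-- Job D3.  Number of faces which meet a ball. -/
theorem card_faces_near {ι : Type*} [Countable ι] {P Q : ι → V} {Lam : ℝ} (hT : IsT P Q Lam)
    (y : V) (R : ℝ) (N : ℕ) (hf : {e : ι × Bool | ‖zE P Q e - y‖ ≤ R + Lam}.Finite)
    (hN : {e : ι × Bool | ‖zE P Q e - y‖ ≤ R + Lam}.ncard ≤ N) :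
    {W : Set V | ∃ x, x ∉ Sg P Q ∧ W = Vis (Sg P Q) x ∧ ‖x - y‖ ≤ R}.Finite ∧
      {W : Set V | ∃ x, x ∉ Sg P Q ∧ W = Vis (Sg P Q) x ∧ ‖x - y‖ ≤ R}.ncard ≤ N := by
  classical
  obtain ⟨u, hu⟩ := exists_generic (P := P) (Q := Q) hT.ne
  set T : Set (ι × Bool) := {e : ι × Bool | ‖zE P Q e - y‖ ≤ R + Lam} with hTdef
  set g : ι × Bool → Set V := fun e =>
    if h : ∃ x, x ∉ Sg P Q ∧ Tok P Q u (Vis (Sg P Q) x) e then Vis (Sg P Q) h.choose else ∅
    with hg
  have hsub : {W : Set V | ∃ x, x ∉ Sg P Q ∧ W = Vis (Sg P Q) x ∧ ‖x - y‖ ≤ R} ⊆ g '' T := by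
    rintro W ⟨x, hx, rfl, hxy⟩
    obtain ⟨e, he⟩ := exists_token hT hu hx
    refine ⟨e, ?_, ?_⟩
    · obtain ⟨-, -, τ, -, -, hadj⟩ := he
      have h1 := adj_closure hadj
      have h2 : zE P Q e ∈ Metric.closedBall x Lam :=
        closure_minimal (Vis_subset hT x) Metric.isClosed_closedBall h1
      rw [Metric.mem_closedBall, dist_eq_norm] at h2
      show ‖zE P Q e - y‖ ≤ R + Lam
      have h3 : zE P Q e - y = (zE P Q e - x) + (x - y) := by abel
      rw [h3]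
      exact (norm_add_le _ _).trans (by linarith)
    · have hex : ∃ x, x ∉ Sg P Q ∧ Tok P Q u (Vis (Sg P Q) x) e := ⟨x, hx, he⟩
      show g e = _
      rw [hg]
      simp only [dif_pos hex]
      exact token_inj hT hex.choose_spec.1 hx hex.choose_spec.2 he
  refine ⟨(hf.image g).subset hsub, ?_⟩
  exact (Set.ncard_le_ncard hsub (hf.image g)).trans ((Set.ncard_image_le hf).trans hN)

end Pool.Agent.H.MP_929345_co.Pl
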