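import Pool.Agent.H.MP_929345_co.Pl.CtB
import Pool.Agent.H.MP_929345_co.Pl.GaC

/-! D10: poor faces -/

set_option autoImplicit false

open MeasureTheory Set

namespace Pool.Agent.H.MP_929345_co.Pl

/-- Job D10.  The poor faces: numbers of ends and faces. -/
theorem IsStr.poor_card {K κ : ℝ} (hK : 1 ≤ K) (hκ : 0 < κ) : ∃ m : ℕ, 1 ≤ m ∧
    ∀ {I : Type} [Countable I] {C X : Set V} {P Q : I × Fin 3 → V} {y : I → V} {ry : I → ℝ}
    {poor : Set I} {G : ℝ}, IsStr C X P Q y ry poor K κ G → ∀ i : I,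
    {e : (I × Fin 3) × Bool | ‖zE P Q e - y i‖ ≤ 2 * K * G + 1}.Finite ∧
    {e : (I × Fin 3) × Bool | ‖zE P Q e - y i‖ ≤ 2 * K * G + 1}.ncard ≤ m ∧
    {W : Set V | ∃ x, x ∉ Sg P Q ∧ W = Vis (Sg P Q) x ∧ ‖x - y i‖ ≤ ry i}.Finite ∧
    {W : Set V | ∃ x, x ∉ Sg P Q ∧ W = Vis (Sg P Q) x ∧ ‖x - y i‖ ≤ ry i}.ncard ≤ m ∧
    ∀ x, x ∉ Sg P Q → {j | (Vis (Sg P Q) x ∩ Metric.closedBall (y j) (ry j)).Nonempty}.Finite ∧
      {j | (Vis (Sg P Q) x ∩ Metric.closedBall (y j) (ry j)).Nonempty}.ncard ≤ m := by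
  obtain ⟨N, hN⟩ : ∃ N : ℕ, (2 * (4 * K) / κ + 1) ^ 2 ≤ (N : ℝ) := exists_nat_ge _
  refine ⟨6 * N + 1, by omega, ?_⟩
  intro I _ C X P Q y ry poor G h i
  have hKG : 1 ≤ K * G := by
    calc (1 : ℝ) = 1 * 1 := (one_mul 1).symm
      _ ≤ K * G := mul_le_mul hK h.hG zero_le_one (by linarith)
  have hsite : ∀ z : V, {j | ‖y j - z‖ ≤ 4 * K * G}.Finite ∧
      {j | ‖y j - z‖ ≤ 4 * K * G}.ncard ≤ N := by
    intro z
    obtain ⟨h1, h2⟩ := h.card_sites z (4 * K) (by linarith)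
    exact ⟨h1, by exact_mod_cast h2.trans hN⟩
  have hzE : ∀ e : (I × Fin 3) × Bool, ‖zE P Q e - y e.1.1‖ ≤ K * G := by
    rintro ⟨⟨j, k⟩, b⟩
    cases b
    · exact h.nearP j k
    · exact h.nearQ j k
  have hsub : {e : (I × Fin 3) × Bool | ‖zE P Q e - y i‖ ≤ 2 * K * G + 1}
      ⊆ ({j | ‖y j - y i‖ ≤ 4 * K * G} ×ˢ (univ : Set (Fin 3))) ×ˢ (univ : Set Bool) := by
    intro e he
    have he' : ‖zE P Q e - y i‖ ≤ 2 * K * G + 1 := he
    refine ⟨⟨?_, mem_univ _⟩, mem_univ _⟩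
    show ‖y e.1.1 - y i‖ ≤ 4 * K * G
    have h1 : y e.1.1 - y i = (zE P Q e - y i) - (zE P Q e - y e.1.1) := by abel
    have h2 := norm_sub_le (zE P Q e - y i) (zE P Q e - y e.1.1)
    rw [← h1] at h2
    have h3 := hzE e
    linarith
  have hfin : (({j | ‖y j - y i‖ ≤ 4 * K * G} ×ˢ (univ : Set (Fin 3)))
      ×ˢ (univ : Set Bool)).Finite :=
    ((hsite (y i)).1.prod finite_univ).prod finite_univ
  have hcard : (({j | ‖y j - y i‖ ≤ 4 * K * G} ×ˢ (univ : Set (Fin 3)))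
      ×ˢ (univ : Set Bool)).ncard ≤ 6 * N := by
    rw [Set.ncard_prod, Set.ncard_prod, Set.ncard_univ, Set.ncard_univ, Nat.card_eq_fintype_card,
      Nat.card_eq_fintype_card, Fintype.card_fin, Fintype.card_bool]
    have := (hsite (y i)).2
    omega
  have hE1 := hfin.subset hsub
  have hE2 := (Set.ncard_le_ncard hsub hfin).trans hcard
  have hsub2 : {e : (I × Fin 3) × Bool | ‖zE P Q e - y i‖ ≤ ry i + K * G}
      ⊆ {e : (I × Fin 3) × Bool | ‖zE P Q e - y i‖ ≤ 2 * K * G + 1} := by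
    intro e he
    have he' : ‖zE P Q e - y i‖ ≤ ry i + K * G := he
    show ‖zE P Q e - y i‖ ≤ 2 * K * G + 1
    have := (h.hry i).2
    linarith
  obtain ⟨hF1, hF2⟩ := card_faces_near h.hT (y i) (ry i) (6 * N) (hE1.subset hsub2)
    ((Set.ncard_le_ncard hsub2 hE1).trans hE2)
  refine ⟨hE1, by omega, hF1, by omega, ?_⟩
  intro x _
  have hsub3 : {j | (Vis (Sg P Q) x ∩ Metric.closedBall (y j) (ry j)).Nonempty}
      ⊆ {j | ‖y j - x‖ ≤ 4 * K * G} := by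
    rintro j ⟨q, hq1, hq2⟩
    have h1 : ‖q - x‖ ≤ K * G := h.hT.bd x q hq1
    have h2 : ‖q - y j‖ ≤ ry j := by
      rw [Metric.mem_closedBall, dist_eq_norm] at hq2
      exact hq2
    have h3 := (h.hry j).2
    show ‖y j - x‖ ≤ 4 * K * G
    have h4 : y j - x = (q - x) - (q - y j) := by abel
    have h5 := norm_sub_le (q - x) (q - y j)
    rw [← h4] at h5
    linarith
  have h6 := Set.ncard_le_ncard hsub3 (hsite x).1
  have h7 := (hsite x).2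
  exact ⟨(hsite x).1.subset hsub3, by omega⟩

end Pool.Agent.H.MP_929345_co.Pl
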