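import Pool.Agent.H.MP_929345_co.Pl.OlB

/-! A4: the face inequality -/

set_option autoImplicit false

open MeasureTheory Set
open scoped Pointwise

namespace Pool.Agent.H.MP_929345_co.Pl

variable {C W : Set V}

lemma hull_add_subset (hC : IsBody C) (hWc : Convex ℝ W) (X : Finset V)
    (hXW : ∀ x ∈ X, ∀ c ∈ C, x + c ∈ W) : convexHull ℝ (X : Set V) + C ⊆ W := by
  rintro _ ⟨x, hx, c, hc, rfl⟩
  have hsub : (X : Set V) ⊆ (fun y => y + c) ⁻¹' W := by
    intro y hy
    exact hXW y (by exact_mod_cast hy) c hc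
  have hconv : Convex ℝ ((fun y : V => y + c) ⁻¹' W) := hWc.translate_preimage_left c
  exact convexHull_min hsub hconv hx

lemma beta_nonneg (C : Set V) : 0 ≤ beta C := by
  apply Real.sInf_nonneg
  rintro t ⟨a, b, _, rfl⟩
  exact vl_nonneg _

/-- Job A4. -/
theorem face_ineq (hC : IsBody C) (hW : IsCompact W) (hWc : Convex ℝ W)
    (X : Finset V) (hTS : TS C (X : Set V)) (hXW : ∀ x ∈ X, ∀ c ∈ C, x + c ∈ W)
    (hq : ∃ q, ∀ c ∈ C, q + c ∈ W)
    {J : Type*} (s : Finset J) (v a b : J → V)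
    (hind : ∀ j ∈ s, cr (a j) (b j) ≠ 0) (hv : ∀ j ∈ s, v j ∈ W)
    (ha : ∀ j ∈ s, ∀ w ∈ W, ev (a j) w ≤ ev (a j) (v j))
    (hb : ∀ j ∈ s, ∀ w ∈ W, ev (b j) w ≤ ev (b j) (v j))
    (hdis : ∀ i ∈ s, ∀ j ∈ s, i ≠ j → ∀ p q p' q' : ℝ, 0 < p → 0 < q → 0 < p' → 0 < q' →
      p • a i + q • b i ≠ p' • a j + q' • b j) :
    ((X.card : ℝ) - 1) * beta C + vl C + ∑ j ∈ s, vl (Cor C (a j) (b j)) ≤ vl W := by
  rcases X.eq_empty_or_nonempty with rfl | hX
  · obtain ⟨q, hq⟩ := hq
    have hsub : ({q} : Set V) + C ⊆ W := by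
      rintro _ ⟨x, hx, c, hc, rfl⟩
      rw [mem_singleton_iff] at hx
      subst hx
      exact hq c hc
    have h := corner_sum hC isCompact_singleton (convex_singleton q) (singleton_nonempty q)
      hW hWc hsub s v a b hind hv ha hb hdis
    have e : vl (({q} : Set V) + C) = vl C := by
      rw [singleton_add]; exact vl_add_image q C
    rw [e] at h
    have := beta_nonneg C
    simp only [Finset.card_empty, Nat.cast_zero]
    linarith
  · have hsub := hull_add_subset hC hWc X hXW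
    have h := corner_sum hC (X.finite_toSet.isCompact_convexHull ℝ) (convex_convexHull ℝ _)
      (hX.coe_sort.elim fun x => ⟨x, subset_convexHull ℝ _ (by exact_mod_cast x.2)⟩)
      hW hWc hsub s v a b hind hv ha hb hdis
    have := oler hC X hX hTS
    linarith

/-- Job A4.  Without corners (and without `q` when `X` is nonempty). -/
theorem count_le (hC : IsBody C) (hW : IsCompact W) (hWc : Convex ℝ W)
    (X : Finset V) (hTS : TS C (X : Set V)) (hXW : ∀ x ∈ X, ∀ c ∈ C, x + c ∈ W) :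
    beta C * X.card ≤ vl W + beta C := by
  have hb := beta_nonneg C
  rcases X.eq_empty_or_nonempty with rfl | hX
  · have := vl_nonneg W
    simp only [Finset.card_empty, Nat.cast_zero, mul_zero]
    linarith
  · have hsub := hull_add_subset hC hWc X hXW
    have h1 := vl_mono hsub hW.measure_lt_top.ne
    have h2 := oler hC X hX hTS
    have h3 := vl_pos hC
    nlinarith

end Pool.Agent.H.MP_929345_co.Pl
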