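import Pool.Agent.H.MP_929345_co.Pl.GaA
import Pool.Agent.H.MP_929345_co.Pl.FaceI

/-! D2: gain of a face -/

set_option autoImplicit false

open MeasureTheory Set

namespace Pool.Agent.H.MP_929345_co.Pl

lemma gab_vl_nonneg (S : Set V) : 0 ≤ vl S := ENNReal.toReal_nonneg

lemma gab_beta_nonneg (C : Set V) : 0 ≤ beta C := by
  apply Real.sInf_nonneg
  rintro t ⟨a, b, _, rfl⟩
  exact gab_vl_nonneg _

lemma gab_split {W S : Set V} (hW : volume W ≠ ⊤) (hS : MeasurableSet S) :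
    vl W = vl (W ∩ S) + vl (W \ S) := by
  unfold vl
  rw [← ENNReal.toReal_add, measure_inter_add_sdiff W hS]
  · exact (measure_lt_top_mono inter_subset_left (lt_top_iff_ne_top.2 hW)).ne
  · exact (measure_lt_top_mono sdiff_subset (lt_top_iff_ne_top.2 hW)).ne

lemma gab_null {P Q : Set V} (i : Fin 2) (t : ℝ) (hQ : volume Q ≠ ⊤)
    (h : P ⊆ Q ∪ {z | z i = t}) : vl P ≤ vl Q := by
  have h0 : volume {z : V | z i = t} = 0 := by
    rw [volume_pi]
    exact Measure.pi_hyperplane (fun _ : Fin 2 => (volume : Measure ℝ)) i t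
  unfold vl
  apply ENNReal.toReal_mono hQ
  calc volume P ≤ volume (Q ∪ {z | z i = t}) := measure_mono h
    _ ≤ volume Q + volume {z : V | z i = t} := measure_union_le _ _
    _ = volume Q := by rw [h0, add_zero]

lemma gab_TS_mono {C X Y : Set V} (h : TS C X) (hY : Y ⊆ X) : TS C Y := by
  intro x hx y hy hxy
  obtain ⟨f, t, h1, h2, h3, h4⟩ := h x (hY hx) y (hY hy) hxy
  exact ⟨f, t, h1, h2, h3, fun z hz => h4 z (hY hz)⟩

lemma gab_norm_le {x : V} {r : ℝ} (hr : 0 ≤ r) (h0 : |x 0| ≤ r) (h1 : |x 1| ≤ r) : ‖x‖ ≤ r := by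
  rw [pi_norm_le_iff_of_nonneg hr]
  intro i
  rw [Real.norm_eq_abs]
  fin_cases i
  · exact h0
  · exact h1

lemma gab_abs0 {x : V} {r : ℝ} (h : ‖x‖ ≤ r) : |x 0| ≤ r := by
  have := norm_le_pi_norm x 0
  rw [Real.norm_eq_abs] at this
  exact this.trans h

lemma gab_abs1 {x : V} {r : ℝ} (h : ‖x‖ ≤ r) : |x 1| ≤ r := by
  have := norm_le_pi_norm x 1
  rw [Real.norm_eq_abs] at this
  exact this.trans h

lemma gab_seg0 {s u D x1 : ℝ} (hD : 0 < D) (h : |x1 - u| ≤ D) :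
    (![s, x1] : V) ∈ segment ℝ (![s, u - D] : V) (![s, u + D] : V) := by
  rw [abs_le] at h
  refine ⟨(u + D - x1) / (2 * D), (x1 - u + D) / (2 * D), ?_, ?_, ?_, ?_⟩
  · exact div_nonneg (by linarith [h.2]) (by linarith)
  · exact div_nonneg (by linarith [h.1]) (by linarith)
  · field_simp
    ring
  · ext i
    fin_cases i
    · simp
      field_simp
      ring
    · simp
      field_simp
      ring

lemma gab_seg1 {s u D x0 : ℝ} (hD : 0 < D) (h : |x0 - u| ≤ D) :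
    (![x0, s] : V) ∈ segment ℝ (![u - D, s] : V) (![u + D, s] : V) := by
  rw [abs_le] at h
  refine ⟨(u + D - x0) / (2 * D), (x0 - u + D) / (2 * D), ?_, ?_, ?_, ?_⟩
  · exact div_nonneg (by linarith [h.2]) (by linarith)
  · exact div_nonneg (by linarith [h.1]) (by linarith)
  · field_simp
    ring
  · ext i
    fin_cases i
    · simp
      field_simp
      ring
    · simp
      field_simp
      ring

lemma gab_len0 {s u D : ℝ} (hD : 0 < D) :
    ‖(![s, u - D] : V) - (![s, u + D] : V)‖ ≤ 2 * D := by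
  apply gab_norm_le (by linarith)
  · simp
    linarith
  · simp
    rw [abs_le]
    constructor <;> linarith

lemma gab_len1 {s u D : ℝ} (hD : 0 < D) :
    ‖(![u - D, s] : V) - (![u + D, s] : V)‖ ≤ 2 * D := by
  apply gab_norm_le (by linarith)
  · simp
    rw [abs_le]
    constructor <;> linarith
  · simp
    linarith

lemma gab_near0 {x : V} {s u D ρ : ℝ} (hD : 0 < D) (hρ : 0 ≤ ρ) (h : |x 1 - u| ≤ D)
    (hs : |x 0 - s| ≤ ρ) :
    ∃ y ∈ segment ℝ (![s, u - D] : V) (![s, u + D] : V), ‖x - y‖ ≤ ρ := by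
  refine ⟨![s, x 1], gab_seg0 hD h, gab_norm_le hρ ?_ ?_⟩
  · simpa using hs
  · simpa using hρ

lemma gab_near1 {x : V} {s u D ρ : ℝ} (hD : 0 < D) (hρ : 0 ≤ ρ) (h : |x 0 - u| ≤ D)
    (hs : |x 1 - s| ≤ ρ) :
    ∃ y ∈ segment ℝ (![u - D, s] : V) (![u + D, s] : V), ‖x - y‖ ≤ ρ := by
  refine ⟨![x 0, s], gab_seg1 hD h, gab_norm_le hρ ?_ ?_⟩
  · simpa using hρ
  · simpa using hs

/-- count in a convex closed part -/
lemma gab_count {C W A : Set V} (hC : IsBody C) (hW : IsCompact W) (hWc : Convex ℝ W)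
    (hA : IsClosed A) (hAc : Convex ℝ A) (X : Finset V) (hTS : TS C (X : Set V))
    (hXW : ∀ x ∈ X, ∀ c ∈ C, x + c ∈ W) (Y : Finset V) (hY : Y ⊆ X)
    (hYA : ∀ x ∈ Y, ∀ c ∈ C, x + c ∈ A) :
    beta C * Y.card ≤ vl (W ∩ A) + beta C := by
  apply count_le hC (hW.inter_right hA) (hWc.inter hAc) Y
  · exact gab_TS_mono hTS (by exact_mod_cast hY)
  · intro x hx c hc
    exact ⟨hXW x (hY hx) c hc, hYA x hx c hc⟩

/-- Job D2.  The gain of a face from a square with few members. -/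
theorem gain {C : Set V} (hC : IsBody C) : ∃ κ > 0, ∀ (W : Set V) (D : ℝ), IsCompact W →
    Convex ℝ W → 1 ≤ D → (∀ x ∈ W, ∀ y ∈ W, ‖x - y‖ ≤ D) → ∀ X : Finset V,
    IsPacking C (X : Set V) → TS C (X : Set V) → (∀ x ∈ X, ∀ c ∈ C, x + c ∈ W) →
    ∀ (y : V) (R : ℝ), 0 ≤ R →
    vl (W ∩ Metric.closedBall y R) +
        beta C * ({x | x ∈ X ∧ x ∉ Metric.closedBall y R}.ncard : ℝ) ≤ vl W + κ * D := by
  classical
  obtain ⟨RC, hRC, hCR⟩ := exists_radius hC
  obtain ⟨κ0, hκ0, hnear⟩ := card_near_seg hC RC hRC.le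
  have hβ := gab_beta_nonneg C
  refine ⟨4 * beta C + 12 * beta C * κ0 + 1, by positivity, ?_⟩
  intro W D hW hWc hD hdiam X hpack hTS hXW y R hR
  have hD0 : 0 < D := by linarith
  have hfin : volume W ≠ ⊤ := hW.measure_lt_top.ne
  have hfin' : ∀ S : Set V, S ⊆ W → volume S ≠ ⊤ := fun S hS =>
    (measure_lt_top_mono hS (lt_top_iff_ne_top.2 hfin)).ne
  have hXmem : ∀ x ∈ X, x ∈ W := by
    intro x hx
    have := hXW x hx 0 (zero_mem hC)
    rwa [add_zero] at this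
  -- the regions
  obtain ⟨A1, hA1⟩ : ∃ A : Set V, A = {z | z 0 ≤ y 0 - R} := ⟨_, rfl⟩
  obtain ⟨A2, hA2⟩ : ∃ A : Set V, A = {z | y 0 + R ≤ z 0} := ⟨_, rfl⟩
  obtain ⟨A3, hA3⟩ : ∃ A : Set V, A = {z | y 0 - R ≤ z 0 ∧ z 0 ≤ y 0 + R ∧ y 1 + R ≤ z 1} :=
    ⟨_, rfl⟩
  obtain ⟨A4, hA4⟩ : ∃ A : Set V, A = {z | y 0 - R ≤ z 0 ∧ z 0 ≤ y 0 + R ∧ z 1 ≤ y 1 - R} :=
    ⟨_, rfl⟩
  have c0 : Continuous fun z : V => z 0 := continuous_apply 0
  have c1 : Continuous fun z : V => z 1 := continuous_apply 1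
  have cl1 : IsClosed A1 := by rw [hA1]; exact isClosed_le c0 continuous_const
  have cl2 : IsClosed A2 := by rw [hA2]; exact isClosed_le continuous_const c0
  have cl3 : IsClosed A3 := by
    rw [hA3]
    exact (isClosed_le continuous_const c0).inter ((isClosed_le c0 continuous_const).inter
      (isClosed_le continuous_const c1))
  have cl4 : IsClosed A4 := by
    rw [hA4]
    exact (isClosed_le continuous_const c0).inter ((isClosed_le c0 continuous_const).inter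
      (isClosed_le c1 continuous_const))
  have hlin : ∀ i : Fin 2, IsLinearMap ℝ fun z : V => z i := fun i =>
    ⟨fun _ _ => rfl, fun _ _ => rfl⟩
  have cv1 : Convex ℝ A1 := by rw [hA1]; exact convex_halfSpace_le (hlin 0) _
  have cv2 : Convex ℝ A2 := by rw [hA2]; exact convex_halfSpace_ge (hlin 0) _
  have cv3 : Convex ℝ A3 := by
    rw [hA3]
    exact (convex_halfSpace_ge (hlin 0) _).inter ((convex_halfSpace_le (hlin 0) _).inter
      (convex_halfSpace_ge (hlin 1) _))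
  have cv4 : Convex ℝ A4 := by
    rw [hA4]
    exact (convex_halfSpace_ge (hlin 0) _).inter ((convex_halfSpace_le (hlin 0) _).inter
      (convex_halfSpace_le (hlin 1) _))
  -- volumes
  have hvol : vl (W ∩ Metric.closedBall y R) + (vl (W ∩ A1) + vl (W ∩ A2) + vl (W ∩ A3)
      + vl (W ∩ A4)) ≤ vl W := by
    obtain ⟨S1, hS1⟩ : ∃ S : Set V, S = {z | z 0 < y 0 - R} := ⟨_, rfl⟩
    obtain ⟨S2, hS2⟩ : ∃ S : Set V, S = {z | y 0 + R < z 0} := ⟨_, rfl⟩
    obtain ⟨S3, hS3⟩ : ∃ S : Set V, S = {z | y 1 + R < z 1} := ⟨_, rfl⟩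
    obtain ⟨S4, hS4⟩ : ∃ S : Set V, S = {z | z 1 < y 1 - R} := ⟨_, rfl⟩
    have m1 : MeasurableSet S1 := by
      rw [hS1]; exact (isOpen_lt c0 continuous_const).measurableSet
    have m2 : MeasurableSet S2 := by
      rw [hS2]; exact (isOpen_lt continuous_const c0).measurableSet
    have m3 : MeasurableSet S3 := by
      rw [hS3]; exact (isOpen_lt continuous_const c1).measurableSet
    have m4 : MeasurableSet S4 := by
      rw [hS4]; exact (isOpen_lt c1 continuous_const).measurableSet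
    have w1 : W \ S1 ⊆ W := sdiff_subset
    have w2 : (W \ S1) \ S2 ⊆ W := sdiff_subset.trans w1
    have w3 : ((W \ S1) \ S2) \ S3 ⊆ W := sdiff_subset.trans w2
    have w4 : (((W \ S1) \ S2) \ S3) \ S4 ⊆ W := sdiff_subset.trans w3
    have e1 := gab_split hfin m1
    have e2 := gab_split (hfin' _ w1) m2
    have e3 := gab_split (hfin' _ w2) m3
    have e4 := gab_split (hfin' _ w3) m4
    have f1 : vl (W ∩ A1) ≤ vl (W ∩ S1) := by
      apply gab_null 0 (y 0 - R) (hfin' _ inter_subset_left)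
      rintro z ⟨hzW, hz⟩
      rw [hA1, mem_ofPred_eq] at hz
      rcases hz.lt_or_eq with h | h
      · left; exact ⟨hzW, by rw [hS1]; exact h⟩
      · right; exact h
    have f2 : vl (W ∩ A2) ≤ vl ((W \ S1) ∩ S2) := by
      apply gab_null 0 (y 0 + R) (hfin' _ (inter_subset_left.trans w1))
      rintro z ⟨hzW, hz⟩
      rw [hA2, mem_ofPred_eq] at hz
      rcases hz.lt_or_eq with h | h
      · left
        refine ⟨⟨hzW, ?_⟩, by rw [hS2]; exact h⟩
        rw [hS1, mem_ofPred_eq]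
        linarith
      · right; exact h.symm
    have f3 : vl (W ∩ A3) ≤ vl (((W \ S1) \ S2) ∩ S3) := by
      apply gab_null 1 (y 1 + R) (hfin' _ (inter_subset_left.trans w2))
      rintro z ⟨hzW, hz⟩
      rw [hA3, mem_ofPred_eq] at hz
      rcases hz.2.2.lt_or_eq with h | h
      · left
        refine ⟨⟨⟨hzW, ?_⟩, ?_⟩, by rw [hS3]; exact h⟩
        · rw [hS1, mem_ofPred_eq]; linarith [hz.1]
        · rw [hS2, mem_ofPred_eq]; linarith [hz.2.1]
      · right; exact h.symm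
    have f4 : vl (W ∩ A4) ≤ vl ((((W \ S1) \ S2) \ S3) ∩ S4) := by
      apply gab_null 1 (y 1 - R) (hfin' _ (inter_subset_left.trans w3))
      rintro z ⟨hzW, hz⟩
      rw [hA4, mem_ofPred_eq] at hz
      rcases hz.2.2.lt_or_eq with h | h
      · left
        refine ⟨⟨⟨⟨hzW, ?_⟩, ?_⟩, ?_⟩, by rw [hS4]; exact h⟩
        · rw [hS1, mem_ofPred_eq]; linarith [hz.1]
        · rw [hS2, mem_ofPred_eq]; linarith [hz.2.1]
        · rw [hS3, mem_ofPred_eq]; linarith
      · right; exact h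
    have f5 : vl (W ∩ Metric.closedBall y R) ≤ vl ((((W \ S1) \ S2) \ S3) \ S4) := by
      unfold vl
      apply ENNReal.toReal_mono (hfin' _ w4)
      apply measure_mono
      rintro z ⟨hzW, hz⟩
      rw [mem_closedBall_iff_norm] at hz
      have g0 := abs_le.1 (gab_abs0 hz)
      have g1 := abs_le.1 (gab_abs1 hz)
      simp only [Pi.sub_apply] at g0 g1
      refine ⟨⟨⟨⟨hzW, ?_⟩, ?_⟩, ?_⟩, ?_⟩
      · rw [hS1, mem_ofPred_eq]; linarith [g0.1]
      · rw [hS2, mem_ofPred_eq]; linarith [g0.2]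
      · rw [hS3, mem_ofPred_eq]; linarith [g1.2]
      · rw [hS4, mem_ofPred_eq]; linarith [g1.1]
    linarith
  -- counting
  rcases W.eq_empty_or_nonempty with hWe | ⟨w, hw⟩
  · have hXe : {x | x ∈ X ∧ x ∉ Metric.closedBall y R} = ∅ := by
      ext x
      simp only [mem_ofPred_eq, mem_empty_iff_false, iff_false, not_and]
      intro hx
      have := hXmem x hx
      rw [hWe] at this
      exact absurd this (notMem_empty x)
    rw [hXe, ncard_empty, Nat.cast_zero, mul_zero, add_zero, hWe, empty_inter]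
    have : (0 : ℝ) ≤ (4 * beta C + 12 * beta C * κ0 + 1) * D := by positivity
    linarith
  obtain ⟨Y1, hY1⟩ : ∃ Y : Finset V, Y = X.filter fun x => ∀ c ∈ C, x + c ∈ A1 := ⟨_, rfl⟩
  obtain ⟨Y2, hY2⟩ : ∃ Y : Finset V, Y = X.filter fun x => ∀ c ∈ C, x + c ∈ A2 := ⟨_, rfl⟩
  obtain ⟨Y3, hY3⟩ : ∃ Y : Finset V, Y = X.filter fun x => ∀ c ∈ C, x + c ∈ A3 := ⟨_, rfl⟩
  obtain ⟨Y4, hY4⟩ : ∃ Y : Finset V, Y = X.filter fun x => ∀ c ∈ C, x + c ∈ A4 := ⟨_, rfl⟩
  have n1 := gab_count hC hW hWc cl1 cv1 X hTS hXW Y1 (by rw [hY1]; exact Finset.filter_subset _ _)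
    (by rw [hY1]; intro x hx; exact (Finset.mem_filter.1 hx).2)
  have n2 := gab_count hC hW hWc cl2 cv2 X hTS hXW Y2 (by rw [hY2]; exact Finset.filter_subset _ _)
    (by rw [hY2]; intro x hx; exact (Finset.mem_filter.1 hx).2)
  have n3 := gab_count hC hW hWc cl3 cv3 X hTS hXW Y3 (by rw [hY3]; exact Finset.filter_subset _ _)
    (by rw [hY3]; intro x hx; exact (Finset.mem_filter.1 hx).2)
  have n4 := gab_count hC hW hWc cl4 cv4 X hTS hXW Y4 (by rw [hY4]; exact Finset.filter_subset _ _)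
    (by rw [hY4]; intro x hx; exact (Finset.mem_filter.1 hx).2)
  obtain ⟨L1, hL1⟩ : ∃ L : Set V, L = {x | x ∈ (X : Set V) ∧
    ∃ z ∈ segment ℝ (![y 0 - R, w 1 - D] : V) (![y 0 - R, w 1 + D] : V), ‖x - z‖ ≤ RC} := ⟨_, rfl⟩
  obtain ⟨L2, hL2⟩ : ∃ L : Set V, L = {x | x ∈ (X : Set V) ∧
    ∃ z ∈ segment ℝ (![y 0 + R, w 1 - D] : V) (![y 0 + R, w 1 + D] : V), ‖x - z‖ ≤ RC} := ⟨_, rfl⟩
  obtain ⟨L3, hL3⟩ : ∃ L : Set V, L = {x | x ∈ (X : Set V) ∧
    ∃ z ∈ segment ℝ (![w 0 - D, y 1 + R] : V) (![w 0 + D, y 1 + R] : V), ‖x - z‖ ≤ RC} := ⟨_, rfl⟩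
  obtain ⟨L4, hL4⟩ : ∃ L : Set V, L = {x | x ∈ (X : Set V) ∧
    ∃ z ∈ segment ℝ (![w 0 - D, y 1 - R] : V) (![w 0 + D, y 1 - R] : V), ‖x - z‖ ≤ RC} := ⟨_, rfl⟩
  have l1 := hnear X hpack (![y 0 - R, w 1 - D] : V) (![y 0 - R, w 1 + D] : V)
  have l2 := hnear X hpack (![y 0 + R, w 1 - D] : V) (![y 0 + R, w 1 + D] : V)
  have l3 := hnear X hpack (![w 0 - D, y 1 + R] : V) (![w 0 + D, y 1 + R] : V)
  have l4 := hnear X hpack (![w 0 - D, y 1 - R] : V) (![w 0 + D, y 1 - R] : V)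
  rw [← hL1] at l1
  rw [← hL2] at l2
  rw [← hL3] at l3
  rw [← hL4] at l4
  have hbound : ∀ t : ℝ, t ≤ 2 * D → κ0 * (t + 1) ≤ 3 * κ0 * D := by
    intro t ht
    have : κ0 * (t + 1) ≤ κ0 * (3 * D) := mul_le_mul_of_nonneg_left (by linarith) hκ0.le
    linarith
  have b1 := l1.2.trans (hbound _ (gab_len0 hD0))
  have b2 := l2.2.trans (hbound _ (gab_len0 hD0))
  have b3 := l3.2.trans (hbound _ (gab_len1 hD0))
  have b4 := l4.2.trans (hbound _ (gab_len1 hD0))
  have hsub : {x | x ∈ X ∧ x ∉ Metric.closedBall y R} ⊆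
      ((Y1 : Set V) ∪ Y2 ∪ (Y3 ∪ Y4)) ∪ (L1 ∪ L2 ∪ (L3 ∪ L4)) := by
    rintro x ⟨hxX, hxB⟩
    have hxW := hXmem x hxX
    have hdx := hdiam x hxW w hw
    have d0 := gab_abs0 hdx
    have d1 := gab_abs1 hdx
    simp only [Pi.sub_apply] at d0 d1
    by_contra hcon
    simp only [mem_union, not_or] at hcon
    obtain ⟨⟨⟨q1, q2⟩, q3, q4⟩, ⟨p1, p2⟩, p3, p4⟩ := hcon
    have r1 : ∀ t : ℝ, |x 0 - (y 0 - R)| ≤ RC → False := by
      intro _ ht
      apply p1
      rw [hL1]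
      exact ⟨hxX, gab_near0 hD0 hRC.le d1 ht⟩
    have r2 : ∀ t : ℝ, |x 0 - (y 0 + R)| ≤ RC → False := by
      intro _ ht
      apply p2
      rw [hL2]
      exact ⟨hxX, gab_near0 hD0 hRC.le d1 ht⟩
    have r3 : ∀ t : ℝ, |x 1 - (y 1 + R)| ≤ RC → False := by
      intro _ ht
      apply p3
      rw [hL3]
      exact ⟨hxX, gab_near1 hD0 hRC.le d0 ht⟩
    have r4 : ∀ t : ℝ, |x 1 - (y 1 - R)| ≤ RC → False := by
      intro _ ht
      apply p4
      rw [hL4]
      exact ⟨hxX, gab_near1 hD0 hRC.le d0 ht⟩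
    have hcb : ∀ c ∈ C, |c 0| ≤ RC ∧ |c 1| ≤ RC := by
      intro c hc
      have h1 := hCR hc
      rw [mem_closedBall_zero_iff] at h1
      exact ⟨gab_abs0 h1, gab_abs1 h1⟩
    have s1 : x 0 < y 0 - R → False := by
      intro hx0
      have h1 : ∃ c ∈ C, x + c ∉ A1 := by
        by_contra h
        push Not at h
        apply q1
        rw [hY1]
        exact Finset.mem_coe.2 (Finset.mem_filter.2 ⟨hxX, h⟩)
      obtain ⟨c, hc, hxc⟩ := h1
      rw [hA1, mem_ofPred_eq, not_le, Pi.add_apply] at hxc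
      have h2 := abs_le.1 (hcb c hc).1
      exact r1 0 (abs_le.2 ⟨by linarith [h2.2], by linarith [h2.1]⟩)
    have s2 : y 0 + R < x 0 → False := by
      intro hx0
      have h1 : ∃ c ∈ C, x + c ∉ A2 := by
        by_contra h
        push Not at h
        apply q2
        rw [hY2]
        exact Finset.mem_coe.2 (Finset.mem_filter.2 ⟨hxX, h⟩)
      obtain ⟨c, hc, hxc⟩ := h1
      rw [hA2, mem_ofPred_eq, not_le, Pi.add_apply] at hxc
      have h2 := abs_le.1 (hcb c hc).1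
      exact r2 0 (abs_le.2 ⟨by linarith [h2.2], by linarith [h2.1]⟩)
    have t1 : y 0 - R ≤ x 0 := not_lt.1 s1
    have t2 : x 0 ≤ y 0 + R := not_lt.1 s2
    have s3 : y 1 + R < x 1 → False := by
      intro hx1
      have h1 : ∃ c ∈ C, x + c ∉ A3 := by
        by_contra h
        push Not at h
        apply q3
        rw [hY3]
        exact Finset.mem_coe.2 (Finset.mem_filter.2 ⟨hxX, h⟩)
      obtain ⟨c, hc, hxc⟩ := h1
      rw [hA3, mem_ofPred_eq, Pi.add_apply, Pi.add_apply] at hxc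
      have h2 := abs_le.1 (hcb c hc).1
      have h3 := abs_le.1 (hcb c hc).2
      by_cases u1 : y 0 - R ≤ x 0 + c 0
      · by_cases u2 : x 0 + c 0 ≤ y 0 + R
        · have u3 : ¬ y 1 + R ≤ x 1 + c 1 := fun h => hxc ⟨u1, u2, h⟩
          rw [not_le] at u3
          exact r3 0 (abs_le.2 ⟨by linarith [h3.2], by linarith [h3.1]⟩)
        · rw [not_le] at u2
          exact r2 0 (abs_le.2 ⟨by linarith [h2.2], by linarith [h2.1]⟩)
      · rw [not_le] at u1
        exact r1 0 (abs_le.2 ⟨by linarith [h2.2], by linarith [h2.1]⟩)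
    have s4 : x 1 < y 1 - R → False := by
      intro hx1
      have h1 : ∃ c ∈ C, x + c ∉ A4 := by
        by_contra h
        push Not at h
        apply q4
        rw [hY4]
        exact Finset.mem_coe.2 (Finset.mem_filter.2 ⟨hxX, h⟩)
      obtain ⟨c, hc, hxc⟩ := h1
      rw [hA4, mem_ofPred_eq, Pi.add_apply, Pi.add_apply] at hxc
      have h2 := abs_le.1 (hcb c hc).1
      have h3 := abs_le.1 (hcb c hc).2
      by_cases u1 : y 0 - R ≤ x 0 + c 0
      · by_cases u2 : x 0 + c 0 ≤ y 0 + R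
        · have u3 : ¬ x 1 + c 1 ≤ y 1 - R := fun h => hxc ⟨u1, u2, h⟩
          rw [not_le] at u3
          exact r4 0 (abs_le.2 ⟨by linarith [h3.2], by linarith [h3.1]⟩)
        · rw [not_le] at u2
          exact r2 0 (abs_le.2 ⟨by linarith [h2.2], by linarith [h2.1]⟩)
      · rw [not_le] at u1
        exact r1 0 (abs_le.2 ⟨by linarith [h2.2], by linarith [h2.1]⟩)
    have t3 : x 1 ≤ y 1 + R := not_lt.1 s3
    have t4 : y 1 - R ≤ x 1 := not_lt.1 s4
    apply hxB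
    rw [mem_closedBall_iff_norm]
    apply gab_norm_le hR
    · rw [Pi.sub_apply]
      exact abs_le.2 ⟨by linarith, by linarith⟩
    · rw [Pi.sub_apply]
      exact abs_le.2 ⟨by linarith, by linarith⟩
  have hcount : ({x | x ∈ X ∧ x ∉ Metric.closedBall y R}.ncard : ℝ) ≤
      (Y1.card + Y2.card + (Y3.card + Y4.card) : ℝ) +
        (L1.ncard + L2.ncard + (L3.ncard + L4.ncard) : ℝ) := by
    have hfinU : (((Y1 : Set V) ∪ Y2 ∪ (Y3 ∪ Y4)) ∪ (L1 ∪ L2 ∪ (L3 ∪ L4))).Finite :=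
      ((Y1.finite_toSet.union Y2.finite_toSet).union (Y3.finite_toSet.union Y4.finite_toSet)).union
        ((l1.1.union l2.1).union (l3.1.union l4.1))
    have h1 := ncard_le_ncard hsub hfinU
    have h2 := ncard_union_le ((Y1 : Set V) ∪ Y2 ∪ (Y3 ∪ Y4)) (L1 ∪ L2 ∪ (L3 ∪ L4))
    have h3 := ncard_union_le ((Y1 : Set V) ∪ Y2) (Y3 ∪ Y4)
    have h4 := ncard_union_le (Y1 : Set V) Y2
    have h5 := ncard_union_le (Y3 : Set V) Y4
    have h6 := ncard_union_le (L1 ∪ L2) (L3 ∪ L4)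
    have h7 := ncard_union_le L1 L2
    have h8 := ncard_union_le L3 L4
    rw [ncard_coe_finset, ncard_coe_finset] at h4 h5
    have h9 : {x | x ∈ X ∧ x ∉ Metric.closedBall y R}.ncard ≤
        (Y1.card + Y2.card + (Y3.card + Y4.card)) +
          (L1.ncard + L2.ncard + (L3.ncard + L4.ncard)) := by omega
    exact_mod_cast h9
  have hmul := mul_le_mul_of_nonneg_left hcount hβ
  have hL : beta C * (L1.ncard + L2.ncard + (L3.ncard + L4.ncard) : ℝ) ≤
      beta C * (12 * κ0 * D) := mul_le_mul_of_nonneg_left (by linarith) hβ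
  have hβD : beta C ≤ beta C * D := le_mul_of_one_le_right hβ hD
  nlinarith [hvol, n1, n2, n3, n4, hmul, hL, hβD, hD0]

end Pool.Agent.H.MP_929345_co.Pl
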