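import Pool.Agent.H.MP_929345_co.Pl.TiA

/-! D4, D5: sums over faces -/

set_option autoImplicit false

open MeasureTheory Set

namespace Pool.Agent.H.MP_929345_co.Pl

theorem gad_seg (p q : V) : volume (segment ℝ p q) = 0 := by
  have hne : AffineSubspace.mk' p (Submodule.span ℝ {q - p}) ≠ ⊤ := by
    intro h
    have h1 : (AffineSubspace.mk' p (Submodule.span ℝ {q - p})).direction = ⊤ := by
      rw [h, AffineSubspace.direction_top]
    rw [AffineSubspace.direction_mk'] at h1
    have h2 : Module.finrank ℝ (Submodule.span ℝ {q - p}) = 2 := by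
      rw [h1, finrank_top, Module.finrank_fin_fun]
    have h3 := finrank_span_le_card (R := ℝ) ({q - p} : Set V)
    rw [h2, Set.toFinset_singleton, Finset.card_singleton] at h3
    omega
  have h0 := Measure.addHaar_affineSubspace (volume : Measure V) _ hne
  refine measure_mono_null ?_ h0
  intro y hy
  rw [segment_eq_image'] at hy
  obtain ⟨θ, _, rfl⟩ := hy
  show p + θ • (q - p) ∈ AffineSubspace.mk' p (Submodule.span ℝ {q - p})
  rw [AffineSubspace.mem_mk', vsub_eq_sub, add_sub_cancel_left]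
  exact Submodule.smul_mem _ _ (Submodule.mem_span_singleton_self _)

/-- Job D4.  The structure has area zero. -/
theorem vl_Sg {ι : Type*} [Countable ι] {P Q : ι → V} {Lam : ℝ} (hT : IsT P Q Lam) :
    volume (Sg P Q) = 0 := by
  unfold Sg
  rw [measure_iUnion_null_iff]
  intro i
  exact gad_seg _ _

theorem gad_disj {ι : Type*} {P Q : ι → V} {Lam : ℝ} (hT : IsT P Q Lam) (F : Finset (Set V))
    (hF : ∀ W ∈ F, ∃ x, x ∉ Sg P Q ∧ W = Vis (Sg P Q) x) :
    (F : Set (Set V)).PairwiseDisjoint id := by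
  intro W hW W' hW' hne
  obtain ⟨x, hx, rfl⟩ := hF W hW
  obtain ⟨x', hx', rfl⟩ := hF W' hW'
  show Disjoint (Vis (Sg P Q) x) (Vis (Sg P Q) x')
  rw [Set.disjoint_left]
  intro y hy hy'
  apply hne
  rw [← Vis_eq hT hx hy, ← Vis_eq hT hx' hy']

/-- Job D4.  The faces cover a ball up to area zero: areas. -/
theorem sum_vl_ball {ι : Type*} [Countable ι] {P Q : ι → V} {Lam : ℝ} (hT : IsT P Q Lam)
    (y : V) (R : ℝ) (F : Finset (Set V))
    (hF : ∀ W ∈ F, ∃ x, x ∉ Sg P Q ∧ W = Vis (Sg P Q) x)
    (hcov : ∀ x, x ∉ Sg P Q → ‖x - y‖ ≤ R → Vis (Sg P Q) x ∈ F) :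
    ∑ W ∈ F, vl (W ∩ Metric.closedBall y R) = vl (Metric.closedBall y R) := by
  have hfin : volume (Metric.closedBall y R) ≠ ⊤ :=
    (isCompact_closedBall y R).measure_lt_top.ne
  unfold vl
  rw [← ENNReal.toReal_sum]
  · congr 1
    rw [← measure_biUnion_finset]
    · apply le_antisymm
      · apply measure_mono
        intro z hz
        simp only [mem_iUnion] at hz
        obtain ⟨W, _, hz2⟩ := hz
        exact hz2.2
      · have hsub : Metric.closedBall y R ⊆
            (⋃ W ∈ F, W ∩ Metric.closedBall y R) ∪ Sg P Q := by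
          intro z hz
          by_cases hzS : z ∈ Sg P Q
          · exact Or.inr hzS
          · left
            simp only [mem_iUnion]
            have h1 : ‖z - y‖ ≤ R := by
              rw [← dist_eq_norm]
              exact hz
            exact ⟨Vis (Sg P Q) z, hcov z hzS h1, self_mem_Vis hzS, hz⟩
        refine (measure_mono hsub).trans ((measure_union_le _ _).trans ?_)
        rw [vl_Sg hT, add_zero]
    · intro W hW W' hW' hne
      exact (gad_disj hT F hF hW hW' hne).mono inter_subset_left inter_subset_left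
    · intro W hW
      obtain ⟨x, hx, rfl⟩ := hF W hW
      exact (Vis_isOpen hT x).measurableSet.inter measurableSet_closedBall
  · intro W _
    exact ne_top_of_le_ne_top hfin (measure_mono inter_subset_right)

/-- Job D4.  The faces contain the members of a ball: numbers. -/
theorem sum_card_ball {ι : Type*} [Countable ι] {P Q : ι → V} {Lam : ℝ} (hT : IsT P Q Lam)
    (X : Set V) (hX : X.Finite) (hXS : ∀ c ∈ X, c ∉ Sg P Q) (F : Finset (Set V))
    (hF : ∀ W ∈ F, ∃ x, x ∉ Sg P Q ∧ W = Vis (Sg P Q) x)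
    (hcov : ∀ c ∈ X, Vis (Sg P Q) c ∈ F) :
    ∑ W ∈ F, ((X ∩ W).ncard : ℝ) = X.ncard := by
  classical
  have h1 := Finset.card_eq_sum_card_fiberwise (s := hX.toFinset) (t := F)
    (f := fun c => Vis (Sg P Q) c) (by
      intro c hc
      exact hcov c ((Set.Finite.mem_toFinset hX).mp hc))
  rw [Set.ncard_eq_toFinset_card X hX, h1]
  push_cast
  refine Finset.sum_congr rfl fun W hW => ?_
  have h2 : X ∩ W = ((Finset.filter (fun c => Vis (Sg P Q) c = W) hX.toFinset : Finset V) :
      Set V) := by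
    ext c
    rw [Finset.mem_coe, Finset.mem_filter, Set.Finite.mem_toFinset]
    constructor
    · rintro ⟨hc, hcW⟩
      refine ⟨hc, ?_⟩
      obtain ⟨x, hx, rfl⟩ := hF W hW
      exact Vis_eq hT hx hcW
    · rintro ⟨hc, hcW⟩
      refine ⟨hc, ?_⟩
      rw [← hcW]
      exact self_mem_Vis (hXS c hc)
  rw [h2, Set.ncard_coe_finset]

/-- Job D5.  Averaging the gains. -/
theorem max_gain {J : Type*} (S : Finset J) (g : J → ℝ) (m : ℕ) (hm : 1 ≤ m) (hS : S.card ≤ m)
    (t : ℝ) (h0 : 0 ≤ t) (h : ∀ j ∈ S, g j ≤ t) : ∑ j ∈ S, g j ≤ m * t := by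
  have h1 := Finset.sum_le_card_nsmul S g t h
  rw [nsmul_eq_mul] at h1
  have h2 : (S.card : ℝ) ≤ m := by exact_mod_cast hS
  exact h1.trans (mul_le_mul_of_nonneg_right h2 h0)

end Pool.Agent.H.MP_929345_co.Pl
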