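import Pool.Agent.H.MP_929345_co.Pl.TiA
import Pool.Agent.H.MP_929345_co.Pl.FaceI

/-! B6c: the T-inequality -/

set_option autoImplicit false

open MeasureTheory Set
open scoped Pointwise

namespace Pool.Agent.H.MP_929345_co.Pl

variable {ι : Type*} {P Q : ι → V} {Lam : ℝ}

/-- First functional of a corner. -/
def tib_a (P Q : ι → V) (τ : V) (e : ι × Bool) : V := (-(cr τ (dE P Q e))) • pp τ

/-- Second functional of a corner. -/
def tib_b (P Q : ι → V) (τ : V) (e : ι × Bool) : V := (-(cr (dE P Q e) τ)) • pp (dE P Q e)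

lemma tib_ev_a (τ : V) (e : ι × Bool) (y : V) :
    ev (tib_a P Q τ e) y = -(cr τ (dE P Q e) * cr τ y) := by
  unfold tib_a; rw [ev_smul_left, ev_pp]; ring

lemma tib_ev_b (τ : V) (e : ι × Bool) (y : V) :
    ev (tib_b P Q τ e) y = -(cr (dE P Q e) τ * cr (dE P Q e) y) := by
  unfold tib_b; rw [ev_smul_left, ev_pp]; ring

lemma tib_cr_pp (x y : V) : cr (pp x) (pp y) = cr x y := by
  simp [cr, pp]; ring

lemma tib_ind {τ : V} {e : ι × Bool} (h : cr τ (dE P Q e) ≠ 0) :
    cr (tib_a P Q τ e) (tib_b P Q τ e) ≠ 0 := by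
  unfold tib_a tib_b
  rw [cr_smul_left, cr_smul_right, tib_cr_pp]
  have h' : cr (dE P Q e) τ ≠ 0 := by
    rw [cr_comm]; exact neg_ne_zero.2 h
  exact mul_ne_zero (neg_ne_zero.2 h) (mul_ne_zero (neg_ne_zero.2 h') h)

lemma tib_a_neg (τ : V) (e : ι × Bool) : tib_a P Q (-τ) e = tib_a P Q τ e := by
  unfold tib_a
  rw [cr_neg_left]
  ext i; fin_cases i <;> simp [pp]

lemma tib_b_neg (τ : V) (e : ι × Bool) : tib_b P Q (-τ) e = -tib_b P Q τ e := by
  unfold tib_b
  rw [cr_neg_right]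
  ext i; fin_cases i <;> simp [pp]

/-- Extension of a closed inequality to the closure. -/
lemma tib_closure {W : Set V} {a : V} {t : ℝ} (h : ∀ w ∈ W, ev a w ≤ t) :
    ∀ w ∈ closure W, ev a w ≤ t := by
  intro w hw
  have hcl : IsClosed {w : V | ev a w ≤ t} := isClosed_le (continuous_ev a) continuous_const
  exact closure_minimal (s := W) (fun w hw => h w hw) hcl hw

lemma tib_supp_a (hT : IsT P Q Lam) {e : ι × Bool} {τ x : V} (hx : x ∉ Sg P Q)
    (hτ : Thr P Q e τ) (h : Adj P Q e τ (Vis (Sg P Q) x)) :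
    ∀ w ∈ closure (Vis (Sg P Q) x), ev (tib_a P Q τ e) w ≤ ev (tib_a P Q τ e) (zE P Q e) := by
  apply tib_closure
  intro w hw
  have h1 := adj_supp_f hT hx h hτ w hw
  rw [tib_ev_a, tib_ev_a]
  rw [cr_sub_right] at h1
  nlinarith

lemma tib_supp_b (hT : IsT P Q Lam) {e : ι × Bool} {τ x : V} (hx : x ∉ Sg P Q)
    (hc : cr τ (dE P Q e) ≠ 0) (h : Adj P Q e τ (Vis (Sg P Q) x)) :
    ∀ w ∈ closure (Vis (Sg P Q) x), ev (tib_b P Q τ e) w ≤ ev (tib_b P Q τ e) (zE P Q e) := by
  apply tib_closure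
  intro w hw
  have hc' : cr (dE P Q e) τ ≠ 0 := by
    rw [cr_comm]; exact neg_ne_zero.2 hc
  have h1 := adj_supp_g hT hx h hc' w hw
  rw [tib_ev_b, tib_ev_b]
  rw [cr_sub_right] at h1
  nlinarith

/-- Two corners of the same face at the same point have disjoint open cones. -/
lemma tib_same_point (hT : IsT P Q Lam) {e e' : ι × Bool} {τ τ' x : V} (hx : x ∉ Sg P Q)
    (hne : e ≠ e') (hz : zE P Q e = zE P Q e') (hτ : Thr P Q e τ) (hτ' : Thr P Q e' τ')
    (h : Adj P Q e τ (Vis (Sg P Q) x)) (h' : Adj P Q e' τ' (Vis (Sg P Q) x))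
    {p q p' q' : ℝ} (hq : 0 < q) (hq' : 0 < q') :
    p • tib_a P Q τ e + q • tib_b P Q τ e ≠ p' • tib_a P Q τ' e' + q' • tib_b P Q τ' e' := by
  intro heq
  obtain ⟨h1, h2⟩ := adj_two hT hx hne hz hτ hτ' h h'
  have hxW := self_mem_Vis hx
  have s1 := adj_supp_f hT hx h hτ x hxW
  have s2 := adj_supp_f hT hx h' hτ' x hxW
  rw [← hz] at s2
  -- the same through segment
  have hpm : τ' = τ ∨ τ' = -τ := by
    obtain ⟨j, hj, hj'⟩ := hτ
    obtain ⟨k, hk, hk'⟩ := hτ'
    have hjk : j = k := by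
      by_contra hcon
      rw [← hz] at hk
      exact Set.disjoint_left.1 (hT.t1 j k hcon) hj hk
    subst hjk
    rcases hj' with r1 | r1 <;> rcases hk' with r2 | r2
    · left; rw [r1, r2]
    · right; rw [r1, r2]; abel
    · right; rw [r1, r2]; abel
    · left; rw [r1, r2]
  have ha' : tib_a P Q τ' e' = tib_a P Q τ e' := by
    rcases hpm with r | r
    · rw [r]
    · rw [r, tib_a_neg]
  set α := cr τ (dE P Q e) with hα
  set α' := cr τ (dE P Q e') with hα'
  have hs2 : 0 < α' * cr τ (x - zE P Q e) := by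
    rcases hpm with r | r
    · rw [r] at s2; exact s2
    · rw [r, cr_neg_left, cr_neg_left] at s2
      rw [hα']; nlinarith
  have hαα : 0 < α * α' := by
    have h3 : 0 < (α * cr τ (x - zE P Q e)) * (α' * cr τ (x - zE P Q e)) := mul_pos s1 hs2
    have h4 : (α * cr τ (x - zE P Q e)) * (α' * cr τ (x - zE P Q e)) =
      (α * α') * (cr τ (x - zE P Q e)) ^ 2 := by ring
    rw [h4] at h3
    by_contra hcon
    have h5 : (α * α') * (cr τ (x - zE P Q e)) ^ 2 ≤ 0 :=
      mul_nonpos_of_nonpos_of_nonneg (not_lt.1 hcon) (sq_nonneg _)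
    linarith
  have e1 := congrArg (fun c => ev c (dE P Q e)) heq
  have e2 := congrArg (fun c => ev c (dE P Q e')) heq
  simp only [ev_add_left, ev_smul_left] at e1 e2
  rw [ha', tib_ev_a, tib_ev_b, tib_ev_a, tib_ev_b, cr_self] at e1
  rw [ha', tib_ev_a, tib_ev_b, tib_ev_a, tib_ev_b, cr_self] at e2
  rw [← hα, ← hα'] at e1 e2
  have h5 : 0 < q' * (cr (dE P Q e') τ' * cr (dE P Q e') (dE P Q e)) := mul_pos hq' h2
  have h6 : 0 < q * (cr (dE P Q e) τ * cr (dE P Q e) (dE P Q e')) := mul_pos hq h1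
  have k1 : 0 < α * (p * α - p' * α') := by nlinarith
  have k2 : 0 < α' * (p' * α' - p * α) := by nlinarith
  have k3 : 0 < (α * (p * α - p' * α')) * (α' * (p' * α' - p * α)) := mul_pos k1 k2
  have k4 : (α * (p * α - p' * α')) * (α' * (p' * α' - p * α)) =
    -((α * α') * (p * α - p' * α') ^ 2) := by ring
  rw [k4] at k3
  have k5 : 0 ≤ (α * α') * (p * α - p' * α') ^ 2 := mul_nonneg hαα.le (sq_nonneg _)
  linarith

/-- Corners of one face have pairwise disjoint open cones. -/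
lemma tib_hdis (hT : IsT P Q Lam) {e e' : ι × Bool} {τ τ' x : V} (hx : x ∉ Sg P Q)
    (hne : e ≠ e' ∨ τ' = -τ) (hτ : Thr P Q e τ) (hτ' : Thr P Q e' τ')
    (hc : cr τ (dE P Q e) ≠ 0)
    (h : Adj P Q e τ (Vis (Sg P Q) x)) (h' : Adj P Q e' τ' (Vis (Sg P Q) x))
    (hc' : cr τ' (dE P Q e') ≠ 0)
    {p q p' q' : ℝ} (hp : 0 < p) (hq : 0 < q) (hp' : 0 < p') (hq' : 0 < q') :
    p • tib_a P Q τ e + q • tib_b P Q τ e ≠ p' • tib_a P Q τ' e' + q' • tib_b P Q τ' e' := by
  by_cases hz : zE P Q e = zE P Q e'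
  · by_cases hee : e = e'
    · subst hee
      have hττ : τ' = -τ := by
        rcases hne with r | r
        · exact absurd rfl r
        · exact r
      exfalso
      have hxW := self_mem_Vis hx
      have hd : cr (dE P Q e) τ ≠ 0 := by rw [cr_comm]; exact neg_ne_zero.2 hc
      have hd' : cr (dE P Q e) τ' ≠ 0 := by rw [cr_comm]; exact neg_ne_zero.2 hc'
      have s1 := adj_supp_g hT hx h hd x hxW
      have s2 := adj_supp_g hT hx h' hd' x hxW
      rw [hττ, cr_neg_right] at s2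
      nlinarith
    · exact tib_same_point hT hx hee hz hτ hτ' h h' hq hq'
  · exact cones_disjoint (W := closure (Vis (Sg P Q) x)) (tib_ind hc) (adj_closure h)
      (tib_supp_a hT hx hτ h) (tib_supp_b hT hx hc h)
      (adj_closure h') (tib_supp_a hT hx hτ' h') (tib_supp_b hT hx hc' h') hz hp hq hp' hq'

/-- A member lies in the closure of its face. -/
lemma tib_mem_face {C : Set V} (hC : IsBody C) {x : V}
    (hx : ∀ w ∈ interior C, x + w ∉ Sg P Q) : ∀ c ∈ C, x + c ∈ closure (Vis (Sg P Q) x) := by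
  have h0 : (0 : V) ∈ interior C := by
    obtain ⟨y, hy⟩ := hC.nonempty
    have hy' : y ∈ C := interior_subset hy
    have h1 : (1 / 2 : ℝ) • y + (1 / 2 : ℝ) • (-y) ∈ interior C :=
      hC.convex.combo_interior_self_mem_interior hy (hC.symm y hy') (by norm_num) (by norm_num)
        (by norm_num)
    simpa using h1
  have h1 : ∀ w ∈ interior C, x + w ∈ Vis (Sg P Q) x := by
    intro w hw
    simp only [Vis, mem_ofPred_eq]
    rw [Set.disjoint_left]
    intro y hy hyS
    obtain ⟨s, t, hs, ht, hst, rfl⟩ := hy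
    have h2 : s • x + t • (x + w) = x + t • w := by
      have : s = 1 - t := by linarith
      rw [this]; module
    rw [h2] at hyS
    refine hx (t • w) ?_ hyS
    have h3 : Convex ℝ (interior C) := hC.convex.interior
    have h4 := h3 h0 hw hs ht hst
    simpa using h4
  intro c hc
  have hcl : C ⊆ closure (interior C) := by
    rw [hC.convex.closure_interior_eq_closure_of_nonempty_interior hC.nonempty]
    exact subset_closure
  have h2 : c ∈ closure (interior C) := hcl hc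
  have h3 : (fun c => x + c) '' closure (interior C) ⊆ closure ((fun c => x + c) '' interior C) :=
    image_closure_subset_closure_image (by fun_prop)
  have h4 : closure ((fun c => x + c) '' interior C) ⊆ closure (Vis (Sg P Q) x) := by
    apply closure_mono
    rintro _ ⟨w, hw, rfl⟩
    exact h1 w hw
  exact h4 (h3 ⟨c, h2, rfl⟩)

lemma tib_compact_closure (hT : IsT P Q Lam) (x : V) :
    IsCompact (closure (Vis (Sg P Q) x)) := by
  apply Metric.isCompact_of_isClosed_isBounded isClosed_closure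
  exact (Metric.isBounded_closedBall.subset (Vis_subset hT x)).closure

lemma tib_exists_thr (hT : IsT P Q Lam) (e : ι × Bool) : ∃ τ, Thr P Q e τ := by
  obtain ⟨i, s⟩ := e
  cases s with
  | false =>
    obtain ⟨j, hj⟩ := hT.t2P i
    exact ⟨Q j - P j, j, by simpa [zE] using hj, Or.inl rfl⟩
  | true =>
    obtain ⟨j, hj⟩ := hT.t2Q i
    exact ⟨Q j - P j, j, by simpa [zE] using hj, Or.inl rfl⟩

lemma tib_thr_neg {e : ι × Bool} {τ : V} (h : Thr P Q e τ) : Thr P Q e (-τ) := by
  obtain ⟨j, hj, hj'⟩ := h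
  refine ⟨j, hj, ?_⟩
  rcases hj' with r | r
  · right; rw [r]; abel
  · left; rw [r]; abel

/-- Sum of the corners of a face. -/
lemma tib_corners {C : Set V} (hC : IsBody C) (hT : IsT P Q Lam) {x : V} (hx : x ∉ Sg P Q)
    (hq : ∃ q, ∀ c ∈ C, q + c ∈ closure (Vis (Sg P Q) x))
    (s : Finset ((ι × Bool) × Bool)) (τ : (ι × Bool) × Bool → V)
    (hτn : ∀ e, τ (e, false) = -τ (e, true))
    (hs : ∀ j ∈ s, Thr P Q j.1 (τ j) ∧ cr (τ j) (dE P Q j.1) ≠ 0 ∧
      Adj P Q j.1 (τ j) (Vis (Sg P Q) x)) :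
    ∑ j ∈ s, vl (Cor C (tib_a P Q (τ j) j.1) (tib_b P Q (τ j) j.1)) ≤ vl (Vis (Sg P Q) x) := by
  obtain ⟨q, hq⟩ := hq
  have h1 := corner_sum (C := C) (K := {q}) (W := closure (Vis (Sg P Q) x)) hC isCompact_singleton
    (convex_singleton q) (singleton_nonempty q) (tib_compact_closure hT x)
    (Vis_convex hT hx).closure
    (by
      rintro _ ⟨k, hk, c, hc, rfl⟩
      rw [mem_singleton_iff] at hk
      subst hk
      exact hq c hc)
    s (fun j => zE P Q j.1) (fun j => tib_a P Q (τ j) j.1) (fun j => tib_b P Q (τ j) j.1)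
    (fun j hj => tib_ind (hs j hj).2.1)
    (fun j hj => adj_closure (hs j hj).2.2)
    (fun j hj => tib_supp_a hT hx (hs j hj).1 (hs j hj).2.2)
    (fun j hj => tib_supp_b hT hx (hs j hj).2.1 (hs j hj).2.2)
    (by
      intro i hi j hj hij p q p' q' hp hq hp' hq'
      refine tib_hdis hT hx ?_ (hs i hi).1 (hs j hj).1 (hs i hi).2.1 (hs i hi).2.2 (hs j hj).2.2
        (hs j hj).2.1 hp hq hp' hq'
      obtain ⟨e, b⟩ := i
      obtain ⟨e', b'⟩ := j
      by_cases hee : e = e'
      · subst hee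
        right
        cases b <;> cases b'
        · exact absurd rfl hij
        · have := hτn e
          rw [this]; simp
        · exact hτn e
        · exact absurd rfl hij
      · left; exact hee)
  rw [vl_closure hT hx] at h1
  have h2 : 0 ≤ vl ({q} + C) := ENNReal.toReal_nonneg
  linarith

/-- The inequality for one face. -/
lemma tib_face {C : Set V} (hC : IsBody C) (hT : IsT P Q Lam) {x : V} (hx : x ∉ Sg P Q)
    (hq : ∃ q, ∀ c ∈ C, q + c ∈ closure (Vis (Sg P Q) x))
    (X : Finset V) (hX : ∀ c ∈ X, Vis (Sg P Q) c = Vis (Sg P Q) x ∧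
      ∀ w ∈ interior C, c + w ∉ Sg P Q)
    (hTS : TS C (X : Set V))
    (s : Finset ((ι × Bool) × Bool)) (τ : (ι × Bool) × Bool → V)
    (hτn : ∀ e, τ (e, false) = -τ (e, true))
    (hs : ∀ j ∈ s, Thr P Q j.1 (τ j) ∧ cr (τ j) (dE P Q j.1) ≠ 0 ∧
      Adj P Q j.1 (τ j) (Vis (Sg P Q) x)) :
    ((X.card : ℝ) - 1) * beta C + vl C +
      ∑ j ∈ s, vl (Cor C (tib_a P Q (τ j) j.1) (tib_b P Q (τ j) j.1)) ≤
        vl (Vis (Sg P Q) x) := by
  have h1 := face_ineq (C := C) (W := closure (Vis (Sg P Q) x)) hC (tib_compact_closure hT x)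
    (Vis_convex hT hx).closure X hTS
    (by
      intro c hc w hw
      have := tib_mem_face (P := P) (Q := Q) hC (hX c hc).2 w hw
      rwa [(hX c hc).1] at this)
    hq s (fun j => zE P Q j.1) (fun j => tib_a P Q (τ j) j.1) (fun j => tib_b P Q (τ j) j.1)
    (fun j hj => tib_ind (hs j hj).2.1)
    (fun j hj => adj_closure (hs j hj).2.2)
    (fun j hj => tib_supp_a hT hx (hs j hj).1 (hs j hj).2.2)
    (fun j hj => tib_supp_b hT hx (hs j hj).2.1 (hs j hj).2.2)
    (by
      intro i hi j hj hij p q p' q' hp hq hp' hq'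
      refine tib_hdis hT hx ?_ (hs i hi).1 (hs j hj).1 (hs i hi).2.1 (hs i hi).2.2 (hs j hj).2.2
        (hs j hj).2.1 hp hq hp' hq'
      obtain ⟨e, b⟩ := i
      obtain ⟨e', b'⟩ := j
      by_cases hee : e = e'
      · subst hee
        right
        cases b <;> cases b'
        · exact absurd rfl hij
        · have := hτn e
          rw [this]; simp
        · exact hτn e
        · exact absurd rfl hij
      · left; exact hee)
  rw [vl_closure hT hx] at h1
  exact h1

lemma tib_inj (hT : IsT P Q Lam) {x x' u : V} {W W' : Set V} (hx : x ∉ Sg P Q)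
    (hx' : x' ∉ Sg P Q) (hW : W = Vis (Sg P Q) x) (hW' : W' = Vis (Sg P Q) x')
    {e : ι × Bool} (h : Tok P Q u W e) (h' : Tok P Q u W' e) : W = W' := by
  subst hW hW'
  exact token_inj hT hx hx' h h'

/-- Job B6c.  The T-inequality, with a set `Pr` of exceptional faces. -/
theorem T_ineq [Countable ι] {C : Set V} (hC : IsBody C) (hT : IsT P Q Lam)
    (hgood : ∀ x ∉ Sg P Q, ∃ q, ∀ c ∈ C, q + c ∈ closure (Vis (Sg P Q) x))
    (R : ℝ) (X : Finset V) (hXR : ∀ c ∈ X, ‖c‖ ≤ R)
    (hXS : ∀ c ∈ X, ∀ w ∈ interior C, c + w ∉ Sg P Q)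
    (hTS : ∀ c ∈ X, TS C {c' | c' ∈ X ∧ c' ∈ Vis (Sg P Q) c})
    (Pr : Set (Set V)) (BE : Finset (ι × Bool))
    (hBE : ∀ e τ x, x ∉ Sg P Q → Thr P Q e τ → Vis (Sg P Q) x ∈ Pr →
      Adj P Q e τ (Vis (Sg P Q) x) → e ∈ BE)
    (PF : Finset (Set V))
    (hPF : ∀ W ∈ PF, W ∈ Pr ∧ ∃ x, x ∉ Sg P Q ∧ W = Vis (Sg P Q) x ∧ ‖x‖ ≤ R)
    (hXn : ∀ c ∈ X, Vis (Sg P Q) c ∉ Pr) :
    beta C * X.card + ∑ W ∈ PF, vl W ≤
      vl (Metric.closedBall (0 : V) (R + 3 * Lam + 1)) + (beta C - vl C) / 2 * BE.card := by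
  classical
  have hxS : ∀ c ∈ X, c ∉ Sg P Q := by
    intro c hc hcS
    have h0 : (0 : V) ∈ interior C := by
      obtain ⟨y, hy⟩ := hC.nonempty
      have hy' : y ∈ C := interior_subset hy
      have h1 : (1 / 2 : ℝ) • y + (1 / 2 : ℝ) • (-y) ∈ interior C :=
        hC.convex.combo_interior_self_mem_interior hy (hC.symm y hy') (by norm_num) (by norm_num)
          (by norm_num)
      simpa using h1
    have := hXS c hc 0 h0
    rw [add_zero] at this
    exact this hcS
  obtain ⟨u, hu⟩ := exists_generic (P := P) (Q := Q) hT.ne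
  have hu' : ∀ i, ev (-u) (Q i - P i) ≠ 0 := by
    intro i; rw [ev_neg_left]; exact neg_ne_zero.2 (hu i)
  set Fn : Finset (Set V) := (finite_faces hT R).toFinset.filter (fun W => W ∉ Pr) with hFn
  have hFn_mem : ∀ W, W ∈ Fn ↔
      (∃ x, x ∉ Sg P Q ∧ W = Vis (Sg P Q) x ∧ ‖x‖ ≤ R) ∧ W ∉ Pr := by
    intro W
    rw [hFn, Finset.mem_filter, Set.Finite.mem_toFinset]
    rfl
  have htok : ∀ p : {W // W ∈ Fn} × Bool, ∃ e, Tok P Q (if p.2 then u else -u) p.1.1 e := by
    rintro ⟨⟨W, hW⟩, b⟩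
    obtain ⟨⟨x, hx, hxW, hxR⟩, hWp⟩ := (hFn_mem W).1 hW
    subst hxW
    cases b with
    | false => simpa using exists_token hT hu' hx
    | true => simpa using exists_token hT hu hx
  choose tk htk using htok
  have hinj : Function.Injective tk := by
    rintro ⟨⟨W, hW⟩, b⟩ ⟨⟨W', hW'⟩, b'⟩ heq
    have h1 := htk ⟨⟨W, hW⟩, b⟩
    have h2 := htk ⟨⟨W', hW'⟩, b'⟩
    rw [← heq] at h2
    obtain ⟨⟨x, hx, hxW, hxR⟩, hWp⟩ := (hFn_mem W).1 hW
    obtain ⟨⟨x', hx', hxW', hxR'⟩, hWp'⟩ := (hFn_mem W').1 hW'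
    simp only at h1 h2
    have hbb : b = b' := by
      cases b <;> cases b'
      · rfl
      · exact absurd (token_neg (by simpa using h2) (by simpa using h1)) id
      · exact absurd (token_neg (by simpa using h1) (by simpa using h2)) id
      · rfl
    subst hbb
    have hWW : W = W' := tib_inj hT hx hx' hxW hxW' h1 h2
    subst hWW
    rfl
  set E : Finset (ι × Bool) := Finset.univ.image tk with hE
  have hEcard : E.card = Fn.card * 2 := by
    rw [hE, Finset.card_image_of_injective _ hinj, Finset.card_univ, Fintype.card_prod,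
      Fintype.card_bool, Fintype.card_coe]
  set E' : Finset (ι × Bool) := E \ BE with hE'
  have hE'card : (2 : ℝ) * Fn.card - BE.card ≤ E'.card := by
    have h1 : E.card ≤ E'.card + BE.card := by
      calc E.card ≤ (E' ∪ BE).card := by
            apply Finset.card_le_card
            intro e he
            by_cases heB : e ∈ BE
            · exact Finset.mem_union_right _ heB
            · exact Finset.mem_union_left _ (Finset.mem_sdiff.2 ⟨he, heB⟩)
        _ ≤ E'.card + BE.card := Finset.card_union_le _ _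
    rw [hEcard] at h1
    have h2 : ((Fn.card * 2 : ℕ) : ℝ) ≤ ((E'.card + BE.card : ℕ) : ℝ) := by exact_mod_cast h1
    push_cast at h2
    linarith
  have hzE : ∀ e ∈ E', ‖zE P Q e‖ ≤ R + Lam := by
    intro e he
    obtain ⟨p, -, hp⟩ := Finset.mem_image.1 (Finset.mem_sdiff.1 he).1
    obtain ⟨⟨W, hW⟩, b⟩ := p
    obtain ⟨⟨x, hx, hxW, hxR⟩, hWp⟩ := (hFn_mem W).1 hW
    obtain ⟨-, -, τ, -, -, hadj⟩ := htk ⟨⟨W, hW⟩, b⟩
    rw [hp] at hadj
    have h1 := adj_closure hadj
    simp only at h1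
    rw [hxW] at h1
    have h2 : closure (Vis (Sg P Q) x) ⊆ Metric.closedBall x Lam :=
      closure_minimal (Vis_subset hT x) Metric.isClosed_closedBall
    have h3 := h2 h1
    rw [Metric.mem_closedBall, dist_eq_norm] at h3
    calc ‖zE P Q e‖ = ‖x + (zE P Q e - x)‖ := by rw [add_sub_cancel]
      _ ≤ ‖x‖ + ‖zE P Q e - x‖ := norm_add_le _ _
      _ ≤ R + Lam := by linarith
  choose τ0 hτ0 using tib_exists_thr hT
  set τ : (ι × Bool) × Bool → V := fun j => if j.2 then τ0 j.1 else -τ0 j.1 with hτdef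
  have hτn : ∀ e, τ (e, false) = -τ (e, true) := by
    intro e; simp [hτdef]
  have hτ : ∀ j, Thr P Q j.1 (τ j) := by
    rintro ⟨e, b⟩
    cases b
    · simpa [hτdef] using tib_thr_neg (hτ0 e)
    · simpa [hτdef] using hτ0 e
  have hcr : ∀ j, cr (τ j) (dE P Q j.1) ≠ 0 := fun j => (adj_exists hT j.1 (hτ j)).1
  have hadj : ∀ j : (ι × Bool) × Bool, ∃ x, x ∉ Sg P Q ∧
      Adj P Q j.1 (τ j) (Vis (Sg P Q) x) := fun j => (adj_exists hT j.1 (hτ j)).2
  choose xf hxf1 hxf2 using hadj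
  set J : Finset ((ι × Bool) × Bool) := E' ×ˢ Finset.univ with hJ
  set Wf : (ι × Bool) × Bool → Set V := fun j => Vis (Sg P Q) (xf j) with hWf
  set F2 : Finset (Set V) := Fn ∪ J.image Wf with hF2
  set cor : (ι × Bool) × Bool → ℝ :=
    fun j => vl (Cor C (tib_a P Q (τ j) j.1) (tib_b P Q (τ j) j.1)) with hcor
  set Xf : Set V → Finset V := fun W => X.filter (fun c => Vis (Sg P Q) c = W) with hXf
  set g : Set V → ℝ := fun W =>
    if W ∈ Fn then (((Xf W).card : ℝ) - 1) * beta C + vl C else 0 with hg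
  have hJE : ∀ j ∈ J, j.1 ∈ E' := fun j hj => (Finset.mem_product.1 hj).1
  have hF2face : ∀ W ∈ F2, ∃ x, x ∉ Sg P Q ∧ W = Vis (Sg P Q) x ∧ ‖x‖ ≤ R + 2 * Lam + 1 := by
    intro W hW
    rcases Finset.mem_union.1 hW with h | h
    · obtain ⟨⟨x, hx, hxW, hxR⟩, hWp⟩ := (hFn_mem W).1 h
      have hL : 0 ≤ Lam := by
        have := hT.bd x x (by simpa using hx)
        simpa using this
      exact ⟨x, hx, hxW, by linarith⟩
    · obtain ⟨j, hj, rfl⟩ := Finset.mem_image.1 h
      have hL : 0 ≤ Lam := by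
        have := hT.bd (xf j) (xf j) (by simpa using hxf1 j)
        simpa using this
      refine ⟨xf j, hxf1 j, rfl, ?_⟩
      have h1 := hzE j.1 (hJE j hj)
      have h2 : closure (Vis (Sg P Q) (xf j)) ⊆ Metric.closedBall (xf j) Lam :=
        closure_minimal (Vis_subset hT (xf j)) Metric.isClosed_closedBall
      have h3 := h2 (adj_closure (hxf2 j))
      rw [Metric.mem_closedBall, dist_eq_norm] at h3
      calc ‖xf j‖ = ‖zE P Q j.1 - (zE P Q j.1 - xf j)‖ := by rw [sub_sub_cancel]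
        _ ≤ ‖zE P Q j.1‖ + ‖zE P Q j.1 - xf j‖ := norm_sub_le _ _
        _ ≤ R + 2 * Lam + 1 := by linarith
  have hF2p : ∀ W ∈ F2, W ∉ Pr := by
    intro W hW hWp
    rcases Finset.mem_union.1 hW with h | h
    · exact ((hFn_mem W).1 h).2 hWp
    · obtain ⟨j, hj, rfl⟩ := Finset.mem_image.1 h
      exact (Finset.mem_sdiff.1 (hJE j hj)).2
        (hBE j.1 (τ j) (xf j) (hxf1 j) (hτ j) hWp (hxf2 j))
  have key : ∀ W ∈ F2, g W + ∑ j ∈ J.filter (fun j => Wf j = W), cor j ≤ vl W := by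
    intro W hW
    obtain ⟨x, hx, hxW, -⟩ := hF2face W hW
    have hs : ∀ j ∈ J.filter (fun j => Wf j = W), Thr P Q j.1 (τ j) ∧
        cr (τ j) (dE P Q j.1) ≠ 0 ∧ Adj P Q j.1 (τ j) (Vis (Sg P Q) x) := by
      intro j hj
      have h1 := (Finset.mem_filter.1 hj).2
      refine ⟨hτ j, hcr j, ?_⟩
      rw [← hxW, ← h1]
      exact hxf2 j
    by_cases hWF : W ∈ Fn
    · simp only [hg, if_pos hWF]
      have h1 := tib_face hC hT hx (hgood x hx) (Xf W)
        (by
          intro c hc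
          obtain ⟨hc1, hc2⟩ := Finset.mem_filter.1 hc
          exact ⟨by rw [hc2, hxW], hXS c hc1⟩)
        (by
          intro c hc c' hc' hne
          obtain ⟨hc1, hc2⟩ := Finset.mem_filter.1 (Finset.mem_coe.1 hc)
          have hsub : ∀ z ∈ (Xf W : Set V), z ∈ {c' | c' ∈ X ∧ c' ∈ Vis (Sg P Q) c} := by
            intro z hz
            obtain ⟨hz1, hz2⟩ := Finset.mem_filter.1 (Finset.mem_coe.1 hz)
            refine ⟨hz1, ?_⟩
            rw [hc2, ← hz2]
            exact self_mem_Vis (hxS z hz1)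
          obtain ⟨f, t, h0, h1, h2, h3⟩ := hTS c hc1 c (hsub c hc) c' (hsub c' hc') hne
          exact ⟨f, t, h0, h1, h2, fun z hz => h3 z (hsub z hz)⟩)
        (J.filter (fun j => Wf j = W)) τ hτn hs
      rw [← hxW] at h1
      exact h1
    · simp only [hg, if_neg hWF, zero_add]
      have h1 := tib_corners hC hT hx (hgood x hx) (J.filter (fun j => Wf j = W)) τ hτn hs
      rw [← hxW] at h1
      exact h1
  -- sum over all faces
  have hdisj : Disjoint F2 PF := by
    rw [Finset.disjoint_left]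
    intro W h1 h2
    exact hF2p W h1 (hPF W h2).1
  have hsum1 : ∑ W ∈ F2, vl W + ∑ W ∈ PF, vl W ≤
      vl (Metric.closedBall (0 : V) (R + 3 * Lam + 1)) := by
    rw [← Finset.sum_union hdisj]
    have h1 := sum_vl_le hT (F2 ∪ PF) (R + 2 * Lam + 1) (by
      intro W hW
      rcases Finset.mem_union.1 hW with h | h
      · exact hF2face W h
      · obtain ⟨-, x, hx, hxW, hxR⟩ := hPF W h
        have hL : 0 ≤ Lam := by
          have := hT.bd x x (by simpa using hx)
          simpa using this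
        exact ⟨x, hx, hxW, by linarith⟩)
    have h2 : R + 2 * Lam + 1 + Lam = R + 3 * Lam + 1 := by ring
    rw [h2] at h1
    exact h1
  have hsum2 : ∑ W ∈ F2, g W + ∑ j ∈ J, cor j ≤ ∑ W ∈ F2, vl W := by
    have h1 : ∑ W ∈ F2, ∑ j ∈ J.filter (fun j => Wf j = W), cor j = ∑ j ∈ J, cor j := by
      apply Finset.sum_fiberwise_of_maps_to
      intro j hj
      exact Finset.mem_union_right _ (Finset.mem_image_of_mem _ hj)
    rw [← h1, ← Finset.sum_add_distrib]
    exact Finset.sum_le_sum key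
  have hsum3 : ∑ W ∈ F2, g W = beta C * X.card - (beta C - vl C) * Fn.card := by
    have h1 : ∑ W ∈ F2, g W = ∑ W ∈ Fn, ((((Xf W).card : ℝ) - 1) * beta C + vl C) := by
      have h2 : ∑ W ∈ Fn, g W = ∑ W ∈ F2, g W := by
        apply Finset.sum_subset Finset.subset_union_left
        intro W _ hW
        simp only [hg, if_neg hW]
      rw [← h2]
      apply Finset.sum_congr rfl
      intro W hW
      simp only [hg, if_pos hW]
    have h3 : X.card = ∑ W ∈ Fn, (Xf W).card := by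
      apply Finset.card_eq_sum_card_fiberwise
      intro c hc
      rw [Finset.mem_coe] at hc ⊢
      exact (hFn_mem _).2 ⟨⟨c, hxS c hc, rfl, hXR c hc⟩, hXn c hc⟩
    rw [h1, Finset.sum_add_distrib, ← Finset.sum_mul, Finset.sum_sub_distrib, h3]
    push_cast
    simp only [Finset.sum_const, nsmul_eq_mul]
    ring
  have hsum4 : (beta C - vl C) / 2 * E'.card ≤ ∑ j ∈ J, cor j := by
    rw [hJ, Finset.sum_product]
    have h1 : ∀ e ∈ E', (beta C - vl C) / 2 ≤ ∑ b : Bool, cor (e, b) := by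
      intro e _
      rw [Fintype.sum_bool]
      simp only [hcor]
      rw [hτn e, tib_a_neg, tib_b_neg]
      exact Cor_pair_ge hC (tib_ind (hcr (e, true)))
    have h2 := Finset.sum_le_sum h1
    simp only [Finset.sum_const, nsmul_eq_mul] at h2
    linarith
  have hbv : 0 ≤ (beta C - vl C) / 2 := by linarith [vl_le_beta hC]
  have h5 := mul_le_mul_of_nonneg_left hE'card hbv
  nlinarith

end Pool.Agent.H.MP_929345_co.Pl
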