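import Pool.Agent.H.MP_929345_co.Pl.CtA
import Pool.Agent.H.MP_929345_co.Pl.CtC
import Pool.Agent.H.MP_929345_co.Pl.CtD
import Pool.Agent.H.MP_929345_co.Pl.CtE
import Pool.Agent.H.MP_929345_co.Pl.GaB
import Pool.Agent.H.MP_929345_co.Pl.GaD
import Pool.Agent.H.MP_929345_co.Pl.TiB

/-! D11: final count -/

set_option autoImplicit false

open MeasureTheory Set

namespace Pool.Agent.H.MP_929345_co.Pl

/-- The members which are not hit by the structure. -/
def ctf_U (C X S : Set V) : Set V := {c | c ∈ X ∧ ∀ w ∈ interior C, c + w ∉ S}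

lemma ctf_U_not {C X S : Set V} (hC : IsBody C) {c : V} (hc : c ∈ ctf_U C X S) : c ∉ S := by
  intro hcS
  have := hc.2 0 (zero_mem_interior hC)
  rw [add_zero] at this
  exact this hcS

section faces

variable {ι : Type*} {P Q : ι → V} {Lam : ℝ}

lemma ctf_closure_sub (hT : IsT P Q Lam) (x : V) :
    closure (Vis (Sg P Q) x) ⊆ Metric.closedBall x Lam :=
  closure_minimal (Vis_subset hT x) Metric.isClosed_closedBall

lemma ctf_mem_iff (hT : IsT P Q Lam) {x c : V} (hx : x ∉ Sg P Q) (hc : c ∉ Sg P Q) :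
    c ∈ Vis (Sg P Q) x ↔ Vis (Sg P Q) c = Vis (Sg P Q) x := by
  constructor
  · intro h; exact Vis_eq hT hx h
  · intro h; rw [← h]; exact self_mem_Vis hc

lemma ctf_vl_inter_le {A B : Set V} (hA : Bornology.IsBounded B) (h : A ⊆ B) : vl A ≤ vl B := by
  unfold vl
  exact ENNReal.toReal_mono hA.measure_lt_top.ne (measure_mono h)

lemma ctf_vl_nonneg (A : Set V) : 0 ≤ vl A := ENNReal.toReal_nonneg

lemma ctf_vl_ball (x : V) {r : ℝ} (hr : 0 ≤ r) : vl (Metric.closedBall x r) = (2 * r) ^ 2 := by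
  unfold vl
  rw [ctd_vol_closedBall x hr, ENNReal.toReal_ofReal (by positivity)]

end faces

section str

variable {I : Type} {C X : Set V} {P Q : I × Fin 3 → V} {y : I → V} {ry : I → ℝ} {poor : Set I}
  {K κ G : ℝ}

lemma ctf_KG (h : IsStr C X P Q y ry poor K κ G) : 1 ≤ K * G := by
  have h1 := h.hK
  have h2 := h.hG
  nlinarith

lemma ctf_fin (hC : IsBody C) (hX : IsPacking C X) (z : V) (r : ℝ) :
    (X ∩ Metric.closedBall z r).Finite := by
  obtain ⟨k, -, hk⟩ := card_packing hC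
  rcases lt_or_ge r 0 with hr | hr
  · rw [Metric.closedBall_eq_empty.2 hr, inter_empty]; exact finite_empty
  · exact (hk X hX z r hr).1

lemma ctf_fin_face (hC : IsBody C) (hX : IsPacking C X) (h : IsStr C X P Q y ry poor K κ G)
    (x : V) : (ctf_U C X (Sg P Q) ∩ Vis (Sg P Q) x).Finite := by
  apply (ctf_fin hC hX x (K * G)).subset
  rintro c ⟨hc1, hc2⟩
  exact ⟨hc1.1, Vis_subset h.hT x hc2⟩

lemma ctf_ts_face (h : IsStr C X P Q y ry poor K κ G) (x : V) :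
    TS C (ctf_U C X (Sg P Q) ∩ Vis (Sg P Q) x) := by
  apply TS.mono (h.ts x)
  rintro c ⟨hc1, hc2⟩
  refine ⟨hc1.1, ?_⟩
  have h1 := Vis_subset h.hT x hc2
  rw [Metric.mem_closedBall, dist_eq_norm] at h1
  have := ctf_KG h
  linarith

lemma ctf_mem_face (hC : IsBody C) (h : IsStr C X P Q y ry poor K κ G) {x c : V}
    (hx : x ∉ Sg P Q) (hc : c ∈ ctf_U C X (Sg P Q) ∩ Vis (Sg P Q) x) :
    ∀ w ∈ C, c + w ∈ closure (Vis (Sg P Q) x) := by
  have h1 := tib_mem_face (P := P) (Q := Q) hC (x := c) hc.1.2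
  rwa [Vis_eq h.hT hx hc.2] at h1

/-- Gain of a face. -/
lemma ctf_gain (hC : IsBody C) {κ3 : ℝ}
    (hgain : ∀ (W : Set V) (D : ℝ), IsCompact W →
    Convex ℝ W → 1 ≤ D → (∀ x ∈ W, ∀ y ∈ W, ‖x - y‖ ≤ D) → ∀ X : Finset V,
    IsPacking C (X : Set V) → TS C (X : Set V) → (∀ x ∈ X, ∀ c ∈ C, x + c ∈ W) →
    ∀ (y : V) (R : ℝ), 0 ≤ R →
    vl (W ∩ Metric.closedBall y R) +
        beta C * ({x | x ∈ X ∧ x ∉ Metric.closedBall y R}.ncard : ℝ) ≤ vl W + κ3 * D)
    (hX : IsPacking C X) (h : IsStr C X P Q y ry poor K κ G)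
    {x : V} (hx : x ∉ Sg P Q) (z : V) {r : ℝ} (hr : 0 ≤ r) :
    vl (Vis (Sg P Q) x ∩ Metric.closedBall z r) +
      beta C * (((ctf_U C X (Sg P Q) ∩ Vis (Sg P Q) x).ncard : ℝ) -
        ((ctf_U C X (Sg P Q) ∩ Vis (Sg P Q) x ∩ Metric.closedBall z r).ncard : ℝ)) ≤
      vl (Vis (Sg P Q) x) + κ3 * (2 * (K * G)) := by
  have hfin := ctf_fin_face hC hX h x
  have hKG := ctf_KG h
  have g := hgain (closure (Vis (Sg P Q) x)) (2 * (K * G)) (tib_compact_closure h.hT x)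
    (Vis_convex h.hT hx).closure (by linarith)
    (by
      intro p hp q hq
      have h1 := ctf_closure_sub h.hT x hp
      have h2 := ctf_closure_sub h.hT x hq
      rw [Metric.mem_closedBall, dist_eq_norm] at h1 h2
      calc ‖p - q‖ = ‖(p - x) - (q - x)‖ := by congr 1; abel
        _ ≤ ‖p - x‖ + ‖q - x‖ := norm_sub_le _ _
        _ ≤ 2 * (K * G) := by linarith)
    hfin.toFinset
    (by
      intro a ha b hb hab
      rw [Set.Finite.coe_toFinset] at ha hb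
      exact hX a ha.1.1 b hb.1.1 hab)
    (by
      rw [Set.Finite.coe_toFinset]
      exact ctf_ts_face h x)
    (by
      intro c hc
      rw [Set.Finite.mem_toFinset] at hc
      exact ctf_mem_face hC h hx hc) z r hr
  have e1 : {x' | x' ∈ hfin.toFinset ∧ x' ∉ Metric.closedBall z r} =
      (ctf_U C X (Sg P Q) ∩ Vis (Sg P Q) x) \ Metric.closedBall z r := by
    ext a
    simp only [mem_ofPred_eq, Set.Finite.mem_toFinset, mem_sdiff]
  rw [e1, vl_closure h.hT hx] at g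
  have e2 := Set.ncard_inter_add_ncard_sdiff_eq_ncard
    (ctf_U C X (Sg P Q) ∩ Vis (Sg P Q) x) (Metric.closedBall z r) hfin
  have e3 : ((ctf_U C X (Sg P Q) ∩ Vis (Sg P Q) x).ncard : ℝ) -
        ((ctf_U C X (Sg P Q) ∩ Vis (Sg P Q) x ∩ Metric.closedBall z r).ncard : ℝ) =
        (((ctf_U C X (Sg P Q) ∩ Vis (Sg P Q) x) \ Metric.closedBall z r).ncard : ℝ) := by
    rw [← e2]; push_cast; ring
  rw [e3]
  have e4 : vl (Vis (Sg P Q) x ∩ Metric.closedBall z r) ≤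
      vl (closure (Vis (Sg P Q) x) ∩ Metric.closedBall z r) := by
    apply ctf_vl_inter_le
    · exact Metric.isBounded_closedBall.subset inter_subset_right
    · exact inter_subset_inter_left _ subset_closure
  linarith

/-- Count in a face. -/
lemma ctf_count (hC : IsBody C) (hX : IsPacking C X) (h : IsStr C X P Q y ry poor K κ G)
    {x : V} (hx : x ∉ Sg P Q) :
    beta C * ((ctf_U C X (Sg P Q) ∩ Vis (Sg P Q) x).ncard : ℝ) ≤
      vl (Vis (Sg P Q) x) + beta C := by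
  have hfin := ctf_fin_face hC hX h x
  have g := count_le (W := closure (Vis (Sg P Q) x)) hC (tib_compact_closure h.hT x)
    (Vis_convex h.hT hx).closure hfin.toFinset
    (by
      rw [Set.Finite.coe_toFinset]
      exact ctf_ts_face h x)
    (by
      intro c hc
      rw [Set.Finite.mem_toFinset] at hc
      exact ctf_mem_face hC h hx hc)
  rw [vl_closure h.hT hx] at g
  rw [Set.ncard_eq_toFinset_card _ hfin]
  exact g

/-- Sum of the numbers of members of the faces in a ball. -/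
lemma ctf_ball [Countable I] (hC : IsBody C) (hX : IsPacking C X)
    (h : IsStr C X P Q y ry poor K κ G)
    (z : V) (r : ℝ) (F : Finset (Set V)) (hF : ∀ W ∈ F, ∃ x, x ∉ Sg P Q ∧ W = Vis (Sg P Q) x) :
    ∑ W ∈ F, ((ctf_U C X (Sg P Q) ∩ W ∩ Metric.closedBall z r).ncard : ℝ) ≤
      (X ∩ Metric.closedBall z r).ncard := by
  set Y : Set V := {c | c ∈ ctf_U C X (Sg P Q) ∧ c ∈ Metric.closedBall z r ∧
    Vis (Sg P Q) c ∈ F} with hY
  have hYsub : Y ⊆ X ∩ Metric.closedBall z r := by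
    rintro c ⟨h1, h2, -⟩
    exact ⟨h1.1, h2⟩
  have hYfin : Y.Finite := (ctf_fin hC hX z r).subset hYsub
  have h1 := sum_card_ball h.hT Y hYfin (fun c hc => ctf_U_not hC hc.1) F hF
    (fun c hc => hc.2.2)
  have h2 : ∑ W ∈ F, ((ctf_U C X (Sg P Q) ∩ W ∩ Metric.closedBall z r).ncard : ℝ) =
      ∑ W ∈ F, ((Y ∩ W).ncard : ℝ) := by
    apply Finset.sum_congr rfl
    intro W hW
    congr 2
    obtain ⟨x, hx, rfl⟩ := hF W hW
    ext c
    constructor
    · rintro ⟨⟨hc1, hc2⟩, hc3⟩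
      refine ⟨⟨hc1, hc3, ?_⟩, hc2⟩
      rw [Vis_eq h.hT hx hc2]
      exact hW
    · rintro ⟨⟨hc1, hc3, -⟩, hc2⟩
      exact ⟨⟨hc1, hc2⟩, hc3⟩
  rw [h2, h1]
  exact_mod_cast Set.ncard_le_ncard hYsub (ctf_fin hC hX z r)

/-- Core of the count, for one structure and one radius. -/
lemma ctf_core [Countable I] (hC : IsBody C) {κ3 : ℝ} (hκ3 : beta C ≤ κ3)
    (hgain : ∀ (W : Set V) (D : ℝ), IsCompact W →
    Convex ℝ W → 1 ≤ D → (∀ x ∈ W, ∀ y ∈ W, ‖x - y‖ ≤ D) → ∀ X : Finset V,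
    IsPacking C (X : Set V) → TS C (X : Set V) → (∀ x ∈ X, ∀ c ∈ C, x + c ∈ W) →
    ∀ (y : V) (R : ℝ), 0 ≤ R →
    vl (W ∩ Metric.closedBall y R) +
        beta C * ({x | x ∈ X ∧ x ∉ Metric.closedBall y R}.ncard : ℝ) ≤ vl W + κ3 * D)
    (hX : IsPacking C X) (h : IsStr C X P Q y ry poor K κ G) {m : ℕ} (hm : 1 ≤ m)
    (hpc : ∀ i : I,
      {e : (I × Fin 3) × Bool | ‖zE P Q e - y i‖ ≤ 2 * K * G + 1}.Finite ∧
      {e : (I × Fin 3) × Bool | ‖zE P Q e - y i‖ ≤ 2 * K * G + 1}.ncard ≤ m ∧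
      {W : Set V | ∃ x, x ∉ Sg P Q ∧ W = Vis (Sg P Q) x ∧ ‖x - y i‖ ≤ ry i}.Finite ∧
      {W : Set V | ∃ x, x ∉ Sg P Q ∧ W = Vis (Sg P Q) x ∧ ‖x - y i‖ ≤ ry i}.ncard ≤ m ∧
      ∀ x, x ∉ Sg P Q → {j | (Vis (Sg P Q) x ∩ Metric.closedBall (y j) (ry j)).Nonempty}.Finite ∧
        {j | (Vis (Sg P Q) x ∩ Metric.closedBall (y j) (ry j)).Nonempty}.ncard ≤ m)
    {κ1 κ2 R n : ℝ} (hR : 1 ≤ R)
    (hIfin : {i | i ∈ poor ∧ ‖y i‖ ≤ R + 2 * K * G}.Finite)
    (hn : n = {i | i ∈ poor ∧ ‖y i‖ ≤ R + 2 * K * G}.ncard)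
    (hhf : {x | x ∈ X ∧ ‖x‖ ≤ R ∧ ∃ w ∈ interior C, x + w ∈ Sg P Q}.Finite)
    (hhn : ({x | x ∈ X ∧ ‖x‖ ≤ R ∧ ∃ w ∈ interior C, x + w ∈ Sg P Q}.ncard : ℝ) ≤ κ1 * G * n)
    (haf : {i | R - 2 * K * G ≤ ‖y i‖ ∧ ‖y i‖ ≤ R + 2 * K * G}.Finite)
    (han : ({i | R - 2 * K * G ≤ ‖y i‖ ∧ ‖y i‖ ≤ R + 2 * K * G}.ncard : ℝ) ≤ κ2 * R) :
    beta C * ((X ∩ Metric.closedBall 0 R).ncard : ℝ) ≤ (2 * (R + 3 * (K * G) + 1)) ^ 2 +
      (beta C - vl C) / 2 * (m * n) + beta C * (κ1 * G * n) + κ3 * (2 * (K * G)) * (m * n) -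
      (1 / m) * (3 * (κ * G) ^ 2 * n - (3 * (κ * G) ^ 2 + (K * G) ^ 2) * (κ2 * R)) := by
  classical
  set S : Set V := Sg P Q with hS
  set U : Set V := ctf_U C X S with hU
  have hKG := ctf_KG h
  have hβ : 0 ≤ beta C := (vl_pos hC).le.trans (vl_le_beta hC)
  have hT := h.hT
  have hmR : (1 : ℝ) ≤ m := by exact_mod_cast hm
  -- poor sites
  set IP : Finset I := hIfin.toFinset with hIP
  have hIPmem : ∀ i, i ∈ IP ↔ i ∈ poor ∧ ‖y i‖ ≤ R + 2 * K * G := by
    intro i; rw [hIP, Set.Finite.mem_toFinset]; rfl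
  have hIPcard : (IP.card : ℝ) = n := by
    rw [hn, Set.ncard_eq_toFinset_card _ hIfin]
  -- poor faces
  set Pr : Set (Set V) := {W | ∃ x, x ∉ S ∧ W = Vis S x ∧ ‖x‖ ≤ R ∧
    ∃ i ∈ poor, (W ∩ Metric.closedBall (y i) (ry i)).Nonempty} with hPr
  have hPrfin : Pr.Finite := by
    apply (finite_faces hT R).subset
    rintro W ⟨x, hx, hW, hxR, -⟩
    exact ⟨x, hx, hW, hxR⟩
  set PF : Finset (Set V) := hPrfin.toFinset with hPF
  have hPFmem : ∀ W, W ∈ PF ↔ ∃ x, x ∉ S ∧ W = Vis S x ∧ ‖x‖ ≤ R ∧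
      ∃ i ∈ poor, (W ∩ Metric.closedBall (y i) (ry i)).Nonempty := by
    intro W; rw [hPF, Set.Finite.mem_toFinset]; rfl
  have hPFface : ∀ W ∈ PF, ∃ x, x ∉ S ∧ W = Vis S x := by
    intro W hW
    obtain ⟨x, hx, hW, -⟩ := (hPFmem W).1 hW
    exact ⟨x, hx, hW⟩
  -- position of a site whose ball meets a face
  have hpos : ∀ x, x ∉ S → ‖x‖ ≤ R → ∀ i, i ∈ poor →
      (Vis S x ∩ Metric.closedBall (y i) (ry i)).Nonempty → i ∈ IP := by
    intro x _ hxR i hi hne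
    obtain ⟨p, hp1, hp2⟩ := hne
    have h1 := Vis_subset hT x hp1
    rw [Metric.mem_closedBall, dist_eq_norm] at h1 hp2
    have h2 := (h.hry i).2
    refine (hIPmem i).2 ⟨hi, ?_⟩
    calc ‖y i‖ = ‖x + (p - x) - (p - y i)‖ := by congr 1; abel
      _ ≤ ‖x + (p - x)‖ + ‖p - y i‖ := norm_sub_le _ _
      _ ≤ ‖x‖ + ‖p - x‖ + ‖p - y i‖ := by linarith [norm_add_le x (p - x)]
      _ ≤ R + 2 * K * G := by linarith
  -- poor sites met by a face
  set Sf : Set V → Finset I := fun W =>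
    IP.filter (fun i => (W ∩ Metric.closedBall (y i) (ry i)).Nonempty) with hSf
  have hSfcard : ∀ W ∈ PF, (Sf W).card ≤ m := by
    intro W hW
    obtain ⟨x, hx, rfl⟩ := hPFface W hW
    have hne : Nonempty I := by
      obtain ⟨_, _, _, _, i, _⟩ := (hPFmem _).1 hW
      exact ⟨i⟩
    obtain ⟨hf1, hf2⟩ := (hpc (Classical.choice hne)).2.2.2.2 x hx
    refine le_trans ?_ hf2
    rw [Set.ncard_eq_toFinset_card _ hf1]
    apply Finset.card_le_card
    intro i hi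
    rw [Set.Finite.mem_toFinset]
    exact (Finset.mem_filter.1 hi).2
  -- number of poor faces
  have hPFcard : (PF.card : ℝ) ≤ m * n := by
    have h1 : PF.card ≤ IP.card * m := by
      have h2 : PF ⊆ IP.biUnion (fun i => (hpc i).2.2.1.toFinset) := by
        intro W hW
        obtain ⟨x, hx, hWx, hxR, i, hi, p, hp1, hp2⟩ := (hPFmem W).1 hW
        rw [Finset.mem_biUnion]
        refine ⟨i, hpos x hx hxR i hi ⟨p, hWx ▸ hp1, hp2⟩, ?_⟩
        rw [Set.Finite.mem_toFinset]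
        have hpS : p ∉ S := by
          intro hpS
          rw [hWx] at hp1
          exact Set.disjoint_left.1 Vis_disjoint hp1 hpS
        refine ⟨p, hpS, ?_, ?_⟩
        · rw [hWx]
          rw [hWx] at hp1
          exact (Vis_eq hT hx hp1).symm
        · rw [Metric.mem_closedBall, dist_eq_norm] at hp2
          exact hp2
      refine (Finset.card_le_card h2).trans (Finset.card_biUnion_le_card_mul _ _ _ ?_)
      intro i _
      rw [← Set.ncard_eq_toFinset_card _ (hpc i).2.2.1]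
      exact (hpc i).2.2.2.1
    have h3 : (PF.card : ℝ) ≤ ((IP.card * m : ℕ) : ℝ) := by exact_mod_cast h1
    rw [Nat.cast_mul, hIPcard] at h3
    linarith
  -- ends at poor faces
  set BE : Finset ((I × Fin 3) × Bool) := IP.biUnion (fun i => (hpc i).1.toFinset) with hBEdef
  have hBEcard : (BE.card : ℝ) ≤ m * n := by
    have h1 : BE.card ≤ IP.card * m := by
      refine Finset.card_biUnion_le_card_mul _ _ _ ?_
      intro i _
      rw [← Set.ncard_eq_toFinset_card _ (hpc i).1]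
      exact (hpc i).2.1
    have h3 : (BE.card : ℝ) ≤ ((IP.card * m : ℕ) : ℝ) := by exact_mod_cast h1
    rw [Nat.cast_mul, hIPcard] at h3
    linarith
  have hBE : ∀ e τ x, x ∉ S → Thr P Q e τ → Vis S x ∈ Pr → Adj P Q e τ (Vis S x) →
      e ∈ BE := by
    intro e τ x hx _ hW hadj
    obtain ⟨x0, hx0, hWx, hxR, i, hi, p, hp1, hp2⟩ := hW
    rw [hBEdef, Finset.mem_biUnion]
    refine ⟨i, hpos x0 hx0 hxR i hi ⟨p, hWx ▸ hp1, hp2⟩, ?_⟩
    rw [Set.Finite.mem_toFinset]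
    have h1 : zE P Q e ∈ closure (Vis S p) := by
      rw [Vis_eq hT hx hp1]
      exact adj_closure hadj
    have h2 := ctf_closure_sub hT p h1
    rw [Metric.mem_closedBall, dist_eq_norm] at h2 hp2
    have h3 := (h.hry i).2
    rw [mem_ofPred_eq]
    calc ‖zE P Q e - y i‖ = ‖(zE P Q e - p) + (p - y i)‖ := by congr 1; abel
      _ ≤ ‖zE P Q e - p‖ + ‖p - y i‖ := norm_add_le _ _
      _ ≤ 2 * K * G + 1 := by linarith
  -- members in nonpoor faces
  have hX'fin : {c | c ∈ U ∧ ‖c‖ ≤ R ∧ Vis S c ∉ Pr}.Finite := by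
    apply (ctf_fin hC hX 0 R).subset
    rintro c ⟨hc1, hc2, -⟩
    exact ⟨hc1.1, by rw [Metric.mem_closedBall, dist_zero_right]; exact hc2⟩
  set X' : Finset V := hX'fin.toFinset with hX'
  have hX'mem : ∀ c, c ∈ X' ↔ c ∈ U ∧ ‖c‖ ≤ R ∧ Vis S c ∉ Pr := by
    intro c; rw [hX', Set.Finite.mem_toFinset]; rfl
  have hTi := T_ineq hC hT h.good R X' (fun c hc => ((hX'mem c).1 hc).2.1)
    (fun c hc => ((hX'mem c).1 hc).1.2)
    (by
      intro c _
      apply TS.mono (ctf_ts_face h c)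
      rintro c' ⟨hc1, hc2⟩
      exact ⟨((hX'mem c').1 hc1).1, hc2⟩)
    Pr BE hBE PF
    (by
      intro W hW
      obtain ⟨x, hx, hWx, hxR, -⟩ := (hPFmem W).1 hW
      exact ⟨hPrfin.mem_toFinset.1 hW, x, hx, hWx, hxR⟩)
    (fun c hc => ((hX'mem c).1 hc).2.2)
  -- all members
  have hUfin : (U ∩ Metric.closedBall 0 (R + K * G)).Finite := by
    apply (ctf_fin hC hX 0 (R + K * G)).subset
    rintro c ⟨hc1, hc2⟩
    exact ⟨hc1.1, hc2⟩
  set Uf : Finset V := hUfin.toFinset with hUf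
  have hfil : ∀ W ∈ PF, ((Uf.filter (fun c => c ∈ W)).card : ℝ) = ((U ∩ W).ncard : ℝ) := by
    intro W hW
    obtain ⟨x, hx, hWx, hxR, -⟩ := (hPFmem W).1 hW
    have h1 : U ∩ W = ((Uf.filter (fun c => c ∈ W) : Finset V) : Set V) := by
      ext c
      rw [Finset.mem_coe, Finset.mem_filter, hUf, Set.Finite.mem_toFinset]
      constructor
      · rintro ⟨hc1, hc2⟩
        refine ⟨⟨hc1, ?_⟩, hc2⟩
        rw [hWx] at hc2
        have h2 := Vis_subset hT x hc2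
        rw [Metric.mem_closedBall, dist_eq_norm] at h2
        rw [Metric.mem_closedBall, dist_zero_right]
        calc ‖c‖ = ‖x + (c - x)‖ := by congr 1; abel
          _ ≤ ‖x‖ + ‖c - x‖ := norm_add_le _ _
          _ ≤ R + K * G := by linarith
      · rintro ⟨⟨hc1, -⟩, hc2⟩
        exact ⟨hc1, hc2⟩
    rw [h1, Set.ncard_coe_finset]
  have hall : ((X ∩ Metric.closedBall 0 R).ncard : ℝ) ≤ X'.card + κ1 * G * n +
      ∑ W ∈ PF, ((U ∩ W).ncard : ℝ) := by
    have h1 : X ∩ Metric.closedBall 0 R ⊆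
        ((X' ∪ hhf.toFinset ∪ PF.biUnion (fun W => Uf.filter (fun c => c ∈ W)) : Finset V) :
          Set V) := by
      rintro c ⟨hcX, hcR⟩
      rw [Metric.mem_closedBall, dist_zero_right] at hcR
      rw [Finset.mem_coe, Finset.mem_union, Finset.mem_union]
      by_cases hhit : ∃ w ∈ interior C, c + w ∈ Sg P Q
      · left; right
        rw [Set.Finite.mem_toFinset]
        exact ⟨hcX, hcR, hhit⟩
      · have hcU : c ∈ U := by
          refine ⟨hcX, ?_⟩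
          intro w hw hcw
          exact hhit ⟨w, hw, hcw⟩
        by_cases hcP : Vis S c ∈ Pr
        · right
          rw [Finset.mem_biUnion]
          refine ⟨Vis S c, by rw [hPF, Set.Finite.mem_toFinset]; exact hcP, ?_⟩
          rw [Finset.mem_filter, hUf, Set.Finite.mem_toFinset]
          refine ⟨⟨hcU, ?_⟩, self_mem_Vis (ctf_U_not hC hcU)⟩
          rw [Metric.mem_closedBall, dist_zero_right]
          linarith
        · left; left
          exact (hX'mem c).2 ⟨hcU, hcR, hcP⟩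
    have h2 := Set.ncard_le_ncard h1 (Finset.finite_toSet _)
    rw [Set.ncard_coe_finset] at h2
    have h3 : (X' ∪ hhf.toFinset ∪ PF.biUnion (fun W => Uf.filter (fun c => c ∈ W))).card ≤
        X'.card + hhf.toFinset.card + ∑ W ∈ PF, (Uf.filter (fun c => c ∈ W)).card := by
      refine (Finset.card_union_le _ _).trans ?_
      exact Nat.add_le_add (Finset.card_union_le _ _) Finset.card_biUnion_le
    have h4 : ((X ∩ Metric.closedBall 0 R).ncard : ℝ) ≤
        ((X'.card + hhf.toFinset.card + ∑ W ∈ PF, (Uf.filter (fun c => c ∈ W)).card : ℕ) : ℝ) := by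
      exact_mod_cast h2.trans h3
    push_cast at h4
    rw [Finset.sum_congr rfl hfil] at h4
    rw [Set.ncard_eq_toFinset_card _ hhf] at hhn
    linarith
  -- the gains
  set g : Set V → I → ℝ := fun W i => vl (W ∩ Metric.closedBall (y i) (ry i)) -
    beta C * ((U ∩ W ∩ Metric.closedBall (y i) (ry i)).ncard : ℝ) with hg
  have hry0 : ∀ i, 0 ≤ ry i := by
    intro i
    have h1 := (h.hry i).1
    have h2 : 0 < κ * G := mul_pos h.hκ (by linarith [h.hG])
    linarith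
  have hgW : ∀ W ∈ PF, ∑ i ∈ Sf W, g W i ≤
      m * (vl W + κ3 * (2 * (K * G)) - beta C * ((U ∩ W).ncard : ℝ)) := by
    intro W hW
    obtain ⟨x, hx, rfl⟩ := hPFface W hW
    apply max_gain (Sf (Vis S x)) (g (Vis S x)) m hm (hSfcard _ hW)
    · have h1 := ctf_count hC hX h hx
      have h2 : beta C ≤ κ3 * (2 * (K * G)) := by nlinarith
      linarith
    · intro i _
      have h1 := ctf_gain hC hgain hX h hx (y i) (hry0 i)
      simp only [hg]
      linarith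
  have hsw : ∑ W ∈ PF, ∑ i ∈ Sf W, g W i =
      ∑ i ∈ IP, ∑ W ∈ PF.filter (fun W => (W ∩ Metric.closedBall (y i) (ry i)).Nonempty),
        g W i := by
    apply Finset.sum_comm'
    intro W i
    simp only [hSf, Finset.mem_filter]
    tauto
  have hgi : ∀ i ∈ IP, (if ‖y i‖ < R - 2 * K * G then 3 * (κ * G) ^ 2 else -(K * G) ^ 2) ≤
      ∑ W ∈ PF.filter (fun W => (W ∩ Metric.closedBall (y i) (ry i)).Nonempty), g W i := by
    intro i hi
    set F := PF.filter (fun W => (W ∩ Metric.closedBall (y i) (ry i)).Nonempty) with hF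
    have hFf : ∀ W ∈ F, ∃ x, x ∉ Sg P Q ∧ W = Vis (Sg P Q) x := fun W hW =>
      hPFface W (Finset.mem_filter.1 hW).1
    have hfew := h.few i ((hIPmem i).1 hi).1
    have hvb : vl (Metric.closedBall (y i) (ry i)) = (2 * ry i) ^ 2 := ctf_vl_ball _ (hry0 i)
    have h1 := ctf_ball hC hX h (y i) (ry i) F hFf
    have h2 : ∑ W ∈ F, g W i = ∑ W ∈ F, vl (W ∩ Metric.closedBall (y i) (ry i)) -
        beta C * ∑ W ∈ F, ((U ∩ W ∩ Metric.closedBall (y i) (ry i)).ncard : ℝ) := by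
      rw [Finset.mul_sum, ← Finset.sum_sub_distrib]
    have h3 : beta C * ∑ W ∈ F, ((U ∩ W ∩ Metric.closedBall (y i) (ry i)).ncard : ℝ) ≤
        (ry i) ^ 2 := by
      have h4 := mul_le_mul_of_nonneg_left h1 hβ
      rw [hvb] at hfew
      refine h4.trans (hfew.trans ?_)
      nlinarith
    have hr1 := (h.hry i).1
    have hr2 := (h.hry i).2
    have hκG : 0 < κ * G := mul_pos h.hκ (by linarith [h.hG])
    rw [h2]
    split_ifs with hin
    · have h5 := sum_vl_ball hT (y i) (ry i) F hFf (by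
        intro x hx hxy
        rw [hF, Finset.mem_filter, hPFmem]
        have hxR : ‖x‖ ≤ R := by
          calc ‖x‖ = ‖y i + (x - y i)‖ := by congr 1; abel
            _ ≤ ‖y i‖ + ‖x - y i‖ := norm_add_le _ _
            _ ≤ R := by nlinarith
        have hne : (Vis (Sg P Q) x ∩ Metric.closedBall (y i) (ry i)).Nonempty := by
          refine ⟨x, self_mem_Vis hx, ?_⟩
          rw [Metric.mem_closedBall, dist_eq_norm]; exact hxy
        exact ⟨⟨x, hx, rfl, hxR, i, ((hIPmem i).1 hi).1, hne⟩, hne⟩)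
      rw [h5, hvb]
      have h6 : (κ * G) ^ 2 ≤ (ry i) ^ 2 := by
        apply pow_le_pow_left₀ hκG.le hr1
      nlinarith
    · have h5 : 0 ≤ ∑ W ∈ F, vl (W ∩ Metric.closedBall (y i) (ry i)) :=
        Finset.sum_nonneg (fun W _ => ctf_vl_nonneg _)
      have h6 : (ry i) ^ 2 ≤ (K * G) ^ 2 := by
        apply pow_le_pow_left₀ (hry0 i) hr2
      linarith
  have hlow : 3 * (κ * G) ^ 2 * n - (3 * (κ * G) ^ 2 + (K * G) ^ 2) * (κ2 * R) ≤
      ∑ W ∈ PF, ∑ i ∈ Sf W, g W i := by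
    rw [hsw]
    refine le_trans ?_ (Finset.sum_le_sum hgi)
    rw [Finset.sum_ite, Finset.sum_const, Finset.sum_const, nsmul_eq_mul, nsmul_eq_mul]
    have h1 : ((IP.filter (fun i => ‖y i‖ < R - 2 * K * G)).card : ℝ) +
        ((IP.filter (fun i => ¬ ‖y i‖ < R - 2 * K * G)).card : ℝ) = n := by
      rw [← hIPcard]
      exact_mod_cast Finset.card_filter_add_card_filter_not (s := IP)
        (fun i => ‖y i‖ < R - 2 * K * G)
    have h2 : ((IP.filter (fun i => ¬ ‖y i‖ < R - 2 * K * G)).card : ℝ) ≤ κ2 * R := by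
      refine le_trans ?_ han
      rw [Set.ncard_eq_toFinset_card _ haf]
      have h3 : (IP.filter (fun i => ¬ ‖y i‖ < R - 2 * K * G)) ⊆ haf.toFinset := by
        intro i hi
        rw [Set.Finite.mem_toFinset]
        obtain ⟨hi1, hi2⟩ := Finset.mem_filter.1 hi
        exact ⟨not_lt.1 hi2, ((hIPmem i).1 hi1).2⟩
      exact_mod_cast Finset.card_le_card h3
    set a := ((IP.filter (fun i => ‖y i‖ < R - 2 * K * G)).card : ℝ)
    set b := ((IP.filter (fun i => ¬ ‖y i‖ < R - 2 * K * G)).card : ℝ)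
    have h4 : 0 ≤ 3 * (κ * G) ^ 2 + (K * G) ^ 2 := by positivity
    have h5 := mul_le_mul_of_nonneg_left h2 h4
    have h6 : a = n - b := by linarith
    rw [h6]
    nlinarith
  have hup : ∑ W ∈ PF, ∑ i ∈ Sf W, g W i ≤
      m * (∑ W ∈ PF, vl W + κ3 * (2 * (K * G)) * (m * n) -
        beta C * ∑ W ∈ PF, ((U ∩ W).ncard : ℝ)) := by
    refine (Finset.sum_le_sum hgW).trans ?_
    rw [← Finset.mul_sum]
    apply mul_le_mul_of_nonneg_left _ (by linarith)
    rw [Finset.sum_sub_distrib, Finset.sum_add_distrib, Finset.sum_const, nsmul_eq_mul,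
      ← Finset.mul_sum]
    have h1 : 0 ≤ κ3 * (2 * (K * G)) := by
      have : 0 ≤ κ3 := hβ.trans hκ3
      positivity
    nlinarith
  -- conclusion
  have hfin1 : (1 / (m : ℝ)) * (3 * (κ * G) ^ 2 * n -
      (3 * (κ * G) ^ 2 + (K * G) ^ 2) * (κ2 * R)) ≤
      ∑ W ∈ PF, vl W + κ3 * (2 * (K * G)) * (m * n) -
        beta C * ∑ W ∈ PF, ((U ∩ W).ncard : ℝ) := by
    rw [one_div, inv_mul_le_iff₀ (by linarith)]
    exact hlow.trans hup
  have hvb : vl (Metric.closedBall (0 : V) (R + 3 * (K * G) + 1)) =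
      (2 * (R + 3 * (K * G) + 1)) ^ 2 := ctf_vl_ball _ (by linarith)
  rw [hvb] at hTi
  have hbv : 0 ≤ (beta C - vl C) / 2 := by linarith [vl_le_beta hC]
  have h8 := mul_le_mul_of_nonneg_left hBEcard hbv
  have h9 := mul_le_mul_of_nonneg_left hall hβ
  have h10 : beta C * ((X'.card : ℝ) + κ1 * G * n + ∑ W ∈ PF, ((U ∩ W).ncard : ℝ)) =
      beta C * X'.card + beta C * (κ1 * G * n) + beta C * ∑ W ∈ PF, ((U ∩ W).ncard : ℝ) := by
    ring
  rw [h10] at h9
  linarith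

end str

/-- Job D11.  Final count. -/
theorem count_bound {C : Set V} (hC : IsBody C) : ∃ R0 K' : ℝ, ∀ X : Set V, IsPacking C X →
    (∀ z, TS C {x | x ∈ X ∧ ‖x - z‖ ≤ R0}) → ∀ R : ℝ, 1 ≤ R →
      beta C * (X ∩ Metric.closedBall 0 R).ncard ≤ 4 * R ^ 2 + K' * R := by
  obtain ⟨K, κ, G0, hK, hκ, hG0, hstr⟩ := exists_str hC
  obtain ⟨κ1, hκ1, G1, hhit⟩ := IsStr.hit hC hK hκ
  obtain ⟨κ2, hκ2, hann⟩ := IsStr.annulus (K := K) (κ := κ) hK hκ
  obtain ⟨m, hm, hpc⟩ := IsStr.poor_card (K := K) (κ := κ) hK hκ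
  obtain ⟨κ30, hκ30, hgain0⟩ := gain hC
  have hβ : 0 ≤ beta C := (vl_pos hC).le.trans (vl_le_beta hC)
  have hbv : 0 ≤ (beta C - vl C) / 2 := by linarith [vl_le_beta hC]
  have hmR : (1 : ℝ) ≤ m := by exact_mod_cast hm
  set κ3 : ℝ := max κ30 (beta C) with hκ3
  have hgain : ∀ (W : Set V) (D : ℝ), IsCompact W →
      Convex ℝ W → 1 ≤ D → (∀ x ∈ W, ∀ y ∈ W, ‖x - y‖ ≤ D) → ∀ X : Finset V,
      IsPacking C (X : Set V) → TS C (X : Set V) → (∀ x ∈ X, ∀ c ∈ C, x + c ∈ W) →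
      ∀ (y : V) (R : ℝ), 0 ≤ R →
      vl (W ∩ Metric.closedBall y R) +
        beta C * ({x | x ∈ X ∧ x ∉ Metric.closedBall y R}.ncard : ℝ) ≤ vl W + κ3 * D := by
    intro W D h1 h2 h3 h4 X h5 h6 h7 y R h8
    have h9 := hgain0 W D h1 h2 h3 h4 X h5 h6 h7 y R h8
    have h10 : κ30 * D ≤ κ3 * D := mul_le_mul_of_nonneg_right (le_max_left _ _) (by linarith)
    linarith
  have hκ30' : 0 ≤ κ3 := hβ.trans (le_max_right _ _)
  set c0 : ℝ := (beta C - vl C) / 2 * m with hc0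
  set c1 : ℝ := beta C * κ1 + 2 * κ3 * K * m with hc1
  set c2 : ℝ := 3 * κ ^ 2 / m with hc2
  have hc0' : 0 ≤ c0 := by positivity
  have hc1' : 0 ≤ c1 := by positivity
  have hc2' : 0 < c2 := by positivity
  set G : ℝ := max (max G0 G1) (max 1 ((c0 + c1) / c2)) with hG
  have hGG0 : G0 ≤ G := (le_max_left _ _).trans (le_max_left _ _)
  have hGG1 : G1 ≤ G := (le_max_right _ _).trans (le_max_left _ _)
  have hG1 : 1 ≤ G := (le_max_left _ _).trans (le_max_right _ _)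
  have hG2 : (c0 + c1) / c2 ≤ G := (le_max_right _ _).trans (le_max_right _ _)
  have hcoef : c0 + c1 * G - c2 * G ^ 2 ≤ 0 := by
    rw [div_le_iff₀ hc2'] at hG2
    nlinarith
  refine ⟨16 * K * G, 8 * (3 * (K * G) + 1) + 4 * (3 * (K * G) + 1) ^ 2 +
    (1 / m) * ((3 * (κ * G) ^ 2 + (K * G) ^ 2) * κ2), ?_⟩
  intro X hX hTS R hR
  obtain ⟨I, hI, P, Q, y, ry, poor, h⟩ := hstr G hGG0 X hX hTS
  obtain ⟨hf1, hf2, hf3⟩ := hhit hGG1 hX h R (by linarith)
  obtain ⟨hf4, hf5⟩ := hann h R hR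
  have key := ctf_core hC (le_max_right _ _) hgain hX h hm (fun i => hpc h i) hR hf1 rfl hf2 hf3
    hf4 hf5
  set n : ℝ := ({i | i ∈ poor ∧ ‖y i‖ ≤ R + 2 * K * G}.ncard : ℝ) with hn
  have hn0 : 0 ≤ n := Nat.cast_nonneg _
  have e1 : (2 * (R + 3 * (K * G) + 1)) ^ 2 +
      (beta C - vl C) / 2 * (m * n) + beta C * (κ1 * G * n) + κ3 * (2 * (K * G)) * (m * n) -
      (1 / m) * (3 * (κ * G) ^ 2 * n - (3 * (κ * G) ^ 2 + (K * G) ^ 2) * (κ2 * R)) =
      (2 * (R + 3 * (K * G) + 1)) ^ 2 + (c0 + c1 * G - c2 * G ^ 2) * n +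
      (1 / m) * ((3 * (κ * G) ^ 2 + (K * G) ^ 2) * κ2) * R := by
    rw [hc0, hc1, hc2]
    field_simp
    ring
  rw [e1] at key
  have e2 : (c0 + c1 * G - c2 * G ^ 2) * n ≤ 0 := mul_nonpos_of_nonpos_of_nonneg hcoef hn0
  have hKG : 1 ≤ K * G := by nlinarith
  have e3 : (2 * (R + 3 * (K * G) + 1)) ^ 2 ≤ 4 * R ^ 2 +
      (8 * (3 * (K * G) + 1) + 4 * (3 * (K * G) + 1) ^ 2) * R := by
    have : 0 ≤ (3 * (K * G) + 1) ^ 2 := by positivity
    nlinarith
  linarith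

end Pool.Agent.H.MP_929345_co.Pl
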