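import Pool.Agent.H.MP_929345_co.Pl.CyDef

/-! Cylinders: body, volume. -/

set_option autoImplicit false

open MeasureTheory Set Filter
open scoped Topology ENNReal

namespace Pool.Agent.H.MP_929345_co.Pl

variable {d n : ℕ} (A : (Fin d → ℝ) ≃L[ℝ] V × (Fin n → ℝ)) {K : Set V}

/-- Volumes of preimages are proportional to volumes. -/
theorem vol_scale : ∃ κ : ℝ≥0∞, κ ≠ 0 ∧ κ ≠ ⊤ ∧ ∀ T : Set (V × (Fin n → ℝ)), MeasurableSet T →
    volume (A ⁻¹' T) = κ * volume T := by
  have : Measure.IsAddHaarMeasure (volume : Measure (V × (Fin n → ℝ))) :=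
    Measure.prod.instIsAddHaarMeasure _ _
  have h := Measure.isAddLeftInvariant_eq_smul (Measure.map A (volume : Measure (Fin d → ℝ)))
    (volume : Measure (V × (Fin n → ℝ)))
  refine ⟨((Measure.map A (volume : Measure (Fin d → ℝ))).addHaarScalarFactor
    (volume : Measure (V × (Fin n → ℝ))) : ℝ≥0∞), ?_, ENNReal.coe_ne_top, ?_⟩
  · rw [Ne, ENNReal.coe_eq_zero]
    exact (Measure.addHaarScalarFactor_pos_of_isAddHaarMeasure _ _).ne'
  · intro T hT
    rw [← Measure.map_apply A.continuous.measurable hT]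
    conv_lhs => rw [h]
    rfl

/-- The unit cube. -/
lemma volume_unit_cube (n : ℕ) : volume {y : Fin n → ℝ | ∀ i, |y i| ≤ 1} = ENNReal.ofReal (2 ^ n) := by
  have := volume_cube (d := n) 1 zero_le_one
  simpa using this

lemma measurableSet_unit_cube (n : ℕ) : MeasurableSet {y : Fin n → ℝ | ∀ i, |y i| ≤ 1} := by
  have : {y : Fin n → ℝ | ∀ i, |y i| ≤ 1} = ⋂ i, {y | |y i| ≤ 1} := by ext y; simp
  rw [this]
  exact MeasurableSet.iInter fun i =>
    (isClosed_le (continuous_apply i).abs continuous_const).measurableSet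

lemma Cyl_eq (K : Set V) : Cyl A K = A ⁻¹' (K ×ˢ {y : Fin n → ℝ | ∀ i, |y i| ≤ 1}) := by
  ext x; simp [Cyl]

/-- Volumes of cylinders are proportional to the area of the base. -/
theorem vol_cyl : ∃ κ : ℝ, 0 < κ ∧ ∀ T : Set V, MeasurableSet T → volume T ≠ ⊤ →
    volume (Cyl A T) = ENNReal.ofReal (κ * vl T) := by
  obtain ⟨κ, h0, hT, h⟩ := vol_scale A
  refine ⟨κ.toReal * 2 ^ n, by have := ENNReal.toReal_pos h0 hT; positivity, ?_⟩
  intro T hTm hTf
  rw [Cyl_eq, h _ (hTm.prod (measurableSet_unit_cube n)), Measure.volume_eq_prod,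
    Measure.prod_prod, volume_unit_cube, mul_assoc, ENNReal.ofReal_mul ENNReal.toReal_nonneg,
    ENNReal.ofReal_toReal hT, mul_comm ((2 : ℝ) ^ n) (vl T), ENNReal.ofReal_mul (vl_nonneg T)]
  congr 2
  unfold vl
  rw [ENNReal.ofReal_toReal hTf]

theorem cyl_isBody (hK : IsBody K) : IsBody (Cyl A K) := by
  have hcube : IsCompact {y : Fin n → ℝ | ∀ i, |y i| ≤ 1} := by
    have : {y : Fin n → ℝ | ∀ i, |y i| ≤ 1} = Metric.closedBall 0 1 := by
      ext y
      rw [mem_closedBall_zero_iff, pi_norm_le_iff_of_nonneg zero_le_one]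
      rfl
    rw [this]
    exact isCompact_closedBall _ _
  have hcubec : Convex ℝ {y : Fin n → ℝ | ∀ i, |y i| ≤ 1} := by
    have : {y : Fin n → ℝ | ∀ i, |y i| ≤ 1} = Metric.closedBall 0 1 := by
      ext y
      rw [mem_closedBall_zero_iff, pi_norm_le_iff_of_nonneg zero_le_one]
      rfl
    rw [this]
    exact convex_closedBall _ _
  have hcubei : (0 : Fin n → ℝ) ∈ interior {y : Fin n → ℝ | ∀ i, |y i| ≤ 1} := by
    have : {y : Fin n → ℝ | ∀ i, |y i| ≤ 1} = Metric.closedBall 0 1 := by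
      ext y
      rw [mem_closedBall_zero_iff, pi_norm_le_iff_of_nonneg zero_le_one]
      rfl
    rw [this]
    exact Metric.ball_subset_interior_closedBall (Metric.mem_ball_self one_pos)
  refine ⟨?_, ?_, ?_, ?_⟩
  · rw [Cyl_eq]
    exact (hK.convex.prod hcubec).linear_preimage A.toLinearEquiv.toLinearMap
  · rw [Cyl_eq]
    have h := (hK.compact.prod hcube).image A.symm.continuous
    rwa [A.symm.image_eq_preimage_symm, A.symm_symm] at h
  · refine ⟨0, ?_⟩
    rw [Cyl_eq]
    have hopen : IsOpen (A ⁻¹' (interior K ×ˢ interior {y : Fin n → ℝ | ∀ i, |y i| ≤ 1})) :=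
      (isOpen_interior.prod isOpen_interior).preimage A.continuous
    apply interior_maximal _ hopen
    · simp only [mem_preimage, map_zero, mem_prod, Prod.fst_zero, Prod.snd_zero]
      exact ⟨zero_mem_interior hK, hcubei⟩
    · apply preimage_mono
      exact prod_mono interior_subset interior_subset
  · intro x hx
    refine ⟨?_, ?_⟩
    · rw [map_neg]; exact hK.symm _ hx.1
    · intro i
      rw [map_neg]
      simpa using hx.2 i

end Pool.Agent.H.MP_929345_co.Pl
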