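import Pool.Agent.H.MP_929345_co.Pl.FiC

/-! Cylinders over planar bodies, in every dimension. -/

set_option autoImplicit false

open MeasureTheory Set Filter
open scoped Topology ENNReal

namespace Pool.Agent.H.MP_929345_co.Pl

/-- The linear image of `K × [-1,1]^n` under `A⁻¹`. -/
def Cyl {d n : ℕ} (A : (Fin d → ℝ) ≃L[ℝ] V × (Fin n → ℝ)) (K : Set V) : Set (Fin d → ℝ) :=
  {x | (A x).1 ∈ K ∧ ∀ i, |(A x).2 i| ≤ 1}

end Pool.Agent.H.MP_929345_co.Pl
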