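import Pool.Agent.H.MP_929345_co.Pl.CyC
import Pool.Agent.H.MP_929345_co.Pl.CtF

/-! Cylinders: double counting, and the number of members in a window. -/

set_option autoImplicit false

open MeasureTheory Set Filter
open scoped Topology ENNReal

namespace Pool.Agent.H.MP_929345_co.Pl

open Classical in
/-- Double counting. -/
theorem double_count {m : ℕ} {ι : Type*} (F : Finset ι) (p : ι → (Fin m → ℝ))
    {Q Ω : Set (Fin m → ℝ)} (hQ : MeasurableSet Q) (hΩ : ∀ s ∈ F, ∀ q ∈ Q, p s - q ∈ Ω)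
    (M : ℝ≥0∞) (hM : ∀ z, ((F.filter fun s => p s - z ∈ Q).card : ℝ≥0∞) ≤ M) :
    (F.card : ℝ≥0∞) * volume Q ≤ M * volume Ω := by
  have hpre : ∀ s, MeasurableSet {z | p s - z ∈ Q} := fun s =>
    (measurable_const.sub measurable_id) hQ
  have hvol : ∀ s ∈ F, volume Q = ∫⁻ z in Ω, indicator {z | p s - z ∈ Q} 1 z := by
    intro s hs
    rw [lintegral_indicator_one (hpre s), Measure.restrict_apply (hpre s)]
    have hsub : {z | p s - z ∈ Q} ⊆ Ω := by
      intro z hz
      have := hΩ s hs (p s - z) hz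
      rwa [sub_sub_cancel] at this
    rw [inter_eq_self_of_subset_left hsub]
    exact ((Measure.measurePreserving_sub_left volume (p s)).measure_preimage hQ.nullMeasurableSet).symm
  calc (F.card : ℝ≥0∞) * volume Q = ∑ s ∈ F, volume Q := by
        rw [Finset.sum_const, nsmul_eq_mul]
    _ = ∑ s ∈ F, ∫⁻ z in Ω, indicator {z | p s - z ∈ Q} 1 z := Finset.sum_congr rfl hvol
    _ = ∫⁻ z in Ω, ∑ s ∈ F, indicator {z | p s - z ∈ Q} 1 z := by
        rw [lintegral_finsetSum]
        intro s _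
        exact measurable_one.indicator (hpre s)
    _ ≤ ∫⁻ _ in Ω, M := by
        apply lintegral_mono
        intro z
        refine le_trans (le_of_eq ?_) (hM z)
        simp only [indicator, mem_setOf_eq, Pi.one_apply]
        rw [Finset.sum_boole]
    _ = M * volume Ω := by rw [setLIntegral_const]

variable {d n : ℕ} (A : (Fin d → ℝ) ≃L[ℝ] V × (Fin n → ℝ)) {K : Set V}

lemma volume_open_cube (n : ℕ) : volume {y : Fin n → ℝ | ∀ i, |y i| < 1} = ENNReal.ofReal (2 ^ n) := by
  have : {y : Fin n → ℝ | ∀ i, |y i| < 1} = Set.pi univ fun _ => Ioo (-1 : ℝ) 1 := by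
    ext y; simp [abs_lt]
  rw [this, Real.volume_pi_Ioo]
  simp only [Finset.prod_const, Finset.card_univ, Fintype.card_fin]
  rw [ENNReal.ofReal_pow (by norm_num)]
  norm_num

/-- The planar count bound, for windows with arbitrary centre. -/
theorem planar_count (hK : IsBody K) {R0 K' : ℝ}
    (hcount : ∀ X : Set V, IsPacking K X → (∀ z, TS K {x | x ∈ X ∧ ‖x - z‖ ≤ R0}) →
      ∀ R : ℝ, 1 ≤ R → beta K * (X ∩ Metric.closedBall 0 R).ncard ≤ 4 * R ^ 2 + K' * R)
    {X : Set V} (hX : IsPacking K X) (hTS : ∀ z, TS K {x | x ∈ X ∧ ‖x - z‖ ≤ R0}) (z : V)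
    {R : ℝ} (hR : 1 ≤ R) (G : Finset V) (hG : ∀ x ∈ G, x ∈ X ∧ ‖x - z‖ ≤ R) :
    beta K * G.card ≤ 4 * R ^ 2 + K' * R := by
  classical
  set Y : Set V := {y | y + z ∈ X} with hY
  have hYp : IsPacking K Y := by
    intro x hx y hy hne
    have := hX (x + z) hx (y + z) hy (fun h => hne (add_right_cancel h))
    rwa [add_sub_add_right_eq_sub] at this
  have hYTS : ∀ u, TS K {x | x ∈ Y ∧ ‖x - u‖ ≤ R0} := by
    intro u x hx y hy hne
    have ex : ‖x + z - (u + z)‖ ≤ R0 := by rw [add_sub_add_right_eq_sub]; exact hx.2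
    have ey : ‖y + z - (u + z)‖ ≤ R0 := by rw [add_sub_add_right_eq_sub]; exact hy.2
    obtain ⟨f, t, h0, h1, h2, h3⟩ := hTS (u + z) (x + z) ⟨hx.1, ex⟩ (y + z) ⟨hy.1, ey⟩
      (fun h => hne (add_right_cancel h))
    refine ⟨f, t - ev f z, h0, ?_, ?_, ?_⟩
    · rw [ev_add] at h1; linarith
    · rw [ev_add] at h2; linarith
    · rintro w ⟨hw, hw2⟩
      have ew : ‖w + z - (u + z)‖ ≤ R0 := by rw [add_sub_add_right_eq_sub]; exact hw2
      rcases h3 (w + z) ⟨hw, ew⟩ with h | h
      · left; rw [ev_add] at h; linarith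
      · right; rw [ev_add] at h; linarith
  have h1 := hcount Y hYp hYTS R hR
  have hfin := finite_inter_ball hK hYp R
  have h2 : (G.image fun x => x - z).card ≤ (Y ∩ Metric.closedBall 0 R).ncard := by
    rw [← Set.ncard_coe_finset]
    apply Set.ncard_le_ncard _ hfin
    intro y hy
    rw [Finset.coe_image, mem_image] at hy
    obtain ⟨x, hx, rfl⟩ := hy
    obtain ⟨hxX, hxz⟩ := hG x (by exact_mod_cast hx)
    refine ⟨?_, by simpa using hxz⟩
    simp only [hY, mem_setOf_eq, sub_add_cancel]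
    exact hxX
  rw [Finset.card_image_of_injective _ sub_left_injective] at h2
  have h3 : (G.card : ℝ) ≤ (Y ∩ Metric.closedBall 0 R).ncard := by exact_mod_cast h2
  have := mul_le_mul_of_nonneg_left h3 (beta_pos hK).le
  linarith

/-- The number of members in a window. -/
theorem window_count (hK : IsBody K) {R0 K' : ℝ}
    (hcount : ∀ X : Set V, IsPacking K X → (∀ z, TS K {x | x ∈ X ∧ ‖x - z‖ ≤ R0}) →
      ∀ R : ℝ, 1 ≤ R → beta K * (X ∩ Metric.closedBall 0 R).ncard ≤ 4 * R ^ 2 + K' * R)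
    {S : Set (Fin d → ℝ)} (hS : IsPacking (Cyl A K) S)
    (hTS : ∀ (t : Fin n → ℝ) (z : V), TS K {x | x ∈ Sec A S t ∧ ‖x - z‖ ≤ R0})
    (z : V × (Fin n → ℝ)) {R : ℝ} (hR : 1 ≤ R) (F : Finset (Fin d → ℝ))
    (hF : ∀ s ∈ F, s ∈ S ∧ ‖A s - z‖ ≤ R) :
    (F.card : ℝ) ≤ (4 * R ^ 2 + K' * R) / beta K * (R + 1) ^ n := by
  classical
  have hb := beta_pos hK
  -- one section
  have hone : ∀ t : Fin n → ℝ,
      ((F.filter fun s => (A s).2 - t ∈ {y : Fin n → ℝ | ∀ i, |y i| < 1}).card : ℝ)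
        ≤ (4 * R ^ 2 + K' * R) / beta K := by
    intro t
    rw [le_div_iff₀ hb, mul_comm]
    set F' := F.filter fun s => (A s).2 - t ∈ {y : Fin n → ℝ | ∀ i, |y i| < 1} with hF'
    have hmem : ∀ s ∈ F', s ∈ S ∧ ‖A s - z‖ ≤ R ∧ ∀ i, |(A s).2 i - t i| < 1 := by
      intro s hs
      rw [hF', Finset.mem_filter] at hs
      exact ⟨(hF s hs.1).1, (hF s hs.1).2, fun i => hs.2 i⟩
    have hinj : Set.InjOn (fun s => (A s).1) (F' : Set (Fin d → ℝ)) := by
      intro s hs s' hs' he
      by_contra hne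
      obtain ⟨h1, _, h2⟩ := hmem s (by exact_mod_cast hs)
      obtain ⟨h3, _, h4⟩ := hmem s' (by exact_mod_cast hs')
      have := sec_gauge A hK hS h1 h3 hne h2 h4
      simp only at he
      rw [he, sub_self, gauge_zero] at this
      linarith
    have h5 := planar_count hK hcount (sec_packing A hK hS t) (hTS t) z.1 hR
      (F'.image fun s => (A s).1) (by
        intro x hx
        rw [Finset.mem_image] at hx
        obtain ⟨s, hs, rfl⟩ := hx
        obtain ⟨h1, h2, h3⟩ := hmem s hs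
        refine ⟨⟨s, h1, rfl, h3⟩, ?_⟩
        have : (A s).1 - z.1 = (A s - z).1 := rfl
        rw [this]
        exact (norm_fst_le _).trans h2)
    rwa [Finset.card_image_of_injOn hinj] at h5
  have hM0 : 0 ≤ (4 * R ^ 2 + K' * R) / beta K := (Nat.cast_nonneg _).trans (hone 0)
  have hQm : MeasurableSet {y : Fin n → ℝ | ∀ i, |y i| < 1} := by
    have : {y : Fin n → ℝ | ∀ i, |y i| < 1} = ⋂ i, {y | |y i| < 1} := by ext y; simp
    rw [this]
    exact MeasurableSet.iInter fun i =>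
      (isOpen_lt (continuous_apply i).abs continuous_const).measurableSet
  have hdc := double_count F (fun s => (A s).2) (Q := {y : Fin n → ℝ | ∀ i, |y i| < 1})
    (Ω := (fun y => -z.2 + y) ⁻¹' {y | ∀ i, |y i| ≤ R + 1}) hQm
    (by
      intro s hs q hq
      simp only [mem_preimage, mem_setOf_eq, Pi.add_apply, Pi.neg_apply, Pi.sub_apply]
      intro i
      have h1 := (hF s hs).2
      have h2 := norm_le_pi_norm (A s - z).2 i
      rw [Real.norm_eq_abs] at h2
      have h3 : |(A s - z).2 i| ≤ R := h2.trans ((norm_snd_le _).trans h1)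
      have h4 := hq i
      have e : -z.2 i + ((A s).2 i - q i) = (A s - z).2 i - q i := by
        rw [Prod.snd_sub, Pi.sub_apply]; ring
      rw [e]
      refine (abs_sub _ _).trans ?_
      linarith)
    (ENNReal.ofReal ((4 * R ^ 2 + K' * R) / beta K))
    (by
      intro t
      rw [← ENNReal.ofReal_natCast]
      refine ENNReal.ofReal_le_ofReal ?_
      convert hone t)
  rw [measure_preimage_add, volume_cube _ (by linarith), volume_open_cube,
    ← ENNReal.ofReal_natCast, ← ENNReal.ofReal_mul (by positivity), ← ENNReal.ofReal_mul hM0] at hdc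
  have h6 := (ENNReal.ofReal_le_ofReal_iff (by positivity)).1 hdc
  have h7 : (F.card : ℝ) * 2 ^ n ≤ ((4 * R ^ 2 + K' * R) / beta K * (R + 1) ^ n) * 2 ^ n := by
    calc (F.card : ℝ) * 2 ^ n ≤ (4 * R ^ 2 + K' * R) / beta K * (2 * (R + 1)) ^ n := h6
      _ = _ := by rw [mul_pow]; ring
  exact le_of_mul_le_mul_right h7 (by positivity)

end Pool.Agent.H.MP_929345_co.Pl
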