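import Pool.Agent.H.MP_929345_co.Pl.CyF
import Pool.Agent.H.MP_929345_co.Pl.CyB

/-! Cylinders: the theorem. -/

set_option autoImplicit false

open MeasureTheory Set Filter
open scoped Topology ENNReal

namespace Pool.Agent.H.MP_929345_co.Pl

variable {d n : ℕ} (A : (Fin d → ℝ) ≃L[ℝ] V × (Fin n → ℝ)) {K : Set V}

theorem rhoSep_of_totSep' {C X : Set (Fin d → ℝ)} (ρ : ℝ) (h : TotSep C X) : RhoSep ρ C X := by
  intro c _ x hx y hy hne
  obtain ⟨f, hf, t, h1, h2, h3⟩ := h x hx.1 y hy.1 hne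
  exact ⟨f, hf, t, h1, h2, fun z hz => h3 z hz.1⟩

theorem cyl_lower (hK : IsBody K) : ENNReal.ofReal (vl K / beta K) ≤
    ⨆ X ∈ {X : Set (Fin d → ℝ) | IsPacking (Cyl A K) X ∧ TotSep (Cyl A K) X},
      dens (Cyl A K) X := by
  set M := ⨆ X ∈ {X : Set (Fin d → ℝ) | IsPacking (Cyl A K) X ∧ TotSep (Cyl A K) X},
      dens (Cyl A K) X with hM
  by_contra hcon
  push Not at hcon
  have hMtop : M ≠ ⊤ := ne_top_of_lt hcon
  have hm0 : 0 ≤ M.toReal := ENNReal.toReal_nonneg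
  have hMm : M = ENNReal.ofReal M.toReal := (ENNReal.ofReal_toReal hMtop).symm
  have hlt : M.toReal < vl K / beta K := by
    rw [hMm] at hcon
    exact (ENNReal.ofReal_lt_ofReal_iff_of_nonneg hm0).mp hcon
  have hβ := beta_pos hK
  have hmβ : M.toReal * beta K < vl K := by
    rwa [lt_div_iff₀ hβ] at hlt
  obtain ⟨a, b, hab, hlt2⟩ : ∃ a b : V, cr a b ≠ 0 ∧ M.toReal * vl (Par K a b) < vl K := by
    rcases hm0.eq_or_lt with h0 | h0
    · refine ⟨![1, 0], ![0, 1], by simp [cr], ?_⟩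
      rw [← h0, zero_mul] at hmβ ⊢
      exact hmβ
    · have h1 : beta K < vl K / M.toReal := by
        rw [lt_div_iff₀ h0, mul_comm]
        exact hmβ
      have hne : ({t | ∃ a b : V, cr a b ≠ 0 ∧ t = vl (Par K a b)} : Set ℝ).Nonempty :=
        ⟨_, ![1, 0], ![0, 1], by simp [cr], rfl⟩
      obtain ⟨t, ⟨a, b, hab, rfl⟩, ht⟩ := exists_lt_of_csInf_lt hne h1
      refine ⟨a, b, hab, ?_⟩
      rw [lt_div_iff₀ h0, mul_comm] at ht
      exact ht
  have hPar : 0 < vl (Par K a b) := lt_of_lt_of_le hβ (beta_le hK hab)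
  obtain ⟨X, hX1, hX2, hX3⟩ := cyl_lattice A hK hab
  have hle : dens (Cyl A K) X ≤ M := by
    rw [hM]
    exact le_biSup (dens (Cyl A K)) (show X ∈ {X : Set (Fin d → ℝ) |
      IsPacking (Cyl A K) X ∧ TotSep (Cyl A K) X} from ⟨hX1, hX2⟩)
  have h1 : ENNReal.ofReal (vl K / vl (Par K a b)) ≤ ENNReal.ofReal M.toReal := by
    rw [← hMm]
    exact hX3.trans hle
  have h2 : vl K / vl (Par K a b) ≤ M.toReal := (ENNReal.ofReal_le_ofReal_iff hm0).mp h1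
  rw [div_le_iff₀ hPar] at h2
  exact absurd hlt2 (not_lt.mpr h2)

/-- The theorem for linear images of cylinders over planar bodies. -/
theorem cylinder (hK : IsBody K) : ∃ ρ0 : ℝ, 1 ≤ ρ0 ∧ ∀ ρ ≥ ρ0,
    (⨆ X ∈ {X : Set (Fin d → ℝ) | IsPacking (Cyl A K) X ∧ RhoSep ρ (Cyl A K) X},
      dens (Cyl A K) X) =
    ⨆ X ∈ {X : Set (Fin d → ℝ) | IsPacking (Cyl A K) X ∧ TotSep (Cyl A K) X},
      dens (Cyl A K) X := by
  obtain ⟨ρ0, hρ0, hup⟩ := cyl_upper A hK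
  refine ⟨ρ0, hρ0, fun ρ hρ => le_antisymm ?_ ?_⟩
  · refine iSup₂_le fun X hX => ?_
    exact (hup ρ hρ X hX.1 hX.2).trans (cyl_lower A hK)
  · exact biSup_mono fun X hX => ⟨hX.1, rhoSep_of_totSep' ρ hX.2⟩

end Pool.Agent.H.MP_929345_co.Pl
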