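import Pool.Agent.H.MP_929345_co.Pl.CrDef

/-! C6a: objects and arms -/

set_option autoImplicit false

open MeasureTheory Set

namespace Pool.Agent.H.MP_929345_co.Pl

theorem extb_seg (b d y : V) (p q : ℝ) (hpq : p < q) :
    y ∈ segment ℝ (b + p • d) (b + q • d) ↔ ∃ t, p ≤ t ∧ t ≤ q ∧ y = b + t • d := by
  rw [segment_eq_image]
  constructor
  · rintro ⟨θ, ⟨h0, h1⟩, rfl⟩
    refine ⟨(1 - θ) * p + θ * q, by nlinarith, by nlinarith, ?_⟩
    module
  · rintro ⟨t, h0, h1, rfl⟩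
    have hne : q - p ≠ 0 := by linarith
    refine ⟨(t - p) / (q - p), ⟨div_nonneg (by linarith) (by linarith),
      (div_le_one (by linarith)).2 (by linarith)⟩, ?_⟩
    have h2 : (1 - (t - p) / (q - p)) * p + (t - p) / (q - p) * q = t := by
      field_simp
      ring
    calc (1 - (t - p) / (q - p)) • (b + p • d) + ((t - p) / (q - p)) • (b + q • d)
        = b + ((1 - (t - p) / (q - p)) * p + (t - p) / (q - p) * q) • d := by module
      _ = b + t • d := by rw [h2]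

theorem extb_oseg (b d y : V) (p q : ℝ) (hpq : p < q) :
    y ∈ openSegment ℝ (b + p • d) (b + q • d) ↔ ∃ t, p < t ∧ t < q ∧ y = b + t • d := by
  rw [openSegment_eq_image]
  constructor
  · rintro ⟨θ, ⟨h0, h1⟩, rfl⟩
    refine ⟨(1 - θ) * p + θ * q, by nlinarith, by nlinarith, ?_⟩
    module
  · rintro ⟨t, h0, h1, rfl⟩
    have hne : q - p ≠ 0 := by linarith
    refine ⟨(t - p) / (q - p), ⟨div_pos (by linarith) (by linarith),
      (div_lt_one (by linarith)).2 (by linarith)⟩, ?_⟩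
    have h2 : (1 - (t - p) / (q - p)) * p + (t - p) / (q - p) * q = t := by
      field_simp
      ring
    calc (1 - (t - p) / (q - p)) • (b + p • d) + ((t - p) / (q - p)) • (b + q • d)
        = b + ((1 - (t - p) / (q - p)) * p + (t - p) / (q - p) * q) • d := by module
      _ = b + t • d := by rw [h2]

theorem extb_obj0 {I : Type*} (A : I × Fin 4) (i : I) :
    obj A = (i, 0) ↔ A = (i, 0) ∨ A = (i, 1) := by
  obtain ⟨j, k⟩ := A
  fin_cases k <;> simp [obj]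

theorem extb_obj1 {I : Type*} (A : I × Fin 4) (i : I) :
    obj A = (i, 1) ↔ A = (i, 2) := by
  obtain ⟨j, k⟩ := A
  fin_cases k <;> simp [obj]

theorem extb_obj2 {I : Type*} (A : I × Fin 4) (i : I) :
    obj A = (i, 2) ↔ A = (i, 3) := by
  obtain ⟨j, k⟩ := A
  fin_cases k <;> simp [obj]

variable {I : Type*} {b : I → V} {d : I → Fin 4 → V} {tp : I → Fin 4 → ℝ}
  {L0 L1 T δ a1 r : ℝ} {ord : I × Fin 4 → ℕ} {len : I × Fin 4 → ℝ}

theorem extb_pos (h : IsCro b d tp L0 L1 T δ a1 r) (he : IsExt b d tp T ord len)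
    (A : I × Fin 4) : 0 < len A :=
  lt_of_lt_of_le h.L0pos ((h.tp0 A.1 A.2).trans (he.ge A))

theorem extb_P0 (h : IsCro b d tp L0 L1 T δ a1 r) (i : I) :
    oP b d len (i, 0) = b i + (- len (i, 1)) • d i 0 := by
  simp only [oP, if_true, h.d1 i, smul_neg, neg_smul]

theorem extb_Q0 (i : I) : oQ b d len (i, 0) = b i + len (i, 0) • d i 0 := by
  simp [oQ]

theorem extb_P1 (i : I) : oP b d len (i, 1) = b i + (0 : ℝ) • d i 2 := by
  simp [oP]

theorem extb_Q1 (i : I) : oQ b d len (i, 1) = b i + len (i, 2) • d i 2 := by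
  simp [oQ]

theorem extb_P2 (i : I) : oP b d len (i, 2) = b i + (0 : ℝ) • d i 3 := by
  simp [oP]

theorem extb_Q2 (i : I) : oQ b d len (i, 2) = b i + len (i, 3) • d i 3 := by
  simp [oQ]

/-- Job C6a.  Points of objects and points of arms. -/
theorem mem_obj (h : IsCro b d tp L0 L1 T δ a1 r) (he : IsExt b d tp T ord len)
    (o : I × Fin 3) (y : V) :
    y ∈ segment ℝ (oP b d len o) (oQ b d len o) ↔
      ∃ A : I × Fin 4, obj A = o ∧ ∃ t, 0 ≤ t ∧ t ≤ len A ∧ y = b A.1 + t • d A.1 A.2 := by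
  have hp := extb_pos h he
  obtain ⟨i, c⟩ := o
  have hc : c = 0 ∨ c = 1 ∨ c = 2 := by fin_cases c <;> simp
  rcases hc with rfl | rfl | rfl
  · rw [extb_P0 h, extb_Q0, extb_seg _ _ _ _ _ (by linarith [hp (i, 0), hp (i, 1)])]
    constructor
    · rintro ⟨t, h0, h1, rfl⟩
      rcases le_total 0 t with ht | ht
      · exact ⟨(i, 0), (extb_obj0 _ _).2 (Or.inl rfl), t, ht, h1, rfl⟩
      · refine ⟨(i, 1), (extb_obj0 _ _).2 (Or.inr rfl), -t, by linarith, by linarith, ?_⟩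
        simp only [h.d1 i, smul_neg, neg_smul, neg_neg]
    · rintro ⟨A, hA, t, h0, h1, rfl⟩
      rcases (extb_obj0 _ _).1 hA with rfl | rfl
      · exact ⟨t, by linarith [hp (i, 1)], h1, rfl⟩
      · refine ⟨-t, by linarith, by linarith [hp (i, 0)], ?_⟩
        simp only [h.d1 i, smul_neg, neg_smul]
  · rw [extb_P1, extb_Q1, extb_seg _ _ _ _ _ (hp (i, 2))]
    constructor
    · rintro ⟨t, h0, h1, rfl⟩
      exact ⟨(i, 2), (extb_obj1 _ _).2 rfl, t, h0, h1, rfl⟩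
    · rintro ⟨A, hA, t, h0, h1, rfl⟩
      obtain rfl := (extb_obj1 _ _).1 hA
      exact ⟨t, h0, h1, rfl⟩
  · rw [extb_P2, extb_Q2, extb_seg _ _ _ _ _ (hp (i, 3))]
    constructor
    · rintro ⟨t, h0, h1, rfl⟩
      exact ⟨(i, 3), (extb_obj2 _ _).2 rfl, t, h0, h1, rfl⟩
    · rintro ⟨A, hA, t, h0, h1, rfl⟩
      obtain rfl := (extb_obj2 _ _).1 hA
      exact ⟨t, h0, h1, rfl⟩

/-- Job C6a. -/
theorem mem_open_obj (h : IsCro b d tp L0 L1 T δ a1 r) (he : IsExt b d tp T ord len)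
    (o : I × Fin 3) (y : V) :
    y ∈ openSegment ℝ (oP b d len o) (oQ b d len o) ↔
      ∃ A : I × Fin 4, obj A = o ∧ ∃ t, 0 ≤ t ∧ t < len A ∧ (o.2 ≠ 0 → 0 < t) ∧
        y = b A.1 + t • d A.1 A.2 := by
  have hp := extb_pos h he
  obtain ⟨i, c⟩ := o
  have hc : c = 0 ∨ c = 1 ∨ c = 2 := by fin_cases c <;> simp
  rcases hc with rfl | rfl | rfl
  · rw [extb_P0 h, extb_Q0, extb_oseg _ _ _ _ _ (by linarith [hp (i, 0), hp (i, 1)])]
    constructor
    · rintro ⟨t, h0, h1, rfl⟩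
      rcases le_total 0 t with ht | ht
      · exact ⟨(i, 0), (extb_obj0 _ _).2 (Or.inl rfl), t, ht, h1, fun hn => absurd rfl hn, rfl⟩
      · refine ⟨(i, 1), (extb_obj0 _ _).2 (Or.inr rfl), -t, by linarith, by linarith,
          fun hn => absurd rfl hn, ?_⟩
        simp only [h.d1 i, smul_neg, neg_smul, neg_neg]
    · rintro ⟨A, hA, t, h0, h1, -, rfl⟩
      rcases (extb_obj0 _ _).1 hA with rfl | rfl
      · exact ⟨t, by linarith [hp (i, 1)], h1, rfl⟩
      · refine ⟨-t, by linarith, by linarith [hp (i, 0)], ?_⟩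
        simp only [h.d1 i, smul_neg, neg_smul]
  · rw [extb_P1, extb_Q1, extb_oseg _ _ _ _ _ (hp (i, 2))]
    constructor
    · rintro ⟨t, h0, h1, rfl⟩
      exact ⟨(i, 2), (extb_obj1 _ _).2 rfl, t, h0.le, h1, fun _ => h0, rfl⟩
    · rintro ⟨A, hA, t, h0, h1, h2, rfl⟩
      obtain rfl := (extb_obj1 _ _).1 hA
      exact ⟨t, h2 (by simp), h1, rfl⟩
  · rw [extb_P2, extb_Q2, extb_oseg _ _ _ _ _ (hp (i, 3))]
    constructor
    · rintro ⟨t, h0, h1, rfl⟩
      exact ⟨(i, 3), (extb_obj2 _ _).2 rfl, t, h0.le, h1, fun _ => h0, rfl⟩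
    · rintro ⟨A, hA, t, h0, h1, h2, rfl⟩
      obtain rfl := (extb_obj2 _ _).1 hA
      exact ⟨t, h2 (by simp), h1, rfl⟩

end Pool.Agent.H.MP_929345_co.Pl
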