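import Pool.Agent.H.MP_929345_co.Pl.ExtB

/-! C6b: relative interiors are disjoint -/

set_option autoImplicit false

open MeasureTheory Set

namespace Pool.Agent.H.MP_929345_co.Pl

variable {I : Type*} {b : I → V} {d : I → Fin 4 → V} {tp : I → Fin 4 → ℝ}
  {L0 L1 T δ a1 r : ℝ} {ord : I × Fin 4 → ℕ} {len : I × Fin 4 → ℝ}

private lemma extc_zero (h : IsCro b d tp L0 L1 T δ a1 r) (i : I) (k l : Fin 4)
    (hkl : ¬ sameL k l) (t s : ℝ) (e : t • d i k = s • d i l) : t = 0 := by
  have ha := h.ang0 i k l hkl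
  have hne : cr (d i k) (d i l) ≠ 0 := by
    intro h0
    rw [h0, abs_zero] at ha
    linarith [h.a1pos]
  have e2 : cr (t • d i k) (d i l) = cr (s • d i l) (d i l) := by rw [e]
  rw [cr_smul_left, cr_smul_left, cr_self, mul_zero] at e2
  rcases mul_eq_zero.mp e2 with h1 | h1
  · exact h1
  · exact absurd h1 hne

private lemma extc_opp (h : IsCro b d tp L0 L1 T δ a1 r) (i : I) (t s : ℝ) (ht : 0 < t)
    (hs : 0 < s) (e : t • d i 2 = s • d i 3) : False := by
  rw [h.d3 i, smul_neg] at e
  have e2 : (t + s) • d i 2 = 0 := by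
    rw [add_smul, e]; simp
  rcases smul_eq_zero.mp e2 with h1 | h1
  · linarith
  · have := h.dn i 2
    rw [h1, norm_zero] at this
    norm_num at this

private lemma extc_same (h : IsCro b d tp L0 L1 T δ a1 r) (i : I) (k l : Fin 4)
    (hne : obj (i, k) ≠ obj (i, l)) (t s : ℝ) (_ht : 0 ≤ t) (_hs : 0 ≤ s)
    (ht0 : (obj (i, k)).2 ≠ 0 → 0 < t) (hs0 : (obj (i, l)).2 ≠ 0 → 0 < s)
    (e : t • d i k = s • d i l) : False := by
  by_cases hkl : sameL k l
  · have key : (k = 2 ∧ l = 3) ∨ (k = 3 ∧ l = 2) := by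
      revert hne hkl
      simp only [obj, sameL, ne_eq, Prod.mk.injEq, true_and]
      fin_cases k <;> fin_cases l <;> simp
    rcases key with ⟨rfl, rfl⟩ | ⟨rfl, rfl⟩
    · exact extc_opp h i t s (ht0 (by simp [obj])) (hs0 (by simp [obj])) e
    · exact extc_opp h i s t (hs0 (by simp [obj])) (ht0 (by simp [obj])) e.symm
  · have t0 := extc_zero h i k l hkl t s e
    have hlk : ¬ sameL l k := fun hh => hkl (by unfold sameL at *; exact hh.symm)
    have s0 := extc_zero h i l k hlk s t e.symm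
    apply hne
    have h1 : (obj (i, k)).2 = 0 := by
      by_contra hc
      linarith [ht0 hc]
    have h2 : (obj (i, l)).2 = 0 := by
      by_contra hc
      linarith [hs0 hc]
    exact Prod.ext rfl (h1.trans h2.symm)

/-- a point of `B` before its end, of a different centre than `A`, cannot be at `t` on `A` beyond
the whisker if it is in the structure present for `A`. -/
private lemma extc_mem (_h : IsCro b d tp L0 L1 T δ a1 r) (he : IsExt b d tp T ord len)
    (A B : I × Fin 4) (hAB : A.1 ≠ B.1) (t s : ℝ) (hs : 0 ≤ s)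
    (hs1 : s ≤ (if ord B < ord A then len B else tp B.1 B.2)) (ht : tp A.1 A.2 ≤ t)
    (ht1 : t < len A) (e : b A.1 + t • d A.1 A.2 = b B.1 + s • d B.1 B.2) : False :=
  he.free A t ht ht1 ⟨B, Or.inl hAB, s, hs, hs1, e⟩

/-- Job C6b.  Relative interiors are disjoint. -/
theorem ext_t1 (h : IsCro b d tp L0 L1 T δ a1 r) (he : IsExt b d tp T ord len)
    (o o' : I × Fin 3) (hne : o ≠ o') :
    Disjoint (openSegment ℝ (oP b d len o) (oQ b d len o))
      (openSegment ℝ (oP b d len o') (oQ b d len o')) := by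
  rw [Set.disjoint_left]
  intro y hy hy'
  obtain ⟨A, rfl, t, ht0, ht1, hts, e1⟩ := (mem_open_obj h he o y).mp hy
  obtain ⟨B, rfl, s, hs0, hs1, hss, e2⟩ := (mem_open_obj h he _ y).mp hy'
  have e : b A.1 + t • d A.1 A.2 = b B.1 + s • d B.1 B.2 := e1.symm.trans e2
  by_cases hc : A.1 = B.1
  · obtain ⟨i, k⟩ := A
    obtain ⟨j, l⟩ := B
    simp only at hc
    subst hc
    exact extc_same h i k l hne t s ht0 hs0 hts hss (add_left_cancel e)
  · have hc' : B.1 ≠ A.1 := fun hh => hc hh.symm
    have hgA := he.ge A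
    have hgB := he.ge B
    by_cases c1 : t < tp A.1 A.2
    · by_cases c2 : s < tp B.1 B.2
      · exact h.wh A.1 B.1 hc A.2 B.2 t s ht0 c1.le hs0 c2.le e
      · refine extc_mem h he B A hc' s t ht0 ?_ (not_lt.mp c2) hs1 e.symm
        split_ifs <;> linarith
    · by_cases c2 : s < tp B.1 B.2
      · refine extc_mem h he A B hc t s hs0 ?_ (not_lt.mp c1) ht1 e
        split_ifs <;> linarith
      · rcases lt_trichotomy (ord A) (ord B) with ho | ho | ho
        · refine extc_mem h he B A hc' s t ht0 ?_ (not_lt.mp c2) hs1 e.symm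
          rw [if_pos ho]; exact ht1.le
        · exact hc (congrArg Prod.fst (he.inj ho))
        · refine extc_mem h he A B hc t s hs0 ?_ (not_lt.mp c1) ht1 e
          rw [if_pos ho]; exact hs1.le

end Pool.Agent.H.MP_929345_co.Pl
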