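import Pool.Agent.H.MP_929345_co.Pl.ExtC

/-! C6c, C6d: final endpoints -/

set_option autoImplicit false

open MeasureTheory Set

namespace Pool.Agent.H.MP_929345_co.Pl

variable {I : Type*} {b : I → V} {d : I → Fin 4 → V} {tp : I → Fin 4 → ℝ}
  {L0 L1 T δ a1 r : ℝ} {ord : I × Fin 4 → ℕ} {len : I × Fin 4 → ℝ}

private theorem extd_key (h : IsCro b d tp L0 L1 T δ a1 r) (he : IsExt b d tp T ord len)
    (A : I × Fin 4) :
    ∃ B : I × Fin 4, ∃ s, 0 ≤ s ∧
      s ≤ (if ord B < ord A then len B else tp B.1 B.2) ∧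
      b A.1 + len A • d A.1 A.2 = b B.1 + s • d B.1 B.2 ∧
      (b A.1 + len A • d A.1 A.2 ∈
          openSegment ℝ (oP b d len (obj B)) (oQ b d len (obj B)) ∨
        (ord B < ord A ∧ s = len B)) := by
  obtain ⟨B, hline, s, hs0, hs, hv⟩ := he.hit A
  have htp : ∀ C : I × Fin 4, 0 < tp C.1 C.2 := fun C => h.L0pos.trans_le (h.tp0 C.1 C.2)
  have hlen : ∀ C : I × Fin 4, 0 < len C := fun C => (htp C).trans_le (he.ge C)
  have hsl : s ≤ len B := by
    split_ifs at hs with hlt
    · exact hs
    · exact hs.trans (he.ge B)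
  rcases eq_or_lt_of_le hs0 with h0 | h0
  · subst h0
    by_cases ho : (obj B).2 = 0
    · refine ⟨B, 0, le_rfl, hs, hv, Or.inl ?_⟩
      rw [mem_open_obj h he]
      exact ⟨B, rfl, 0, le_rfl, hlen B, fun hne => absurd ho hne, hv⟩
    · refine ⟨(B.1, 0), 0, le_rfl, ?_, ?_, Or.inl ?_⟩
      · split_ifs
        · exact (hlen _).le
        · exact (htp (B.1, 0)).le
      · rw [hv, zero_smul, zero_smul]
      · rw [mem_open_obj h he]
        refine ⟨(B.1, 0), rfl, 0, le_rfl, hlen _, fun hne => ?_, ?_⟩
        · exact absurd (by simp [obj]) hne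
        · rw [hv, zero_smul, zero_smul]
  · rcases lt_or_eq_of_le hsl with h1 | h1
    · refine ⟨B, s, hs0, hs, hv, Or.inl ?_⟩
      rw [mem_open_obj h he]
      exact ⟨B, rfl, s, hs0, h1, fun _ => h0, hv⟩
    · by_cases hlt : ord B < ord A
      · exact ⟨B, s, hs0, hs, hv, Or.inr ⟨hlt, h1⟩⟩
      · exfalso
        rw [if_neg hlt] at hs
        have hst : s = tp B.1 B.2 := le_antisymm hs (by rw [h1]; exact he.ge B)
        by_cases hAB : A.1 = B.1
        · have hsame : ¬ sameL A.2 B.2 := by
            rcases hline with h2 | h2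
            · exact absurd hAB h2
            · exact h2
          have hang := h.ang0 A.1 A.2 B.2 hsame
          rw [← hAB] at hv
          have hv' : len A • d A.1 A.2 = s • d A.1 B.2 := by simpa using hv
          have hcr := congrArg (cr (d A.1 A.2)) hv'
          rw [cr_smul_right, cr_smul_right, cr_self, mul_zero] at hcr
          have hz : cr (d A.1 A.2) (d A.1 B.2) = 0 := by
            rcases mul_eq_zero.1 hcr.symm with h2 | h2
            · exact absurd h2 h0.ne'
            · exact h2
          rw [hz, abs_zero] at hang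
          exact absurd h.a1pos (not_lt.2 hang)
        · have hclr := h.clr B.1 A.1 (Ne.symm hAB) B.2 A.2 (len A) (hlen A).le
            ((he.le A).trans (by linarith [h.tp1 A.1 A.2]))
          rw [hv, hst, sub_self, norm_zero] at hclr
          exact absurd h.δpos (not_lt.2 hclr)

private theorem extd_cover (h : IsCro b d tp L0 L1 T δ a1 r) (he : IsExt b d tp T ord len)
    (o : I × Fin 3) : ∀ (n : ℕ) (A : I × Fin 4), ord A = n →
    b A.1 + len A • d A.1 A.2 ∈ openSegment ℝ (oP b d len o) (oQ b d len o) →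
    ∃ B : I × Fin 4, obj B = o ∧ ∃ s, 0 ≤ s ∧
      s ≤ (if ord B < ord A then len B else tp B.1 B.2) ∧
      b A.1 + len A • d A.1 A.2 = b B.1 + s • d B.1 B.2 := by
  intro n
  induction n using Nat.strong_induction_on with
  | _ n ih =>
    intro A hA ho
    obtain ⟨B, s, hs0, hs, hv, hcase⟩ := extd_key h he A
    rcases hcase with h1 | ⟨hlt, hsl⟩
    · have hobj : obj B = o := by
        by_contra hne
        exact Set.disjoint_left.1 (ext_t1 h he (obj B) o hne) h1 ho
      exact ⟨B, hobj, s, hs0, hs, hv⟩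
    · rw [hsl] at hv
      obtain ⟨B', hobj, s', hs0', hs', hv'⟩ := ih (ord B) (by omega) B rfl (by rw [← hv]; exact ho)
      refine ⟨B', hobj, s', hs0', ?_, by rw [hv, hv']⟩
      by_cases h2 : ord B' < ord B
      · rw [if_pos h2] at hs'
        rw [if_pos (h2.trans hlt)]
        exact hs'
      · rw [if_neg h2] at hs'
        split_ifs
        · exact hs'.trans (he.ge B')
        · exact hs'

private theorem extd_t2 (h : IsCro b d tp L0 L1 T δ a1 r) (he : IsExt b d tp T ord len) :
    ∀ (n : ℕ) (A : I × Fin 4), ord A = n →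
    ∃ o : I × Fin 3,
      b A.1 + len A • d A.1 A.2 ∈ openSegment ℝ (oP b d len o) (oQ b d len o) := by
  intro n
  induction n using Nat.strong_induction_on with
  | _ n ih =>
    intro A hA
    obtain ⟨B, s, hs0, hs, hv, hcase⟩ := extd_key h he A
    rcases hcase with h1 | ⟨hlt, hsl⟩
    · exact ⟨obj B, h1⟩
    · rw [hsl] at hv
      obtain ⟨o, ho⟩ := ih (ord B) (by omega) B rfl
      exact ⟨o, by rw [hv]; exact ho⟩

/-- Job C6c.  (E5): if the final endpoint `y` of the arm `A` is a relative interior point of the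
object `o`, then `o` covered `y` when `A` was extended. -/
theorem ext_cover (h : IsCro b d tp L0 L1 T δ a1 r) (he : IsExt b d tp T ord len)
    (A : I × Fin 4) (o : I × Fin 3)
    (ho : b A.1 + len A • d A.1 A.2 ∈ openSegment ℝ (oP b d len o) (oQ b d len o)) :
    ∃ B : I × Fin 4, obj B = o ∧ ∃ s, 0 ≤ s ∧
      s ≤ (if ord B < ord A then len B else tp B.1 B.2) ∧
      b A.1 + len A • d A.1 A.2 = b B.1 + s • d B.1 B.2 :=
  extd_cover h he o (ord A) A rfl ho

/-- Job C6d.  Final endpoints of arms are relative interior points of objects. -/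
theorem ext_t2 (h : IsCro b d tp L0 L1 T δ a1 r) (he : IsExt b d tp T ord len)
    (A : I × Fin 4) :
    ∃ o : I × Fin 3,
      b A.1 + len A • d A.1 A.2 ∈ openSegment ℝ (oP b d len o) (oQ b d len o) :=
  extd_t2 h he (ord A) A rfl

end Pool.Agent.H.MP_929345_co.Pl
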