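import Pool.Agent.H.MP_929345_co.Pl.Base

/-! B1a: the union of the segments -/

set_option autoImplicit false

open MeasureTheory Set

namespace Pool.Agent.H.MP_929345_co.Pl

variable {ι : Type*} {P Q : ι → V} {Lam : ℝ}

theorem fca_closed (x y : V) : IsClosed (segment ℝ x y) := by
  rw [segment_eq_image_lineMap]
  exact (isCompact_Icc.image AffineMap.lineMap_continuous).isClosed

theorem fca_ball (v : V) : Metric.ball v 1 ⊆ Metric.closedBall 0 (‖v‖ + 1) := by
  intro x hx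
  rw [Metric.mem_ball, dist_eq_norm] at hx
  rw [Metric.mem_closedBall, dist_zero_right]
  have : x = v + (x - v) := by abel
  rw [this]
  exact (norm_add_le _ _).trans (by linarith)

/-- Job B1a. -/
theorem isClosed_Sg (hT : IsT P Q Lam) : IsClosed (Sg P Q) := by
  unfold Sg
  apply LocallyFinite.isClosed_iUnion
  · intro x
    refine ⟨Metric.ball x 1, Metric.ball_mem_nhds x one_pos, ?_⟩
    refine (hT.lf (‖x‖ + 1)).subset ?_
    rintro i ⟨y, hy1, hy2⟩
    exact ⟨y, hy1, fca_ball x hy2⟩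
  · intro i
    exact fca_closed _ _

/-- Job B1a.  Near a point only the segments through this point are met. -/
theorem locally (hT : IsT P Q Lam) (v : V) :
    ∃ r > 0, ∀ i, (segment ℝ (P i) (Q i) ∩ Metric.ball v r).Nonempty → v ∈ segment ℝ (P i) (Q i) := by
  have hfin : ({i | (segment ℝ (P i) (Q i) ∩ Metric.closedBall 0 (‖v‖ + 1)).Nonempty ∧
      v ∉ segment ℝ (P i) (Q i)}).Finite :=
    (hT.lf (‖v‖ + 1)).subset fun i hi => hi.1
  have hcl : IsClosed (⋃ i ∈ {i | (segment ℝ (P i) (Q i) ∩ Metric.closedBall 0 (‖v‖ + 1)).Nonempty ∧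
      v ∉ segment ℝ (P i) (Q i)}, segment ℝ (P i) (Q i)) :=
    hfin.isClosed_biUnion fun i _ => fca_closed _ _
  have hv : v ∈ (⋃ i ∈ {i | (segment ℝ (P i) (Q i) ∩
      Metric.closedBall 0 (‖v‖ + 1)).Nonempty ∧ v ∉ segment ℝ (P i) (Q i)},
      segment ℝ (P i) (Q i))ᶜ := by
    simp only [mem_compl_iff, mem_iUnion, not_exists]
    rintro i ⟨_, hi⟩ hi2
    exact hi hi2
  obtain ⟨r, hr, hsub⟩ := Metric.isOpen_iff.1 hcl.isOpen_compl v hv
  refine ⟨min r 1, lt_min hr one_pos, ?_⟩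
  rintro i ⟨y, hy1, hy2⟩
  by_contra hvi
  have h1 : y ∈ Metric.ball v r := Metric.ball_subset_ball (min_le_left _ _) hy2
  have h2 : y ∈ Metric.ball v 1 := Metric.ball_subset_ball (min_le_right _ _) hy2
  refine hsub h1 ?_
  simp only [mem_iUnion]
  exact ⟨i, ⟨⟨y, hy1, fca_ball v h2⟩, hvi⟩, hy1⟩

/-- Job B1a.  Every point of the structure is a relative interior point of a segment. -/
theorem exists_relint (hT : IsT P Q Lam) {v : V} (hv : v ∈ Sg P Q) :
    ∃ j, v ∈ openSegment ℝ (P j) (Q j) := by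
  obtain ⟨i, hi⟩ := mem_iUnion.1 hv
  by_cases h1 : P i = v
  · rw [← h1]
    exact hT.t2P i
  by_cases h2 : Q i = v
  · rw [← h2]
    exact hT.t2Q i
  exact ⟨i, mem_openSegment_of_ne_left_right h1 h2 hi⟩

end Pool.Agent.H.MP_929345_co.Pl
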