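import Pool.Agent.H.MP_929345_co.Pl.FcA

/-! B1b: faces are convex -/

set_option autoImplicit false

open MeasureTheory Set

namespace Pool.Agent.H.MP_929345_co.Pl

variable {ι : Type*} {P Q : ι → V} {Lam : ℝ}

lemma fcb_open {y z p : V} (hp : p ∈ openSegment ℝ y z) :
    ∃ ε > 0, ∀ t : ℝ, |t| ≤ ε → p + t • (z - y) ∈ openSegment ℝ y z := by
  rw [openSegment_eq_image'] at hp ⊢
  obtain ⟨θ, ⟨h0, h1⟩, rfl⟩ := hp
  refine ⟨min θ (1 - θ) / 2, by have := lt_min h0 (sub_pos.2 h1); linarith, ?_⟩
  intro t ht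
  rw [abs_le] at ht
  have ha := min_le_left θ (1 - θ)
  have hb := min_le_right θ (1 - θ)
  refine ⟨θ + t, ⟨by linarith [ht.1], by linarith [ht.2]⟩, ?_⟩
  simp only
  rw [add_smul, add_assoc]

lemma fcb_par {c d e : V} (hc : c ≠ 0) (hd : ev c d = 0) (he : ev c e = 0) (hd0 : d ≠ 0) :
    ∃ s : ℝ, e = s • d := by
  have hde : d 0 * e 1 = d 1 * e 0 := by
    unfold ev at hd he
    by_contra hne
    apply hc
    have hD : d 0 * e 1 - d 1 * e 0 ≠ 0 := sub_ne_zero.2 hne
    have h0 : c 0 * (d 0 * e 1 - d 1 * e 0) = 0 := by linear_combination (e 1) * hd - (d 1) * he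
    have h1 : c 1 * (d 0 * e 1 - d 1 * e 0) = 0 := by linear_combination (d 0) * he - (e 0) * hd
    ext i; fin_cases i
    · simpa [hD] using h0
    · simpa [hD] using h1
  have : d 0 ≠ 0 ∨ d 1 ≠ 0 := by
    by_contra hcon
    push Not at hcon
    apply hd0
    ext i; fin_cases i
    · exact hcon.1
    · exact hcon.2
  rcases this with h0 | h1
  · refine ⟨e 0 / d 0, ?_⟩
    ext i; fin_cases i
    · simp [h0]
    · simp only [Fin.mk_one, Pi.smul_apply, smul_eq_mul]
      field_simp
      linarith
  · refine ⟨e 1 / d 1, ?_⟩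
    ext i; fin_cases i
    · simp only [Fin.zero_eta, Pi.smul_apply, smul_eq_mul]
      field_simp
      linarith
    · simp [h1]

/-- A zero of an affine function on a segment, by the intermediate value theorem. -/
lemma fcb_zero {y z x a : V} (h1 : ev a (y - x) ≤ 0) (h2 : 0 ≤ ev a (z - x)) :
    ∃ q ∈ segment ℝ y z, ev a (q - x) = 0 := by
  have hc : ContinuousOn (fun q => ev a (q - x)) (segment ℝ y z) :=
    ((continuous_ev a).comp (continuous_id.sub continuous_const)).continuousOn
  have hp : IsPreconnected (segment ℝ y z) := (convex_segment y z).isPreconnected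
  obtain ⟨q, hq, hq0⟩ := hp.intermediate_value (left_mem_segment ℝ y z) (right_mem_segment ℝ y z)
    hc (show (0 : ℝ) ∈ Icc _ _ from ⟨h1, h2⟩)
  exact ⟨q, hq, hq0⟩

lemma fcb_core (hT : IsT P Q Lam) {x a b : V} {R : ℝ} (hab : a + b ≠ 0)
    (hR : ∀ p : V, 0 ≤ ev a (p - x) → 0 ≤ ev b (p - x) → ev a (p - x) + ev b (p - x) ≤ 1 →
      p ∈ Metric.closedBall x R)
    (ha : ∀ p ∈ Sg P Q, 0 ≤ ev a (p - x) → ev a (p - x) ≤ 1 → ev b (p - x) = 0 → False)
    (hb : ∀ p ∈ Sg P Q, 0 ≤ ev b (p - x) → ev b (p - x) ≤ 1 → ev a (p - x) = 0 → False) :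
    ∀ p ∈ Sg P Q, 0 ≤ ev a (p - x) → 0 ≤ ev b (p - x) → ev a (p - x) + ev b (p - x) ≤ 1 →
      False := by
  intro p0 hp0 hp1 hp2 hp3
  have cA : Continuous (fun q => ev a (q - x)) :=
    (continuous_ev a).comp (continuous_id.sub continuous_const)
  have cB : Continuous (fun q => ev b (q - x)) :=
    (continuous_ev b).comp (continuous_id.sub continuous_const)
  set T : Set V := {p | p ∈ Sg P Q ∧ 0 ≤ ev a (p - x) ∧ 0 ≤ ev b (p - x) ∧
    ev a (p - x) + ev b (p - x) ≤ 1} with hTdef
  have hTc : IsClosed T :=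
    (isClosed_Sg hT).inter ((isClosed_le continuous_const cA).inter
      ((isClosed_le continuous_const cB).inter (isClosed_le (cA.add cB) continuous_const)))
  have hTk : IsCompact T := (isCompact_closedBall x R).of_isClosed_subset hTc
    (fun p hp => hR p hp.2.1 hp.2.2.1 hp.2.2.2)
  obtain ⟨p, hpT, hmin⟩ := hTk.exists_isMinOn ⟨p0, hp0, hp1, hp2, hp3⟩ (cA.add cB).continuousOn
  have hmin' : ∀ q ∈ T, ev a (p - x) + ev b (p - x) ≤ ev a (q - x) + ev b (q - x) :=
    fun q hq => hmin hq
  -- positivity on T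
  have hposA : ∀ q ∈ T, 0 < ev a (q - x) := by
    intro q hq
    rcases hq.2.1.lt_or_eq with h | h
    · exact h
    · exact (hb q hq.1 hq.2.2.1 (by linarith [hq.2.2.2]) h.symm).elim
  have hposB : ∀ q ∈ T, 0 < ev b (q - x) := by
    intro q hq
    rcases hq.2.2.1.lt_or_eq with h | h
    · exact h
    · exact (ha q hq.1 hq.2.1 (by linarith [hq.2.2.2]) h.symm).elim
  -- the affine function is constant on a segment through a minimal point
  have key : ∀ q ∈ T, ev a (q - x) + ev b (q - x) = ev a (p - x) + ev b (p - x) →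
      ∀ i, q ∈ openSegment ℝ (P i) (Q i) → ev (a + b) (Q i - P i) = 0 := by
    intro q hq hqm i hi
    by_contra hne
    obtain ⟨ε, hε, hε2⟩ := fcb_open hi
    set d := Q i - P i with hd
    have hA := hposA q hq
    have hB := hposB q hq
    -- choose small δ
    obtain ⟨δ, hδ0, hδ1, hδ2, hδ3⟩ : ∃ δ > 0, δ ≤ ε ∧ δ * |ev a d| ≤ ev a (q - x) ∧
        δ * |ev b d| ≤ ev b (q - x) := by
      refine ⟨min ε (min (ev a (q - x) / (|ev a d| + 1)) (ev b (q - x) / (|ev b d| + 1))),
        by positivity, min_le_left _ _, ?_, ?_⟩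
      · have h1 : min ε (min (ev a (q - x) / (|ev a d| + 1)) (ev b (q - x) / (|ev b d| + 1))) ≤
            ev a (q - x) / (|ev a d| + 1) := (min_le_right _ _).trans (min_le_left _ _)
        calc _ ≤ ev a (q - x) / (|ev a d| + 1) * |ev a d| :=
              mul_le_mul_of_nonneg_right h1 (abs_nonneg _)
          _ ≤ ev a (q - x) := by
              rw [div_mul_eq_mul_div, div_le_iff₀ (by positivity)]
              nlinarith [abs_nonneg (ev a d)]
      · have h1 : min ε (min (ev a (q - x) / (|ev a d| + 1)) (ev b (q - x) / (|ev b d| + 1))) ≤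
            ev b (q - x) / (|ev b d| + 1) := (min_le_right _ _).trans (min_le_right _ _)
        calc _ ≤ ev b (q - x) / (|ev b d| + 1) * |ev b d| :=
              mul_le_mul_of_nonneg_right h1 (abs_nonneg _)
          _ ≤ ev b (q - x) := by
              rw [div_mul_eq_mul_div, div_le_iff₀ (by positivity)]
              nlinarith [abs_nonneg (ev b d)]
    have hmem : ∀ t : ℝ, |t| ≤ δ → t * ev (a + b) d < 0 → False := by
      intro t ht htn
      have hs : q + t • d ∈ Sg P Q :=
        mem_iUnion.2 ⟨i, openSegment_subset_segment ℝ _ _ (hε2 t (ht.trans hδ1))⟩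
      have ea : ev a (q + t • d - x) = ev a (q - x) + t * ev a d := by
        rw [add_sub_right_comm, ev_add, ev_smul]
      have eb : ev b (q + t • d - x) = ev b (q - x) + t * ev b d := by
        rw [add_sub_right_comm, ev_add, ev_smul]
      have h1 : |t * ev a d| ≤ ev a (q - x) := by
        rw [abs_mul]
        exact (mul_le_mul_of_nonneg_right ht (abs_nonneg _)).trans hδ2
      have h2 : |t * ev b d| ≤ ev b (q - x) := by
        rw [abs_mul]
        exact (mul_le_mul_of_nonneg_right ht (abs_nonneg _)).trans hδ3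
      rw [abs_le] at h1 h2
      rw [ev_add_left] at htn
      have hin : q + t • d ∈ T := by
        refine ⟨hs, ?_, ?_, ?_⟩
        · rw [ea]; linarith [h1.1]
        · rw [eb]; linarith [h2.1]
        · rw [ea, eb]; linarith [hq.2.2.2]
      have := hmin' _ hin
      rw [ea, eb] at this
      linarith
    rcases lt_or_gt_of_ne hne with h | h
    · exact hmem δ (by rw [abs_of_pos hδ0]) (by nlinarith)
    · exact hmem (-δ) (by rw [abs_neg, abs_of_pos hδ0]) (by nlinarith)
  -- the first segment
  obtain ⟨i, hi⟩ := exists_relint hT hpT.1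
  have hki := key p hpT rfl i hi
  set m := ev a (p - x) + ev b (p - x) with hm
  have hconst : ∀ q ∈ segment ℝ (P i) (Q i), ev a (q - x) + ev b (q - x) = m := by
    intro q hq
    have hps : p ∈ segment ℝ (P i) (Q i) := openSegment_subset_segment ℝ _ _ hi
    rw [segment_eq_image'] at hq hps
    obtain ⟨s, _, rfl⟩ := hq
    obtain ⟨t, _, ht⟩ := hps
    simp only at ht ⊢
    rw [hm, ← ht]
    have e1 : ∀ r : ℝ, P i + r • (Q i - P i) - x = (P i - x) + r • (Q i - P i) := by
      intro r; rw [add_sub_right_comm]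
    rw [e1, e1]
    simp only [ev_add, ev_smul]
    rw [ev_add_left] at hki
    linear_combination (s - t) * hki
  have hm1 : m ≤ 1 := hpT.2.2.2
  have hP : P i ∈ T := by
    have hPs : P i ∈ segment ℝ (P i) (Q i) := left_mem_segment ℝ _ _
    have hps : p ∈ segment ℝ (P i) (Q i) := openSegment_subset_segment ℝ _ _ hi
    have hsub : segment ℝ (P i) p ⊆ segment ℝ (P i) (Q i) :=
      (convex_segment _ _).segment_subset hPs hps
    have hPc := hconst _ hPs
    refine ⟨mem_iUnion.2 ⟨i, hPs⟩, ?_, ?_, by rw [hPc]; exact hm1⟩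
    · by_contra hneg
      push Not at hneg
      obtain ⟨q, hq, hq0⟩ := fcb_zero hneg.le (hposA p hpT).le
      have hqc := hconst q (hsub hq)
      have hm0 : 0 < m := add_pos (hposA p hpT) (hposB p hpT)
      refine hb q (mem_iUnion.2 ⟨i, hsub hq⟩) ?_ ?_ hq0 <;> linarith
    · by_contra hneg
      push Not at hneg
      obtain ⟨q, hq, hq0⟩ := fcb_zero hneg.le (hposB p hpT).le
      have hqc := hconst q (hsub hq)
      have hm0 : 0 < m := add_pos (hposA p hpT) (hposB p hpT)
      refine ha q (mem_iUnion.2 ⟨i, hsub hq⟩) ?_ ?_ hq0 <;> linarith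
  obtain ⟨j, hj⟩ := hT.t2P i
  have hkj := key (P i) hP (hconst _ (left_mem_segment ℝ _ _)) j hj
  have hdi : Q i - P i ≠ 0 := sub_ne_zero.2 (hT.ne i).symm
  have hdj : Q j - P j ≠ 0 := sub_ne_zero.2 (hT.ne j).symm
  obtain ⟨s, hs⟩ := fcb_par hab hkj hki hdj
  have hij : i ≠ j := by
    rintro rfl
    rw [left_mem_openSegment_iff] at hj
    exact hT.ne i hj
  obtain ⟨ε, hε, hε2⟩ := fcb_open hj
  -- a common point
  obtain ⟨δ, hδ0, hδ1, hδ2⟩ : ∃ δ > 0, δ < 1 ∧ δ * |s| ≤ ε := by
    refine ⟨min (1 / 2) (ε / (|s| + 1)), by positivity,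
      (min_le_left _ _).trans_lt (by norm_num), ?_⟩
    calc _ ≤ ε / (|s| + 1) * |s| := mul_le_mul_of_nonneg_right (min_le_right _ _) (abs_nonneg _)
      _ ≤ ε := by
          rw [div_mul_eq_mul_div, div_le_iff₀ (by positivity)]
          nlinarith [abs_nonneg s]
  have c1 : P i + δ • (Q i - P i) ∈ openSegment ℝ (P i) (Q i) := by
    rw [openSegment_eq_image']
    exact ⟨δ, ⟨hδ0, hδ1⟩, rfl⟩
  have c2 : P i + δ • (Q i - P i) ∈ openSegment ℝ (P j) (Q j) := by
    rw [hs, smul_smul]
    apply hε2
    rw [abs_mul, abs_of_pos hδ0]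
    exact hδ2
  exact (Set.disjoint_left.1 (hT.t1 i j hij)) c1 c2

/-- Job B1b. -/
theorem Vis_convex (hT : IsT P Q Lam) {x : V} (hx : x ∉ Sg P Q) : Convex ℝ (Vis (Sg P Q) x) := by
  rw [convex_iff_segment_subset]
  intro y hy z hz m hm
  simp only [Vis, mem_setOf_eq, Set.disjoint_left] at hy hz ⊢
  intro p hp hpS
  -- coordinates of p
  rw [segment_eq_image'] at hm hp
  obtain ⟨t, ⟨ht0, ht1⟩, rfl⟩ := hm
  obtain ⟨r, ⟨hr0, hr1⟩, rfl⟩ := hp
  simp only at hpS
  set u := y - x with hu
  set w := z - x with hw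
  have hpe : x + r • (y + t • (z - y) - x) = x + ((r * (1 - t)) • u + (r * t) • w) := by
    have : y + t • (z - y) - x = (1 - t) • u + t • w := by
      rw [hu, hw]; module
    rw [this]; module
  rw [hpe] at hpS
  have hy' : ∀ s : ℝ, 0 ≤ s → s ≤ 1 → x + s • u ∉ Sg P Q := by
    intro s h0 h1
    apply hy
    rw [segment_eq_image']
    exact ⟨s, ⟨h0, h1⟩, rfl⟩
  have hz' : ∀ s : ℝ, 0 ≤ s → s ≤ 1 → x + s • w ∉ Sg P Q := by
    intro s h0 h1
    apply hz
    rw [segment_eq_image']
    exact ⟨s, ⟨h0, h1⟩, rfl⟩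
  obtain ⟨α, β, hα, hβ, hαβ, hpS'⟩ : ∃ α β : ℝ, 0 ≤ α ∧ 0 ≤ β ∧ α + β ≤ 1 ∧
      x + (α • u + β • w) ∈ Sg P Q :=
    ⟨r * (1 - t), r * t, by nlinarith, by positivity, by nlinarith, hpS⟩
  by_cases hD : cr u w = 0
  · -- collinear case
    by_cases hu0 : u = 0
    · rw [hu0, smul_zero, zero_add] at hpS'
      exact hz' β hβ (by linarith) hpS'
    · obtain ⟨c, hc⟩ := fcb_par (c := pp u) (d := u) (e := w)
        (by
          intro h
          apply hu0
          have h0 := congrFun h 0
          have h1 := congrFun h 1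
          simp [pp] at h0 h1
          ext i; fin_cases i
          · exact h1
          · exact h0)
        (by rw [ev_pp, cr_self]) (by rw [ev_pp]; exact hD) hu0
      have hp2 : x + (α • u + β • w) = x + (α + β * c) • u := by
        rw [hc]; module
      by_cases hc1 : c ≤ 1
      · by_cases hneg : 0 ≤ α + β * c
        · rw [hp2] at hpS'
          exact hy' _ hneg (by nlinarith) hpS'
        · push Not at hneg
          have hcneg : c < 0 := by
            by_contra h
            push Not at h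
            nlinarith [mul_nonneg hβ h]
          have hp3 : x + (α • u + β • w) = x + ((α + β * c) / c) • w := by
            rw [hp2, hc, smul_smul, div_mul_cancel₀ _ hcneg.ne]
          rw [hp3] at hpS'
          refine hz' _ ?_ ?_ hpS'
          · exact div_nonneg_of_nonpos hneg.le hcneg.le
          · rw [div_le_one_of_neg hcneg]
            nlinarith
      · push Not at hc1
        have hc0 : 0 < c := by linarith
        have hp3 : x + (α • u + β • w) = x + ((α + β * c) / c) • w := by
          rw [hp2, hc, smul_smul, div_mul_cancel₀ _ hc0.ne']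
        rw [hp3] at hpS'
        refine hz' _ (by positivity) ?_ hpS'
        rw [div_le_one hc0]
        nlinarith
  · -- the triangle
    set D := cr u w with hDdef
    -- coefficient functionals
    set a : V := D⁻¹ • ![w 1, -w 0] with ha
    set b : V := D⁻¹ • ![-u 1, u 0] with hb
    have eva : ∀ v : V, ev a v = cr v w / D := by
      intro v; rw [ha, ev_smul_left]; simp [ev, cr]; ring
    have evb : ∀ v : V, ev b v = cr u v / D := by
      intro v; rw [hb, ev_smul_left]; simp [ev, cr]; ring
    have au : ev a u = 1 := by rw [eva]; exact div_self hD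
    have aw : ev a w = 0 := by rw [eva, cr_self, zero_div]
    have bu : ev b u = 0 := by rw [evb, cr_self, zero_div]
    have bw : ev b w = 1 := by rw [evb]; exact div_self hD
    have hexp : ∀ v : V, v = ev a v • u + ev b v • w := by
      intro v
      have h := cr_expand u w v
      have h2 : (cr u w) • v = (cr v w) • u + (cr u v) • w := by
        rw [h, cr_comm v u]; module
      rw [eva, evb]
      calc v = D⁻¹ • (D • v) := by rw [smul_smul, inv_mul_cancel₀ hD, one_smul]
        _ = D⁻¹ • ((cr v w) • u + (cr u v) • w) := by rw [← h2]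
        _ = (cr v w / D) • u + (cr u v / D) • w := by
            rw [smul_add, smul_smul, smul_smul, div_eq_inv_mul, div_eq_inv_mul]
    have hab : a + b ≠ 0 := by
      intro h
      have : ev (a + b) u = 0 := by rw [h, ev_zero_left]
      rw [ev_add_left, au, bu] at this
      norm_num at this
    refine fcb_core hT (x := x) (R := ‖u‖ + ‖w‖) hab ?_ ?_ ?_ _ hpS' ?_ ?_ ?_
    · intro p h1 h2 h3
      rw [Metric.mem_closedBall, dist_eq_norm, hexp (p - x)]
      refine (norm_add_le _ _).trans ?_
      rw [norm_smul, norm_smul, Real.norm_eq_abs, Real.norm_eq_abs, abs_of_nonneg h1,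
        abs_of_nonneg h2]
      have := norm_nonneg u
      have := norm_nonneg w
      nlinarith
    · intro p hp h1 h2 h3
      have := hexp (p - x)
      rw [h3, zero_smul, add_zero] at this
      have hpx : p = x + ev a (p - x) • u := by rw [← this]; abel
      exact hy' _ h1 h2 (hpx ▸ hp)
    · intro p hp h1 h2 h3
      have := hexp (p - x)
      rw [h3, zero_smul, zero_add] at this
      have hpx : p = x + ev b (p - x) • w := by rw [← this]; abel
      exact hz' _ h1 h2 (hpx ▸ hp)
    · rw [add_sub_cancel_left, ev_add, ev_smul, ev_smul, au, aw]; linarith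
    · rw [add_sub_cancel_left, ev_add, ev_smul, ev_smul, bu, bw]; linarith
    · rw [add_sub_cancel_left]
      simp only [ev_add, ev_smul, au, aw, bu, bw]
      linarith

end Pool.Agent.H.MP_929345_co.Pl
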