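import Pool.Agent.H.MP_929345_co.Pl.FcB

/-! B1c: faces -/

set_option autoImplicit false

open MeasureTheory Set

namespace Pool.Agent.H.MP_929345_co.Pl

variable {ι : Type*} {P Q : ι → V} {Lam : ℝ}

/-- Job B1c. -/
theorem Vis_isOpen (hT : IsT P Q Lam) (x : V) : IsOpen (Vis (Sg P Q) x) := by
  rw [Metric.isOpen_iff]
  intro y hy
  have hcomp : IsCompact (segment ℝ x y) := by
    rw [segment_eq_image]
    exact isCompact_Icc.image (by fun_prop)
  have hsub : segment ℝ x y ⊆ (Sg P Q)ᶜ := fun z hz hz2 => (Set.disjoint_left.1 hy) hz hz2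
  obtain ⟨δ, hδ, hth⟩ := hcomp.exists_thickening_subset_open (isClosed_Sg hT).isOpen_compl hsub
  refine ⟨δ, hδ, ?_⟩
  intro y' hy'
  change Disjoint (segment ℝ x y') (Sg P Q)
  rw [Set.disjoint_left]
  intro z' hz'
  rw [segment_eq_image] at hz'
  obtain ⟨θ, ⟨h0, h1⟩, rfl⟩ := hz'
  have hz : (1 - θ) • x + θ • y ∈ segment ℝ x y := by
    rw [segment_eq_image]
    exact ⟨θ, ⟨h0, h1⟩, rfl⟩
  have hin : (1 - θ) • x + θ • y' ∈ Metric.thickening δ (segment ℝ x y) := by
    rw [Metric.mem_thickening_iff]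
    refine ⟨_, hz, ?_⟩
    rw [dist_eq_norm]
    have h2 : (1 - θ) • x + θ • y' - ((1 - θ) • x + θ • y) = θ • (y' - y) := by
      rw [smul_sub]
      abel
    rw [h2, norm_smul, Real.norm_eq_abs, abs_of_nonneg h0]
    have h3 : ‖y' - y‖ < δ := by
      rw [← dist_eq_norm]
      exact hy'
    calc θ * ‖y' - y‖ ≤ 1 * ‖y' - y‖ := mul_le_mul_of_nonneg_right h1 (norm_nonneg _)
      _ = ‖y' - y‖ := one_mul _
      _ < δ := h3
  exact hth hin

/-- Job B1c. -/
theorem self_mem_Vis {x : V} (hx : x ∉ Sg P Q) : x ∈ Vis (Sg P Q) x := by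
  simp only [Vis, mem_setOf_eq, segment_same, disjoint_singleton_left]
  exact hx

/-- Job B1c. -/
theorem Vis_subset (hT : IsT P Q Lam) (x : V) : Vis (Sg P Q) x ⊆ Metric.closedBall x Lam := by
  intro y hy
  rw [Metric.mem_closedBall, dist_eq_norm]
  exact hT.bd x y hy

/-- Job B1c. -/
theorem Vis_disjoint {x : V} : Disjoint (Vis (Sg P Q) x) (Sg P Q) := by
  rw [Set.disjoint_left]
  intro y hy hy2
  exact (Set.disjoint_left.1 hy) (right_mem_segment ℝ x y) hy2

/-- Job B1c. -/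
theorem Vis_eq (hT : IsT P Q Lam) {x y : V} (hx : x ∉ Sg P Q) (hy : y ∈ Vis (Sg P Q) x) :
    Vis (Sg P Q) y = Vis (Sg P Q) x := by
  have hyS : y ∉ Sg P Q := Set.disjoint_left.1 Vis_disjoint hy
  have hxy : x ∈ Vis (Sg P Q) y := by
    change Disjoint (segment ℝ y x) (Sg P Q)
    rw [segment_symm]
    exact hy
  apply Set.Subset.antisymm
  · intro z hz
    have h1 := (Vis_convex hT hyS).segment_subset hxy hz
    exact Vis_disjoint.mono_left h1
  · intro z hz
    have h1 := (Vis_convex hT hx).segment_subset hy hz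
    exact Vis_disjoint.mono_left h1

/-- Job B1c. -/
theorem mem_of_closure (hT : IsT P Q Lam) {x z : V} (hx : x ∉ Sg P Q)
    (hz : z ∈ closure (Vis (Sg P Q) x)) (hzS : z ∉ Sg P Q) : z ∈ Vis (Sg P Q) x := by
  obtain ⟨r, hr, hball⟩ := Metric.isOpen_iff.1 (isClosed_Sg hT).isOpen_compl z hzS
  obtain ⟨y, hy, hyz⟩ := Metric.mem_closure_iff.1 hz r hr
  rw [← Vis_eq hT hx hy]
  change Disjoint (segment ℝ y z) (Sg P Q)
  have h1 : segment ℝ y z ⊆ Metric.ball z r := by
    apply (convex_ball z r).segment_subset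
    · rw [Metric.mem_ball, dist_comm]
      exact hyz
    · exact Metric.mem_ball_self hr
  rw [Set.disjoint_left]
  intro w hw
  exact hball (h1 hw)

end Pool.Agent.H.MP_929345_co.Pl
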