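import Pool.Agent.H.MP_929345_co.Pl.FcC

/-! B2: a face is on one side of a segment -/

set_option autoImplicit false

open MeasureTheory Set

namespace Pool.Agent.H.MP_929345_co.Pl

variable {ι : Type*} {P Q : ι → V} {Lam : ℝ}

theorem fcd_par {d u : V} (hd : d ≠ 0) (h : cr d u = 0) : ∃ t : ℝ, u = t • d := by
  by_cases h0 : d 0 = 0
  · have h1 : d 1 ≠ 0 := by
      intro h1
      apply hd
      ext i; fin_cases i
      · exact h0
      · exact h1
    refine ⟨u 1 / d 1, ?_⟩
    have hu : u 0 = 0 := by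
      simp only [cr, h0] at h
      have : d 1 * u 0 = 0 := by linarith
      rcases mul_eq_zero.mp this with h' | h'
      · exact absurd h' h1
      · exact h'
    ext i; fin_cases i
    · simp [h0, hu]
    · simp only [Pi.smul_apply, smul_eq_mul]
      field_simp
      rfl
  · refine ⟨u 0 / d 0, ?_⟩
    ext i; fin_cases i
    · simp only [Pi.smul_apply, smul_eq_mul]
      field_simp
      rfl
    · simp only [Pi.smul_apply, smul_eq_mul]
      simp only [cr] at h
      show u 1 = u 0 / d 0 * d 1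
      field_simp
      linarith

theorem fcd_ne (hT : IsT P Q Lam) {x v : V} (hx : x ∉ Sg P Q)
    (hv : v ∈ closure (Vis (Sg P Q) x)) {j : ι} (hj : v ∈ openSegment ℝ (P j) (Q j))
    {w : V} (hw : w ∈ Vis (Sg P Q) x) : cr (Q j - P j) (w - v) ≠ 0 := by
  intro h0
  have hd : Q j - P j ≠ 0 := sub_ne_zero.mpr (hT.ne j).symm
  obtain ⟨t, ht⟩ := fcd_par hd h0
  rw [openSegment_eq_image'] at hj
  obtain ⟨s, ⟨hs0, hs1⟩, hsv⟩ := hj
  simp only at hsv
  have hopen := Vis_isOpen hT x
  have hconv := Vis_convex hT hx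
  have hseg := hconv.openSegment_interior_closure_subset_interior (x := w) (y := v)
    (by rw [hopen.interior_eq]; exact hw) hv
  rw [hopen.interior_eq] at hseg
  set m : ℝ := min s (1 - s) with hm
  have hm0 : 0 < m := lt_min hs0 (by linarith)
  have hms : m ≤ s := min_le_left _ _
  have hms' : m ≤ 1 - s := min_le_right _ _
  have habs : 0 ≤ |t| := abs_nonneg t
  set ε : ℝ := m / (1 + |t|) with hε
  have hε0 : 0 < ε := by positivity
  have hεm : ε * (1 + |t|) = m := by rw [hε]; field_simp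
  have hε1 : ε < 1 := by nlinarith
  have hεt : |ε * t| ≤ m := by
    rw [abs_mul, abs_of_pos hε0]; nlinarith
  have h1 := abs_le.mp hεt
  have hmem : ε • w + (1 - ε) • v ∈ Vis (Sg P Q) x := by
    apply hseg
    exact ⟨ε, 1 - ε, hε0, by linarith, by ring, rfl⟩
  have hS : ε • w + (1 - ε) • v ∈ Sg P Q := by
    refine mem_iUnion.mpr ⟨j, ?_⟩
    rw [segment_eq_image']
    refine ⟨s + ε * t, ⟨by linarith, by linarith⟩, ?_⟩
    have hw' : w = v + t • (Q j - P j) := by rw [← ht]; abel
    simp only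
    rw [hw', ← hsv]
    module
  exact (Set.disjoint_left.1 Vis_disjoint) hmem hS

/-- Job B2. -/
theorem one_side (hT : IsT P Q Lam) {x v : V} (hx : x ∉ Sg P Q)
    (hv : v ∈ closure (Vis (Sg P Q) x)) {j : ι} (hj : v ∈ openSegment ℝ (P j) (Q j)) :
    (∀ w ∈ Vis (Sg P Q) x, cr (Q j - P j) (w - v) < 0) ∨
      (∀ w ∈ Vis (Sg P Q) x, 0 < cr (Q j - P j) (w - v)) := by
  have hconv := Vis_convex hT hx
  by_contra hcon
  push Not at hcon
  obtain ⟨⟨w2, hw2, h2⟩, ⟨w1, hw1, h1⟩⟩ := hcon
  have h2' : 0 < cr (Q j - P j) (w2 - v) :=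
    lt_of_le_of_ne h2 (fcd_ne hT hx hv hj hw2).symm
  have h1' : cr (Q j - P j) (w1 - v) < 0 :=
    lt_of_le_of_ne h1 (fcd_ne hT hx hv hj hw1)
  set a := cr (Q j - P j) (w1 - v)
  set b := cr (Q j - P j) (w2 - v)
  have hab : 0 < b - a := by linarith
  have hmem : (b / (b - a)) • w1 + ((-a) / (b - a)) • w2 ∈ Vis (Sg P Q) x := by
    apply hconv hw1 hw2
    · positivity
    · have : 0 < -a := by linarith
      positivity
    · field_simp
      ring
  apply fcd_ne hT hx hv hj hmem
  have e : (b / (b - a)) • w1 + ((-a) / (b - a)) • w2 - v =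
      (b / (b - a)) • (w1 - v) + ((-a) / (b - a)) • (w2 - v) := by
    have h : v = (b / (b - a) + (-a) / (b - a)) • v := by
      rw [← add_div]
      rw [show b + -a = b - a by ring, div_self hab.ne', one_smul]
    conv_lhs => rw [h]
    module
  rw [e, cr_add_right, cr_smul_right, cr_smul_right]
  show b / (b - a) * a + -a / (b - a) * b = 0
  field_simp
  ring

end Pool.Agent.H.MP_929345_co.Pl
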