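import Pool.Agent.H.MP_929345_co.Pl.Hs

/-! E1, E2: windows -/

set_option autoImplicit false

open MeasureTheory Set

namespace Pool.Agent.H.MP_929345_co.Pl

private lemma fia_ev (f : V →L[ℝ] ℝ) (x : V) :
    ev ![f (Pi.single 0 1), f (Pi.single 1 1)] x = f x := by
  have hx : x = x 0 • (Pi.single 0 1 : V) + x 1 • (Pi.single 1 1 : V) := by
    ext i; fin_cases i <;> simp
  conv_rhs => rw [hx]
  rw [map_add, map_smul, map_smul]
  simp [ev]; ring

private lemma fia_interior {C : Set V} (hC : IsBody C) {x : V} (hx : x ∈ C) {l : ℝ}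
    (hl : |l| < 1) : l • x ∈ interior C := by
  have h0 := zero_mem_interior hC
  rcases le_total 0 l with h | h
  · rw [abs_of_nonneg h] at hl
    have := hC.convex.combo_self_interior_mem_interior hx h0 h (sub_pos.2 hl) (by ring)
    simpa using this
  · rw [abs_of_nonpos h] at hl
    have := hC.convex.combo_self_interior_mem_interior (hC.symm x hx) h0 (neg_nonneg.2 h)
      (sub_pos.2 hl) (by ring)
    simpa using this

/-- Job E1. -/
theorem ts_of_totSep {C X : Set V} (hC : IsBody C) (h : TotSep C X) : TS C X := by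
  intro x hx y hy hne
  obtain ⟨f, hf0, t, h1, h2, h3⟩ := h x hx y hy hne
  have hCn : C.Nonempty := ⟨0, zero_mem hC⟩
  have ha : (![f (Pi.single 0 1), f (Pi.single 1 1)] : V) ≠ 0 := by
    intro h0
    apply hf0
    ext v
    rw [← fia_ev f v, h0, ev_zero_left]
    rfl
  refine ⟨![f (Pi.single 0 1), f (Pi.single 1 1)], t, ha, ?_, ?_, ?_⟩
  · have : hs C ![f (Pi.single 0 1), f (Pi.single 1 1)] ≤ t - f x := by
      refine hs_le hCn fun w hw => ?_
      rw [fia_ev]
      have := h1 w hw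
      rw [map_add] at this
      linarith
    rw [fia_ev]
    linarith
  · have : hs C ![f (Pi.single 0 1), f (Pi.single 1 1)] ≤ f y - t := by
      refine hs_le hCn fun w hw => ?_
      rw [fia_ev]
      have := h2 (-w) (hC.symm w hw)
      rw [map_add, map_neg] at this
      linarith
    rw [fia_ev]
    linarith
  · intro z hz
    by_contra hcon
    push Not at hcon
    obtain ⟨c1, c2⟩ := hcon
    set a : V := ![f (Pi.single 0 1), f (Pi.single 1 1)] with hadef
    have hpos := hs_pos hC ha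
    obtain ⟨w, hw, hwa⟩ := exists_hs hC.compact hCn a
    have hl : |(t - ev a z) / hs C a| < 1 := by
      rw [abs_div, abs_of_pos hpos, div_lt_one hpos, abs_lt]
      constructor <;> linarith
    have hmem := fia_interior hC hw hl
    have := h3 z hz _ hmem
    apply this
    rw [map_add, ← fia_ev f z, ← fia_ev f (((t - ev a z) / hs C a) • w), ← hadef, ev_smul, hwa]
    field_simp
    ring

/-- Job E2.  Windows. -/
theorem window {C : Set V} (hC : IsBody C) (R : ℝ) : ∃ ρ0 : ℝ, 1 ≤ ρ0 ∧ ∀ ρ ≥ ρ0, ∀ X : Set V,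
    RhoSep ρ C X → ∀ z, TS C {x | x ∈ X ∧ ‖x - z‖ ≤ R} := by
  obtain ⟨rC, hrC, hball⟩ := exists_ball hC
  obtain ⟨RC, hRC, hrad⟩ := exists_radius hC
  refine ⟨max 1 ((2 * R + RC) / rC), le_max_left _ _, fun ρ hρ X hX z => ?_⟩
  have hρ1 : 1 ≤ ρ := (le_max_left _ _).trans hρ
  have hρ2 : 2 * R + RC ≤ ρ * rC := by
    have := (le_max_right _ _).trans hρ
    rwa [div_le_iff₀ hrC] at this
  have hρ0 : 0 < ρ := by linarith
  intro x hx y hy hne
  have hTS := ts_of_totSep hC (hX x hx.1)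
  have hsub : ∀ u : V, u ∈ {x | x ∈ X ∧ ‖x - z‖ ≤ R} →
      u ∈ {c' ∈ X | ∀ w ∈ C, ∃ v ∈ C, c' + w = x + ρ • v} := by
    intro u hu
    refine ⟨hu.1, fun w hw => ?_⟩
    refine ⟨ρ⁻¹ • (u + w - x), hball ?_, ?_⟩
    · rw [mem_closedBall_zero_iff, norm_smul, Real.norm_eq_abs, abs_of_pos (inv_pos.2 hρ0),
        inv_mul_le_iff₀ hρ0]
      have h1 : u + w - x = (u - z) + w - (x - z) := by abel
      have h2 : ‖w‖ ≤ RC := mem_closedBall_zero_iff.1 (hrad hw)
      calc ‖u + w - x‖ = ‖(u - z) + w - (x - z)‖ := by rw [h1]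
        _ ≤ ‖(u - z) + w‖ + ‖x - z‖ := norm_sub_le _ _
        _ ≤ ‖u - z‖ + ‖w‖ + ‖x - z‖ := by gcongr; exact norm_add_le _ _
        _ ≤ R + RC + R := by gcongr; exacts [hu.2, hx.2]
        _ ≤ ρ * rC := by linarith
    · rw [smul_inv_smul₀ hρ0.ne']
      abel
  obtain ⟨f, t, h0, h1, h2, h3⟩ := hTS x (hsub x hx) y (hsub y hy) hne
  exact ⟨f, t, h0, h1, h2, fun u hu => h3 u (hsub u hu)⟩

end Pool.Agent.H.MP_929345_co.Pl
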