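import Pool.Agent.H.MP_929345_co.Pl.KapC
import Pool.Agent.H.MP_929345_co.Vol

/-! E3: upper bound for the density -/

set_option autoImplicit false

open MeasureTheory Set Filter
open scoped Topology ENNReal

namespace Pool.Agent.H.MP_929345_co.Pl

lemma beta_pos {C : Set V} (hC : IsBody C) : 0 < beta C :=
  lt_of_lt_of_le (vl_pos hC) (vl_le_beta hC)

lemma finite_inter_ball {C X : Set V} (hC : IsBody C) (hX : IsPacking C X) (R : ℝ) :
    (X ∩ Metric.closedBall 0 R).Finite := by
  obtain ⟨a, ha, hCa⟩ := exists_radius hC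
  have hfin := finite_inter hC (T := X) (fun x hx y hy hne => by linarith [hX x hx y hy hne])
    (r := |R| + a) (by positivity)
  apply hfin.subset
  rintro x ⟨hx, hxR⟩
  refine ⟨hx, ?_⟩
  intro w hw i
  have h1 : ‖x‖ ≤ R := by simpa using hxR
  have h2 : ‖w‖ ≤ a := by simpa using hCa hw
  have h3 := norm_le_pi_norm x i
  have h4 := norm_le_pi_norm w i
  rw [Real.norm_eq_abs] at h3 h4
  calc |x i + w i| ≤ |x i| + |w i| := abs_add_le _ _
    _ ≤ |R| + a := by linarith [le_abs_self R]

/-- Job E3.  Upper bound for the density. -/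
theorem dens_le {C X : Set V} (hC : IsBody C) (hX : IsPacking C X) {K' : ℝ}
    (h : ∀ R : ℝ, 1 ≤ R → beta C * (X ∩ Metric.closedBall 0 R).ncard ≤ 4 * R ^ 2 + K' * R) :
    dens C X ≤ ENNReal.ofReal (vl C / beta C) := by
  have hb := beta_pos hC
  have hv := vl_pos hC
  have hvol : volume C = ENNReal.ofReal (vl C) := by
    unfold vl; rw [ENNReal.ofReal_toReal hC.compact.measure_lt_top.ne]
  rw [dens_def]
  have hlim : Tendsto (fun r : ℝ => ENNReal.ofReal (vl C / beta C * (1 + K' / 4 / r))) atTop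
      (𝓝 (ENNReal.ofReal (vl C / beta C))) := by
    have h1 : Tendsto (fun r : ℝ => vl C / beta C * (1 + K' / 4 / r)) atTop
        (𝓝 (vl C / beta C * (1 + 0))) :=
      (tendsto_const_nhds.add (tendsto_const_nhds.div_atTop tendsto_id)).const_mul _
    rw [add_zero, mul_one] at h1
    exact ENNReal.tendsto_ofReal h1
  rw [← hlim.limsup_eq]
  refine limsup_le_limsup ?_
  filter_upwards [eventually_ge_atTop 1] with r hr
  have hr0 : 0 < r := by linarith
  have hsub : X ∩ Win C r ⊆ X ∩ Metric.closedBall 0 r := by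
    rintro x ⟨hx, hxW⟩
    refine ⟨hx, ?_⟩
    rw [mem_closedBall_zero_iff, pi_norm_le_iff_of_nonneg hr0.le]
    intro i
    have := hxW 0 (zero_mem hC) i
    simpa using this
  have hN : ((X ∩ Win C r).ncard : ℝ) ≤ (X ∩ Metric.closedBall 0 r).ncard := by
    exact_mod_cast Set.ncard_le_ncard hsub (finite_inter_ball hC hX r)
  have h1 := h r hr
  have h2 : ((X ∩ Win C r).ncard : ℝ) * vl C ≤ vl C / beta C * (1 + K' / 4 / r) * (2 * r) ^ 2 := by
    have e : vl C / beta C * (1 + K' / 4 / r) * (2 * r) ^ 2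
        = (4 * r ^ 2 + K' * r) / beta C * vl C := by
      field_simp
      ring
    rw [e]
    apply mul_le_mul_of_nonneg_right _ hv.le
    rw [le_div_iff₀ hb]
    nlinarith
  rw [ENNReal.div_le_iff (by
      have : (0 : ℝ) < (2 * r) ^ 2 := by positivity
      exact (ENNReal.ofReal_pos.2 this).ne') ENNReal.ofReal_ne_top, hvol,
    ← ENNReal.ofReal_natCast, ← ENNReal.ofReal_mul (by positivity),
    ← ENNReal.ofReal_mul' (by positivity)]
  exact ENNReal.ofReal_le_ofReal h2

end Pool.Agent.H.MP_929345_co.Pl
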