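import Pool.Agent.H.MP_929345_co.Pl.KapC
import Pool.Agent.H.MP_929345_co.Pl.CorB
import Pool.Agent.H.MP_929345_co.Pl.FiB
import Pool.Agent.H.MP_929345_co.Vol

/-! E4: lattice packings -/

set_option autoImplicit false

open MeasureTheory Set Filter
open scoped Topology ENNReal

namespace Pool.Agent.H.MP_929345_co.Pl

/-- The functional `ev a` as a continuous linear map. -/
noncomputable def evL (a : V) : V →L[ℝ] ℝ :=
  a 0 • ContinuousLinearMap.proj (R := ℝ) (φ := fun _ : Fin 2 => ℝ) 0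
    + a 1 • ContinuousLinearMap.proj (R := ℝ) (φ := fun _ : Fin 2 => ℝ) 1

lemma evL_apply (a x : V) : evL a x = ev a x := by
  simp [evL, ev]

lemma evL_ne {a : V} (ha : a ≠ 0) : evL a ≠ 0 := by
  intro h
  have : evL a a = 0 := by rw [h]; rfl
  rw [evL_apply] at this
  have h0 : a 0 * a 0 + a 1 * a 1 = 0 := by simpa [ev] using this
  apply ha
  have h1 : a 0 = 0 := by nlinarith [mul_self_nonneg (a 0), mul_self_nonneg (a 1)]
  have h2 : a 1 = 0 := by nlinarith [mul_self_nonneg (a 0), mul_self_nonneg (a 1)]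
  ext i; fin_cases i
  · exact h1
  · exact h2

lemma ev_le_gauge {C : Set V} (hC : IsBody C) (a z : V) : ev a z ≤ gauge C z * hs C a := by
  rcases (gauge_nonneg (s := C) z).lt_or_eq with hg | hg
  · have hm : (gauge C z)⁻¹ • z ∈ C := by
      apply hC.gauge_le_one_iff.1
      rw [gauge_smul_of_nonneg (by positivity), smul_eq_mul, inv_mul_cancel₀ hg.ne']
    have := le_hs hC.compact hm a
    rw [ev_smul, inv_mul_le_iff₀ hg] at this
    exact this
  · have hz : z = 0 := (hC.gauge_eq_zero_iff z).1 hg.symm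
    rw [hz, ev_zero, gauge_zero, zero_mul]

/-- The lattice. -/
def Lt (C : Set V) (a b : V) : Set V :=
  {x | ∃ m n : ℤ, ev a x = 2 * hs C a * m ∧ ev b x = 2 * hs C b * n}

lemma ext_ev {a b x y : V} (hab : cr a b ≠ 0) (h1 : ev a x = ev a y) (h2 : ev b x = ev b y) :
    x = y := by
  have e0 : ∀ x : V, cr a b * x 0 = b 1 * ev a x - a 1 * ev b x := by
    intro x; simp [cr, ev]; ring
  have e1 : ∀ x : V, cr a b * x 1 = a 0 * ev b x - b 0 * ev a x := by
    intro x; simp [cr, ev]; ring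
  ext i
  fin_cases i
  · have := e0 x
    rw [h1, h2, ← e0 y] at this
    exact mul_left_cancel₀ hab this
  · have := e1 x
    rw [h1, h2, ← e1 y] at this
    exact mul_left_cancel₀ hab this

lemma Lt_packing {C : Set V} (hC : IsBody C) {a b : V} (hab : cr a b ≠ 0) :
    IsPacking C (Lt C a b) := by
  have hapos := hs_pos hC (cr_ne_zero_left hab)
  have hbpos := hs_pos hC (cr_ne_zero_right hab)
  rintro x ⟨m, n, h1, h2⟩ y ⟨m', n', h3, h4⟩ hne
  have key : ∀ (c : V) (H : ℝ) (k k' : ℤ), 0 < H → hs C c = H → ev c x = 2 * H * k →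
      ev c y = 2 * H * k' → k ≠ k' → 2 ≤ gauge C (x - y) := by
    intro c H k k' hH hc e1 e2 hk
    rcases lt_or_gt_of_ne hk with hlt | hgt
    · have h5 : (k : ℝ) + 1 ≤ k' := by exact_mod_cast hlt
      have h6 := ev_le_gauge hC (-c) (x - y)
      rw [hs_neg hC, hc, ev_neg_left, ev_sub, e1, e2] at h6
      by_contra hcon
      push Not at hcon
      nlinarith
    · have h5 : (k' : ℝ) + 1 ≤ k := by exact_mod_cast hgt
      have h6 := ev_le_gauge hC c (x - y)
      rw [hc, ev_sub, e1, e2] at h6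
      by_contra hcon
      push Not at hcon
      nlinarith
  by_cases hm : m = m'
  · by_cases hn : n = n'
    · exfalso
      apply hne
      apply ext_ev hab
      · rw [h1, h3, hm]
      · rw [h2, h4, hn]
    · exact key b _ n n' hbpos rfl h2 h4 hn
  · exact key a _ m m' hapos rfl h1 h3 hm

lemma sep_of_lt {C X : Set V} (hC : IsBody C) {c : V} (hc : c ≠ 0)
    (hX : ∀ z ∈ X, ∃ k : ℤ, ev c z = 2 * hs C c * k) {x y : V} (hx : x ∈ X) (hy : y ∈ X)
    (hlt : ev c x < ev c y) : ∃ f : V →L[ℝ] ℝ, f ≠ 0 ∧ ∃ t : ℝ,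
    (∀ w ∈ C, f (x + w) ≤ t) ∧ (∀ w ∈ C, t ≤ f (y + w)) ∧
    ∀ z ∈ X, ∀ w ∈ interior C, f (z + w) ≠ t := by
  have hpos := hs_pos hC hc
  obtain ⟨k, hk⟩ := hX x hx
  obtain ⟨k', hk'⟩ := hX y hy
  have hkk : k < k' := by
    rw [hk, hk'] at hlt
    have : (k : ℝ) < k' := by
      by_contra hcon
      push Not at hcon
      have := mul_le_mul_of_nonneg_left hcon (by positivity : (0:ℝ) ≤ 2 * hs C c)
      linarith
    exact_mod_cast this
  have hkk' : (k : ℝ) + 1 ≤ k' := by exact_mod_cast hkk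
  refine ⟨evL c, evL_ne hc, 2 * hs C c * k + hs C c, ?_, ?_, ?_⟩
  · intro w hw
    rw [evL_apply, ev_add, hk]
    linarith [le_hs hC.compact hw c]
  · intro w hw
    rw [evL_apply, ev_add, hk']
    have := le_hs hC.compact hw (-c)
    rw [hs_neg hC, ev_neg_left] at this
    nlinarith
  · intro z hz w hw heq
    obtain ⟨l, hl⟩ := hX z hz
    rw [evL_apply, ev_add, hl] at heq
    have h1 := ev_lt_hs hC hc hw
    have h2 : -ev c w < hs C c := by
      have := ev_lt_hs hC (neg_ne_zero.2 hc) hw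
      rwa [hs_neg hC, ev_neg_left] at this
    -- `ev c w = hs (2 (k - l) + 1)`
    rcases lt_trichotomy l k with h | h | h
    · have h3 : (l : ℝ) + 1 ≤ k := by exact_mod_cast h
      nlinarith
    · subst h; linarith
    · have h3 : (k : ℝ) + 1 ≤ l := by exact_mod_cast h
      nlinarith

lemma Lt_totSep {C : Set V} (hC : IsBody C) {a b : V} (hab : cr a b ≠ 0) :
    TotSep C (Lt C a b) := by
  have ha := cr_ne_zero_left hab
  have hb := cr_ne_zero_right hab
  have Xa : ∀ z ∈ Lt C a b, ∃ k : ℤ, ev a z = 2 * hs C a * k := by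
    rintro z ⟨m, n, h, _⟩; exact ⟨m, h⟩
  have Xb : ∀ z ∈ Lt C a b, ∃ k : ℤ, ev b z = 2 * hs C b * k := by
    rintro z ⟨m, n, _, h⟩; exact ⟨n, h⟩
  have Xa' : ∀ z ∈ Lt C a b, ∃ k : ℤ, ev (-a) z = 2 * hs C (-a) * k := by
    rintro z ⟨m, n, h, _⟩
    refine ⟨-m, ?_⟩
    rw [hs_neg hC, ev_neg_left, h]; push_cast; ring
  have Xb' : ∀ z ∈ Lt C a b, ∃ k : ℤ, ev (-b) z = 2 * hs C (-b) * k := by
    rintro z ⟨m, n, _, h⟩
    refine ⟨-n, ?_⟩
    rw [hs_neg hC, ev_neg_left, h]; push_cast; ring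
  intro x hx y hy hne
  by_cases h1 : ev a x = ev a y
  · by_cases h2 : ev b x = ev b y
    · exact absurd (ext_ev hab h1 h2) hne
    · rcases lt_or_gt_of_ne h2 with h | h
      · exact sep_of_lt hC hb Xb hx hy h
      · exact sep_of_lt hC (neg_ne_zero.2 hb) Xb' hx hy
          (by rw [ev_neg_left, ev_neg_left]; linarith)
  · rcases lt_or_gt_of_ne h1 with h | h
    · exact sep_of_lt hC ha Xa hx hy h
    · exact sep_of_lt hC (neg_ne_zero.2 ha) Xa' hx hy
        (by rw [ev_neg_left, ev_neg_left]; linarith)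

lemma exists_near_mul (H y : ℝ) (hH : 0 < H) : ∃ m : ℤ, |y - 2 * H * m| ≤ H := by
  refine ⟨round (y / (2 * H)), ?_⟩
  have h := abs_sub_round (y / (2 * H))
  have e : y - 2 * H * round (y / (2 * H)) = 2 * H * (y / (2 * H) - round (y / (2 * H))) := by
    field_simp
  rw [e, abs_mul, abs_of_pos (by positivity)]
  nlinarith

/-- Job E4.  Lattice packings. -/
theorem exists_lattice {C : Set V} (hC : IsBody C) {a b : V} (hab : cr a b ≠ 0) :
    ∃ X : Set V, IsPacking C X ∧ TotSep C X ∧ ENNReal.ofReal (vl C / vl (Par C a b)) ≤ dens C X := by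
  refine ⟨Lt C a b, Lt_packing hC hab, Lt_totSep hC hab, ?_⟩
  have hapos := hs_pos hC (cr_ne_zero_left hab)
  have hbpos := hs_pos hC (cr_ne_zero_right hab)
  have hv := vl_pos hC
  have hP : 0 < vl (Par C a b) :=
    lt_of_lt_of_le hv (vl_mono (C_subset_Par hC a b) (isCompact_Par hC hab).measure_lt_top.ne)
  obtain ⟨a0, ha0, hCa⟩ := exists_radius hC
  obtain ⟨P0, hP0⟩ := (isCompact_Par hC hab).isBounded.subset_closedBall (0 : V)
  set P : ℝ := |P0| with hPdef
  have hPP : Par C a b ⊆ Metric.closedBall (0 : V) P :=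
    hP0.trans (Metric.closedBall_subset_closedBall (le_abs_self _))
  have hP00 : 0 ≤ P := abs_nonneg _
  have hvolP : volume (Par C a b) = ENNReal.ofReal (vl (Par C a b)) := by
    unfold vl; rw [ENNReal.ofReal_toReal (isCompact_Par hC hab).measure_lt_top.ne]
  have hvolC : volume C = ENNReal.ofReal (vl C) := by
    unfold vl; rw [ENNReal.ofReal_toReal hC.compact.measure_lt_top.ne]
  rw [dens_def]
  have hlim : Tendsto (fun r : ℝ => ENNReal.ofReal
      (vl C / vl (Par C a b) * (1 - (a0 + P) / r) ^ 2)) atTop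
      (𝓝 (ENNReal.ofReal (vl C / vl (Par C a b)))) := by
    have h1 : Tendsto (fun r : ℝ => vl C / vl (Par C a b) * (1 - (a0 + P) / r) ^ 2) atTop
        (𝓝 (vl C / vl (Par C a b) * (1 - 0) ^ 2)) :=
      ((tendsto_const_nhds.sub (tendsto_const_nhds.div_atTop tendsto_id)).pow 2).const_mul _
    simp only [sub_zero, one_pow, mul_one] at h1
    exact ENNReal.tendsto_ofReal h1
  rw [← hlim.limsup_eq]
  refine limsup_le_limsup ?_
  filter_upwards [eventually_ge_atTop (a0 + P + 1)] with r hr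
  have hr0 : 0 < r := by linarith
  set s : ℝ := r - (a0 + P) with hs'
  have hs0 : 0 ≤ s := by linarith
  have hfin : (Lt C a b ∩ Win C r).Finite :=
    finite_inter hC (fun x hx y hy hne => by linarith [Lt_packing hC hab x hx y hy hne]) hr0.le
  -- the box of half side `s` is covered
  have hcov : {x : V | ∀ i, |x i| ≤ s} ⊆ ⋃ x ∈ hfin.toFinset, (fun y => x + y) '' Par C a b := by
    intro y hy
    obtain ⟨m, hm⟩ := exists_near_mul (hs C a) (ev a y) hapos
    obtain ⟨n, hn⟩ := exists_near_mul (hs C b) (ev b y) hbpos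
    set x : V := ![(b 1 * (2 * hs C a * m) - a 1 * (2 * hs C b * n)) / cr a b,
      (a 0 * (2 * hs C b * n) - b 0 * (2 * hs C a * m)) / cr a b] with hx
    have hxa : ev a x = 2 * hs C a * m := by
      have h : cr a b ≠ 0 := hab
      simp only [hx, ev, Matrix.cons_val_zero, Matrix.cons_val_one]
      field_simp
      simp only [cr]; ring
    have hxb : ev b x = 2 * hs C b * n := by
      have h : cr a b ≠ 0 := hab
      simp only [hx, ev, Matrix.cons_val_zero, Matrix.cons_val_one]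
      field_simp
      simp only [cr]; ring
    have hyx : y - x ∈ Par C a b := by
      constructor
      · rw [ev_sub, hxa]; exact hm
      · rw [ev_sub, hxb]; exact hn
    have hn1 : ‖y - x‖ ≤ P := by simpa using hPP hyx
    rw [mem_iUnion₂]
    refine ⟨x, ?_, ⟨y - x, hyx, by simp⟩⟩
    rw [Set.Finite.mem_toFinset]
    refine ⟨⟨m, n, hxa, hxb⟩, ?_⟩
    intro w hw i
    have h2 : ‖w‖ ≤ a0 := by simpa using hCa hw
    have h3 := norm_le_pi_norm w i
    have h4 := norm_le_pi_norm (y - x) i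
    rw [Real.norm_eq_abs] at h3 h4
    have h5 := hy i
    have e : x i + w i = y i + -((y - x) i) + w i := by simp
    rw [e]
    calc |y i + -((y - x) i) + w i| ≤ |y i + -((y - x) i)| + |w i| := abs_add_le _ _
      _ ≤ |y i| + |-((y - x) i)| + |w i| := by gcongr; exact abs_add_le _ _
      _ ≤ s + P + a0 := by rw [abs_neg]; linarith
      _ = r := by rw [hs']; ring
  have hvolbox := volume_cube (d := 2) s hs0
  have h1 : ENNReal.ofReal ((2 * s) ^ 2) ≤ ((Lt C a b ∩ Win C r).ncard : ℝ≥0∞) * volume (Par C a b) := by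
    rw [← hvolbox]
    refine (measure_mono hcov).trans ?_
    refine (measure_biUnion_finset_le _ _).trans ?_
    have : ∀ x ∈ hfin.toFinset, volume ((fun y => x + y) '' Par C a b) = volume (Par C a b) := by
      intro x _
      rw [image_add_left, measure_preimage_add]
    rw [Finset.sum_congr rfl this, Finset.sum_const, nsmul_eq_mul,
      ← Set.ncard_eq_toFinset_card _ hfin]
  rw [hvolP, ← ENNReal.ofReal_natCast, ← ENNReal.ofReal_mul (by positivity)] at h1
  have h2 : (2 * s) ^ 2 ≤ ((Lt C a b ∩ Win C r).ncard : ℝ) * vl (Par C a b) :=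
    (ENNReal.ofReal_le_ofReal_iff (by positivity)).1 h1
  rw [ENNReal.le_div_iff_mul_le (Or.inl (by
    have : (0 : ℝ) < (2 * r) ^ 2 := by positivity
    exact (ENNReal.ofReal_pos.2 this).ne')) (Or.inl ENNReal.ofReal_ne_top), hvolC,
    ← ENNReal.ofReal_natCast, ← ENNReal.ofReal_mul (by positivity),
    ← ENNReal.ofReal_mul (by positivity)]
  apply ENNReal.ofReal_le_ofReal
  have e : vl C / vl (Par C a b) * (1 - (a0 + P) / r) ^ 2 * (2 * r) ^ 2
      = vl C / vl (Par C a b) * (2 * s) ^ 2 := by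
    rw [hs']; field_simp
  rw [e]
  calc vl C / vl (Par C a b) * (2 * s) ^ 2
      ≤ vl C / vl (Par C a b) * (((Lt C a b ∩ Win C r).ncard : ℝ) * vl (Par C a b)) := by gcongr
    _ = ((Lt C a b ∩ Win C r).ncard : ℝ) * vl C := by field_simp

end Pool.Agent.H.MP_929345_co.Pl
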