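import Pool.Agent.H.MP_929345_co.Pl.CtF
import Pool.Agent.H.MP_929345_co.Pl.FiA
import Pool.Agent.H.MP_929345_co.Pl.FiB
import Pool.Agent.H.MP_929345_co.Pl.FiC

/-! E5: the theorem -/

set_option autoImplicit false

open MeasureTheory Set

namespace Pool.Agent.H.MP_929345_co.Pl

/-- Job E5.  A totally separable packing is rho-separable. -/
theorem rhoSep_of_totSep {C X : Set V} (ρ : ℝ) (h : TotSep C X) : RhoSep ρ C X := by
  intro c _ x hx y hy hne
  obtain ⟨f, hf, t, h1, h2, h3⟩ := h x hx.1 y hy.1 hne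
  exact ⟨f, hf, t, h1, h2, fun z hz => h3 z hz.1⟩

theorem fid_lower {C : Set V} (hC : IsBody C) : ENNReal.ofReal (vl C / beta C) ≤
    ⨆ X ∈ {X : Set V | IsPacking C X ∧ TotSep C X}, dens C X := by
  set M := ⨆ X ∈ {X : Set V | IsPacking C X ∧ TotSep C X}, dens C X with hM
  by_contra hcon
  push Not at hcon
  have hMtop : M ≠ ⊤ := ne_top_of_lt hcon
  have hm0 : 0 ≤ M.toReal := ENNReal.toReal_nonneg
  have hMm : M = ENNReal.ofReal M.toReal := (ENNReal.ofReal_toReal hMtop).symm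
  have hlt : M.toReal < vl C / beta C := by
    rw [hMm] at hcon
    exact (ENNReal.ofReal_lt_ofReal_iff_of_nonneg hm0).mp hcon
  have hβ0 : 0 ≤ beta C := by
    apply Real.sInf_nonneg
    rintro t ⟨a, b, -, rfl⟩
    exact ENNReal.toReal_nonneg
  have hβ : 0 < beta C := by
    rcases hβ0.eq_or_lt with h0 | h0
    · rw [← h0, div_zero] at hlt
      exact absurd hlt (not_lt.mpr hm0)
    · exact h0
  have hmβ : M.toReal * beta C < vl C := by
    rwa [lt_div_iff₀ hβ] at hlt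
  have hne : ({t | ∃ a b : V, cr a b ≠ 0 ∧ t = vl (Par C a b)} : Set ℝ).Nonempty :=
    ⟨_, ![1, 0], ![0, 1], by simp [cr], rfl⟩
  have hbdd : BddBelow ({t | ∃ a b : V, cr a b ≠ 0 ∧ t = vl (Par C a b)} : Set ℝ) :=
    ⟨0, by rintro t ⟨a, b, -, rfl⟩; exact ENNReal.toReal_nonneg⟩
  obtain ⟨a, b, hab, hlt2⟩ : ∃ a b : V, cr a b ≠ 0 ∧ M.toReal * vl (Par C a b) < vl C := by
    rcases hm0.eq_or_lt with h0 | h0
    · refine ⟨![1, 0], ![0, 1], by simp [cr], ?_⟩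
      rw [← h0, zero_mul] at hmβ ⊢
      exact hmβ
    · have h1 : beta C < vl C / M.toReal := by
        rw [lt_div_iff₀ h0, mul_comm]
        exact hmβ
      obtain ⟨t, ⟨a, b, hab, rfl⟩, ht⟩ := exists_lt_of_csInf_lt hne h1
      refine ⟨a, b, hab, ?_⟩
      rw [lt_div_iff₀ h0, mul_comm] at ht
      exact ht
  have hPar : 0 < vl (Par C a b) := lt_of_lt_of_le hβ (csInf_le hbdd ⟨a, b, hab, rfl⟩)
  obtain ⟨X, hX1, hX2, hX3⟩ := exists_lattice hC hab
  have hle : dens C X ≤ M := by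
    rw [hM]
    exact le_biSup (dens C) (show X ∈ {X : Set V | IsPacking C X ∧ TotSep C X} from ⟨hX1, hX2⟩)
  have h1 : ENNReal.ofReal (vl C / vl (Par C a b)) ≤ ENNReal.ofReal M.toReal := by
    rw [← hMm]
    exact hX3.trans hle
  have h2 : vl C / vl (Par C a b) ≤ M.toReal := (ENNReal.ofReal_le_ofReal_iff hm0).mp h1
  rw [div_le_iff₀ hPar] at h2
  exact absurd hlt2 (not_lt.mpr h2)

/-- Job E5.  The theorem: planar case of Q1. -/
theorem planar {C : Set V} (hC : IsBody C) : ∃ ρ0 : ℝ, 1 ≤ ρ0 ∧ ∀ ρ ≥ ρ0,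
    (⨆ X ∈ {X : Set V | IsPacking C X ∧ RhoSep ρ C X}, dens C X) =
      ⨆ X ∈ {X : Set V | IsPacking C X ∧ TotSep C X}, dens C X := by
  obtain ⟨R0, K', hct⟩ := count_bound hC
  obtain ⟨ρ0, hρ0, hw⟩ := window hC R0
  refine ⟨ρ0, hρ0, fun ρ hρ => le_antisymm ?_ ?_⟩
  · refine iSup₂_le fun X hX => ?_
    exact (dens_le hC hX.1 (hct X hX.1 (hw ρ hρ X hX.2))).trans (fid_lower hC)
  · exact biSup_mono fun X hX => ⟨hX.1, rhoSep_of_totSep ρ hX.2⟩

end Pool.Agent.H.MP_929345_co.Pl
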