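import Pool.Agent.H.MP_929345_co.Pl.AdjA

/-! C7a: a face with a long side contains a translate of C -/

set_option autoImplicit false

open MeasureTheory Set

namespace Pool.Agent.H.MP_929345_co.Pl

lemma gda_cont (E y : V) : Continuous fun w : V => cr E (w - y) := by
  unfold cr
  fun_prop

lemma gda_norm_pp (D : V) : ‖pp D‖ ≤ ‖D‖ := by
  rw [pi_norm_le_iff_of_nonneg (norm_nonneg _)]
  intro i
  fin_cases i
  · show ‖-D 1‖ ≤ ‖D‖
    rw [norm_neg]
    exact norm_le_pi_norm D 1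
  · exact norm_le_pi_norm D 0

lemma gda_cr_pp (D : V) : ‖D‖ * ‖D‖ ≤ cr D (pp D) := by
  have h0 : cr D (pp D) = D 0 * D 0 + D 1 * D 1 := by
    simp [cr, pp]
  rw [h0]
  have h1 : ‖D‖ ≤ max |D 0| |D 1| := by
    rw [pi_norm_le_iff_of_nonneg (le_max_of_le_left (abs_nonneg _))]
    intro i
    fin_cases i
    · exact le_max_left _ _
    · exact le_max_right _ _
  rcases max_cases |D 0| |D 1| with ⟨h2, _⟩ | ⟨h2, _⟩
  · rw [h2] at h1
    have h3 : ‖D‖ * ‖D‖ ≤ |D 0| * |D 0| := mul_self_le_mul_self (norm_nonneg _) h1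
    rw [abs_mul_abs_self] at h3
    nlinarith [mul_self_nonneg (D 1)]
  · rw [h2] at h1
    have h3 : ‖D‖ * ‖D‖ ≤ |D 1| * |D 1| := mul_self_le_mul_self (norm_nonneg _) h1
    rw [abs_mul_abs_self] at h3
    nlinarith [mul_self_nonneg (D 0)]

/-- first point of the structure on a segment leaving a face -/
lemma gda_first {ι : Type*} {P Q : ι → V} {Lam : ℝ} (hT : IsT P Q Lam) {x w y : V}
    (hx : x ∉ Sg P Q) (hw : w ∈ Vis (Sg P Q) x) (hy : y ∉ Vis (Sg P Q) x) :
    ∃ t : ℝ, 0 ≤ t ∧ t ≤ 1 ∧ w + t • (y - w) ∈ Sg P Q ∧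
      w + t • (y - w) ∈ closure (Vis (Sg P Q) x) := by
  set f : ℝ → V := fun t => w + t • (y - w) with hf
  have hfc : Continuous f := by
    rw [hf]
    fun_prop
  have hVw : Vis (Sg P Q) w = Vis (Sg P Q) x := Vis_eq hT hx hw
  have hne : ({t : ℝ | t ∈ Icc (0 : ℝ) 1 ∧ f t ∈ Sg P Q}).Nonempty := by
    by_contra hcon
    apply hy
    rw [← hVw]
    show Disjoint (segment ℝ w y) (Sg P Q)
    rw [Set.disjoint_left]
    intro p hp hpS
    rw [segment_eq_image'] at hp
    obtain ⟨t, ht, rfl⟩ := hp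
    exact hcon ⟨t, ht, hpS⟩
  have hcpt : IsCompact {t : ℝ | t ∈ Icc (0 : ℝ) 1 ∧ f t ∈ Sg P Q} :=
    isCompact_Icc.inter_right ((isClosed_Sg hT).preimage hfc)
  obtain ⟨t, ⟨ht1, ht2⟩, hmin⟩ := hcpt.exists_isLeast hne
  refine ⟨t, ht1.1, ht1.2, ht2, ?_⟩
  have hwS : w ∉ Sg P Q := fun h => (Set.disjoint_left.1 Vis_disjoint) hw h
  have ht0 : 0 < t := by
    rcases lt_or_eq_of_le ht1.1 with h | h
    · exact h
    · exfalso
      apply hwS
      have h1 : f t = w := by
        rw [hf, ← h]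
        simp
      rw [← h1]
      exact ht2
  have hmaps : ∀ s ∈ Ico (0 : ℝ) t, f s ∈ Vis (Sg P Q) x := by
    intro s hs
    rw [← hVw]
    show Disjoint (segment ℝ w (f s)) (Sg P Q)
    rw [Set.disjoint_left]
    intro p hp hpS
    rw [segment_eq_image'] at hp
    obtain ⟨θ, hθ, rfl⟩ := hp
    have h1 : w + θ • (f s - w) = f (θ * s) := by
      simp only [hf, add_sub_cancel_left, smul_smul]
    simp only at hpS
    rw [h1] at hpS
    have h2 : θ * s ≤ s := mul_le_of_le_one_left hs.1 hθ.2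
    have h3 : 0 ≤ θ * s := mul_nonneg hθ.1 hs.1
    have h4 := hmin ⟨⟨h3, by linarith [hs.2, ht1.2]⟩, hpS⟩
    linarith [hs.2]
  have h5 : t ∈ closure (Ico (0 : ℝ) t) := by
    rw [closure_Ico ht0.ne]
    exact ⟨ht0.le, le_rfl⟩
  have h6 : f t ∈ closure (f '' Ico (0 : ℝ) t) :=
    image_closure_subset_closure_image hfc ⟨t, h5, rfl⟩
  refine closure_mono ?_ h6
  rintro _ ⟨s, hs, rfl⟩
  exact hmaps s hs

/-- Job C7a.  A face with a long side contains a translate of `C`. -/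
theorem long_side {ι : Type*} {P Q : ι → V} {Lam : ℝ} (hT : IsT P Q Lam) {x : V}
    (hx : x ∉ Sg P Q) {e : ι × Bool} {τ : V} (hadj : Adj P Q e τ (Vis (Sg P Q) x))
    (hc : cr (dE P Q e) τ ≠ 0) {C : Set V} {δ r a1 RC : ℝ} (hC : C ⊆ Metric.closedBall 0 RC)
    (hRC : 0 ≤ RC) (hr : 3 * RC + 2 ≤ r) (ha1 : 0 < a1) (hδ : 4 * r / a1 < δ)
    (hδl : δ ≤ ‖dE P Q e‖)
    (hside : zE P Q e + (δ / ‖dE P Q e‖) • dE P Q e ∈ closure (Vis (Sg P Q) x))
    (hang : ∀ j, ∀ y ∈ segment ℝ (P e.1) (Q e.1), ∀ z ∈ segment ℝ (P j) (Q j), ‖y - z‖ ≤ r →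
      cr (dE P Q e) (z - zE P Q e) ≠ 0 →
      a1 * ‖dE P Q e‖ * ‖Q j - P j‖ ≤ |cr (dE P Q e) (Q j - P j)|) :
    ∃ q, ∀ w ∈ C, q + w ∈ closure (Vis (Sg P Q) x) := by
  set D := dE P Q e with hD
  set z0 := zE P Q e with hz0
  set W := Vis (Sg P Q) x with hW
  have hr0 : 0 < r := by linarith
  have hδ0 : 0 < δ := lt_trans (by positivity) hδ
  have hDn : 0 < ‖D‖ := lt_of_lt_of_le hδ0 hδl
  set z : V := z0 + (δ / (2 * ‖D‖)) • D with hz
  have hcv : Convex ℝ (closure W) := (Vis_convex hT hx).closure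
  have hz0c : z0 ∈ closure W := adj_closure hadj
  have hzc : z ∈ closure W := by
    have h1 := hcv hz0c hside (a := 1 / 2) (b := 1 / 2) (by norm_num) (by norm_num) (by norm_num)
    have h2 : (1 / 2 : ℝ) • z0 + (1 / 2 : ℝ) • (z0 + (δ / ‖D‖) • D) = z := by
      rw [hz]
      ext i
      simp only [Pi.add_apply, Pi.smul_apply, smul_eq_mul]
      field_simp
      ring
    rwa [h2] at h1
  have hzseg : z ∈ segment ℝ (P e.1) (Q e.1) := by
    have h1 : z ∈ segment ℝ z0 (z0 + D) := by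
      rw [segment_eq_image']
      refine ⟨δ / (2 * ‖D‖), ⟨by positivity, ?_⟩, ?_⟩
      · rw [div_le_one (by positivity)]
        linarith
      · simp only [add_sub_cancel_left]
        rfl
    rcases Bool.eq_false_or_eq_true e.2 with h2 | h2
    · have h3 : z0 = Q e.1 := by rw [hz0, zE, if_pos h2]
      have h4 : D = P e.1 - Q e.1 := by rw [hD, dE, if_pos h2]
      rw [h3, h4, add_sub_cancel, segment_symm] at h1
      exact h1
    · have h3 : z0 = P e.1 := by rw [hz0, zE, h2]; rfl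
      have h4 : D = Q e.1 - P e.1 := by rw [hD, dE, h2]; rfl
      rw [h3, h4, add_sub_cancel] at h1
      exact h1
  -- the sign
  obtain ⟨sg, hsg1, hsg2⟩ : ∃ sg : ℝ, |sg| = 1 ∧ ∀ w ∈ W, 0 < sg * cr D (w - z0) := by
    rcases lt_or_gt_of_ne hc with h | h
    · refine ⟨-1, by norm_num, fun w hw => ?_⟩
      have h1 := adj_supp_g hT hx hadj hc w hw
      have h2 : cr D (w - z0) < 0 := by
        by_contra hcon
        push Not at hcon
        have := mul_nonpos_of_nonpos_of_nonneg h.le hcon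
        linarith
      linarith
    · refine ⟨1, by norm_num, fun w hw => ?_⟩
      have h1 := adj_supp_g hT hx hadj hc w hw
      have h2 : 0 < cr D (w - z0) := by
        by_contra hcon
        push Not at hcon
        have := mul_nonpos_of_nonneg_of_nonpos h.le hcon
        linarith
      linarith
  have hsgsq : sg * sg = 1 := by
    rw [← abs_mul_abs_self, hsg1]; norm_num
  set n : V := (sg / ‖D‖) • pp D with hn
  have hnn : ‖n‖ ≤ 1 := by
    rw [hn, norm_smul, norm_div, norm_norm, Real.norm_eq_abs, hsg1]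
    calc 1 / ‖D‖ * ‖pp D‖ ≤ 1 / ‖D‖ * ‖D‖ :=
          mul_le_mul_of_nonneg_left (gda_norm_pp D) (by positivity)
      _ = 1 := by field_simp
  have hcn : ‖D‖ ≤ sg * cr D n := by
    rw [hn, cr_smul_right]
    have h1 := gda_cr_pp D
    have h2 : sg * (sg / ‖D‖ * cr D (pp D)) = cr D (pp D) / ‖D‖ := by
      have : sg * (sg / ‖D‖ * cr D (pp D)) = (sg * sg) * cr D (pp D) / ‖D‖ := by ring
      rw [this, hsgsq, one_mul]
    rw [h2, le_div_iff₀ hDn]
    exact h1
  refine ⟨z + (2 * RC + 1) • n, fun w hwC => ?_⟩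
  have hwn : ‖w‖ ≤ RC := by
    have := hC hwC
    rwa [Metric.mem_closedBall, dist_zero_right] at this
  set y : V := z + (2 * RC + 1) • n + w with hy
  have hyz : ‖y - z‖ ≤ 3 * RC + 1 := by
    have h1 : y - z = (2 * RC + 1) • n + w := by
      rw [hy]; abel
    rw [h1]
    refine (norm_add_le _ _).trans ?_
    rw [norm_smul, Real.norm_eq_abs, abs_of_nonneg (by linarith)]
    have : (2 * RC + 1) * ‖n‖ ≤ (2 * RC + 1) * 1 :=
      mul_le_mul_of_nonneg_left hnn (by linarith)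
    linarith
  have hypos : 0 < sg * cr D (y - z0) := by
    have h1 : cr D (y - z0) = (2 * RC + 1) * cr D n + cr D w := by
      have h2 : y - z0 = (δ / (2 * ‖D‖)) • D + ((2 * RC + 1) • n + w) := by
        rw [hy, hz]; abel
      rw [h2, cr_add_right, cr_add_right, cr_smul_right, cr_smul_right, cr_self]
      ring
    rw [h1]
    have h3 : |cr D w| ≤ 2 * (‖D‖ * ‖w‖) := abs_cr_le D w
    have h4 : -(2 * (‖D‖ * RC)) ≤ sg * cr D w := by
      have h5 : |sg * cr D w| ≤ 2 * (‖D‖ * RC) := by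
        rw [abs_mul, hsg1, one_mul]
        refine h3.trans ?_
        have := mul_le_mul_of_nonneg_left hwn hDn.le
        linarith
      exact (abs_le.1 h5).1
    have h6 : (2 * RC + 1) * ‖D‖ ≤ (2 * RC + 1) * (sg * cr D n) :=
      mul_le_mul_of_nonneg_left hcn (by linarith)
    have h7 : sg * ((2 * RC + 1) * cr D n + cr D w) =
        (2 * RC + 1) * (sg * cr D n) + sg * cr D w := by ring
    rw [h7]
    linarith
  by_contra hcon
  have hyW : y ∉ W := fun h => hcon (subset_closure h)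
  obtain ⟨w', hw'W, hw'd⟩ := Metric.mem_closure_iff.1 hzc 1 one_pos
  rw [dist_eq_norm, norm_sub_rev] at hw'd
  obtain ⟨t, ht0, ht1, hy1S, hy1c⟩ := gda_first hT hx hw'W hyW
  set y1 : V := w' + t • (y - w') with hy1
  have hy1n : ‖z - y1‖ ≤ r := by
    have h1 : z - y1 = (1 - t) • (z - w') + t • (z - y) := by
      rw [hy1]
      ext i
      simp only [Pi.sub_apply, Pi.add_apply, Pi.smul_apply, smul_eq_mul]
      ring
    rw [h1]
    refine (norm_add_le _ _).trans ?_
    rw [norm_smul, norm_smul, Real.norm_eq_abs, Real.norm_eq_abs, abs_of_nonneg ht0,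
      abs_of_nonneg (by linarith : 0 ≤ 1 - t), norm_sub_rev z w', norm_sub_rev z y]
    have h2 : (1 - t) * ‖w' - z‖ ≤ (1 - t) * r :=
      mul_le_mul_of_nonneg_left (by linarith) (by linarith)
    have h3 : t * ‖y - z‖ ≤ t * r := mul_le_mul_of_nonneg_left (by linarith) ht0
    linarith
  have hy1pos : 0 < sg * cr D (y1 - z0) := by
    have h1 : y1 - z0 = (1 - t) • (w' - z0) + t • (y - z0) := by
      rw [hy1]
      ext i
      simp only [Pi.sub_apply, Pi.add_apply, Pi.smul_apply, smul_eq_mul]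
      ring
    have h2 := hsg2 w' hw'W
    rw [h1, cr_add_right, cr_smul_right, cr_smul_right]
    have h3 : sg * ((1 - t) * cr D (w' - z0) + t * cr D (y - z0)) =
        (1 - t) * (sg * cr D (w' - z0)) + t * (sg * cr D (y - z0)) := by ring
    rw [h3]
    rcases eq_or_lt_of_le ht0 with h4 | h4
    · rw [← h4]
      simpa using h2
    · have h5 : 0 < t * (sg * cr D (y - z0)) := mul_pos h4 hypos
      have h6 : 0 ≤ (1 - t) * (sg * cr D (w' - z0)) := mul_nonneg (by linarith) h2.le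
      linarith
  obtain ⟨j, hj⟩ := exists_relint hT hy1S
  have hne : cr D (y1 - z0) ≠ 0 := by
    intro h
    rw [h, mul_zero] at hy1pos
    exact lt_irrefl _ hy1pos
  have hangj := hang j z hzseg y1 (openSegment_subset_segment ℝ _ _ hj) hy1n hne
  set E : V := Q j - P j with hE
  have hEn : 0 < ‖E‖ := by
    rw [norm_pos_iff, hE, sub_ne_zero]
    exact (hT.ne j).symm
  obtain ⟨κ, hκ1, hκ2⟩ : ∃ κ : ℝ, |κ| = 1 ∧ ∀ w ∈ closure W, 0 ≤ κ * cr E (w - y1) := by
    rcases one_side hT hx hy1c hj with h | h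
    · refine ⟨-1, by norm_num, fun w hw => ?_⟩
      have h1 : closure W ⊆ {w | cr E (w - y1) ≤ 0} :=
        closure_minimal (fun u hu => (h u hu).le)
          (isClosed_le (gda_cont E y1) continuous_const)
      have h2 : cr E (w - y1) ≤ 0 := h1 hw
      linarith
    · refine ⟨1, by norm_num, fun w hw => ?_⟩
      have h1 : closure W ⊆ {w | 0 ≤ cr E (w - y1)} :=
        closure_minimal (fun u hu => (h u hu).le)
          (isClosed_le continuous_const (gda_cont E y1))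
      have h2 : 0 ≤ cr E (w - y1) := h1 hw
      linarith
  have g0 := hκ2 _ hz0c
  have g1 := hκ2 _ hside
  set s : ℝ := κ * cr E D with hs
  have e1 : κ * cr E (z0 + (δ / ‖D‖) • D - y1) = κ * cr E (z0 - y1) + δ / ‖D‖ * s := by
    have h1 : z0 + (δ / ‖D‖) • D - y1 = (z0 - y1) + (δ / ‖D‖) • D := by abel
    rw [h1, cr_add_right, cr_smul_right, hs]
    ring
  have e2 : κ * cr E (z - y1) = κ * cr E (z0 - y1) + δ / (2 * ‖D‖) * s := by
    have h1 : z - y1 = (z0 - y1) + (δ / (2 * ‖D‖)) • D := by rw [hz]; abel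
    rw [h1, cr_add_right, cr_smul_right, hs]
    ring
  rw [e1] at g1
  have hsabs : a1 * ‖D‖ * ‖E‖ ≤ |s| := by
    rw [hs, abs_mul, hκ1, one_mul, cr_comm, abs_neg]
    exact hangj
  have h8 : δ / (2 * ‖D‖) * |s| ≤ κ * cr E (z - y1) := by
    rw [e2]
    have h9 : δ / ‖D‖ * s = 2 * (δ / (2 * ‖D‖) * s) := by
      field_simp
    rw [h9] at g1
    have h10 : 0 ≤ δ / (2 * ‖D‖) := by positivity
    rcases abs_cases s with ⟨h11, _⟩ | ⟨h11, _⟩
    · rw [h11]; linarith
    · rw [h11]; linarith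
  have h12 : κ * cr E (z - y1) ≤ 2 * (‖E‖ * r) := by
    have h13 : |κ * cr E (z - y1)| ≤ 2 * (‖E‖ * r) := by
      rw [abs_mul, hκ1, one_mul]
      refine (abs_cr_le E _).trans ?_
      have := mul_le_mul_of_nonneg_left hy1n hEn.le
      linarith
    exact (abs_le.1 h13).2
  have h14 : δ / (2 * ‖D‖) * (a1 * ‖D‖ * ‖E‖) ≤ δ / (2 * ‖D‖) * |s| :=
    mul_le_mul_of_nonneg_left hsabs (by positivity)
  have h15 : δ / (2 * ‖D‖) * (a1 * ‖D‖ * ‖E‖) = δ * a1 / 2 * ‖E‖ := by
    field_simp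
  have h16 : δ * a1 / 2 * ‖E‖ ≤ 2 * r * ‖E‖ := by
    rw [← h15]
    linarith
  have h17 : δ * a1 / 2 ≤ 2 * r := le_of_mul_le_mul_right h16 hEn
  rw [div_lt_iff₀ ha1] at hδ
  linarith

end Pool.Agent.H.MP_929345_co.Pl
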