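import Pool.Agent.H.MP_929345_co.Pl.Base

/-! Planar case: the support function. -/

set_option autoImplicit false

open MeasureTheory Set
open scoped Pointwise

namespace Pool.Agent.H.MP_929345_co.Pl

variable {C K W : Set V}

lemma bddAbove_ev (hK : IsCompact K) (a : V) : BddAbove (ev a '' K) :=
  (hK.image (continuous_ev a)).bddAbove

lemma le_hs (hK : IsCompact K) {x : V} (hx : x ∈ K) (a : V) : ev a x ≤ hs K a :=
  le_csSup (bddAbove_ev hK a) (mem_image_of_mem _ hx)

lemma hs_le (hKn : K.Nonempty) {a : V} {t : ℝ} (h : ∀ x ∈ K, ev a x ≤ t) : hs K a ≤ t := by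
  apply csSup_le (hKn.image _)
  rintro _ ⟨x, hx, rfl⟩
  exact h x hx

lemma exists_hs (hK : IsCompact K) (hKn : K.Nonempty) (a : V) : ∃ x ∈ K, ev a x = hs K a := by
  obtain ⟨x, hx, h⟩ := hK.exists_sSup_image_eq hKn (continuous_ev a).continuousOn
  exact ⟨x, hx, h.symm⟩

lemma zero_mem_interior (hC : IsBody C) : (0 : V) ∈ interior C := by
  obtain ⟨x, hx⟩ := hC.nonempty
  have hx' : x ∈ C := interior_subset hx
  have h1 : (1 / 2 : ℝ) • x + (1 / 2 : ℝ) • (-x) ∈ interior C :=
    hC.convex.combo_interior_self_mem_interior hx (hC.symm x hx') (by norm_num) (by norm_num)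
      (by norm_num)
  simpa using h1

lemma zero_mem (hC : IsBody C) : (0 : V) ∈ C := interior_subset (zero_mem_interior hC)

lemma exists_ball (hC : IsBody C) : ∃ r > 0, Metric.closedBall (0 : V) r ⊆ C := by
  obtain ⟨r, hr, h⟩ := Metric.isOpen_iff.1 isOpen_interior 0 (zero_mem_interior hC)
  refine ⟨r / 2, by positivity, ?_⟩
  intro x hx
  apply interior_subset
  apply h
  simp only [Metric.mem_closedBall, Metric.mem_ball] at *
  linarith

lemma exists_radius (hC : IsBody C) : ∃ R > 0, C ⊆ Metric.closedBall (0 : V) R := by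
  obtain ⟨R, hR⟩ := hC.compact.isBounded.subset_closedBall (0 : V)
  exact ⟨max R 1, by positivity, hR.trans (Metric.closedBall_subset_closedBall (le_max_left _ _))⟩

lemma hs_nonneg (hC : IsBody C) (a : V) : 0 ≤ hs C a := by
  have := le_hs hC.compact (zero_mem hC) a
  rwa [ev_zero] at this

lemma ev_lt_hs (hC : IsBody C) {a : V} (ha : a ≠ 0) {x : V} (hx : x ∈ interior C) :
    ev a x < hs C a := by
  obtain ⟨r, hr, h⟩ := Metric.isOpen_iff.1 isOpen_interior x hx
  have hn : 0 < ‖a‖ := norm_pos_iff.2 ha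
  have hpos : 0 < ev a a := by
    have : a 0 ≠ 0 ∨ a 1 ≠ 0 := by
      by_contra hcon
      push Not at hcon
      apply ha
      ext i; fin_cases i
      · exact hcon.1
      · exact hcon.2
    unfold ev
    rcases this with h0 | h0
    · have := mul_self_pos.2 h0; nlinarith [mul_self_nonneg (a 1)]
    · have := mul_self_pos.2 h0; nlinarith [mul_self_nonneg (a 0)]
  have hmem : x + (r / (2 * ‖a‖)) • a ∈ C := by
    apply interior_subset
    apply h
    rw [Metric.mem_ball, dist_eq_norm, add_sub_cancel_left, norm_smul, Real.norm_eq_abs,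
      abs_of_pos (by positivity)]
    have : r / (2 * ‖a‖) * ‖a‖ = r / 2 := by field_simp
    rw [this]; linarith
  have h2 := le_hs hC.compact hmem a
  rw [ev_add, ev_smul] at h2
  have : 0 < r / (2 * ‖a‖) * ev a a := by positivity
  linarith

lemma hs_pos (hC : IsBody C) {a : V} (ha : a ≠ 0) : 0 < hs C a := by
  have := ev_lt_hs hC ha (zero_mem_interior hC)
  rwa [ev_zero] at this

lemma hs_neg (hC : IsBody C) (a : V) : hs C (-a) = hs C a := by
  have key : ∀ a : V, hs C (-a) ≤ hs C a := by
    intro a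
    apply hs_le ⟨0, zero_mem hC⟩
    intro x hx
    have := le_hs hC.compact (hC.symm x hx) a
    rw [ev_neg] at this
    rw [ev_neg_left]; exact this
  apply le_antisymm (key a)
  have := key (-a)
  rwa [neg_neg] at this

lemma hs_add_le (hK : IsCompact K) (hKn : K.Nonempty) (a b : V) :
    hs K (a + b) ≤ hs K a + hs K b := by
  apply hs_le hKn
  intro x hx
  rw [ev_add_left]
  exact add_le_add (le_hs hK hx a) (le_hs hK hx b)

lemma hs_smul (hK : IsCompact K) (hKn : K.Nonempty) {t : ℝ} (ht : 0 ≤ t) (a : V) :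
    hs K (t • a) = t * hs K a := by
  apply le_antisymm
  · apply hs_le hKn
    intro x hx
    rw [ev_smul_left]
    exact mul_le_mul_of_nonneg_left (le_hs hK hx a) ht
  · obtain ⟨x, hx, h⟩ := exists_hs hK hKn a
    rw [← h, ← ev_smul_left]
    exact le_hs hK hx _

lemma hs_zero (hKn : K.Nonempty) : hs K 0 = 0 := by
  have : ev 0 '' K = {0} := by
    ext y; constructor
    · rintro ⟨x, _, rfl⟩; simp [ev_zero_left]
    · rintro rfl; obtain ⟨x, hx⟩ := hKn; exact ⟨x, hx, ev_zero_left x⟩
  rw [hs, this, csSup_singleton]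

lemma hs_add (hK : IsCompact K) (hKn : K.Nonempty) (hW : IsCompact W) (hWn : W.Nonempty) (a : V) :
    hs (K + W) a = hs K a + hs W a := by
  apply le_antisymm
  · apply hs_le (hKn.add hWn)
    rintro _ ⟨x, hx, y, hy, rfl⟩
    simp only
    rw [ev_add]; exact add_le_add (le_hs hK hx a) (le_hs hW hy a)
  · obtain ⟨x, hx, h1⟩ := exists_hs hK hKn a
    obtain ⟨y, hy, h2⟩ := exists_hs hW hWn a
    rw [← h1, ← h2, ← ev_add]
    exact le_hs (hK.add hW) (add_mem_add hx hy) a

/-- Separation of a point from a compact convex set by a functional `ev c`. -/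
lemma exists_sep (hW : IsCompact W) (hWc : Convex ℝ W) (hWn : W.Nonempty) {z : V} (hz : z ∉ W) :
    ∃ c : V, hs W c < ev c z := by
  obtain ⟨f, u, h1, h2⟩ := geometric_hahn_banach_closed_point hWc hW.isClosed hz
  refine ⟨![f (Pi.single 0 1), f (Pi.single 1 1)], ?_⟩
  have key : ∀ x : V, ev ![f (Pi.single 0 1), f (Pi.single 1 1)] x = f x := by
    intro x
    have hx : x = x 0 • (Pi.single 0 1 : V) + x 1 • (Pi.single 1 1 : V) := by
      ext i; fin_cases i <;> simp
    conv_rhs => rw [hx]
    rw [map_add, map_smul, map_smul]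
    simp [ev]; ring
  rw [key]
  refine lt_of_le_of_lt (hs_le hWn (t := u) ?_) h2
  intro x hx
  rw [key]
  exact (h1 x hx).le

end Pool.Agent.H.MP_929345_co.Pl
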