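import Pool.Agent.H.MP_929345_co.Pl.KapB

/-! A1c: beta -/

set_option autoImplicit false

open MeasureTheory Set

namespace Pool.Agent.H.MP_929345_co.Pl

variable {C : Set V}

/-- Job A1c. -/
theorem beta_le (hC : IsBody C) {a b : V} (hab : cr a b ≠ 0) : beta C ≤ vl (Par C a b) := by
  apply csInf_le
  · refine ⟨0, ?_⟩
    rintro t ⟨a, b, _, rfl⟩
    exact vl_nonneg _
  · exact ⟨a, b, hab, rfl⟩

/-- Job A1c. -/
theorem vl_pos (hC : IsBody C) : 0 < vl C := by
  apply ENNReal.toReal_pos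
  · apply ne_of_gt
    exact lt_of_lt_of_le (isOpen_interior.measure_pos volume hC.nonempty)
      (measure_mono interior_subset)
  · exact hC.compact.measure_lt_top.ne

/-- Job A1c. -/
theorem vl_le_beta (hC : IsBody C) : vl C ≤ beta C := by
  apply le_csInf
  · exact ⟨vl (Par C ![1, 0] ![0, 1]), ![1, 0], ![0, 1], by simp [cr], rfl⟩
  · rintro t ⟨a, b, hab, rfl⟩
    exact vl_mono (C_subset_Par hC a b) (isCompact_Par hC hab).measure_lt_top.ne

/-- Job A1c. -/
theorem Cor_pair_ge (hC : IsBody C) {a b : V} (hab : cr a b ≠ 0) :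
    (beta C - vl C) / 2 ≤ vl (Cor C a b) + vl (Cor C a (-b)) := by
  rw [vl_Cor_pair hC hab]
  linarith [beta_le hC hab]

/-- Job A1c. -/
theorem Cor_smul (hC : IsBody C) (a b : V) {s t : ℝ} (hs : 0 < s) (ht : 0 < t) :
    Cor C (s • a) (t • b) = Cor C a b := by
  have h0n : (C : Set V).Nonempty := ⟨0, zero_mem hC⟩
  ext x
  simp only [Cor, mem_setOf_eq]
  rw [hs_smul hC.compact h0n hs.le, hs_smul hC.compact h0n ht.le, ev_smul_left, ev_smul_left,
    mul_le_mul_iff_right₀ hs, mul_le_mul_iff_right₀ ht]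
  constructor
  · rintro ⟨h1, h2, p, q, h3, h4, h5⟩
    refine ⟨h1, h2, p * s, q * t, by positivity, by positivity, ?_⟩
    rwa [smul_smul, smul_smul] at h5
  · rintro ⟨h1, h2, p, q, h3, h4, h5⟩
    refine ⟨h1, h2, p / s, q / t, by positivity, by positivity, ?_⟩
    have e1 : (p / s) • s • a = p • a := by
      rw [smul_smul, div_mul_cancel₀ _ hs.ne']
    have e2 : (q / t) • t • b = q • b := by
      rw [smul_smul, div_mul_cancel₀ _ ht.ne']
    rw [e1, e2]; exact h5

end Pool.Agent.H.MP_929345_co.Pl
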