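import Pool.Agent.H.MP_929345_co.Pl.OlA
import Pool.Agent.H.MP_929345_co.Pl.CorB
import Pool.Agent.H.MP_929345_co.Pl.KapC

/-! A3b, A3c: the Oler type inequality -/

set_option autoImplicit false

open MeasureTheory Set
open scoped Pointwise

namespace Pool.Agent.H.MP_929345_co.Pl

variable {C : Set V}

lemma ev_self_pos {f : V} (hf : f ≠ 0) : 0 < ev f f := by
  have : f 0 ≠ 0 ∨ f 1 ≠ 0 := by
    by_contra hcon
    push Not at hcon
    apply hf
    ext i; fin_cases i
    · exact hcon.1
    · exact hcon.2
  unfold ev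
  rcases this with h0 | h0
  · have := mul_self_pos.2 h0; nlinarith [mul_self_nonneg (f 1)]
  · have := mul_self_pos.2 h0; nlinarith [mul_self_nonneg (f 0)]

/-- A line has area zero. -/
lemma volume_line {f : V} (hf : f ≠ 0) (t : ℝ) : volume {x : V | ev f x = t} = 0 := by
  set L : V →ₗ[ℝ] ℝ :=
    { toFun := ev f
      map_add' := fun x y => ev_add f x y
      map_smul' := fun c x => by rw [ev_smul]; rfl } with hL
  have hff := ev_self_pos hf
  set x0 : V := (t / ev f f) • f with hx0
  have hx0t : ev f x0 = t := by rw [hx0, ev_smul]; field_simp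
  have hker : (LinearMap.ker L) ≠ ⊤ := by
    intro h
    have : f ∈ LinearMap.ker L := by rw [h]; trivial
    rw [LinearMap.mem_ker] at this
    exact hff.ne' this
  have hz : volume ((LinearMap.ker L : Submodule ℝ V) : Set V) = 0 :=
    Measure.addHaar_submodule volume _ hker
  have he : {x : V | ev f x = t} = (fun x => -x0 + x) ⁻¹' ((LinearMap.ker L : Submodule ℝ V) : Set V) := by
    ext x
    simp only [mem_setOf_eq, mem_preimage, SetLike.mem_coe, LinearMap.mem_ker]
    change ev f x = t ↔ ev f (-x0 + x) = 0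
    rw [ev_add, ev_neg, hx0t]
    constructor <;> intro h <;> linarith
  rw [he, measure_preimage_add, hz]

lemma vl_cut {W : Set V} (hW : IsCompact W) {f : V} (hf : f ≠ 0) (t : ℝ) :
    vl (W ∩ {x | ev f x ≤ t}) + vl (W ∩ {x | t ≤ ev f x}) = vl W := by
  have hWm := hW.measurableSet
  have hWfin : volume W ≠ ⊤ := hW.measure_lt_top.ne
  have m1 : MeasurableSet {x : V | ev f x ≤ t} :=
    (isClosed_le (continuous_ev f) continuous_const).measurableSet
  have m2 : MeasurableSet {x : V | t < ev f x} :=
    (isOpen_lt continuous_const (continuous_ev f)).measurableSet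
  have e1 : vl (W ∩ {x | t ≤ ev f x}) = vl (W ∩ {x | t < ev f x}) := by
    unfold vl
    congr 1
    apply measure_congr
    have hnull : volume (W ∩ {x | ev f x = t}) = 0 :=
      measure_mono_null inter_subset_right (volume_line hf t)
    have hu : W ∩ {x | t ≤ ev f x} = (W ∩ {x | t < ev f x}) ∪ (W ∩ {x | ev f x = t}) := by
      rw [← inter_union_distrib_left]
      congr 1
      ext x
      simp only [mem_setOf_eq, mem_union]
      rw [le_iff_lt_or_eq, eq_comm]
    rw [hu]
    exact union_ae_eq_left_of_ae_eq_empty (ae_eq_empty.2 hnull)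
  rw [e1, ← vl_union]
  · congr 1
    rw [← inter_union_distrib_left]
    apply inter_eq_self_of_subset_left
    intro x _
    exact le_or_gt (ev f x) t
  · rw [Set.disjoint_left]
    rintro x ⟨_, h1⟩ ⟨_, h2⟩
    exact absurd (show t < ev f x from h2) (not_lt.2 h1)
  · exact hWm.inter m2
  · exact ne_top_of_le_ne_top hWfin (measure_mono inter_subset_left)
  · exact ne_top_of_le_ne_top hWfin (measure_mono inter_subset_left)

lemma interior_add_mem (hC : IsBody C) {K : Set V} {k : V} (hk : k ∈ K) :
    k ∈ interior (K + C) := by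
  have h1 : (fun x => k + x) '' interior C ⊆ interior (K + C) := by
    apply interior_maximal
    · rintro _ ⟨x, hx, rfl⟩
      exact add_mem_add hk (interior_subset hx)
    · exact (Homeomorph.addLeft k).isOpenMap _ isOpen_interior
  have := h1 ⟨0, zero_mem_interior hC, rfl⟩
  simpa using this

/-- The two corners at the two ends of a chord. -/
lemma two_corners (hC : IsBody C) {K1 W1 : Set V} (hK1 : IsCompact K1) (hK1c : Convex ℝ K1)
    (hK1n : K1.Nonempty) (hW1 : IsCompact W1) (hW1c : Convex ℝ W1) (hsub : K1 + C ⊆ W1)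
    {p q a b f : V} (hpq : p ≠ q) (hp : p ∈ W1) (hq : q ∈ W1) (haf : cr a f ≠ 0)
    (hbf : cr b f ≠ 0) (ha : ∀ w ∈ W1, ev a w ≤ ev a p) (hb : ∀ w ∈ W1, ev b w ≤ ev b q)
    (hfp : ∀ w ∈ W1, ev f w ≤ ev f p) (hfq : ∀ w ∈ W1, ev f w ≤ ev f q) :
    vl (K1 + C) + (vl (Cor C a f) + vl (Cor C b f)) ≤ vl W1 := by
  have h := corner_sum hC hK1 hK1c hK1n hW1 hW1c hsub (Finset.univ : Finset Bool)
    (fun i => if i then p else q) (fun i => if i then a else b) (fun _ => f)
    (by intro j _; cases j <;> simp [haf, hbf])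
    (by intro j _; cases j <;> simp [hp, hq])
    (by intro j _; cases j
        · simpa using hb
        · simpa using ha)
    (by intro j _; cases j
        · simpa using hfq
        · simpa using hfp)
    (by
      intro i _ j _ hij x y x' y' hx hy hx' hy'
      cases i <;> cases j
      · exact absurd rfl hij
      · simpa using cones_disjoint hbf hq hb hfq hp ha hfp hpq.symm hx hy hx' hy'
      · simpa using cones_disjoint haf hp ha hfp hq hb hfq hpq hx hy hx' hy'
      · exact absurd rfl hij)
  simpa using h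

/-- Job A3b.  One cut. -/
theorem cut_step (hC : IsBody C) {K K1 K2 : Set V} (hK : IsCompact K) (hKc : Convex ℝ K)
    (hK1 : IsCompact K1) (hK1c : Convex ℝ K1) (hK1n : K1.Nonempty)
    (hK2 : IsCompact K2) (hK2c : Convex ℝ K2) (hK2n : K2.Nonempty)
    (hs1 : K1 ⊆ K) (hs2 : K2 ⊆ K) {f : V} (hf : f ≠ 0) {t : ℝ}
    (h1 : ∀ x ∈ K1, ev f x + hs C f ≤ t) (h2 : ∀ x ∈ K2, t ≤ ev f x - hs C f) :
    vl (K1 + C) + vl (K2 + C) + (beta C - vl C) ≤ vl (K + C) := by
  have hfpos := hs_pos hC hf
  have hWc : Convex ℝ (K + C) := hKc.add hC.convex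
  have hW : IsCompact (K + C) := hK.add hC.compact
  obtain ⟨k1, hk1⟩ := hK1n
  obtain ⟨k2, hk2⟩ := hK2n
  obtain ⟨p, q, a, b, hpq, hp, hq, hfp, hfq, haf, hbf, ha, hb⟩ :=
    chord_support hW hWc hf (t := t)
      ⟨k1, interior_add_mem hC (hs1 hk1), by have := h1 k1 hk1; linarith⟩
      ⟨k2, interior_add_mem hC (hs2 hk2), by have := h2 k2 hk2; linarith⟩
  have c1 : IsClosed {x : V | ev f x ≤ t} := isClosed_le (continuous_ev f) continuous_const
  have c2 : IsClosed {x : V | t ≤ ev f x} := isClosed_le continuous_const (continuous_ev f)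
  have v1 : Convex ℝ {x : V | ev f x ≤ t} := by
    intro x hx y hy s r hs0 hr0 hsr
    simp only [mem_setOf_eq] at *
    rw [ev_add, ev_smul, ev_smul]
    have e1 := mul_le_mul_of_nonneg_left hx hs0
    have e2 := mul_le_mul_of_nonneg_left hy hr0
    have : s * t + r * t = t := by rw [← add_mul, hsr, one_mul]
    linarith
  have v2 : Convex ℝ {x : V | t ≤ ev f x} := by
    intro x hx y hy s r hs0 hr0 hsr
    simp only [mem_setOf_eq] at *
    rw [ev_add, ev_smul, ev_smul]
    have e1 := mul_le_mul_of_nonneg_left hx hs0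
    have e2 := mul_le_mul_of_nonneg_left hy hr0
    have : s * t + r * t = t := by rw [← add_mul, hsr, one_mul]
    linarith
  have hsub1 : K1 + C ⊆ (K + C) ∩ {x | ev f x ≤ t} := by
    rintro _ ⟨x, hx, y, hy, rfl⟩
    refine ⟨add_mem_add (hs1 hx) hy, ?_⟩
    simp only [mem_setOf_eq]
    rw [ev_add]
    have := le_hs hC.compact hy f
    linarith [h1 x hx]
  have hsub2 : K2 + C ⊆ (K + C) ∩ {x | t ≤ ev f x} := by
    rintro _ ⟨x, hx, y, hy, rfl⟩
    refine ⟨add_mem_add (hs2 hx) hy, ?_⟩
    simp only [mem_setOf_eq]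
    rw [ev_add]
    have := le_hs hC.compact hy (-f)
    rw [hs_neg hC, ev_neg_left] at this
    linarith [h2 x hx]
  have k1 := two_corners hC hK1 hK1c ⟨k1, hk1⟩ (hW.inter_right c1) (hWc.inter v1) hsub1 hpq
    ⟨hp, hfp.le⟩ ⟨hq, hfq.le⟩ haf hbf (fun w hw => ha w hw.1) (fun w hw => hb w hw.1)
    (fun w hw => by rw [hfp]; exact hw.2) (fun w hw => by rw [hfq]; exact hw.2)
  have haf' : cr a (-f) ≠ 0 := cr_neg_ne haf
  have hbf' : cr b (-f) ≠ 0 := cr_neg_ne hbf
  have k2 := two_corners hC hK2 hK2c ⟨k2, hk2⟩ (hW.inter_right c2) (hWc.inter v2) hsub2 hpq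
    ⟨hp, hfp.ge⟩ ⟨hq, hfq.ge⟩ haf' hbf' (fun w hw => ha w hw.1) (fun w hw => hb w hw.1)
    (fun w hw => by
      rw [ev_neg_left, ev_neg_left, hfp]; have := hw.2; simp only [mem_setOf_eq] at this; linarith)
    (fun w hw => by
      rw [ev_neg_left, ev_neg_left, hfq]; have := hw.2; simp only [mem_setOf_eq] at this; linarith)
  have k3 := vl_cut hW hf t
  have k4 := Cor_pair_ge hC haf
  have k5 := Cor_pair_ge hC hbf
  linarith

/-- Job A3c.  The inequality. -/
theorem oler (hC : IsBody C) (X : Finset V) (hX : X.Nonempty) (hTS : TS C (X : Set V)) :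
    ((X.card : ℝ) - 1) * beta C + vl C ≤ vl (convexHull ℝ (X : Set V) + C) := by
  classical
  induction hn : X.card using Nat.strong_induction_on generalizing X with
  | _ n ih =>
    subst hn
    by_cases h1 : X.card = 1
    · obtain ⟨x, rfl⟩ := Finset.card_eq_one.1 h1
      rw [Finset.coe_singleton, convexHull_singleton, Finset.card_singleton]
      have : ({x} : Set V) + C = (fun y => x + y) '' C := by
        rw [singleton_add]
      rw [this, vl_add_image]
      simp
    · have h2 : 1 < X.card := by
        have := hX.card_pos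
        omega
      obtain ⟨x, hx, y, hy, hxy⟩ := Finset.one_lt_card.1 h2
      obtain ⟨f, t, hf, hx1, hy1, hz⟩ := hTS x hx y hy hxy
      have hfpos := hs_pos hC hf
      set X1 := X.filter fun z => ev f z + hs C f ≤ t with hX1
      set X2 := X.filter fun z => ¬ (ev f z + hs C f ≤ t) with hX2
      have hcard : X1.card + X2.card = X.card := Finset.card_filter_add_card_filter_not _
      have hx1m : x ∈ X1 := Finset.mem_filter.2 ⟨hx, hx1⟩
      have hy2m : y ∈ X2 := Finset.mem_filter.2 ⟨hy, by linarith⟩
      have hs1 : X1 ⊆ X := Finset.filter_subset _ _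
      have hs2 : X2 ⊆ X := Finset.filter_subset _ _
      have c1 : 0 < X1.card := Finset.card_pos.2 ⟨x, hx1m⟩
      have c2 : 0 < X2.card := Finset.card_pos.2 ⟨y, hy2m⟩
      have i1 := ih X1.card (by omega) X1 ⟨x, hx1m⟩ (hTS.mono (by exact_mod_cast hs1)) rfl
      have i2 := ih X2.card (by omega) X2 ⟨y, hy2m⟩ (hTS.mono (by exact_mod_cast hs2)) rfl
      have v1 : Convex ℝ {x : V | ev f x + hs C f ≤ t} := by
        intro x hx y hy s r hs0 hr0 hsr
        simp only [mem_setOf_eq] at *
        rw [ev_add, ev_smul, ev_smul]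
        have e1 := mul_le_mul_of_nonneg_left hx hs0
        have e2 := mul_le_mul_of_nonneg_left hy hr0
        have : s * t + r * t = t := by rw [← add_mul, hsr, one_mul]
        have e3 : s * hs C f + r * hs C f = hs C f := by rw [← add_mul, hsr, one_mul]
        linarith
      have v2 : Convex ℝ {x : V | t ≤ ev f x - hs C f} := by
        intro x hx y hy s r hs0 hr0 hsr
        simp only [mem_setOf_eq] at *
        rw [ev_add, ev_smul, ev_smul]
        have e1 := mul_le_mul_of_nonneg_left hx hs0
        have e2 := mul_le_mul_of_nonneg_left hy hr0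
        have : s * t + r * t = t := by rw [← add_mul, hsr, one_mul]
        have e3 : s * hs C f + r * hs C f = hs C f := by rw [← add_mul, hsr, one_mul]
        linarith
      have q1 : ∀ z ∈ convexHull ℝ (X1 : Set V), ev f z + hs C f ≤ t := by
        intro z hz1
        have : convexHull ℝ (X1 : Set V) ⊆ {x : V | ev f x + hs C f ≤ t} := by
          apply convexHull_min _ v1
          intro w hw
          exact (Finset.mem_filter.1 (Finset.mem_coe.1 hw)).2
        exact this hz1
      have q2 : ∀ z ∈ convexHull ℝ (X2 : Set V), t ≤ ev f z - hs C f := by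
        intro z hz1
        have : convexHull ℝ (X2 : Set V) ⊆ {x : V | t ≤ ev f x - hs C f} := by
          apply convexHull_min _ v2
          intro w hw
          have hw' := Finset.mem_filter.1 (Finset.mem_coe.1 hw)
          rcases hz w hw'.1 with h | h
          · exact absurd h hw'.2
          · exact h
        exact this hz1
      have hfin : ∀ Y : Finset V, IsCompact (convexHull ℝ (Y : Set V)) := fun Y =>
        Y.finite_toSet.isCompact_convexHull ℝ
      have key := cut_step hC (hfin X) (convex_convexHull ℝ _) (hfin X1) (convex_convexHull ℝ _)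
        ⟨x, subset_convexHull ℝ _ (by exact_mod_cast hx1m)⟩ (hfin X2) (convex_convexHull ℝ _)
        ⟨y, subset_convexHull ℝ _ (by exact_mod_cast hy2m)⟩
        (convexHull_mono (by exact_mod_cast hs1)) (convexHull_mono (by exact_mod_cast hs2))
        hf q1 q2
      have hc' : (X1.card : ℝ) + X2.card = X.card := by exact_mod_cast hcard
      have : ((X.card : ℝ) - 1) * beta C = ((X1.card : ℝ) - 1) * beta C
          + ((X2.card : ℝ) - 1) * beta C + beta C := by rw [← hc']; ring
      linarith

end Pool.Agent.H.MP_929345_co.Pl
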