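import Pool.Agent.H.MP_929345_co.Pl.FiD

/-! The planar case of the question: for every `o`-symmetric plane convex body the densities of
`ρ`-separable packings equal the density of totally separable packings for all large `ρ`. -/

set_option autoImplicit false

namespace Pool.Agent.H.MP_929345_co.Pl.PlanarBodies

open Pool.Agent.H.MP_929345_co

/-- For every `o`-symmetric convex body `C` in the plane there is `ρ₀` such that for all
`ρ ≥ ρ₀` the supremum of the upper densities of the `ρ`-separable translative packings of `C`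
equals the supremum of the upper densities of the totally separable ones. -/
theorem result (C : Set (Fin 2 → ℝ)) (hC : IsBody C) :
    ∃ ρ₀ : ℝ, 1 ≤ ρ₀ ∧ ∀ ρ : ℝ, ρ₀ ≤ ρ →
      (⨆ S ∈ {S : Set (Fin 2 → ℝ) | IsPacking C S ∧ RhoSep ρ C S}, dens C S) =
        ⨆ S ∈ {S : Set (Fin 2 → ℝ) | IsPacking C S ∧ TotSep C S}, dens C S := by
  obtain ⟨ρ₀, h1, h2⟩ := Pl.planar hC
  exact ⟨ρ₀, h1, fun ρ hρ => h2 ρ hρ⟩

end Pool.Agent.H.MP_929345_co.Pl.PlanarBodies
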