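import Pool.Agent.H.MP_929345_co.Pl.Hs

/-! C3a: two transversal separators -/

set_option autoImplicit false

open MeasureTheory Set

namespace Pool.Agent.H.MP_929345_co.Pl

lemma sea_abs_le (x : V) (i : Fin 2) : |x i| ≤ ‖x‖ := by
  have h := norm_le_pi_norm x i
  rwa [Real.norm_eq_abs] at h

lemma sea_abs_ev (f x : V) : |ev f x| ≤ 2 * (‖f‖ * ‖x‖) := by
  have e1 : |f 0 * x 0| ≤ ‖f‖ * ‖x‖ := by
    rw [abs_mul]
    exact mul_le_mul (sea_abs_le f 0) (sea_abs_le x 0) (abs_nonneg _) (norm_nonneg _)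
  have e2 : |f 1 * x 1| ≤ ‖f‖ * ‖x‖ := by
    rw [abs_mul]
    exact mul_le_mul (sea_abs_le f 1) (sea_abs_le x 1) (abs_nonneg _) (norm_nonneg _)
  unfold ev
  have e3 := abs_add_le (f 0 * x 0) (f 1 * x 1)
  linarith

lemma sea_hs {C : Set V} (hC : IsBody C) {r : ℝ} (hr : 0 < r)
    (h : Metric.closedBall (0 : V) r ⊆ C) (f : V) : r * ‖f‖ ≤ hs C f := by
  have key : ∀ i : Fin 2, |f i| ≤ hs C f / r := by
    intro i
    rw [le_div_iff₀ hr]
    have h1 : ∀ s : ℝ, |s| ≤ r → f i * s ≤ hs C f := by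
      intro s hs'
      have h2 : (Pi.single i s : V) ∈ C := by
        apply h
        rw [Metric.mem_closedBall, dist_zero_right, pi_norm_le_iff_of_nonneg hr.le]
        intro j
        rw [Real.norm_eq_abs]
        by_cases hj : j = i
        · subst hj
          rw [Pi.single_eq_same]
          exact hs'
        · rw [Pi.single_eq_of_ne hj, abs_zero]
          exact hr.le
      have h3 := le_hs hC.compact h2 f
      have h4 : ev f (Pi.single i s) = f i * s := by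
        fin_cases i <;> simp [ev]
      rwa [h4] at h3
    rcases le_total 0 (f i) with h0 | h0
    · rw [abs_of_nonneg h0]
      exact h1 r (by rw [abs_of_pos hr])
    · rw [abs_of_nonpos h0]
      have h5 := h1 (-r) (by rw [abs_neg, abs_of_pos hr])
      linarith
  have h6 : 0 ≤ hs C f / r := div_nonneg (hs_nonneg hC f) hr.le
  have h7 : ‖f‖ ≤ hs C f / r := by
    rw [pi_norm_le_iff_of_nonneg h6]
    intro i
    rw [Real.norm_eq_abs]
    exact key i
  rw [le_div_iff₀ hr] at h7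
  linarith

lemma sea_norm {C X : Set V} (hC : IsBody C) (h : TS C X) {x y : V} (hx : x ∈ X) (hy : y ∈ X)
    (hxy : x ≠ y) : ∃ (f : V) (t : ℝ), ‖f‖ = 1 ∧ ev f x + hs C f ≤ t ∧ t ≤ ev f y - hs C f ∧
    ∀ z ∈ X, ev f z + hs C f ≤ t ∨ t ≤ ev f z - hs C f := by
  obtain ⟨f, t, hf, h1, h2, h3⟩ := h x hx y hy hxy
  have hn : 0 < ‖f‖ := norm_pos_iff.2 hf
  have hc : 0 < ‖f‖⁻¹ := inv_pos.2 hn
  have key : ∀ z : V, ev (‖f‖⁻¹ • f) z + hs C (‖f‖⁻¹ • f) = ‖f‖⁻¹ * (ev f z + hs C f) ∧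
      ev (‖f‖⁻¹ • f) z - hs C (‖f‖⁻¹ • f) = ‖f‖⁻¹ * (ev f z - hs C f) := by
    intro z
    rw [ev_smul_left, hs_smul hC.compact ⟨0, zero_mem hC⟩ hc.le]
    constructor <;> ring
  refine ⟨‖f‖⁻¹ • f, ‖f‖⁻¹ * t, ?_, ?_, ?_, ?_⟩
  · rw [norm_smul, norm_inv, norm_norm, inv_mul_cancel₀ hn.ne']
  · rw [(key x).1]
    exact mul_le_mul_of_nonneg_left h1 hc.le
  · rw [(key y).2]
    exact mul_le_mul_of_nonneg_left h2 hc.le
  · intro z hz
    rw [(key z).1, (key z).2]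
    rcases h3 z hz with h4 | h4
    · exact Or.inl (mul_le_mul_of_nonneg_left h4 hc.le)
    · exact Or.inr (mul_le_mul_of_nonneg_left h4 hc.le)

lemma sea_norm_pp (f : V) : ‖pp f‖ = ‖f‖ := by
  apply le_antisymm
  · rw [pi_norm_le_iff_of_nonneg (norm_nonneg _)]
    intro i
    fin_cases i
    · simpa [pp] using sea_abs_le f 1
    · simpa [pp] using sea_abs_le f 0
  · rw [pi_norm_le_iff_of_nonneg (norm_nonneg _)]
    intro i
    fin_cases i
    · simpa [pp] using sea_abs_le (pp f) 1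
    · simpa [pp] using sea_abs_le (pp f) 0

lemma sea_cr_pp (f y : V) : cr (pp f) y = -ev f y := by
  simp [cr, pp, ev]
  ring

lemma sea_cr_pp_pp (f g : V) : cr (pp f) (pp g) = cr f g := by
  simp [cr, pp]
  ring

/-- if two functionals of norm one are almost proportional, their values are close -/
lemma sea_close {f g w : V} (hf : ‖f‖ = 1) (hg : ‖g‖ = 1) {a s D : ℝ} (h1 : |ev f w| ≤ a)
    (h2 : |cr f g| ≤ s) (h3 : ‖w‖ ≤ D) : |ev g w| ≤ a + s * D := by
  have hs0 : 0 ≤ s := (abs_nonneg _).trans h2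
  have ha0 : 0 ≤ a := (abs_nonneg _).trans h1
  have hex : |f 0| = 1 ∨ |f 1| = 1 := by
    by_contra hcon
    rw [not_or] at hcon
    have h4 : |f 0| < 1 := lt_of_le_of_ne (hf ▸ sea_abs_le f 0) hcon.1
    have h5 : |f 1| < 1 := lt_of_le_of_ne (hf ▸ sea_abs_le f 1) hcon.2
    have h6 : ‖f‖ < 1 := by
      rw [pi_norm_lt_iff one_pos]
      intro i
      fin_cases i
      · exact h4
      · exact h5
    linarith
  have hg0 : |g 0| ≤ 1 := hg ▸ sea_abs_le g 0
  have hg1 : |g 1| ≤ 1 := hg ▸ sea_abs_le g 1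
  have hw0 : |w 0| ≤ D := (sea_abs_le w 0).trans h3
  have hw1 : |w 1| ≤ D := (sea_abs_le w 1).trans h3
  rcases hex with h4 | h4
  · have e : f 0 * ev g w = g 0 * ev f w + cr f g * w 1 := by
      unfold ev cr
      ring
    have e2 : |ev g w| = |f 0 * ev g w| := by rw [abs_mul, h4, one_mul]
    rw [e2, e]
    refine (abs_add_le _ _).trans (add_le_add ?_ ?_)
    · rw [abs_mul]
      calc |g 0| * |ev f w| ≤ 1 * a := mul_le_mul hg0 h1 (abs_nonneg _) one_pos.le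
        _ = a := one_mul a
    · rw [abs_mul]
      exact mul_le_mul h2 hw1 (abs_nonneg _) hs0
  · have e : f 1 * ev g w = g 1 * ev f w + (-cr f g) * w 0 := by
      unfold ev cr
      ring
    have e2 : |ev g w| = |f 1 * ev g w| := by rw [abs_mul, h4, one_mul]
    rw [e2, e]
    refine (abs_add_le _ _).trans (add_le_add ?_ ?_)
    · rw [abs_mul]
      calc |g 1| * |ev f w| ≤ 1 * a := mul_le_mul hg1 h1 (abs_nonneg _) one_pos.le
        _ = a := one_mul a
    · rw [abs_mul, abs_neg]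
      exact mul_le_mul h2 hw0 (abs_nonneg _) hs0

/-- two elements of a large set have close values -/
lemma sea_pigeon {F : Finset V} {g : V → ℝ} {c D r : ℝ} (hr : 0 < r) (hD : 0 ≤ D)
    (hg : ∀ x ∈ F, |g x - c| ≤ D) (hF : 2 * D / r + 1 < F.card) :
    ∃ x ∈ F, ∃ y ∈ F, x ≠ y ∧ |g x - g y| ≤ r := by
  have h1 : (Finset.range (⌊2 * D / r⌋₊ + 1)).card < F.card := by
    rw [Finset.card_range]
    have h2 : ((⌊2 * D / r⌋₊ + 1 : ℕ) : ℝ) < (F.card : ℝ) := by
      push_cast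
      have h3 := Nat.floor_le (show 0 ≤ 2 * D / r by positivity)
      linarith
    exact_mod_cast h2
  have h0 : ∀ x ∈ F, 0 ≤ (g x - c + D) / r := by
    intro x hx
    have := (abs_le.1 (hg x hx)).1
    exact div_nonneg (by linarith) hr.le
  obtain ⟨x, hx, y, hy, hxy, he⟩ := Finset.exists_ne_map_eq_of_card_lt_of_maps_to h1
    (f := fun x => ⌊(g x - c + D) / r⌋₊) (by
      intro x hx
      have hx' : x ∈ F := hx
      simp only [Finset.coe_range, Set.mem_Iio]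
      rw [Nat.lt_succ_iff]
      apply Nat.floor_le_floor
      have := (abs_le.1 (hg x hx')).2
      exact div_le_div_of_nonneg_right (by linarith) hr.le)
  refine ⟨x, hx, y, hy, hxy, ?_⟩
  have a1 := Nat.floor_le (h0 x hx)
  have a2 := Nat.lt_floor_add_one ((g x - c + D) / r)
  have b1 := Nat.floor_le (h0 y hy)
  have b2 := Nat.lt_floor_add_one ((g y - c + D) / r)
  rw [he] at a1 a2
  have hd : (g x - g y) / r = (g x - c + D) / r - (g y - c + D) / r := by ring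
  have h5 : |(g x - g y) / r| ≤ 1 := by
    rw [hd, abs_le]
    constructor <;> linarith
  rw [abs_div, abs_of_pos hr, div_le_one hr] at h5
  exact h5

/-- a normalised separator does not meet the interiors of the translates -/
lemma sea_miss {C X : Set V} (hC : IsBody C) {f b : V} {t : ℝ} (hf : ‖f‖ = 1) (hb : ev f b = t)
    (h : ∀ z ∈ X, ev f z + hs C f ≤ t ∨ t ≤ ev f z - hs C f) :
    ∀ x ∈ X, ∀ w ∈ interior C, cr (pp f) (x + w - b) ≠ 0 := by
  intro x hx w hw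
  have hf0 : f ≠ 0 := by
    rintro rfl
    rw [norm_zero] at hf
    exact zero_ne_one hf
  have h1 := ev_lt_hs hC hf0 hw
  have h2 := ev_lt_hs hC (neg_ne_zero.2 hf0) hw
  rw [hs_neg hC, ev_neg_left] at h2
  rw [sea_cr_pp, ev_sub, ev_add, hb]
  rcases h x hx with h3 | h3
  · intro h4
    linarith
  · intro h4
    linarith

/-- Job C3a.  Many centres in a small ball give two transversal separators. -/
theorem pair_lines {C : Set V} (hC : IsBody C) : ∃ κ > 0, ∀ D0 : ℝ, 1 ≤ D0 →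
    ∃ s0 > 0, s0 ≤ 1 ∧ ∃ C0 > 0, ∀ (z : V) (Xw : Set V), TS C Xw →
    ∀ F : Finset V, (F : Set V) ⊆ Xw → (∀ x ∈ F, ‖x - z‖ ≤ D0 / 2) → κ * D0 ≤ F.card →
    ∃ b u v : V, ‖u‖ = 1 ∧ ‖v‖ = 1 ∧ s0 ≤ |cr u v| ∧ ‖b - z‖ ≤ C0 ∧
      ∀ x ∈ Xw, ∀ w ∈ interior C, cr u (x + w - b) ≠ 0 ∧ cr v (x + w - b) ≠ 0 := by
  obtain ⟨r, hr, hball⟩ := exists_ball hC
  refine ⟨4 / r + 2, by positivity, ?_⟩
  intro D0 hD0
  have hD0' : 0 < D0 := by linarith
  have hs0 : 0 < min 1 (r / D0) := lt_min one_pos (by positivity)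
  refine ⟨min 1 (r / D0), hs0, min_le_left _ _, 2 * D0 / min 1 (r / D0), by positivity, ?_⟩
  intro z Xw hTS F hFX hFz hF
  have hev : ∀ f : V, ‖f‖ = 1 → ∀ x ∈ F, |ev f x - ev f z| ≤ D0 := by
    intro f hf x hx
    rw [← ev_sub]
    have h1 := sea_abs_ev f (x - z)
    rw [hf, one_mul] at h1
    have h2 := hFz x hx
    linarith
  have hcard : 2 * D0 / (r / 2) + 1 < (F.card : ℝ) := by
    have e : 2 * D0 / (r / 2) = 4 / r * D0 := by field_simp; norm_num
    rw [e]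
    nlinarith
  -- first separator
  obtain ⟨x, hx, y, hy, hxy⟩ := Finset.one_lt_card.1 (by
    have h1 : (1 : ℝ) < F.card := by
      have : 0 ≤ 2 * D0 / (r / 2) := by positivity
      linarith
    exact_mod_cast h1 : 1 < F.card)
  obtain ⟨f1, t1, hf1, a1, a2, a3⟩ := sea_norm hC hTS (hFX hx) (hFX hy) hxy
  -- second separator
  obtain ⟨x', hx', y', hy', hxy', hclose⟩ := sea_pigeon (F := F) (g := ev f1) (c := ev f1 z)
    (D := D0) (r := r / 2) (by positivity) hD0'.le (hev f1 hf1) hcard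
  obtain ⟨f2, t2, hf2, b1, b2, b3⟩ := sea_norm hC hTS (hFX hx') (hFX hy') hxy'
  have hh1 := sea_hs hC hr hball f1
  have hh2 := sea_hs hC hr hball f2
  rw [hf1, mul_one] at hh1
  rw [hf2, mul_one] at hh2
  have hcr : min 1 (r / D0) ≤ |cr f1 f2| := by
    by_contra hcon
    rw [not_le] at hcon
    have h1 : |cr f1 f2| ≤ r / D0 := (hcon.trans_le (min_le_right _ _)).le
    have h2 : ‖x' - y'‖ ≤ D0 := by
      have e : x' - y' = (x' - z) - (y' - z) := by abel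
      rw [e]
      refine (norm_sub_le _ _).trans ?_
      have := hFz x' hx'
      have := hFz y' hy'
      linarith
    have h3 : |ev f1 (x' - y')| ≤ r / 2 := by
      rw [ev_sub]
      exact hclose
    have h4 := sea_close hf1 hf2 h3 h1 h2
    rw [div_mul_cancel₀ _ hD0'.ne', ev_sub] at h4
    have h5 := (abs_le.1 h4).1
    linarith
  have hcr0 : cr f1 f2 ≠ 0 := by
    intro h0
    rw [h0, abs_zero] at hcr
    linarith
  -- the values at `z`
  have hτ : ∀ (f : V) (t : ℝ), ‖f‖ = 1 → 0 ≤ hs C f → (∃ x ∈ F, ∃ y ∈ F, ev f x + hs C f ≤ t ∧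
      t ≤ ev f y - hs C f) → |t - ev f z| ≤ D0 := by
    rintro f t hf hh ⟨x, hx, y, hy, h1, h2⟩
    have h3 := abs_le.1 (hev f hf x hx)
    have h4 := abs_le.1 (hev f hf y hy)
    rw [abs_le]
    constructor <;> linarith [h3.1, h3.2, h4.1, h4.2]
  have ht1 := hτ f1 t1 hf1 (hs_nonneg hC f1) ⟨x, hx, y, hy, a1, a2⟩
  have ht2 := hτ f2 t2 hf2 (hs_nonneg hC f2) ⟨x', hx', y', hy', b1, b2⟩
  obtain ⟨τ1, hτ1⟩ : ∃ τ1, τ1 = t1 - ev f1 z := ⟨_, rfl⟩
  obtain ⟨τ2, hτ2⟩ : ∃ τ2, τ2 = t2 - ev f2 z := ⟨_, rfl⟩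
  rw [← hτ1] at ht1
  rw [← hτ2] at ht2
  obtain ⟨c, hc⟩ : ∃ c : V, c = (cr f1 f2)⁻¹ • ![τ1 * f2 1 - τ2 * f1 1, f1 0 * τ2 - f2 0 * τ1] :=
    ⟨_, rfl⟩
  have hc1 : ev f1 c = τ1 := by
    rw [hc, ev_smul]
    have : ev f1 ![τ1 * f2 1 - τ2 * f1 1, f1 0 * τ2 - f2 0 * τ1] = cr f1 f2 * τ1 := by
      simp [ev, cr]
      ring
    rw [this, inv_mul_cancel_left₀ hcr0]
  have hc2 : ev f2 c = τ2 := by
    rw [hc, ev_smul]
    have : ev f2 ![τ1 * f2 1 - τ2 * f1 1, f1 0 * τ2 - f2 0 * τ1] = cr f1 f2 * τ2 := by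
      simp [ev, cr]
      ring
    rw [this, inv_mul_cancel_left₀ hcr0]
  have hcn : ‖c‖ ≤ 2 * D0 / min 1 (r / D0) := by
    have h1 : ‖(![τ1 * f2 1 - τ2 * f1 1, f1 0 * τ2 - f2 0 * τ1] : V)‖ ≤ 2 * D0 := by
      have f10 := sea_abs_le f1 0
      have f11 := sea_abs_le f1 1
      have f20 := sea_abs_le f2 0
      have f21 := sea_abs_le f2 1
      rw [hf1] at f10 f11
      rw [hf2] at f20 f21
      have p1 : |τ1 * f2 1| ≤ D0 := by
        rw [abs_mul]
        calc |τ1| * |f2 1| ≤ D0 * 1 := mul_le_mul ht1 f21 (abs_nonneg _) hD0'.le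
          _ = D0 := mul_one _
      have p2 : |τ2 * f1 1| ≤ D0 := by
        rw [abs_mul]
        calc |τ2| * |f1 1| ≤ D0 * 1 := mul_le_mul ht2 f11 (abs_nonneg _) hD0'.le
          _ = D0 := mul_one _
      have p3 : |f1 0 * τ2| ≤ D0 := by
        rw [abs_mul, mul_comm]
        calc |τ2| * |f1 0| ≤ D0 * 1 := mul_le_mul ht2 f10 (abs_nonneg _) hD0'.le
          _ = D0 := mul_one _
      have p4 : |f2 0 * τ1| ≤ D0 := by
        rw [abs_mul, mul_comm]
        calc |τ1| * |f2 0| ≤ D0 * 1 := mul_le_mul ht1 f20 (abs_nonneg _) hD0'.le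
          _ = D0 := mul_one _
      rw [pi_norm_le_iff_of_nonneg (by positivity)]
      intro i
      rw [Real.norm_eq_abs]
      fin_cases i
      · show |τ1 * f2 1 - τ2 * f1 1| ≤ 2 * D0
        have := abs_sub (τ1 * f2 1) (τ2 * f1 1)
        linarith
      · show |f1 0 * τ2 - f2 0 * τ1| ≤ 2 * D0
        have := abs_sub (f1 0 * τ2) (f2 0 * τ1)
        linarith
    rw [hc, norm_smul, norm_inv, Real.norm_eq_abs, div_eq_inv_mul]
    exact mul_le_mul (inv_anti₀ hs0 hcr) h1 (norm_nonneg _) (inv_nonneg.2 hs0.le)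
  have hb1 : ev f1 (z + c) = t1 := by
    rw [ev_add, hc1, hτ1]
    ring
  have hb2 : ev f2 (z + c) = t2 := by
    rw [ev_add, hc2, hτ2]
    ring
  refine ⟨z + c, pp f1, pp f2, ?_, ?_, ?_, ?_, ?_⟩
  · rw [sea_norm_pp, hf1]
  · rw [sea_norm_pp, hf2]
  · rw [sea_cr_pp_pp]
    exact hcr
  · rw [add_sub_cancel_left]
    exact hcn
  · intro x hx w hw
    exact ⟨sea_miss hC hf1 hb1 a3 x hx w hw, sea_miss hC hf2 hb2 b3 x hx w hw⟩

end Pool.Agent.H.MP_929345_co.Pl
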