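import Pool.Agent.H.MP_929345_co.Pl.Hs
import Pool.Agent.H.MP_929345_co.Pl.SiC

/-! C3b, C3c: packings in balls, strips -/

set_option autoImplicit false

open MeasureTheory Set

namespace Pool.Agent.H.MP_929345_co.Pl

/-- Job C3b.  Number of centres of a packing in a ball. -/
theorem card_packing {C : Set V} (hC : IsBody C) : ∃ κ > 0, ∀ X : Set V, IsPacking C X →
    ∀ (y : V) (R : ℝ), 0 ≤ R → (X ∩ Metric.closedBall y R).Finite ∧
      ((X ∩ Metric.closedBall y R).ncard : ℝ) ≤ κ * (R + 1) ^ 2 := by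
  obtain ⟨r, hr, hrC⟩ := exists_ball hC
  have hball : Metric.ball (0 : V) r ⊆ C := Metric.ball_subset_closedBall.trans hrC
  refine ⟨(1 / r + 1) ^ 2, by positivity, ?_⟩
  intro X hX y R hR
  have hsep : ∀ i j : X, i ≠ j → 2 * r ≤ ‖(i : V) - (j : V)‖ := by
    intro i j hij
    have h1 := hX i i.2 j j.2 (fun h => hij (Subtype.ext h))
    have h2 : r * gauge C ((i : V) - (j : V)) ≤ ‖(i : V) - (j : V)‖ := mul_gauge_le_norm hball
    nlinarith
  obtain ⟨h1, h2⟩ := card_near (fun i : X => (i : V)) (by positivity : 0 < 2 * r) hsep y hR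
  have himg : X ∩ Metric.closedBall y R =
      (Subtype.val : X → V) '' {i : X | ‖(i : V) - y‖ ≤ R} := by
    ext z
    constructor
    · rintro ⟨hz, hz2⟩
      rw [Metric.mem_closedBall, dist_eq_norm] at hz2
      exact ⟨⟨z, hz⟩, hz2, rfl⟩
    · rintro ⟨⟨z', hz'⟩, hz2, rfl⟩
      refine ⟨hz', ?_⟩
      rw [Metric.mem_closedBall, dist_eq_norm]
      exact hz2
  rw [himg]
  refine ⟨h1.image _, ?_⟩
  rw [Set.ncard_image_of_injective _ Subtype.val_injective]
  refine h2.trans ?_
  rw [← mul_pow]
  apply pow_le_pow_left₀ (by positivity)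
  have h3 : 2 * R / (2 * r) = R / r := by field_simp
  have h4 : (1 / r + 1) * (R + 1) = R / r + 1 + (1 / r + R) := by field_simp; ring
  rw [h3, h4]
  have h5 : 0 < 1 / r := by positivity
  linarith

/-- Area of a set contained in the preimage of a box under a matrix of determinant one. -/
theorem seb_box (M : Matrix (Fin 2) (Fin 2) ℝ) (hM : M.det = 1) {S : Set V} {p q : V}
    (hpq : p ≤ q) (hS : ∀ z ∈ S, M.mulVec z ∈ Icc p q) :
    vl S ≤ (q 0 - p 0) * (q 1 - p 1) := by
  have hsub : S ⊆ Matrix.toLin' M ⁻¹' (Icc p q) := by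
    intro z hz
    rw [mem_preimage, Matrix.toLin'_apply]
    exact hS z hz
  have hdet : LinearMap.det (Matrix.toLin' M) = 1 := by
    rw [LinearMap.det_toLin', hM]
  have hvol : volume (Matrix.toLin' M ⁻¹' (Icc p q)) =
      ENNReal.ofReal ((q 0 - p 0) * (q 1 - p 1)) := by
    rw [Measure.addHaar_preimage_linearMap _ (by rw [hdet]; exact one_ne_zero), hdet]
    rw [Real.volume_Icc_pi]
    simp only [inv_one, abs_one, ENNReal.ofReal_one, one_mul, Fin.prod_univ_two]
    rw [ENNReal.ofReal_mul (sub_nonneg.2 (hpq 0))]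
  have hle : volume S ≤ ENNReal.ofReal ((q 0 - p 0) * (q 1 - p 1)) := by
    rw [← hvol]
    exact measure_mono hsub
  have hnn : 0 ≤ (q 0 - p 0) * (q 1 - p 1) :=
    mul_nonneg (sub_nonneg.2 (hpq 0)) (sub_nonneg.2 (hpq 1))
  unfold vl
  exact (ENNReal.toReal_le_of_le_ofReal hnn hle)

/-- Job C3c.  Area of the part of a ball near a line. -/
theorem vl_strip {x b w : V} (hw : ‖w‖ = 1) {R η : ℝ} (hR : 0 ≤ R) (hη : 0 ≤ η) :
    vl (Metric.closedBall x R ∩ {z | |cr w (z - b)| ≤ η}) ≤ 2 * R * (2 * η) := by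
  have hball : ∀ z ∈ Metric.closedBall x R, ∀ i, |z i - x i| ≤ R := by
    intro z hz i
    rw [Metric.mem_closedBall, dist_eq_norm] at hz
    have h := norm_le_pi_norm (z - x) i
    rw [Real.norm_eq_abs, Pi.sub_apply] at h
    exact h.trans hz
  have hcase : |w 0| = 1 ∨ |w 1| = 1 := by
    by_contra hcon
    push Not at hcon
    have h0 := norm_le_pi_norm w 0
    have h1 := norm_le_pi_norm w 1
    rw [Real.norm_eq_abs, hw] at h0 h1
    have h0' : |w 0| < 1 := lt_of_le_of_ne h0 hcon.1
    have h1' : |w 1| < 1 := lt_of_le_of_ne h1 hcon.2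
    have : ‖w‖ < 1 := by
      rw [pi_norm_lt_iff one_pos]
      intro i
      fin_cases i
      · exact h0'
      · exact h1'
    linarith
  rcases hcase with h | h
  · -- `w 0` is a unit
    have hsq : w 0 * w 0 = 1 := by
      have := sq_abs (w 0)
      rw [h] at this
      nlinarith
    have := seb_box (!![1, 0; -(w 1 * w 0), 1]) (by simp [Matrix.det_fin_two])
      (S := Metric.closedBall x R ∩ {z | |cr w (z - b)| ≤ η})
      (p := ![x 0 - R, b 1 - (w 1 * w 0) * b 0 - η]) (q := ![x 0 + R, b 1 - (w 1 * w 0) * b 0 + η])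
      (by
        intro i
        fin_cases i
        · show x 0 - R ≤ x 0 + R
          linarith
        · show b 1 - (w 1 * w 0) * b 0 - η ≤ b 1 - (w 1 * w 0) * b 0 + η
          linarith)
      (by
        rintro z ⟨hz1, hz2⟩
        have e0 := hball z hz1 0
        have hz3 : |cr w (z - b)| ≤ η := hz2
        have e1 : |z 1 - (w 1 * w 0) * z 0 - (b 1 - (w 1 * w 0) * b 0)| ≤ η := by
          have : z 1 - (w 1 * w 0) * z 0 - (b 1 - (w 1 * w 0) * b 0) = w 0 * cr w (z - b) := by
            simp only [cr, Pi.sub_apply]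
            linear_combination (-(z 1 - b 1)) * hsq
          rw [this, abs_mul, h, one_mul]
          exact hz3
        have m0 : (!![1, 0; -(w 1 * w 0), 1] : Matrix (Fin 2) (Fin 2) ℝ).mulVec z 0 = z 0 := by
          simp [Matrix.mulVec, dotProduct, Fin.sum_univ_two]
        have m1 : (!![1, 0; -(w 1 * w 0), 1] : Matrix (Fin 2) (Fin 2) ℝ).mulVec z 1 =
            z 1 - (w 1 * w 0) * z 0 := by
          simp [Matrix.mulVec, dotProduct, Fin.sum_univ_two]
          ring
        rw [abs_le] at e0 e1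
        constructor
        · intro i
          fin_cases i
          · show x 0 - R ≤ (!![1, 0; -(w 1 * w 0), 1] : Matrix (Fin 2) (Fin 2) ℝ).mulVec z 0
            rw [m0]
            linarith [e0.1]
          · show b 1 - (w 1 * w 0) * b 0 - η ≤
              (!![1, 0; -(w 1 * w 0), 1] : Matrix (Fin 2) (Fin 2) ℝ).mulVec z 1
            rw [m1]
            linarith [e1.1]
        · intro i
          fin_cases i
          · show (!![1, 0; -(w 1 * w 0), 1] : Matrix (Fin 2) (Fin 2) ℝ).mulVec z 0 ≤ x 0 + R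
            rw [m0]
            linarith [e0.2]
          · show (!![1, 0; -(w 1 * w 0), 1] : Matrix (Fin 2) (Fin 2) ℝ).mulVec z 1 ≤
              b 1 - (w 1 * w 0) * b 0 + η
            rw [m1]
            linarith [e1.2])
    refine this.trans (le_of_eq ?_)
    simp only [Matrix.cons_val_zero, Matrix.cons_val_one]
    ring
  · -- `w 1` is a unit
    have hsq : w 1 * w 1 = 1 := by
      have := sq_abs (w 1)
      rw [h] at this
      nlinarith
    have := seb_box (!![1, -(w 0 * w 1); 0, 1]) (by simp [Matrix.det_fin_two])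
      (S := Metric.closedBall x R ∩ {z | |cr w (z - b)| ≤ η})
      (p := ![b 0 - (w 0 * w 1) * b 1 - η, x 1 - R]) (q := ![b 0 - (w 0 * w 1) * b 1 + η, x 1 + R])
      (by
        intro i
        fin_cases i
        · show b 0 - (w 0 * w 1) * b 1 - η ≤ b 0 - (w 0 * w 1) * b 1 + η
          linarith
        · show x 1 - R ≤ x 1 + R
          linarith)
      (by
        rintro z ⟨hz1, hz2⟩
        have e0 := hball z hz1 1
        have hz3 : |cr w (z - b)| ≤ η := hz2
        have e1 : |z 0 - (w 0 * w 1) * z 1 - (b 0 - (w 0 * w 1) * b 1)| ≤ η := by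
          have : z 0 - (w 0 * w 1) * z 1 - (b 0 - (w 0 * w 1) * b 1) = -(w 1 * cr w (z - b)) := by
            simp only [cr, Pi.sub_apply]
            linear_combination (-(z 0 - b 0)) * hsq
          rw [this, abs_neg, abs_mul, h, one_mul]
          exact hz3
        have m0 : (!![1, -(w 0 * w 1); 0, 1] : Matrix (Fin 2) (Fin 2) ℝ).mulVec z 1 = z 1 := by
          simp [Matrix.mulVec, dotProduct, Fin.sum_univ_two]
        have m1 : (!![1, -(w 0 * w 1); 0, 1] : Matrix (Fin 2) (Fin 2) ℝ).mulVec z 0 =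
            z 0 - (w 0 * w 1) * z 1 := by
          simp [Matrix.mulVec, dotProduct, Fin.sum_univ_two]
          ring
        rw [abs_le] at e0 e1
        constructor
        · intro i
          fin_cases i
          · show b 0 - (w 0 * w 1) * b 1 - η ≤
              (!![1, -(w 0 * w 1); 0, 1] : Matrix (Fin 2) (Fin 2) ℝ).mulVec z 0
            rw [m1]
            linarith [e1.1]
          · show x 1 - R ≤ (!![1, -(w 0 * w 1); 0, 1] : Matrix (Fin 2) (Fin 2) ℝ).mulVec z 1
            rw [m0]
            linarith [e0.1]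
        · intro i
          fin_cases i
          · show (!![1, -(w 0 * w 1); 0, 1] : Matrix (Fin 2) (Fin 2) ℝ).mulVec z 0 ≤
              b 0 - (w 0 * w 1) * b 1 + η
            rw [m1]
            linarith [e1.2]
          · show (!![1, -(w 0 * w 1); 0, 1] : Matrix (Fin 2) (Fin 2) ℝ).mulVec z 1 ≤ x 1 + R
            rw [m0]
            linarith [e0.2])
    refine this.trans (le_of_eq ?_)
    simp only [Matrix.cons_val_zero, Matrix.cons_val_one]
    ring

end Pool.Agent.H.MP_929345_co.Pl
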