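import Pool.Agent.H.MP_929345_co.Pl.Base

/-! C3d: counting by integration -/

set_option autoImplicit false

open MeasureTheory Set

namespace Pool.Agent.H.MP_929345_co.Pl

theorem sed_vol (c : V) {r : ℝ} (hr : 0 ≤ r) :
    volume (Metric.closedBall c r) = ENNReal.ofReal ((2 * r) ^ 2) := by
  rw [Real.volume_pi_closedBall c hr]
  simp

/-- Job C3d.  Counting by integration: if the balls of radius `D0 / 2` with centres in
`Z = closedBall x ρ` outside of `Bd` contain at most `n0` centres, the others at most `N`, then
there are few centres in the smaller ball. -/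
theorem count_by_area {X : Set V} {x : V} {ρ D0 : ℝ} (hD0 : 0 < D0) (hρ : D0 < ρ)
    (hX : (X ∩ Metric.closedBall x ρ).Finite) {Bd : Set V} (hBd : MeasurableSet Bd) {n0 N : ℝ}
    (hN0 : 0 ≤ n0) (hN1 : 0 ≤ N)
    (h1 : ∀ z ∈ Metric.closedBall x ρ, z ∉ Bd →
      ((X ∩ Metric.closedBall z (D0 / 2)).ncard : ℝ) ≤ n0)
    (h2 : ∀ z : V, ((X ∩ Metric.closedBall z (D0 / 2)).ncard : ℝ) ≤ N) :
    ((X ∩ Metric.closedBall x (ρ - D0)).ncard : ℝ) * D0 ^ 2 ≤
      n0 * (2 * ρ) ^ 2 + N * vl (Metric.closedBall x ρ ∩ Bd) := by
  classical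
  have hA : (X ∩ Metric.closedBall x (ρ - D0)).Finite :=
    hX.subset (inter_subset_inter_right _ (Metric.closedBall_subset_closedBall (by linarith)))
  -- balls around the centres are contained in the big ball
  have hin : ∀ c ∈ hA.toFinset, Metric.closedBall c (D0 / 2) ⊆ Metric.closedBall x ρ := by
    intro c hc
    rw [Set.Finite.mem_toFinset] at hc
    have hc2 := hc.2
    rw [Metric.mem_closedBall] at hc2
    intro z hz
    rw [Metric.mem_closedBall] at hz ⊢
    have := dist_triangle z c x
    linarith
  -- the integral of the sum of the indicators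
  have hleft : ∫⁻ z in Metric.closedBall x ρ,
      ∑ c ∈ hA.toFinset, (Metric.closedBall c (D0 / 2)).indicator (fun _ => (1 : ENNReal)) z =
      ENNReal.ofReal (((X ∩ Metric.closedBall x (ρ - D0)).ncard : ℝ) * D0 ^ 2) := by
    rw [lintegral_finsetSum]
    · have hterm : ∀ c ∈ hA.toFinset, ∫⁻ z in Metric.closedBall x ρ,
          (Metric.closedBall c (D0 / 2)).indicator (fun _ => (1 : ENNReal)) z =
          ENNReal.ofReal (D0 ^ 2) := by
        intro c hc
        rw [lintegral_indicator Metric.isClosed_closedBall.measurableSet,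
          setLIntegral_one, Measure.restrict_apply Metric.isClosed_closedBall.measurableSet,
          inter_eq_left.2 (hin c hc), sed_vol c (by linarith)]
        congr 1
        ring
      rw [Finset.sum_congr rfl hterm, Finset.sum_const, nsmul_eq_mul,
        ENNReal.ofReal_mul (Nat.cast_nonneg _), ENNReal.ofReal_natCast,
        Set.ncard_eq_toFinset_card _ hA]
    · intro c _
      exact measurable_const.indicator Metric.isClosed_closedBall.measurableSet
  -- pointwise bound
  have hpt : ∀ z ∈ Metric.closedBall x ρ,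
      ∑ c ∈ hA.toFinset, (Metric.closedBall c (D0 / 2)).indicator (fun _ => (1 : ENNReal)) z ≤
      ENNReal.ofReal n0 + Bd.indicator (fun _ => ENNReal.ofReal N) z := by
    intro z hz
    have hsum : ∑ c ∈ hA.toFinset,
        (Metric.closedBall c (D0 / 2)).indicator (fun _ => (1 : ENNReal)) z =
        ((hA.toFinset.filter (fun c => z ∈ Metric.closedBall c (D0 / 2))).card : ENNReal) := by
      rw [Finset.card_filter, Nat.cast_sum]
      refine Finset.sum_congr rfl fun c _ => ?_
      rw [Set.indicator_apply]
      split_ifs <;> simp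
    have hcard : ((hA.toFinset.filter (fun c => z ∈ Metric.closedBall c (D0 / 2))).card : ℝ) ≤
        ((X ∩ Metric.closedBall z (D0 / 2)).ncard : ℝ) := by
      rcases (hA.toFinset.filter (fun c => z ∈ Metric.closedBall c (D0 / 2))).eq_empty_or_nonempty
        with hemp | ⟨c, hc⟩
      · rw [hemp]
        simp
      · rw [Finset.mem_filter] at hc
        have hc1 := hc.1
        rw [Set.Finite.mem_toFinset] at hc1
        have hc2 := hc1.2
        have hc3 := hc.2
        rw [Metric.mem_closedBall] at hc2 hc3
        have hsub : Metric.closedBall z (D0 / 2) ⊆ Metric.closedBall x ρ := by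
          intro w hw
          rw [Metric.mem_closedBall] at hw ⊢
          have e1 := dist_triangle w z x
          have e2 := dist_triangle z c x
          linarith
        have hfin : (X ∩ Metric.closedBall z (D0 / 2)).Finite :=
          hX.subset (inter_subset_inter_right _ hsub)
        rw [Nat.cast_le, ← Set.ncard_coe_finset]
        apply Set.ncard_le_ncard _ hfin
        intro w hw
        rw [Finset.mem_coe, Finset.mem_filter, Set.Finite.mem_toFinset] at hw
        refine ⟨hw.1.1, ?_⟩
        have hw2 := hw.2
        rw [Metric.mem_closedBall, dist_comm] at hw2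
        exact hw2
    rw [hsum]
    by_cases hzB : z ∈ Bd
    · rw [Set.indicator_of_mem hzB, ← ENNReal.ofReal_natCast]
      exact (ENNReal.ofReal_le_ofReal (hcard.trans (h2 z))).trans le_add_self
    · rw [Set.indicator_of_notMem hzB, ← ENNReal.ofReal_natCast, add_zero]
      exact ENNReal.ofReal_le_ofReal (hcard.trans (h1 z hz hzB))
  have hright : ∫⁻ z in Metric.closedBall x ρ,
      (ENNReal.ofReal n0 + Bd.indicator (fun _ => ENNReal.ofReal N) z) =
      ENNReal.ofReal (n0 * (2 * ρ) ^ 2 + N * vl (Metric.closedBall x ρ ∩ Bd)) := by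
    have hfinB : volume (Metric.closedBall x ρ ∩ Bd) ≠ ⊤ :=
      ((measure_mono inter_subset_left).trans_lt
        (isCompact_closedBall x ρ).measure_lt_top).ne
    have hv : 0 ≤ vl (Metric.closedBall x ρ ∩ Bd) := ENNReal.toReal_nonneg
    rw [lintegral_add_left measurable_const, setLIntegral_const, sed_vol x (by linarith),
      lintegral_indicator hBd, setLIntegral_const, Measure.restrict_apply hBd,
      ENNReal.ofReal_add (by positivity) (mul_nonneg hN1 hv),
      ENNReal.ofReal_mul hN0, ENNReal.ofReal_mul hN1, inter_comm Bd, vl,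
      ENNReal.ofReal_toReal hfinB]
  have hle : ENNReal.ofReal (((X ∩ Metric.closedBall x (ρ - D0)).ncard : ℝ) * D0 ^ 2) ≤
      ENNReal.ofReal (n0 * (2 * ρ) ^ 2 + N * vl (Metric.closedBall x ρ ∩ Bd)) := by
    rw [← hleft, ← hright]
    exact setLIntegral_mono' Metric.isClosed_closedBall.measurableSet hpt
  refine (ENNReal.ofReal_le_ofReal_iff ?_).1 hle
  have : 0 ≤ vl (Metric.closedBall x ρ ∩ Bd) := ENNReal.toReal_nonneg
  positivity

end Pool.Agent.H.MP_929345_co.Pl
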