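import Pool.Agent.H.MP_929345_co.Pl.Base

/-! C1a: shifts -/

set_option autoImplicit false

open MeasureTheory Set

namespace Pool.Agent.H.MP_929345_co.Pl

/-- An arithmetic progression with small negative steps, which falls by at least one, comes
close (from above) to the integer part of its first term. -/
private lemma sia_walk (A c d : ℝ) (N : ℕ) (h1 : -c ≤ d) (h2 : c * N ≤ -1) :
    ∃ t : ℕ, t < N ∧ 0 ≤ A + c * t - ⌊A⌋ ∧ A + c * t - ⌊A⌋ ≤ d := by
  classical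
  have hex : ∃ t : ℕ, A + c * t < ⌊A⌋ := by
    refine ⟨N, ?_⟩
    have := Int.sub_one_lt_floor A
    linarith
  set t0 := Nat.find hex with ht0
  have hP : A + c * t0 < ⌊A⌋ := Nat.find_spec hex
  have hN : t0 ≤ N := by
    apply Nat.find_min'
    have := Int.sub_one_lt_floor A
    linarith
  have hne : t0 ≠ 0 := by
    intro h0
    rw [h0] at hP
    have := Int.floor_le A
    simp at hP
    linarith
  obtain ⟨t, ht⟩ := Nat.exists_eq_succ_of_ne_zero hne
  have hlt : t < t0 := by omega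
  have hnP : ¬ (A + c * t < ⌊A⌋) := Nat.find_min hex hlt
  refine ⟨t, by omega, by linarith, ?_⟩
  have e : (t0 : ℝ) = t + 1 := by rw [ht]; push_cast; ring
  rw [e] at hP
  have : c * ((t : ℝ) + 1) = c * t + c := by ring
  linarith

/-- Job C1a.  A sequence of shifts which meets every line `y = y0 + s x` with `|s| ≤ 1`. -/
theorem shifts (n : ℕ) (hn : 1 ≤ n) : ∃ (K : ℤ) (b : ℤ → ℝ), 0 < K ∧
    ∀ s y0 : ℝ, |s| ≤ 1 → ∀ k0 : ℤ, ∃ k l : ℤ, k0 ≤ k ∧ k ≤ k0 + K ∧
      |y0 + s * k - (l + b k)| ≤ 3 / (2 * n) := by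
  have hnR : (1 : ℝ) ≤ n := by exact_mod_cast hn
  have hnZ : (1 : ℤ) ≤ n := by exact_mod_cast hn
  obtain ⟨M, hM⟩ : ∃ M : ℤ, M = 3 * n := ⟨_, rfl⟩
  obtain ⟨J, hJ⟩ : ∃ J : ℤ, J = 2 * n + 1 := ⟨_, rfl⟩
  have hMpos : 0 < M := by omega
  have hJpos : 0 < J := by omega
  refine ⟨(J + 1) * M, fun k => (-1 + (((k / M) % J : ℤ) : ℝ) / n) * k + ((k % M : ℤ) : ℝ) / n,
    by positivity, ?_⟩
  intro s y0 hs k0
  rw [abs_le] at hs
  -- the index of the slope
  obtain ⟨j0, hj0⟩ : ∃ j0 : ℤ, j0 = round ((s + 1) * n) := ⟨_, rfl⟩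
  have hr := abs_sub_round ((s + 1) * (n : ℝ))
  rw [← hj0, abs_le] at hr
  have hj0a : 0 ≤ j0 := by
    have h1 : (-1 : ℝ) < j0 := by nlinarith [hr.1, hr.2, hs.1]
    have h2 : (-1 : ℤ) < j0 := by exact_mod_cast h1
    omega
  have hj0b : j0 < J := by
    have h1 : (j0 : ℝ) < 2 * n + 1 := by nlinarith [hr.1, hr.2, hs.2]
    have h2 : j0 < 2 * n + 1 := by exact_mod_cast h1
    omega
  -- the block
  obtain ⟨m0, hm0⟩ : ∃ m0 : ℤ, m0 = k0 / M + 1 := ⟨_, rfl⟩
  have hm0a : k0 ≤ m0 * M := by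
    have h1 := Int.emod_add_mul_ediv k0 M
    have h2 := Int.emod_lt_of_pos k0 hMpos
    rw [hm0]
    nlinarith
  have hm0b : m0 * M ≤ k0 + M := by
    have h1 := Int.emod_add_mul_ediv k0 M
    have h2 := Int.emod_nonneg k0 hMpos.ne'
    rw [hm0]
    nlinarith
  obtain ⟨m, hm⟩ : ∃ m : ℤ, m = m0 + (j0 - m0) % J := ⟨_, rfl⟩
  have hma : m0 ≤ m := by
    have := Int.emod_nonneg (j0 - m0) hJpos.ne'
    omega
  have hmb : m + 1 ≤ m0 + J := by
    have := Int.emod_lt_of_pos (j0 - m0) hJpos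
    omega
  have hmj : m % J = j0 := by
    have h1 : m % J = j0 % J := by
      rw [hm, Int.add_emod_emod]
      congr 1
      ring
    rw [h1, Int.emod_eq_of_lt hj0a hj0b]
  -- the walk
  set sj : ℝ := -1 + (j0 : ℝ) / n with hsj
  have hnpos : (0 : ℝ) < n := by linarith
  have hsub : s - sj = ((s + 1) * n - j0) / n := by
    rw [hsj]; field_simp; ring
  have hsl : -(1 / (2 * n)) ≤ s - sj := by
    rw [hsub, le_div_iff₀ hnpos]
    have : -(1 / (2 * (n : ℝ))) * n = -(1 / 2) := by field_simp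
    rw [this]; exact hr.1
  have hsu : s - sj ≤ 1 / (2 * n) := by
    rw [hsub, div_le_iff₀ hnpos]
    have : (1 / (2 * (n : ℝ))) * n = (1 / 2) := by field_simp
    rw [this]; exact hr.2
  have e1 : (1 : ℝ) / n = 2 * (1 / (2 * n)) := by field_simp
  have e3 : (3 : ℝ) / (2 * n) = 3 * (1 / (2 * n)) := by ring
  obtain ⟨t, htN, ht0, ht1⟩ := sia_walk (y0 + (s - sj) * (m * M)) (s - sj - 1 / n) (3 / (2 * n))
    (3 * n - 1) (by rw [e3, e1]; linarith) (by
      have hN : ((3 * n - 1 : ℕ) : ℝ) = 3 * n - 1 := by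
        rw [Nat.cast_sub (by omega)]; push_cast; ring
      rw [hN]
      have h1 : s - sj - 1 / n ≤ -(1 / (2 * n)) := by rw [e1]; linarith
      have h2 : (s - sj - 1 / n) * (3 * n - 1) ≤ -(1 / (2 * n)) * (3 * n - 1) :=
        mul_le_mul_of_nonneg_right h1 (by linarith)
      have h3 : -(1 / (2 * (n : ℝ))) * (3 * n - 1) = -(3 / 2) + 1 / (2 * n) := by
        field_simp; ring
      have h4 : (1 : ℝ) / (2 * n) ≤ 1 / 2 := by
        apply div_le_div_of_nonneg_left <;> linarith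
      linarith)
  have htM : (t : ℤ) < M := by omega
  have hdiv : (m * M + t) / M = m := by
    rw [Int.add_comm, Int.add_mul_ediv_right _ _ hMpos.ne',
      Int.ediv_eq_zero_of_lt (by positivity) htM, zero_add]
  have hmod : (m * M + t) % M = t := by
    rw [Int.add_comm, Int.add_mul_emod_self_right, Int.emod_eq_of_lt (by positivity) htM]
  refine ⟨m * M + t, ⌊y0 + (s - sj) * (m * M)⌋, ?_, ?_, ?_⟩
  · nlinarith
  · nlinarith
  · simp only [hdiv, hmod, hmj]
    rw [← hsj]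
    have e : y0 + s * ((m * M + t : ℤ) : ℝ) -
        ((⌊y0 + (s - sj) * (m * M)⌋ : ℝ) + (sj * ((m * M + t : ℤ) : ℝ) + ((t : ℤ) : ℝ) / n)) =
        y0 + (s - sj) * (m * M) + (s - sj - 1 / n) * t - ⌊y0 + (s - sj) * (m * M)⌋ := by
      push_cast
      ring
    rw [e, abs_le]
    exact ⟨by have : (0 : ℝ) ≤ 3 / (2 * n) := by positivity
              linarith, ht1⟩

end Pool.Agent.H.MP_929345_co.Pl
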