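import Pool.Agent.H.MP_929345_co.Pl.FcD

/-! B3: the stem lemma -/

set_option autoImplicit false

open MeasureTheory Set

namespace Pool.Agent.H.MP_929345_co.Pl

variable {ι : Type*} {P Q : ι → V} {Lam : ℝ}

/-- Points seen from `w` on the way to the first point of the structure. -/
lemma stm_first (hT : IsT P Q Lam) {w z : V} (hw : w ∉ Sg P Q)
    (hz : z ∉ closure (Vis (Sg P Q) w)) :
    ∃ th : ℝ, 0 < th ∧ th < 1 ∧ w + th • (z - w) ∈ Sg P Q ∧
      ∀ t : ℝ, 0 ≤ t → t < th → w + t • (z - w) ∈ Vis (Sg P Q) w := by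
  have hcont : Continuous (fun t : ℝ => w + t • (z - w)) := by fun_prop
  have hvis : ∀ t : ℝ, 0 ≤ t → (∀ s : ℝ, 0 ≤ s → s ≤ t → w + s • (z - w) ∉ Sg P Q) →
      w + t • (z - w) ∈ Vis (Sg P Q) w := by
    intro t ht h
    simp only [Vis, mem_setOf_eq, Set.disjoint_left]
    intro p hp
    rw [segment_eq_image'] at hp
    obtain ⟨r, ⟨hr0, hr1⟩, rfl⟩ := hp
    simp only [add_sub_cancel_left]
    rw [smul_smul]
    exact h _ (by positivity) (by nlinarith)
  have hex : ∃ t : ℝ, 0 ≤ t ∧ t < 1 ∧ w + t • (z - w) ∈ Sg P Q := by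
    by_contra hcon
    push Not at hcon
    apply hz
    have hW : ∀ t : ℝ, 0 ≤ t → t < 1 → w + t • (z - w) ∈ Vis (Sg P Q) w := by
      intro t h0 h1
      exact hvis t h0 (fun s hs0 hs1 => hcon s hs0 (lt_of_le_of_lt hs1 h1))
    have hlim : Filter.Tendsto (fun n : ℕ => w + (1 - 1 / ((n : ℝ) + 1)) • (z - w)) Filter.atTop
        (nhds (w + ((1 : ℝ) - 0) • (z - w))) := by
      have h1 : Filter.Tendsto (fun n : ℕ => (1 : ℝ) - 1 / ((n : ℝ) + 1)) Filter.atTop
          (nhds (1 - 0)) := tendsto_const_nhds.sub tendsto_one_div_add_atTop_nhds_zero_nat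
      exact (hcont.tendsto _).comp h1
    have hz2 : w + ((1 : ℝ) - 0) • (z - w) = z := by
      rw [sub_zero, one_smul]; abel
    rw [hz2] at hlim
    refine mem_closure_of_tendsto hlim (Filter.Eventually.of_forall fun n => ?_)
    have hn : (0 : ℝ) < (n : ℝ) + 1 := by positivity
    apply hW
    · have : 1 / ((n : ℝ) + 1) ≤ 1 := by
        rw [div_le_one hn]; linarith [Nat.cast_nonneg (α := ℝ) n]
      linarith
    · have : 0 < 1 / ((n : ℝ) + 1) := by positivity
      linarith
  obtain ⟨t0, ht0, ht1, htS⟩ := hex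
  set K : Set ℝ := Icc 0 1 ∩ (fun t : ℝ => w + t • (z - w)) ⁻¹' (Sg P Q) with hK
  have hKc : IsCompact K := isCompact_Icc.inter_right ((isClosed_Sg hT).preimage hcont)
  obtain ⟨th, hth, hmin⟩ := hKc.exists_isLeast ⟨t0, ⟨ht0, ht1.le⟩, htS⟩
  have hthlt : th < 1 := lt_of_le_of_lt (hmin ⟨⟨ht0, ht1.le⟩, htS⟩) ht1
  have hth0 : 0 < th := by
    rcases hth.1.1.lt_or_eq with h | h
    · exact h
    · exfalso
      have := hth.2
      rw [mem_preimage, ← h, zero_smul, add_zero] at this
      exact hw this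
  refine ⟨th, hth0, hthlt, hth.2, ?_⟩
  intro t h0 h1
  refine hvis t h0 (fun s hs0 hs1 hsS => ?_)
  have := hmin (⟨⟨hs0, by linarith⟩, hsS⟩ : s ∈ K)
  linarith

/-- Job B3.  The stem lemma. -/
theorem stem (hT : IsT P Q Lam) {x v : V} (hx : x ∉ Sg P Q)
    (hv : v ∈ closure (Vis (Sg P Q) x)) {j : ι} (hj : v ∈ openSegment ℝ (P j) (Q j)) {τ : V}
    (hτ : τ = Q j - P j ∨ τ = P j - Q j)
    (hout : ∀ ε : ℝ, 0 < ε → v + ε • τ ∉ closure (Vis (Sg P Q) x)) :
    ∃ e : ι × Bool, zE P Q e = v ∧ cr τ (dE P Q e) ≠ 0 ∧ Adj P Q e (-τ) (Vis (Sg P Q) x) := by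
  -- the side
  obtain ⟨sg, hsg⟩ : ∃ sg : ℝ, ∀ w ∈ Vis (Sg P Q) x, 0 < sg * cr τ (w - v) := by
    have hneg : P j - Q j = -(Q j - P j) := by abel
    rcases one_side hT hx hv hj with h | h <;> rcases hτ with h' | h'
    · exact ⟨-1, fun w hw => by have := h w hw; rw [h']; linarith⟩
    · exact ⟨1, fun w hw => by have := h w hw; rw [h', hneg, cr_neg_left]; linarith⟩
    · exact ⟨1, fun w hw => by have := h w hw; rw [h']; linarith⟩
    · exact ⟨-1, fun w hw => by have := h w hw; rw [h', hneg, cr_neg_left]; linarith⟩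
  obtain ⟨r1, hr1, hloc⟩ := locally hT v
  -- the small multiple of τ
  obtain ⟨ε, hε, hεb⟩ : ∃ ε : ℝ, 0 < ε ∧ v + ε • τ ∈ Metric.ball v r1 := by
    refine ⟨r1 / (2 * (‖τ‖ + 1)), by positivity, ?_⟩
    rw [Metric.mem_ball, dist_eq_norm, add_sub_cancel_left, norm_smul, Real.norm_eq_abs,
      abs_of_pos (by positivity), div_mul_eq_mul_div, div_lt_iff₀ (by positivity)]
    nlinarith [norm_nonneg τ]
  obtain ⟨w, hwb, hwW⟩ := mem_closure_iff_nhds.1 hv (Metric.ball v r1) (Metric.ball_mem_nhds v hr1)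
  have hwS : w ∉ Sg P Q := fun h => (Set.disjoint_left.1 Vis_disjoint) hwW h
  have hVw : Vis (Sg P Q) w = Vis (Sg P Q) x := Vis_eq hT hx hwW
  obtain ⟨th, hth0, hth1, hthS, hthV⟩ := stm_first hT (z := v + ε • τ) hwS
    (by rw [hVw]; exact hout ε hε)
  set y := w + th • (v + ε • τ - w) with hy
  have hyb : y ∈ Metric.ball v r1 := by
    have := (convex_ball v r1).segment_subset hwb hεb
    apply this
    rw [segment_eq_image']
    exact ⟨th, ⟨hth0.le, hth1.le⟩, rfl⟩
  have hyv : y - v = (1 - th) • (w - v) + (th * ε) • τ := by rw [hy]; module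
  have hcy : 0 < sg * cr τ (y - v) := by
    have h1 := hsg w hwW
    rw [hyv, cr_add_right, cr_smul_right, cr_smul_right, cr_self]
    have : 0 < (1 - th) * (sg * cr τ (w - v)) := mul_pos (by linarith) h1
    linarith
  obtain ⟨i, hi⟩ := mem_iUnion.1 hthS
  have hvi : v ∈ segment ℝ (P i) (Q i) := hloc i ⟨y, hi, hyb⟩
  have hij : i ≠ j := by
    rintro rfl
    have hvs := hvi
    rw [segment_eq_image'] at hvs hi
    obtain ⟨a, _, ha⟩ := hvs
    obtain ⟨b, _, hb⟩ := hi
    simp only at ha hb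
    have : y - v = (b - a) • (Q i - P i) := by rw [← ha, ← hb]; module
    rw [this] at hcy
    have hz : cr τ ((b - a) • (Q i - P i)) = 0 := by
      rcases hτ with h | h
      · rw [h, cr_smul_right, cr_self, mul_zero]
      · have hneg : P i - Q i = -(Q i - P i) := by abel
        rw [h, hneg, cr_smul_right, cr_neg_left, cr_self]; ring
    rw [hz, mul_zero] at hcy
    exact lt_irrefl _ hcy
  have hvo : v ∉ openSegment ℝ (P i) (Q i) :=
    fun h => (Set.disjoint_left.1 (hT.t1 i j hij)) h hj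
  have hvend : v = P i ∨ v = Q i := by
    rw [← insert_endpoints_openSegment] at hvi
    rcases hvi with h | h | h
    · exact Or.inl h
    · exact Or.inr h
    · exact (hvo h).elim
  -- the end
  obtain ⟨e, s, hze, hs, hys⟩ : ∃ (e : ι × Bool) (s : ℝ), zE P Q e = v ∧ 0 < s ∧
      y - v = s • dE P Q e := by
    rw [segment_eq_image'] at hi
    obtain ⟨b, ⟨hb0, hb1⟩, hb⟩ := hi
    simp only at hb
    rcases hvend with h | h
    · have e1 : y - v = b • (Q i - P i) := by rw [h, ← hb]; module
      refine ⟨(i, false), b, by simp [zE, h], ?_, by simp [dE, e1]⟩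
      rcases hb0.lt_or_eq with h2 | h2
      · exact h2
      · exfalso
        rw [e1, ← h2, zero_smul, cr_zero_right, mul_zero] at hcy
        exact lt_irrefl _ hcy
    · have e1 : y - v = (1 - b) • (P i - Q i) := by rw [h, ← hb]; module
      refine ⟨(i, true), 1 - b, by simp [zE, h], ?_, by simp [dE, e1]⟩
      rcases hb1.lt_or_eq with h2 | h2
      · linarith
      · exfalso
        rw [e1, h2, sub_self, zero_smul, cr_zero_right, mul_zero] at hcy
        exact lt_irrefl _ hcy
  refine ⟨e, hze, ?_, ?_⟩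
  · intro h0
    rw [hys, cr_smul_right, h0, mul_zero, mul_zero] at hcy
    exact lt_irrefl _ hcy
  · set d := dE P Q e with hd
    have hr : 0 < min s (th * ε / (2 * s)) := by positivity
    refine ⟨min s (th * ε / (2 * s)), hr, ?_⟩
    intro ε' η hε0 hε1 hη0 hη1
    rw [hze]
    have hA : ε' < s := lt_of_lt_of_le hε1 (min_le_left _ _)
    have hB : η < th * ε / (2 * s) * ε' :=
      lt_of_lt_of_le hη1 (mul_le_mul_of_nonneg_right (min_le_right _ _) hε0.le)
    set μ := η / (th * ε) with hμ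
    have hμ0 : 0 < μ := by positivity
    have hμe : μ * (th * ε) = η := by rw [hμ]; field_simp
    -- main inequality
    have hB' : μ < ε' / (2 * s) := by
      rw [hμ, div_lt_iff₀ (by positivity)]
      calc η < th * ε / (2 * s) * ε' := hB
        _ = ε' / (2 * s) * (th * ε) := by ring
    set t := ε' / s - μ * th with ht
    have hmt : μ * th ≤ μ := by nlinarith
    have hhalf : ε' / (2 * s) + ε' / (2 * s) = ε' / s := by field_simp; ring
    have ht0 : μ < t := by rw [ht]; linarith
    have htpos : 0 < t := hμ0.trans ht0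
    have ht1 : t ≤ 1 := by
      have : ε' / s < 1 := by rw [div_lt_one hs]; exact hA
      have : 0 < μ * th := by positivity
      rw [ht]; linarith
    set σ := μ * (1 - th) / t with hσ
    have hσ0 : 0 < σ := by
      have : 0 < 1 - th := by linarith
      positivity
    have hσ1 : σ ≤ 1 := by
      rw [hσ, div_le_one htpos]
      nlinarith
    have htσ : t * σ = μ * (1 - th) := by rw [hσ]; field_simp
    have hm : y + σ • (w - y) ∈ Vis (Sg P Q) x := by
      rw [← hVw]
      have e1 : y + σ • (w - y) = w + ((1 - σ) * th) • (v + ε • τ - w) := by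
        rw [hy]; module
      rw [e1]
      apply hthV
      · exact mul_nonneg (by linarith) hth0.le
      · nlinarith
    have hopen := Vis_isOpen hT x
    have hconv := Vis_convex hT hx
    rw [← hopen.interior_eq] at hm
    have hfin := hconv.combo_closure_interior_mem_interior hv hm (a := 1 - t) (b := t)
      (by linarith) htpos (by ring)
    rw [hopen.interior_eq] at hfin
    have heq : v + ε' • d + η • (-τ) = (1 - t) • v + t • (y + σ • (w - y)) := by
      have h1 : (1 - t) • v + t • (y + σ • (w - y)) =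
          v + (t - t * σ) • (y - v) + (t * σ) • (w - v) := by module
      have h2 : (t * σ) • (w - v) = μ • (y - v) - (μ * (th * ε)) • τ := by
        rw [htσ, hyv]; module
      rw [h1, h2, htσ, hμe, hys]
      have h3 : ε' = (t - μ * (1 - th)) * s + μ * s := by
        rw [ht]; field_simp; ring
      nth_rewrite 1 [h3]
      module
    rw [heq]
    exact hfin

end Pool.Agent.H.MP_929345_co.Pl
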