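import Pool.Agent.H.MP_929345_co.Pl.Tok

/-! B6a, B6b: areas and number of faces -/

set_option autoImplicit false

open MeasureTheory Set

namespace Pool.Agent.H.MP_929345_co.Pl

variable {ι : Type*} {P Q : ι → V} {Lam : ℝ}

/-- Job B6a.  Volume of a face and of its closure. -/
theorem vl_closure (hT : IsT P Q Lam) {x : V} (hx : x ∉ Sg P Q) :
    vl (closure (Vis (Sg P Q) x)) = vl (Vis (Sg P Q) x) := by
  have hfr : volume (frontier (Vis (Sg P Q) x)) = 0 :=
    (Vis_convex hT hx).addHaar_frontier volume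
  have h1 : volume (closure (Vis (Sg P Q) x)) ≤ volume (Vis (Sg P Q) x) := by
    rw [closure_eq_self_union_frontier]
    refine (measure_union_le _ _).trans ?_
    rw [hfr, add_zero]
  unfold vl
  rw [le_antisymm h1 (measure_mono subset_closure)]

/-- Job B6a.  Sum of the areas of finitely many faces. -/
theorem sum_vl_le (hT : IsT P Q Lam) (F : Finset (Set V)) (R : ℝ)
    (hF : ∀ W ∈ F, ∃ x, x ∉ Sg P Q ∧ W = Vis (Sg P Q) x ∧ ‖x‖ ≤ R) :
    ∑ W ∈ F, vl W ≤ vl (Metric.closedBall (0 : V) (R + Lam)) := by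
  have hsub : ∀ W ∈ F, W ⊆ Metric.closedBall (0 : V) (R + Lam) := by
    intro W hW
    obtain ⟨x, -, rfl, hxR⟩ := hF W hW
    refine (Vis_subset hT x).trans ?_
    intro y hy
    rw [Metric.mem_closedBall, dist_eq_norm] at hy
    rw [Metric.mem_closedBall, dist_zero_right]
    have h3 : y = x + (y - x) := by abel
    rw [h3]
    exact (norm_add_le _ _).trans (by linarith)
  have hfin : volume (Metric.closedBall (0 : V) (R + Lam)) ≠ ⊤ :=
    (isCompact_closedBall (0 : V) (R + Lam)).measure_lt_top.ne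
  have hdis : (F : Set (Set V)).PairwiseDisjoint id := by
    intro W hW W' hW' hne
    obtain ⟨x, hx, rfl, -⟩ := hF W hW
    obtain ⟨x', hx', rfl, -⟩ := hF W' hW'
    rw [Function.onFun, id, id, Set.disjoint_left]
    intro y hy hy'
    exact hne ((Vis_eq hT hx hy).symm.trans (Vis_eq hT hx' hy'))
  have hmeas : ∀ W ∈ F, MeasurableSet (id W) := by
    intro W hW
    obtain ⟨x, hx, rfl, -⟩ := hF W hW
    exact (Vis_isOpen hT x).measurableSet
  have hsum : volume (⋃ W ∈ F, id W) = ∑ W ∈ F, volume (id W) :=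
    measure_biUnion_finset hdis hmeas
  have hle : ∑ W ∈ F, volume W ≤ volume (Metric.closedBall (0 : V) (R + Lam)) := by
    have : ∑ W ∈ F, volume W = ∑ W ∈ F, volume (id W) := rfl
    rw [this, ← hsum]
    apply measure_mono
    intro y hy
    simp only [mem_iUnion, id] at hy
    obtain ⟨W, hW, hyW⟩ := hy
    exact hsub W hW hyW
  have hf : ∀ W ∈ F, volume W ≠ ⊤ := fun W hW =>
    ((measure_mono (hsub W hW)).trans_lt (lt_top_iff_ne_top.2 hfin)).ne
  unfold vl
  rw [← ENNReal.toReal_sum hf]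
  exact ENNReal.toReal_mono hfin hle

/-- Job B6b.  The number of faces meeting a ball is finite. -/
theorem finite_faces (hT : IsT P Q Lam) (R : ℝ) [Countable ι] :
    {W : Set V | ∃ x, x ∉ Sg P Q ∧ W = Vis (Sg P Q) x ∧ ‖x‖ ≤ R}.Finite := by
  obtain ⟨u, hu⟩ := exists_generic (P := P) (Q := Q) hT.ne
  have hE : {e : ι × Bool | ‖zE P Q e‖ ≤ R + Lam}.Finite := by
    have h1 : ({i | (segment ℝ (P i) (Q i) ∩ Metric.closedBall 0 (R + Lam)).Nonempty} ×ˢ
        (Set.univ : Set Bool)).Finite := (hT.lf (R + Lam)).prod Set.finite_univ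
    refine h1.subset ?_
    rintro ⟨i, b⟩ he
    refine ⟨⟨zE P Q (i, b), ?_, ?_⟩, mem_univ _⟩
    · cases b
      · simpa [zE] using left_mem_segment ℝ (P i) (Q i)
      · simpa [zE] using right_mem_segment ℝ (P i) (Q i)
    · rw [Metric.mem_closedBall, dist_zero_right]
      exact he
  have hch : ∀ W ∈ {W : Set V | ∃ x, x ∉ Sg P Q ∧ W = Vis (Sg P Q) x ∧ ‖x‖ ≤ R},
      ∃ e, Tok P Q u W e := by
    rintro W ⟨x, hx, rfl, -⟩
    exact exists_token hT hu hx
  rcases Set.eq_empty_or_nonempty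
    {W : Set V | ∃ x, x ∉ Sg P Q ∧ W = Vis (Sg P Q) x ∧ ‖x‖ ≤ R} with hemp | ⟨W0, hW0⟩
  · rw [hemp]
    exact Set.finite_empty
  obtain ⟨e0, -⟩ := hch W0 hW0
  have : Nonempty (ι × Bool) := ⟨e0⟩
  choose! f hf using hch
  refine Set.Finite.of_finite_image (f := f) (hE.subset ?_) ?_
  · rintro e ⟨W, hW, rfl⟩
    have ht := hf W hW
    obtain ⟨x, hx, rfl, hxR⟩ := hW
    obtain ⟨-, -, τ, -, -, hadj⟩ := ht
    have hcl := adj_closure hadj
    have h2 : closure (Vis (Sg P Q) x) ⊆ Metric.closedBall x Lam :=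
      closure_minimal (Vis_subset hT x) Metric.isClosed_closedBall
    have h3 := h2 hcl
    rw [Metric.mem_closedBall, dist_eq_norm] at h3
    show ‖zE P Q (f (Vis (Sg P Q) x))‖ ≤ R + Lam
    have h4 : zE P Q (f (Vis (Sg P Q) x)) = x + (zE P Q (f (Vis (Sg P Q) x)) - x) := by abel
    rw [h4]
    exact (norm_add_le _ _).trans (by linarith)
  · intro W hW W' hW' heq
    have h1 := hf W hW
    have h2 := hf W' hW'
    rw [← heq] at h2
    obtain ⟨x, hx, rfl, -⟩ := hW
    obtain ⟨x', hx', rfl, -⟩ := hW'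
    exact token_inj hT hx hx' h1 h2

end Pool.Agent.H.MP_929345_co.Pl
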